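import Mathlib
import Pool.Agent.H819.DR.Def

/-!
# Forms on the complement of a closed set
-/

set_option autoImplicit false

open Set Filter Topology MeasureTheory Metric
open scoped Manifold ContDiff ENNReal NNReal

noncomputable section

namespace Pool.Agent.H819.PU

open Pool.Agent.Y501.SY
open Pool.Agent.H819

variable {d : ℕ} {X : Type} [TopologicalSpace X] [ChartedSpace (E d) X]

/-- smooth on the complement of `S` -/
def SmoothOff {k : ℕ} (S : Set X) (σ : Form d X k) : Prop :=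
  ∀ (U : Set (E d)) (φ : E d → X), IsOpen U → ContMDiffOn (𝓡 d) (𝓡 d) ∞ φ U →
    (∀ p ∈ U, φ p ∉ S) → ContDiffOn ℝ ∞ (pb φ σ) U

/-- `η` is the exterior derivative of `α` on the complement of `S`. -/
def DOff {k : ℕ} (S : Set X) (α : Form d X k) (η : Form d X (k + 1)) : Prop :=
  ∀ (U : Set (E d)) (φ : E d → X), IsOpen U → ContMDiffOn (𝓡 d) (𝓡 d) ∞ φ U →
    (∀ p ∈ U, φ p ∉ S) → ∀ p ∈ U, extDeriv (pb φ α) p = pb φ η p

/-- closed on the complement of `S` -/
def ClosedOff {k : ℕ} (S : Set X) (σ : Form d X k) : Prop :=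
  ∀ (U : Set (E d)) (φ : E d → X), IsOpen U → ContMDiffOn (𝓡 d) (𝓡 d) ∞ φ U →
    (∀ p ∈ U, φ p ∉ S) → ∀ p ∈ U, extDeriv (pb φ σ) p = 0

/-- zero `(d - 3)`-dimensional Hausdorff measure -/
def HNull (d : ℕ) {X : Type} [TopologicalSpace X] [ChartedSpace (E d) X] (S : Set X) : Prop :=
  ∀ x₀ : X, μH[((d - 3 : ℕ) : ℝ)] (chartAt (E d) x₀ '' (S ∩ (chartAt (E d) x₀).source)) = 0

/-- integrable near `p` -/
def IntNear (θ : Form d X 2) (p : X) : Prop :=
  ∃ r : ℝ, 0 < r ∧ IntegrableOn (pb (chartAt (E d) p).symm θ) (closedBall (chartAt (E d) p p) r)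

end Pool.Agent.H819.PU
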