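import Mathlib
import Pool.Agent.H819.LN.Pub

/-!
# Forms on the complement of a closed set: definitions
-/

set_option autoImplicit false

open Set Filter Topology MeasureTheory Metric
open scoped Manifold ContDiff ENNReal NNReal

noncomputable section

namespace Pool.Agent.H819.PUP

open Pool.Agent.Y501.SYP Pool.Agent.H819.LGP Pool.Agent.H819.LNP

variable {V : Type} [NormedAddCommGroup V] [NormedSpace ℝ V]
  {X : Type} [TopologicalSpace X] [ChartedSpace V X]

/-- `φ` is a smooth map from the open set `U` to the complement of `S`. -/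
structure OffParam (S : Set X) (U : Set V) (φ : V → X) : Prop where
  param : SmoothParam U φ
  off : ∀ p ∈ U, φ p ∉ S

/-- `σ` is smooth on the complement of `S`. -/
def SmoothOff {k : ℕ} (S : Set X) (σ : Form V X k) : Prop :=
  ∀ (U : Set V) (φ : V → X), OffParam S U φ → ContDiffOn ℝ ∞ (pb φ σ) U

/-- `η` is the exterior derivative of `α` on the complement of `S`. -/
def DOff {k : ℕ} (S : Set X) (α : Form V X k) (η : Form V X (k + 1)) : Prop :=
  ∀ (U : Set V) (φ : V → X), OffParam S U φ → ∀ p ∈ U, extDeriv (pb φ α) p = pb φ η p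

/-- `w` is a smooth closed two-form on the complement of `S`. -/
structure ClosedOff (S : Set X) (w : Form V X 2) : Prop where
  smooth : SmoothOff S w
  closed : ∀ (U : Set V) (φ : V → X), OffParam S U φ → ∀ p ∈ U, extDeriv (pb φ w) p = 0

/-- `w` is a smooth two-form on the complement of `S`, and it represents the restriction of the
class of `σ₀`: the form `w - σ₀` is the exterior derivative of a smooth one-form on the complement
of `S`. -/
def InClassOff (S : Set X) (σ₀ w : Form V X 2) : Prop :=
  SmoothOff S w ∧ ∃ β : Form V X 1, SmoothOff S β ∧ DOff S β (subF w σ₀)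

/-- `w` tames `J` on the complement of `S`, with bounded distortion: `w(u, v)²` is at most
`C w(u, J u) w(v, J v)`.  There is no bound for `w` from above, and no bound from below. -/
structure TamesOff (S : Set X) (w : Form V X 2) (J : End V X) : Prop where
  pos : ∀ x, x ∉ S → TamesAt w J x
  dist : ∃ C : ℝ, ∀ x, x ∉ S → ∀ u v : TangentSpace 𝓘(ℝ, V) x,
    w x ![u, v] ^ 2 ≤ C * qd w J x u * qd w J x v

/-- `w` is compatible with `J` on the complement of `S`: it tames `J`, and `J` preserves it. -/
structure CompatOff (S : Set X) (w : Form V X 2) (J : End V X) : Prop where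
  pos : ∀ x, x ∉ S → TamesAt w J x
  inv : ∀ x, x ∉ S → ∀ u v : TangentSpace 𝓘(ℝ, V) x, w x ![J x u, J x v] = w x ![u, v]

/-- `σ` is a symplectic form. -/
structure IsSymplectic (σ : Form V X 2) : Prop where
  smooth : IsSmooth σ
  closed : IsClosedForm σ
  nondeg : ∀ (x : X) (v : TangentSpace 𝓘(ℝ, V) x), (∀ w, σ x ![v, w] = 0) → v = 0

/-- `σ` is a symplectic form in the class of `σ₀`. -/
def SymplecticIn (σ₀ σ : Form V X 2) : Prop :=
  IsSymplectic σ ∧ ∃ β : Form V X 1, IsSmooth β ∧ IsD β (subF σ σ₀)

/-- `τ` and `τ'` are homotopic through nondegenerate two-forms: they are joined by a continuous path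
of nondegenerate two-forms. -/
def Homotopic (τ τ' : Form V X 2) : Prop :=
  ∃ H : ℝ → Form V X 2, H 0 = τ ∧ H 1 = τ' ∧
    (∀ t ∈ Icc (0 : ℝ) 1, ∀ (x : X) (v : TangentSpace 𝓘(ℝ, V) x),
      (∀ w, H t x ![v, w] = 0) → v = 0) ∧
    ∀ x₀ : X, ContinuousOn (fun q : ℝ × V => loc x₀ (H q.1) q.2)
      (Icc (0 : ℝ) 1 ×ˢ (chartAt V x₀).target)

/-- `J` belongs to the homotopy class of `τ`: it is tamed by a nondegenerate form homotopic to
`τ`. -/
def InHomotopyClass (τ : Form V X 2) (J : End V X) : Prop :=
  ∃ τ' : Form V X 2, Homotopic τ τ' ∧ ∀ x, TamesAt τ' J x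

variable [MeasurableSpace V]

/-- `w` is integrable near the points of `S`, with the exception of countably many points. -/
def AlmostInt (μ : Measure V) (S : Set X) (w : Form V X 2) : Prop :=
  ∃ D : Set X, D.Countable ∧ ∀ p ∈ S, p ∉ D → ∃ r : ℝ, 0 < r ∧
    IntegrableOn (loc p w) (closedBall (chartAt V p p) r) μ

/-- `S` is closed and totally disconnected, and its `(d - 3)`-dimensional Hausdorff measure is
zero. -/
structure Thin [BorelSpace V] (d : ℕ) (S : Set X) : Prop where
  closed : IsClosed S
  disc : IsTotallyDisconnected S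
  null : ∀ x₀ : X, μH[(d : ℝ) - 3] (chartAt V x₀ '' (S ∩ (chartAt V x₀).source)) = 0

/-- On the complement of `S` there is a smooth two-form `w` in the class of `σ₀` such that `P w J`
holds for an almost complex structure `J` of class `C^1` on the whole manifold which belongs to the
homotopy class of `τ`, and `w` is integrable near all but countably many points of `S`. -/
def OffData (μ : Measure V) (S : Set X) (σ₀ τ : Form V X 2) (P : Form V X 2 → End V X → Prop) :
    Prop :=
  ∃ (J : End V X) (w : Form V X 2), IsAlmostComplex J ∧ C1End J ∧ InHomotopyClass τ J ∧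
    InClassOff S σ₀ w ∧ P w J ∧ AlmostInt μ S w

end Pool.Agent.H819.PUP
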