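import Mathlib
import Pool.Agent.H819.LN.Dens

/-!
# The linear algebra of the mass estimate near a puncture
-/

set_option autoImplicit false

open Set Filter Topology MeasureTheory Metric
open scoped ContDiff ENNReal NNReal RealInnerProductSpace

noncomputable section

namespace Pool.Agent.H819.PU

open Pool.Agent.Y501.SY (E)
open Pool.Agent.H819.LN (bil bil_apply bil_swap norm_le_sum)

variable {d : ℕ}

/-- the symmetric form `S x y = (s ![x, J y] + s ![y, J x]) / 2` -/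
private def symS (s : (E d) [⋀^Fin 2]→L[ℝ] ℝ) (J : E d →L[ℝ] E d) : E d →ₗ[ℝ] E d →ₗ[ℝ] ℝ :=
  (1 / 2 : ℝ) • ((bil s).compl₂ (J : E d →ₗ[ℝ] E d) + ((bil s).compl₂ (J : E d →ₗ[ℝ] E d)).flip)

private theorem symS_apply (s : (E d) [⋀^Fin 2]→L[ℝ] ℝ) (J : E d →L[ℝ] E d) (x y : E d) :
    symS s J x y = (1 / 2) * (bil s x (J y) + bil s y (J x)) := rfl

private theorem symS_self (s : (E d) [⋀^Fin 2]→L[ℝ] ℝ) (J : E d →L[ℝ] E d) (x : E d) :
    symS s J x x = s ![x, J x] := by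
  rw [symS_apply, bil_apply]
  ring

/-- **The radial direction.**  Write `A = adjoint J`, `V = (l + J (A l)) / 2`.

Proof.  Let `S x y = (s ![x, J y] + s ![y, J x]) / 2`: a symmetric bilinear form, `S x x ≥ 0`, and
`S (J x) (J y) = S x y` since `J (J x) = - x`; so `S x (J y) = - S (J x) y` and `S V (J V) = 0`.
For all `x, y`: `S x y ^ 2 + S (J x) y ^ 2 ≤ S x x * S y y`
(Cauchy-Schwarz `S R y ^ 2 ≤ S R R * S y y` for `R = a • x + b • J x`, `a = S x y`,
`b = S (J x) y`: `S R y = a ^ 2 + b ^ 2`, `S R R = (a ^ 2 + b ^ 2) * S x x`.)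
With `m i = ⟪l, e i⟫`, `n i = ⟪l, J (e i)⟫ = ⟪A l, e i⟫` one has `l = ∑ m i • e i`,
`J (A l) = ∑ n i • J (e i)`, so `V = (1/2) ∑ (m i • e i + n i • J (e i))` and
`S V V = (1/2) ∑ (m i * S V (e i) - n i * S (J V) (e i))
   ≤ (1/2) ∑ √(m i ^ 2 + n i ^ 2) * √(S V (e i) ^ 2 + S (J V) (e i) ^ 2)
   ≤ (1/2) √(S V V) ∑ √(m i ^ 2 + n i ^ 2) √(S (e i) (e i))
   ≤ (1/2) √(S V V) √(‖l‖ ^ 2 + ‖A l‖ ^ 2) √(∑ S (e i) (e i))`.
Hence `S V V ≤ (1/4) (‖l‖ ^ 2 + ‖A l‖ ^ 2) ∑ s ![e i, J (e i)]`, where `S V V = s ![V, J V]`. -/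
theorem radial_ineq {J : E d →L[ℝ] E d} (hJ : ∀ u, J (J u) = -u)
    {s : (E d) [⋀^Fin 2]→L[ℝ] ℝ} (hs : ∀ u, 0 ≤ s ![u, J u])
    (e : OrthonormalBasis (Fin d) ℝ (E d)) (l V : E d)
    (hV : V = (1 / 2 : ℝ) • (l + J (ContinuousLinearMap.adjoint J l))) :
    2 * s ![V, J V] ≤
      (1 / 2) * (‖l‖ ^ 2 + ‖ContinuousLinearMap.adjoint J l‖ ^ 2) * ∑ i, s ![e i, J (e i)] := by
  set A : E d := ContinuousLinearMap.adjoint J l with hA
  set S := symS s J with hS
  have hself : ∀ x, S x x = s ![x, J x] := symS_self s J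
  have hpos : ∀ x, 0 ≤ S x x := fun x => by rw [hself]; exact hs x
  have hsymm : ∀ x y, S x y = S y x := by
    intro x y
    rw [hS, symS_apply, symS_apply]
    ring
  have hJJ : ∀ x y, S x (J y) = - S (J x) y := by
    intro x y
    rw [hS, symS_apply, symS_apply, hJ, hJ, bil_swap s (J y) (J x), map_neg, map_neg,
      bil_swap s y x]
    ring
  have hJS : ∀ x y, S (J x) (J y) = S x y := by
    intro x y
    rw [hJJ, hJ, map_neg, LinearMap.neg_apply, neg_neg]
  have hVJ : ∀ x, S x (J x) = 0 := by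
    intro x
    have h1 := hJJ x x
    rw [hsymm (J x) x] at h1
    linarith
  have hcs : ∀ x y, S x y ^ 2 ≤ S x x * S y y := by
    intro x y
    have hI : LinearMap.IsSymm (S : LinearMap.BilinForm ℝ (E d)) := ⟨fun x y => hsymm x y⟩
    exact LinearMap.BilinForm.apply_sq_le_of_symm S hpos hI x y
  have hcs2 : ∀ x y, S x y ^ 2 + S (J x) y ^ 2 ≤ S x x * S y y := by
    intro x y
    set a := S x y with ha
    set b := S (J x) y with hb
    have h1 := hcs (a • x + b • J x) y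
    have h2 : S (a • x + b • J x) y = a ^ 2 + b ^ 2 := by
      rw [map_add, map_smul, map_smul, LinearMap.add_apply, LinearMap.smul_apply,
        LinearMap.smul_apply, smul_eq_mul, smul_eq_mul, ← ha, ← hb]
      ring
    have h3 : S (a • x + b • J x) (a • x + b • J x) = (a ^ 2 + b ^ 2) * S x x := by
      have h4 := hVJ x
      have h5 : S (J x) x = 0 := by rw [hsymm, h4]
      have h6 := hJS x x
      simp only [map_add, map_smul, LinearMap.add_apply, LinearMap.smul_apply, smul_eq_mul]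
      rw [h4, h5, h6]
      ring
    rw [h2, h3] at h1
    rcases eq_or_lt_of_le (show 0 ≤ a ^ 2 + b ^ 2 by positivity) with h | h
    · rw [← h]
      exact mul_nonneg (hpos x) (hpos y)
    · have h4 : (a ^ 2 + b ^ 2) * (a ^ 2 + b ^ 2) ≤ (a ^ 2 + b ^ 2) * (S x x * S y y) := by
        calc (a ^ 2 + b ^ 2) * (a ^ 2 + b ^ 2) = (a ^ 2 + b ^ 2) ^ 2 := by ring
          _ ≤ (a ^ 2 + b ^ 2) * S x x * S y y := h1
          _ = _ := by ring
      exact le_of_mul_le_mul_left h4 h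
  set m : Fin d → ℝ := fun i => ⟪e i, l⟫ with hm
  set n : Fin d → ℝ := fun i => ⟪e i, A⟫ with hn
  have hl : l = ∑ i, m i • e i := (e.sum_repr' l).symm
  have hAl : A = ∑ i, n i • e i := (e.sum_repr' A).symm
  have hm2 : ∑ i, m i ^ 2 = ‖l‖ ^ 2 := by
    rw [← e.sum_sq_norm_inner_right l]
    exact Finset.sum_congr rfl fun i _ => by rw [Real.norm_eq_abs, sq_abs]
  have hn2 : ∑ i, n i ^ 2 = ‖A‖ ^ 2 := by
    rw [← e.sum_sq_norm_inner_right A]
    exact Finset.sum_congr rfl fun i _ => by rw [Real.norm_eq_abs, sq_abs]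
  set W := S V V with hW
  have hW0 : 0 ≤ W := hpos V
  have hW2 : 2 * W = ∑ i, m i * S V (e i) + ∑ i, n i * (-S (J V) (e i)) := by
    have h1 : S V V = (1 / 2) * (S V l + S V (J A)) := by
      have h0 := congrArg (fun z => S V z) hV
      simp only [map_smul, map_add, smul_eq_mul] at h0
      exact h0
    have h2 : S V l = ∑ i, m i * S V (e i) := by
      conv_lhs => rw [hl]
      rw [map_sum]
      exact Finset.sum_congr rfl fun i _ => by rw [map_smul, smul_eq_mul]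
    have h3 : S V (J A) = ∑ i, n i * (-S (J V) (e i)) := by
      rw [hJJ, ← LinearMap.neg_apply]
      conv_lhs => rw [hAl]
      rw [map_sum]
      exact Finset.sum_congr rfl fun i _ => by rw [map_smul, smul_eq_mul, LinearMap.neg_apply]
    rw [hW, h1, h2, h3]
    ring
  have hsum : (2 * W) ^ 2 ≤ (‖l‖ ^ 2 + ‖A‖ ^ 2) * (W * ∑ i, S (e i) (e i)) := by
    have h1 := Finset.sum_mul_sq_le_sq_mul_sq (Finset.univ : Finset (Fin d ⊕ Fin d))
      (Sum.elim m n) (Sum.elim (fun i => S V (e i)) (fun i => -S (J V) (e i)))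
    simp only [Fintype.sum_sum_type, Sum.elim_inl, Sum.elim_inr] at h1
    rw [← hW2, hm2, hn2] at h1
    refine h1.trans ?_
    refine mul_le_mul_of_nonneg_left ?_ (add_nonneg (sq_nonneg _) (sq_nonneg _))
    rw [Finset.mul_sum, ← Finset.sum_add_distrib]
    refine Finset.sum_le_sum fun i _ => ?_
    rw [neg_sq]
    exact hcs2 V (e i)
  have hsumS : ∑ i, S (e i) (e i) = ∑ i, s ![e i, J (e i)] :=
    Finset.sum_congr rfl fun i _ => hself (e i)
  rw [← hself V, ← hsumS]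
  show 2 * W ≤ _
  rcases eq_or_lt_of_le hW0 with h | h
  · rw [← h, mul_zero]
    exact mul_nonneg (mul_nonneg (by norm_num) (add_nonneg (sq_nonneg _) (sq_nonneg _)))
      (Finset.sum_nonneg fun i _ => hpos _)
  · have h4 : (4 * W) * W ≤ ((‖l‖ ^ 2 + ‖A‖ ^ 2) * ∑ i, S (e i) (e i)) * W := by
      calc (4 * W) * W = (2 * W) ^ 2 := by ring
        _ ≤ _ := hsum
        _ = _ := by ring
    have h5 := le_of_mul_le_mul_right h4 h
    linarith

/-- **The norm of a strongly taming form is controlled by its trace.**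

Proof: `|s ![e i, e j]| ≤ √C √(a i a j) ≤ √C (a i + a j) / 2` with `a i = s ![e i, J (e i)] ≥ 0`, and
`norm_le_sum`; this is the first part of the proof of `Pool.Agent.H819.LN.pt_of_good`. -/
theorem norm_le_trace {J : E d →L[ℝ] E d} {s : (E d) [⋀^Fin 2]→L[ℝ] ℝ} {C : ℝ} (hC : 0 ≤ C)
    (hs : ∀ u, 0 ≤ s ![u, J u]) (hd : ∀ u w, s ![u, w] ^ 2 ≤ C * s ![u, J u] * s ![w, J w])
    (e : OrthonormalBasis (Fin d) ℝ (E d)) :
    ‖s‖ ≤ Real.sqrt C * d * ∑ i, s ![e i, J (e i)] := by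
  set a : Fin d → ℝ := fun i => s ![e i, J (e i)] with ha
  have ha0 : ∀ i, 0 ≤ a i := fun i => hs (e i)
  set sC := Real.sqrt C with hsC
  have hsC0 : 0 ≤ sC := Real.sqrt_nonneg _
  have hij : ∀ i j, |s ![e i, e j]| ≤ sC * ((a i + a j) / 2) := by
    intro i j
    have h1 := hd (e i) (e j)
    refine abs_le_of_sq_le_sq ?_ (by have := ha0 i; have := ha0 j; positivity)
    have h2 : sC ^ 2 = C := Real.sq_sqrt hC
    rw [mul_pow, h2]
    have h3 : s ![e i, e j] ^ 2 ≤ C * (a i * a j) := by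
      calc s ![e i, e j] ^ 2 ≤ C * a i * a j := h1
        _ = _ := by ring
    have h4 : a i * a j ≤ ((a i + a j) / 2) ^ 2 := by nlinarith [sq_nonneg (a i - a j)]
    exact h3.trans (by gcongr)
  refine (norm_le_sum e s).trans ?_
  calc ∑ i, ∑ j, |s ![e i, e j]| ≤ ∑ i, ∑ j, sC * ((a i + a j) / 2) :=
        Finset.sum_le_sum fun i _ => Finset.sum_le_sum fun j _ => hij i j
    _ = sC * d * ∑ i, a i := by
        simp only [← Finset.mul_sum, add_div, Finset.sum_add_distrib, Finset.sum_const,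
          Finset.card_univ, Fintype.card_fin, nsmul_eq_mul, ← Finset.sum_div]
        ring

end Pool.Agent.H819.PU
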