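import Mathlib
import Pool.Agent.H819.PU.RadLin

/-!
# The three-vector field of the mass estimate near a puncture
-/

set_option autoImplicit false

open Set Filter Topology MeasureTheory Metric
open scoped ContDiff ENNReal NNReal RealInnerProductSpace

noncomputable section

namespace Pool.Agent.H819.PU

open Pool.Agent.Y501.SY (E)
open Pool.Agent.H819.LN (bil bil_apply norm_le_sum)

variable {d : ℕ}

/-- the derivative of a cut-off function falls on `u` -/
def Qf (e : OrthonormalBasis (Fin d) ℝ (E d)) (F : Fin d → Fin d → Fin d → E d → ℝ) (u : E d → ℝ)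
    (s : (E d) [⋀^Fin 2]→L[ℝ] ℝ) (z : E d) : ℝ :=
  ∑ a, ∑ i, ∑ j, F a i j z * (s ![e i, e j] * fderiv ℝ u z (e a) +
    s ![e j, e a] * fderiv ℝ u z (e i) + s ![e a, e i] * fderiv ℝ u z (e j))

/-- the divergence of the three-vector field, paired with `s` -/
def Df (e : OrthonormalBasis (Fin d) ℝ (E d)) (F : Fin d → Fin d → Fin d → E d → ℝ)
    (s : (E d) [⋀^Fin 2]→L[ℝ] ℝ) (z : E d) : ℝ :=
  ∑ a, ∑ i, ∑ j, (s ![e i, e j] * fderiv ℝ (F a i j) z (e a) +
    s ![e j, e a] * fderiv ℝ (F a i j) z (e i) + s ![e a, e i] * fderiv ℝ (F a i j) z (e j))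

namespace RadField

open Pool.Agent.H819.LN (bil_swap)
open Pool.Agent.H819.LG (form2_le)
open ContinuousLinearMap (adjoint)

/-- the antisymmetric part of the matrix of `J` -/
def Pm (e : OrthonormalBasis (Fin d) ℝ (E d)) (J : E d →L[ℝ] E d) (i j : Fin d) : ℝ :=
  (1 / 2) * (⟪e j, J (e i)⟫ - ⟪e i, J (e j)⟫)

variable (e : OrthonormalBasis (Fin d) ℝ (E d)) (J : E d →L[ℝ] E d) (s : (E d) [⋀^Fin 2]→L[ℝ] ℝ)

theorem Pm_swap (i j : Fin d) : Pm e J i j = - Pm e J j i := by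
  unfold Pm
  ring

theorem bil_right (W V : E d) : bil s W V = ∑ a, ⟪e a, V⟫ * bil s W (e a) := by
  conv_lhs => rw [← e.sum_repr' V]
  simp only [map_sum, map_smul, smul_eq_mul]

theorem bil_left (W V : E d) : bil s W V = ∑ a, ⟪e a, W⟫ * bil s (e a) V := by
  conv_lhs => rw [← e.sum_repr' W]
  simp only [map_sum, map_smul, smul_eq_mul, LinearMap.sum_apply, LinearMap.smul_apply]

theorem sum_Pm_s : ∑ i, ∑ j, Pm e J i j * s ![e i, e j] = ∑ i, s ![e i, J (e i)] := by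
  have h1 : ∀ i, s ![e i, J (e i)] = ∑ j, ⟪e j, J (e i)⟫ * s ![e i, e j] := by
    intro i
    rw [← bil_apply, bil_right e]
    rfl
  have h3 : ∑ i, ∑ j, ⟪e i, J (e j)⟫ * s ![e i, e j] =
      - ∑ i, ∑ j, ⟪e j, J (e i)⟫ * s ![e i, e j] := by
    rw [Finset.sum_comm, ← Finset.sum_neg_distrib]
    refine Finset.sum_congr rfl fun i _ => ?_
    rw [← Finset.sum_neg_distrib]
    refine Finset.sum_congr rfl fun j _ => ?_
    rw [← bil_apply s (e j) (e i), bil_swap, bil_apply]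
    ring
  have h4 : ∑ i, ∑ j, Pm e J i j * s ![e i, e j] =
      (1 / 2) * (∑ i, ∑ j, ⟪e j, J (e i)⟫ * s ![e i, e j] -
        ∑ i, ∑ j, ⟪e i, J (e j)⟫ * s ![e i, e j]) := by
    rw [← Finset.sum_sub_distrib, Finset.mul_sum]
    refine Finset.sum_congr rfl fun i _ => ?_
    rw [← Finset.sum_sub_distrib, Finset.mul_sum]
    refine Finset.sum_congr rfl fun j _ => ?_
    unfold Pm
    ring
  rw [h4, h3]
  simp_rw [h1]
  ring

theorem inner_Jl (l : E d) (j : Fin d) : ⟪e j, J l⟫ = ∑ i, ⟪e j, J (e i)⟫ * ⟪l, e i⟫ := by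
  conv_lhs => rw [← e.sum_repr' l]
  rw [map_sum, inner_sum]
  refine Finset.sum_congr rfl fun i _ => ?_
  rw [map_smul, inner_smul_right, real_inner_comm l (e i), mul_comm]

theorem inner_Al (l : E d) (j : Fin d) :
    ⟪e j, adjoint J l⟫ = ∑ i, ⟪e i, J (e j)⟫ * ⟪l, e i⟫ := by
  rw [ContinuousLinearMap.adjoint_inner_right, ← e.sum_inner_mul_inner]
  refine Finset.sum_congr rfl fun i _ => ?_
  rw [real_inner_comm (e i) (J (e j)), real_inner_comm l (e i)]

theorem Q_sum (l V : E d) : ∑ a, ∑ i, ∑ j, (⟪e a, V⟫ * Pm e J i j) * (s ![e i, e j] * ⟪l, e a⟫ +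
    s ![e j, e a] * ⟪l, e i⟫ + s ![e a, e i] * ⟪l, e j⟫) =
    ⟪l, V⟫ * ∑ i, s ![e i, J (e i)] + s ![J l - adjoint J l, V] := by
  have e1 : ∑ a, ∑ i, ∑ j, (⟪e a, V⟫ * Pm e J i j) * (s ![e i, e j] * ⟪l, e a⟫) =
      ⟪l, V⟫ * ∑ i, s ![e i, J (e i)] := by
    rw [← sum_Pm_s, ← e.sum_inner_mul_inner l V, Finset.sum_mul]
    refine Finset.sum_congr rfl fun a _ => ?_
    rw [Finset.mul_sum]
    refine Finset.sum_congr rfl fun i _ => ?_
    rw [Finset.mul_sum]
    refine Finset.sum_congr rfl fun j _ => ?_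
    ring
  have hW : ∀ j, ∑ i, Pm e J i j * ⟪l, e i⟫ = (1 / 2) * ⟪e j, J l - adjoint J l⟫ := by
    intro j
    rw [inner_sub_right, inner_Jl, inner_Al, ← Finset.sum_sub_distrib, Finset.mul_sum]
    refine Finset.sum_congr rfl fun i _ => ?_
    unfold Pm
    ring
  have h0 : bil s (J l - adjoint J l) V =
      ∑ a, ∑ j, ⟪e a, V⟫ * (⟪e j, J l - adjoint J l⟫ * bil s (e j) (e a)) := by
    rw [bil_right e]
    refine Finset.sum_congr rfl fun a _ => ?_
    rw [bil_left e, Finset.mul_sum]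
  have e2 : ∑ a, ∑ i, ∑ j, (⟪e a, V⟫ * Pm e J i j) * (s ![e j, e a] * ⟪l, e i⟫) =
      (1 / 2) * bil s (J l - adjoint J l) V := by
    rw [h0, Finset.mul_sum]
    refine Finset.sum_congr rfl fun a _ => ?_
    rw [Finset.sum_comm, Finset.mul_sum]
    refine Finset.sum_congr rfl fun j _ => ?_
    have h1 : (1 / 2 : ℝ) * (⟪e a, V⟫ * (⟪e j, J l - adjoint J l⟫ * bil s (e j) (e a))) =
        ((1 / 2) * ⟪e j, J l - adjoint J l⟫) * (⟪e a, V⟫ * bil s (e j) (e a)) := by ring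
    rw [h1, ← hW, Finset.sum_mul]
    refine Finset.sum_congr rfl fun i _ => ?_
    rw [bil_apply]
    ring
  have e3 : ∑ a, ∑ i, ∑ j, (⟪e a, V⟫ * Pm e J i j) * (s ![e a, e i] * ⟪l, e j⟫) =
      (1 / 2) * bil s (J l - adjoint J l) V := by
    rw [h0, Finset.mul_sum]
    refine Finset.sum_congr rfl fun a _ => ?_
    rw [Finset.mul_sum]
    refine Finset.sum_congr rfl fun j _ => ?_
    have h1 : (1 / 2 : ℝ) * (⟪e a, V⟫ * (⟪e j, J l - adjoint J l⟫ * bil s (e j) (e a))) =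
        ((1 / 2) * ⟪e j, J l - adjoint J l⟫) * (⟪e a, V⟫ * bil s (e j) (e a)) := by ring
    rw [h1, ← hW, Finset.sum_mul]
    refine Finset.sum_congr rfl fun i _ => ?_
    rw [bil_swap, bil_apply, Pm_swap]
    ring
  have e4 : ∑ a, ∑ i, ∑ j, (⟪e a, V⟫ * Pm e J i j) * (s ![e i, e j] * ⟪l, e a⟫ +
      s ![e j, e a] * ⟪l, e i⟫ + s ![e a, e i] * ⟪l, e j⟫) =
      ∑ a, ∑ i, ∑ j, (⟪e a, V⟫ * Pm e J i j) * (s ![e i, e j] * ⟪l, e a⟫) +
      ∑ a, ∑ i, ∑ j, (⟪e a, V⟫ * Pm e J i j) * (s ![e j, e a] * ⟪l, e i⟫) +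
      ∑ a, ∑ i, ∑ j, (⟪e a, V⟫ * Pm e J i j) * (s ![e a, e i] * ⟪l, e j⟫) := by
    simp only [← Finset.sum_add_distrib, ← mul_add]
  rw [e4, e1, e2, e3, bil_apply]
  ring

theorem D_sum : ∑ a, ∑ i, ∑ j, (s ![e i, e j] * (Pm e J i j * ⟪e a, e a⟫) +
    s ![e j, e a] * (Pm e J i j * ⟪e a, e i⟫) + s ![e a, e i] * (Pm e J i j * ⟪e a, e j⟫)) =
    ((d : ℝ) - 2) * ∑ i, s ![e i, J (e i)] := by
  classical
  have hee : ∀ a i : Fin d, ⟪e a, e i⟫ = if a = i then (1 : ℝ) else 0 := fun a i =>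
    (orthonormal_iff_ite.1 e.orthonormal) a i
  have e1 : ∑ a, ∑ i, ∑ j, s ![e i, e j] * (Pm e J i j * ⟪e a, e a⟫) =
      (d : ℝ) * ∑ i, s ![e i, J (e i)] := by
    rw [← sum_Pm_s]
    have h1 : ∀ a ∈ (Finset.univ : Finset (Fin d)),
        ∑ i, ∑ j, s ![e i, e j] * (Pm e J i j * ⟪e a, e a⟫) =
        ∑ i, ∑ j, Pm e J i j * s ![e i, e j] := by
      intro a _
      refine Finset.sum_congr rfl fun i _ => Finset.sum_congr rfl fun j _ => ?_
      rw [hee, if_pos rfl]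
      ring
    rw [Finset.sum_congr rfl h1, Finset.sum_const, Finset.card_univ, Fintype.card_fin,
      nsmul_eq_mul]
  have e2 : ∑ a, ∑ i, ∑ j, s ![e j, e a] * (Pm e J i j * ⟪e a, e i⟫) =
      - ∑ i, s ![e i, J (e i)] := by
    rw [← sum_Pm_s, ← Finset.sum_neg_distrib]
    refine Finset.sum_congr rfl fun a _ => ?_
    rw [Finset.sum_eq_single a, ← Finset.sum_neg_distrib]
    · refine Finset.sum_congr rfl fun j _ => ?_
      rw [hee, if_pos rfl, ← bil_apply, bil_swap, bil_apply]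
      ring
    · intro i _ hi
      refine Finset.sum_eq_zero fun j _ => ?_
      rw [hee, if_neg (Ne.symm hi)]
      ring
    · intro h
      exact absurd (Finset.mem_univ a) h
  have e3 : ∑ a, ∑ i, ∑ j, s ![e a, e i] * (Pm e J i j * ⟪e a, e j⟫) =
      - ∑ i, s ![e i, J (e i)] := by
    rw [← sum_Pm_s, ← Finset.sum_neg_distrib]
    refine Finset.sum_congr rfl fun a _ => ?_
    rw [← Finset.sum_neg_distrib]
    refine Finset.sum_congr rfl fun i _ => ?_
    rw [Finset.sum_eq_single a]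
    · rw [hee, if_pos rfl, Pm_swap]
      ring
    · intro j _ hj
      rw [hee, if_neg (Ne.symm hj)]
      ring
    · intro h
      exact absurd (Finset.mem_univ a) h
  simp only [Finset.sum_add_distrib]
  rw [e1, e2, e3]
  ring

theorem exists_inv (G : E d →L[ℝ] E d) (hsym : ∀ x y, ⟪G x, y⟫ = ⟪x, G y⟫)
    (hpos : ∀ x, ‖x‖ ^ 2 ≤ ⟪G x, x⟫) : ∃ (B : E d →L[ℝ] E d) (κ : ℝ), 0 < κ ∧
      (∀ x, G (B x) = x) ∧ (∀ x y, ⟪B x, y⟫ = ⟪x, B y⟫) ∧
      (∀ x, κ * ‖x‖ ^ 2 ≤ ⟪B x, x⟫) ∧ ∀ x, ⟪B x, x⟫ ≤ ‖x‖ ^ 2 := by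
  have hinj : Function.Injective (G : E d →ₗ[ℝ] E d) := by
    rw [injective_iff_map_eq_zero]
    intro x hx
    have h1 := hpos x
    have h2 : G x = 0 := hx
    rw [h2, inner_zero_left] at h1
    have h3 : ‖x‖ = 0 := by
      have := norm_nonneg x
      nlinarith
    exact norm_eq_zero.1 h3
  set L := LinearEquiv.ofInjectiveEndo (G : E d →ₗ[ℝ] E d) hinj with hL
  set B : E d →L[ℝ] E d := LinearMap.toContinuousLinearMap (L.symm : E d →ₗ[ℝ] E d) with hB
  have hGB : ∀ x, G (B x) = x := fun x => L.apply_symm_apply x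
  have hBs : ∀ x y, ⟪B x, y⟫ = ⟪x, B y⟫ := by
    intro x y
    calc ⟪B x, y⟫ = ⟪B x, G (B y)⟫ := by rw [hGB]
      _ = ⟪G (B x), B y⟫ := (hsym _ _).symm
      _ = ⟪x, B y⟫ := by rw [hGB]
  have hB1 : ∀ x, ‖B x‖ ^ 2 ≤ ⟪B x, x⟫ := by
    intro x
    have h1 := hpos (B x)
    rw [hGB, real_inner_comm] at h1
    exact h1
  have hG0 : 0 < ‖G‖ + 1 := by positivity
  refine ⟨B, 1 / (‖G‖ + 1) ^ 2, by positivity, hGB, hBs, fun x => ?_, fun x => ?_⟩
  · refine le_trans ?_ (hB1 x)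
    have h1 : ‖x‖ ≤ (‖G‖ + 1) * ‖B x‖ := by
      calc ‖x‖ = ‖G (B x)‖ := by rw [hGB]
        _ ≤ ‖G‖ * ‖B x‖ := G.le_opNorm _
        _ ≤ (‖G‖ + 1) * ‖B x‖ := by gcongr; linarith
    rw [div_mul_eq_mul_div, div_le_iff₀ (by positivity), one_mul, ← mul_pow, mul_comm]
    exact pow_le_pow_left₀ (norm_nonneg _) h1 2
  · have h1 := real_inner_le_norm (B x) x
    have h2 := hB1 x
    have h3 := norm_nonneg (B x)
    have h4 := norm_nonneg x
    have h5 : ‖B x‖ ≤ ‖x‖ := by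
      by_contra hcon
      push Not at hcon
      nlinarith
    nlinarith

/-- the radial field -/
def Vf (J : E d → E d →L[ℝ] E d) (B : E d →L[ℝ] E d) (p z : E d) : E d :=
  B (z - p) + ∑ k, ⟪J z (e k), B (z - p)⟫ • J z (e k)

theorem JAw (w : E d) : ∑ k, ⟪J (e k), w⟫ • J (e k) = J (adjoint J w) := by
  conv_rhs => rw [← e.sum_repr' (adjoint J w)]
  rw [map_sum]
  refine Finset.sum_congr rfl fun k _ => ?_
  rw [map_smul, ContinuousLinearMap.adjoint_inner_right]

theorem Vf_eq (J : E d → E d →L[ℝ] E d) (B : E d →L[ℝ] E d) (p z : E d) :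
    Vf e J B p z = B (z - p) + J z (adjoint (J z) (B (z - p))) := by
  unfold Vf
  rw [JAw]

theorem Vf_smooth {J : E d → E d →L[ℝ] E d} {U : Set (E d)} (hJ : ContDiffOn ℝ 1 J U)
    (B : E d →L[ℝ] E d) (p : E d) : ContDiffOn ℝ 1 (Vf e J B p) U := by
  have hJe : ∀ x, ContDiffOn ℝ 1 (fun z => J z x) U := fun x => hJ.clm_apply contDiffOn_const
  have hw : ContDiffOn ℝ 1 (fun z => B (z - p)) U :=
    (B.contDiff.comp (contDiff_id.sub contDiff_const)).contDiffOn
  exact hw.add (ContDiffOn.sum fun k _ => ((hJe (e k)).inner ℝ hw).smul (hJe (e k)))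

theorem Vf_deriv {J : E d → E d →L[ℝ] E d} {p : E d} {J' : E d →L[ℝ] E d →L[ℝ] E d}
    (hJ : HasFDerivAt J J' p) (B : E d →L[ℝ] E d)
    (hB : ∀ x, B x + J p (adjoint (J p) (B x)) = x) :
    HasFDerivAt (Vf e J B p) (ContinuousLinearMap.id ℝ (E d)) p := by
  have hw : HasFDerivAt (fun z : E d => B (z - p)) B p := by
    have h3 : HasFDerivAt (fun z : E d => z - p) (ContinuousLinearMap.id ℝ (E d)) p :=
      (hasFDerivAt_id p).sub_const p
    exact B.hasFDerivAt.comp p h3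
  have hJe : ∀ k, HasFDerivAt (fun z => J z (e k)) (J'.flip (e k)) p := by
    intro k
    have := hJ.clm_apply (hasFDerivAt_const (e k) p)
    refine this.congr_fderiv ?_
    ext v
    simp
  have h1 : ∀ k, HasFDerivAt (fun z => ⟪J z (e k), B (z - p)⟫ • J z (e k))
      (((innerSL ℝ (J p (e k))).comp B).smulRight (J p (e k))) p := by
    intro k
    have h2 := ((hJe k).inner ℝ hw).smul (hJe k)
    refine h2.congr_fderiv ?_
    ext v
    simp
  have h3 := hw.add (HasFDerivAt.fun_sum fun k (_ : k ∈ (Finset.univ : Finset (Fin d))) => h1 k)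
  refine h3.congr_fderiv ?_
  refine ContinuousLinearMap.ext fun v => ?_
  have h4 := hB v
  rw [← JAw e (J p)] at h4
  simpa using h4

/-- the components of the three-vector field -/
def Fc (J : E d → E d →L[ℝ] E d) (B : E d →L[ℝ] E d) (p : E d) (a i j : Fin d) (z : E d) : ℝ :=
  ⟪e a, Vf e J B p z⟫ * Pm e (J z) i j

theorem Pm_smooth {J : E d → E d →L[ℝ] E d} {U : Set (E d)} (hJ : ContDiffOn ℝ 1 J U)
    (i j : Fin d) : ContDiffOn ℝ 1 (fun z => Pm e (J z) i j) U := by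
  have hJe : ∀ x, ContDiffOn ℝ 1 (fun z => J z x) U := fun x => hJ.clm_apply contDiffOn_const
  exact contDiffOn_const.mul ((contDiffOn_const.inner ℝ (hJe (e i))).sub
    (contDiffOn_const.inner ℝ (hJe (e j))))

theorem Fc_smooth {J : E d → E d →L[ℝ] E d} {U : Set (E d)} (hJ : ContDiffOn ℝ 1 J U)
    (B : E d →L[ℝ] E d) (p : E d) (a i j : Fin d) : ContDiffOn ℝ 1 (Fc e J B p a i j) U :=
  (contDiffOn_const.inner ℝ (Vf_smooth e hJ B p)).mul (Pm_smooth e hJ i j)

theorem Fc_deriv {J : E d → E d →L[ℝ] E d} {U : Set (E d)} (hU : IsOpen U) {p : E d} (hp : p ∈ U)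
    (hJ : ContDiffOn ℝ 1 J U) (B : E d →L[ℝ] E d)
    (hB : ∀ x, B x + J p (adjoint (J p) (B x)) = x) (a i j : Fin d) (v : E d) :
    fderiv ℝ (Fc e J B p a i j) p v = Pm e (J p) i j * ⟪e a, v⟫ := by
  have hJ' : HasFDerivAt J (fderiv ℝ J p) p :=
    ((hJ.differentiableOn (by simp)).differentiableAt (hU.mem_nhds hp)).hasFDerivAt
  have h1 := Vf_deriv e hJ' B hB
  have h2 : HasFDerivAt (fun z => ⟪e a, Vf e J B p z⟫) (innerSL ℝ (e a)) p := by
    have := (innerSL ℝ (e a)).hasFDerivAt.comp p h1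
    rw [ContinuousLinearMap.comp_id] at this
    exact this
  have h3 : DifferentiableAt ℝ (fun z => Pm e (J z) i j) p :=
    ((Pm_smooth e hJ i j).differentiableOn (by simp)).differentiableAt (hU.mem_nhds hp)
  have h4 : HasFDerivAt (Fc e J B p a i j) _ p := h2.mul h3.hasFDerivAt
  rw [h4.fderiv]
  have h5 : Vf e J B p p = 0 := by
    rw [Vf_eq]
    simp
  simp [h5]

theorem trace_le {M : ℝ} (hM : ‖J‖ ≤ M) : |∑ i, s ![e i, J (e i)]| ≤ d * M * ‖s‖ := by
  have h1 : ∀ i ∈ (Finset.univ : Finset (Fin d)), |s ![e i, J (e i)]| ≤ M * ‖s‖ := by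
    intro i _
    refine (form2_le s _ _).trans ?_
    rw [e.norm_eq_one i, one_mul, mul_comm]
    refine mul_le_mul_of_nonneg_right ?_ (norm_nonneg s)
    have := J.le_opNorm (e i)
    rw [e.norm_eq_one i, mul_one] at this
    exact this.trans hM
  refine (Finset.abs_sum_le_sum_abs _ _).trans ((Finset.sum_le_card_nsmul _ _ _ h1).trans ?_)
  rw [Finset.card_univ, Fintype.card_fin, nsmul_eq_mul]
  linarith

end RadField

open RadField in
open ContinuousLinearMap (adjoint) in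
open Pool.Agent.H819.LG (form2_le) in
theorem exists_field (hd : 3 ≤ d) {U : Set (E d)} (hU : IsOpen U) {p : E d} (hp : p ∈ U)
    {J : E d → E d →L[ℝ] E d} (hJ : ContDiffOn ℝ 1 J U) (hJ2 : ∀ z ∈ U, ∀ u, J z (J z u) = -u)
    {C : ℝ} (hC : 0 ≤ C) (e : OrthonormalBasis (Fin d) ℝ (E d)) :
    ∃ (F : Fin d → Fin d → Fin d → E d → ℝ) (u : E d → ℝ) (r K κ : ℝ), 0 < r ∧ 0 ≤ K ∧ 0 < κ ∧
      closedBall p r ⊆ U ∧ (∀ a i j, ContDiffOn ℝ 1 (F a i j) U) ∧ ContDiff ℝ ∞ u ∧
      (∀ z, κ * ‖z - p‖ ^ 2 ≤ u z) ∧ (∀ z, u z ≤ ‖z - p‖ ^ 2) ∧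
      ∀ z ∈ closedBall p r, ∀ s : (E d) [⋀^Fin 2]→L[ℝ] ℝ, (∀ x, 0 ≤ s ![x, J z x]) →
        (∀ x y, s ![x, y] ^ 2 ≤ C * s ![x, J z x] * s ![y, J z y]) →
        0 ≤ Qf e F u s z ∧ Qf e F u s z ≤ K * ‖s‖ ∧ κ * ‖s‖ ≤ Df e F s z := by
  -- the inverse of `1 + J p (adjoint (J p))`
  set G : E d →L[ℝ] E d := ContinuousLinearMap.id ℝ (E d) + (J p).comp (adjoint (J p)) with hG
  have hGx : ∀ x, G x = x + J p (adjoint (J p) x) := fun x => rfl
  have hGs : ∀ x y, ⟪G x, y⟫ = ⟪x, G y⟫ := by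
    intro x y
    rw [hGx, hGx, inner_add_left, inner_add_right]
    congr 1
    rw [← ContinuousLinearMap.adjoint_inner_right, ContinuousLinearMap.adjoint_inner_left]
  have hGp : ∀ x, ‖x‖ ^ 2 ≤ ⟪G x, x⟫ := by
    intro x
    rw [hGx, inner_add_left, real_inner_self_eq_norm_sq,
      ← ContinuousLinearMap.adjoint_inner_right, real_inner_self_eq_norm_sq]
    nlinarith [sq_nonneg ‖adjoint (J p) x‖]
  obtain ⟨B, κ₀, hκ₀, hGB, hBs, hBl, hBu⟩ := exists_inv G hGs hGp
  have hB : ∀ x, B x + J p (adjoint (J p) (B x)) = x := fun x => hGB x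
  set L : ℝ := Real.sqrt C * d + 1 with hL
  have hL0 : 0 < L := by positivity
  have hd0 : (0 : ℝ) < d := by exact_mod_cast (by omega : 0 < d)
  have hd3 : (3 : ℝ) ≤ d := by exact_mod_cast hd
  set ε : ℝ := 1 / (8 * (d : ℝ) ^ 3 * L) with hε
  have hε0 : 0 < ε := by positivity
  set F := Fc e J B p with hF
  have hFs : ∀ a i j, ContDiffOn ℝ 1 (F a i j) U := Fc_smooth e hJ B p
  have hev : ∀ᶠ z in 𝓝 p, z ∈ U ∧ ‖J z - J p‖ < ε ∧
      ∀ a i j, ‖fderiv ℝ (F a i j) z - fderiv ℝ (F a i j) p‖ < ε := by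
    have hmem := hU.mem_nhds hp
    refine (eventually_mem_set.2 hmem).and (Eventually.and ?_ ?_)
    · have h1 : ContinuousAt J p := (hJ.continuousOn).continuousAt hmem
      have h2 := Metric.continuousAt_iff'.1 h1 ε hε0
      simpa [dist_eq_norm] using h2
    · refine Filter.eventually_all.2 fun a => Filter.eventually_all.2 fun i =>
        Filter.eventually_all.2 fun j => ?_
      have h1 : ContinuousAt (fderiv ℝ (F a i j)) p :=
        ((hFs a i j).continuousOn_fderiv_of_isOpen hU (by simp)).continuousAt hmem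
      have h2 := Metric.continuousAt_iff'.1 h1 ε hε0
      simpa [dist_eq_norm] using h2
  obtain ⟨r, hr, hrs⟩ := Metric.nhds_basis_closedBall.eventually_iff.1 hev
  set u : E d → ℝ := fun z => ⟪B (z - p), z - p⟫ with hu
  have hud : ∀ z v, fderiv ℝ u z v = ⟪(2 : ℝ) • B (z - p), v⟫ := by
    intro z v
    have h3 : HasFDerivAt (fun z : E d => z - p) (ContinuousLinearMap.id ℝ (E d)) z :=
      (hasFDerivAt_id z).sub_const p
    have h4 : HasFDerivAt (fun z : E d => B (z - p)) B z := B.hasFDerivAt.comp z h3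
    have h5 : HasFDerivAt u _ z := h4.inner ℝ h3
    rw [h5.fderiv]
    have h6 : ⟪B v, z - p⟫ = ⟪B (z - p), v⟫ := by rw [hBs, real_inner_comm]
    rw [inner_smul_left]
    simp only [ContinuousLinearMap.comp_apply, ContinuousLinearMap.prod_apply,
      fderivInnerCLM_apply, ContinuousLinearMap.id_apply, h6]
    rw [RCLike.conj_to_real]
    ring
  set MJ : ℝ := ‖J p‖ + ε with hMJ
  have hMJ0 : 0 ≤ MJ := by positivity
  set K : ℝ := (1 / 2) * ((2 * (‖B‖ * r)) ^ 2 + (MJ * (2 * (‖B‖ * r))) ^ 2) * (d * MJ) with hK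
  refine ⟨F, u, r, K, min κ₀ (1 / (2 * L)), hr, by positivity, lt_min hκ₀ (by positivity),
    fun z hz => (hrs hz).1, hFs, ?_, fun z => ?_, fun z => hBu _, fun z hz s hs hsC => ?_⟩
  · exact (B.contDiff.comp (contDiff_id.sub contDiff_const)).inner ℝ
      (contDiff_id.sub contDiff_const)
  · refine le_trans (mul_le_mul_of_nonneg_right (min_le_left _ _) (by positivity)) (hBl _)
  · obtain ⟨hzU, hzJ, hzF⟩ := hrs hz
    have hJJ := hJ2 z hzU
    have hnJ : ‖J z‖ ≤ MJ := by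
      have := norm_add_le (J p) (J z - J p)
      rw [add_sub_cancel] at this
      linarith
    set T : ℝ := ∑ i, s ![e i, J z (e i)] with hT
    have hT0 : 0 ≤ T := Finset.sum_nonneg fun i _ => hs (e i)
    have hTu : T ≤ d * MJ * ‖s‖ := (le_abs_self _).trans (trace_le e (J z) s hnJ)
    set l : E d := (2 : ℝ) • B (z - p) with hl
    set V : E d := Vf e J B p z with hV
    have hVl : V = (1 / 2 : ℝ) • (l + J z (adjoint (J z) l)) := by
      rw [hV, Vf_eq, hl, map_smul, map_smul, ← smul_add, smul_smul]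
      norm_num
    have hJV : J z V = (1 / 2 : ℝ) • (J z l - adjoint (J z) l) := by
      rw [hVl, map_smul, map_add, hJJ, ← sub_eq_add_neg]
    have hlV : ⟪l, V⟫ = (1 / 2) * (‖l‖ ^ 2 + ‖adjoint (J z) l‖ ^ 2) := by
      rw [hVl, inner_smul_right, inner_add_right, real_inner_self_eq_norm_sq,
        ← ContinuousLinearMap.adjoint_inner_left, real_inner_self_eq_norm_sq]
    have hQ : Qf e F u s z = ⟪l, V⟫ * T - 2 * s ![V, J z V] := by
      have h1 := Q_sum e (J z) s l V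
      have h2 : s ![J z l - adjoint (J z) l, V] = - (2 * s ![V, J z V]) := by
        rw [← bil_apply, ← bil_apply, Pool.Agent.H819.LN.bil_swap s V, hJV, map_smul (bil s),
          LinearMap.smul_apply, smul_eq_mul]
        ring
      rw [h2] at h1
      unfold Qf
      simp_rw [hud]
      exact h1.trans (sub_eq_add_neg _ _).symm
    have hrad := radial_ineq hJJ hs e l V hVl
    rw [← hT, ← hlV] at hrad
    have hVJV := hs V
    refine ⟨by rw [hQ]; linarith, ?_, ?_⟩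
    · have hln : ‖l‖ ≤ 2 * (‖B‖ * r) := by
        rw [hl, norm_smul, Real.norm_two]
        have h1 := B.le_opNorm (z - p)
        have h2 : ‖z - p‖ ≤ r := by rw [← dist_eq_norm]; exact hz
        have h3 : ‖B‖ * ‖z - p‖ ≤ ‖B‖ * r := mul_le_mul_of_nonneg_left h2 (norm_nonneg _)
        linarith
      have hAl : ‖adjoint (J z) l‖ ≤ MJ * (2 * (‖B‖ * r)) := by
        refine ((adjoint (J z)).le_opNorm l).trans ?_
        have h4 : ‖adjoint (J z)‖ ≤ MJ := by
          rw [LinearIsometryEquiv.norm_map]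
          exact hnJ
        exact mul_le_mul h4 hln (norm_nonneg _) hMJ0
      rw [hQ, hlV]
      have h5 : (1 / 2) * (‖l‖ ^ 2 + ‖adjoint (J z) l‖ ^ 2) ≤
          (1 / 2) * ((2 * (‖B‖ * r)) ^ 2 + (MJ * (2 * (‖B‖ * r))) ^ 2) := by
        have h6 := pow_le_pow_left₀ (norm_nonneg _) hln 2
        have h7 := pow_le_pow_left₀ (norm_nonneg _) hAl 2
        linarith
      have h8 := mul_le_mul h5 hTu hT0 (by positivity)
      calc (1 / 2) * (‖l‖ ^ 2 + ‖adjoint (J z) l‖ ^ 2) * T - 2 * s ![V, J z V] ≤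
          (1 / 2) * (‖l‖ ^ 2 + ‖adjoint (J z) l‖ ^ 2) * T := by linarith
        _ ≤ _ := h8
        _ = K * ‖s‖ := by rw [hK]; ring
    · have hD0 := D_sum e (J p) s
      have hn := norm_le_trace hC hs hsC e
      rw [← hT] at hn
      have hTl : ‖s‖ / L ≤ T := by
        rw [div_le_iff₀ hL0, hL]
        nlinarith
      have hTT : |∑ i, s ![e i, J p (e i)] - T| ≤ d * ε * ‖s‖ := by
        have h1 : ∑ i, s ![e i, J p (e i)] - T = ∑ i, s ![e i, (J p - J z) (e i)] := by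
          rw [hT, ← Finset.sum_sub_distrib]
          refine Finset.sum_congr rfl fun i _ => ?_
          rw [← bil_apply, ← bil_apply, ← bil_apply, ← map_sub]
          rfl
        rw [h1]
        refine trace_le e _ s ?_
        rw [norm_sub_rev]
        exact hzJ.le
      have hsij : ∀ i j, |s ![e i, e j]| ≤ ‖s‖ := by
        intro i j
        have := form2_le s (e i) (e j)
        rw [e.norm_eq_one, e.norm_eq_one, mul_one, mul_one] at this
        exact this
      have hFd : ∀ a i j x, |Pm e (J p) i j * ⟪e a, e x⟫ - fderiv ℝ (F a i j) z (e x)| ≤ ε := by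
        intro a i j x
        rw [← Fc_deriv e hU hp hJ B hB a i j (e x), ← hF, abs_sub_comm, ← Real.norm_eq_abs]
        have h1 := (fderiv ℝ (F a i j) z - fderiv ℝ (F a i j) p).le_opNorm (e x)
        rw [e.norm_eq_one, mul_one] at h1
        exact h1.trans (hzF a i j).le
      have hDD : ((d : ℝ) - 2) * ∑ i, s ![e i, J p (e i)] - Df e F s z ≤
          3 * (d : ℝ) ^ 3 * (‖s‖ * ε) := by
        rw [← hD0]
        unfold Df
        have hterm : ∀ x y x' : Fin d, ∀ a i j : Fin d,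
            s ![e x, e y] * (Pm e (J p) i j * ⟪e a, e x'⟫) -
              s ![e x, e y] * fderiv ℝ (F a i j) z (e x') ≤ ‖s‖ * ε := by
          intro x y x' a i j
          rw [← mul_sub]
          refine (le_abs_self _).trans ?_
          rw [abs_mul]
          exact mul_le_mul (hsij x y) (hFd a i j x') (abs_nonneg _) (norm_nonneg _)
        simp only [← Finset.sum_sub_distrib]
        have h1 : ∀ a i j : Fin d, (s ![e i, e j] * (Pm e (J p) i j * ⟪e a, e a⟫) +
            s ![e j, e a] * (Pm e (J p) i j * ⟪e a, e i⟫) +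
            s ![e a, e i] * (Pm e (J p) i j * ⟪e a, e j⟫)) -
            (s ![e i, e j] * fderiv ℝ (F a i j) z (e a) +
            s ![e j, e a] * fderiv ℝ (F a i j) z (e i) +
            s ![e a, e i] * fderiv ℝ (F a i j) z (e j)) ≤ 3 * (‖s‖ * ε) := by
          intro a i j
          have t1 := hterm i j a a i j
          have t2 := hterm j a i a i j
          have t3 := hterm a i j a i j
          linarith
        refine (Finset.sum_le_sum fun a _ => Finset.sum_le_sum fun i _ =>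
          Finset.sum_le_sum fun j _ => h1 a i j).trans (le_of_eq ?_)
        simp only [Finset.sum_const, Finset.card_univ, Fintype.card_fin, nsmul_eq_mul]
        ring
      have hTT' := (abs_le.1 hTT).1
      have hs0 := norm_nonneg s
      have hεL : 4 * (d : ℝ) ^ 3 * ε * L = 1 / 2 := by
        rw [hε]
        field_simp
        norm_num
      have hmain : ‖s‖ / L - 4 * (d : ℝ) ^ 3 * ε * ‖s‖ ≤ Df e F s z := by
        have h1 : (1 : ℝ) ≤ (d : ℝ) - 2 := by linarith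
        have h2 : ((d : ℝ) - 2) * (T - d * ε * ‖s‖) ≤ ((d : ℝ) - 2) * ∑ i, s ![e i, J p (e i)] :=
          mul_le_mul_of_nonneg_left (by linarith) (by linarith)
        have h3 : T ≤ ((d : ℝ) - 2) * T := by nlinarith
        have h4 : ((d : ℝ) - 2) * (d * ε * ‖s‖) ≤ (d : ℝ) ^ 3 * ε * ‖s‖ := by
          have h5 : ((d : ℝ) - 2) * d ≤ (d : ℝ) ^ 3 := by nlinarith [sq_nonneg (d : ℝ)]
          have h6 : 0 ≤ ε * ‖s‖ := by positivity
          calc ((d : ℝ) - 2) * (d * ε * ‖s‖) = (((d : ℝ) - 2) * d) * (ε * ‖s‖) := by ring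
            _ ≤ (d : ℝ) ^ 3 * (ε * ‖s‖) := mul_le_mul_of_nonneg_right h5 h6
            _ = _ := by ring
        have h8 : ((d : ℝ) - 2) * (T - d * ε * ‖s‖) =
            ((d : ℝ) - 2) * T - ((d : ℝ) - 2) * (d * ε * ‖s‖) := by ring
        have h9 : 3 * (d : ℝ) ^ 3 * (‖s‖ * ε) = 3 * ((d : ℝ) ^ 3 * ε * ‖s‖) := by ring
        have h10 : 4 * (d : ℝ) ^ 3 * ε * ‖s‖ = 4 * ((d : ℝ) ^ 3 * ε * ‖s‖) := by ring
        rw [h8] at h2
        rw [h9] at hDD
        rw [h10]
        linarith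
      have h7 : ‖s‖ / L - 4 * (d : ℝ) ^ 3 * ε * ‖s‖ = 1 / (2 * L) * ‖s‖ := by
        have h8 : 4 * (d : ℝ) ^ 3 * ε = 1 / 2 / L := by
          rw [eq_div_iff hL0.ne']
          exact hεL
        rw [h8]
        field_simp
        ring
      rw [h7] at hmain
      exact (mul_le_mul_of_nonneg_right (min_le_right _ _) hs0).trans hmain

end Pool.Agent.H819.PU
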