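import Mathlib
import Pool.Agent.H819.LN.Stat

/-!
# Weak closedness can be tested with functions of class `C^1`
-/

set_option autoImplicit false

open Set Filter Topology MeasureTheory Metric
open scoped ContDiff ENNReal NNReal RealInnerProductSpace Convolution

noncomputable section

namespace Pool.Agent.H819.PU

open Pool.Agent.Y501.SY (E)
open Pool.Agent.H819.LN (WeakClosed int_term)

variable {d : ℕ}

/-- approximation of a `C^1` function with compact support in the `C^1` norm -/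
theorem exists_smooth_approx {φ : E d → ℝ} (hφ : ContDiff ℝ 1 φ) (hc : HasCompactSupport φ)
    {δ : ℝ} (hδ : 0 < δ) {ε : ℝ} (hε : 0 < ε) :
    ∃ ψ : E d → ℝ, ContDiff ℝ ∞ ψ ∧ tsupport ψ ⊆ cthickening δ (tsupport φ) ∧
      ∀ z, ‖fderiv ℝ ψ z - fderiv ℝ φ z‖ ≤ ε := by
  have hfc : Continuous (fderiv ℝ φ) := hφ.continuous_fderiv (by simp)
  have hfs : HasCompactSupport (fderiv ℝ φ) := hc.fderiv ℝ
  have huc : UniformContinuous (fderiv ℝ φ) := hfs.uniformContinuous_of_continuous hfc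
  obtain ⟨r, hr, hur⟩ := Metric.uniformContinuous_iff.1 huc ε hε
  set R : ℝ := min r δ / 2 with hR
  have hm : 0 < min r δ := lt_min hr hδ
  have hR0 : 0 < R := by positivity
  have hRr : R < r := by
    have := min_le_left r δ
    rw [hR]; linarith
  have hRδ : R < δ := by
    have := min_le_right r δ
    rw [hR]; linarith
  let ρ : ContDiffBump (0 : E d) := ⟨R / 2, R, by positivity, by linarith⟩
  have hρ : ρ.rOut = R := rfl
  set ψ : E d → ℝ := ρ.normed volume ⋆[ContinuousLinearMap.lsmul ℝ ℝ, volume] φ with hψ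
  have hloc : LocallyIntegrable φ volume := hφ.continuous.locallyIntegrable
  have hlocρ : LocallyIntegrable (ρ.normed (volume : Measure (E d))) volume :=
    (ρ.contDiff_normed (n := 0)).continuous.locallyIntegrable
  refine ⟨ψ, ?_, ?_, ?_⟩
  · exact ρ.hasCompactSupport_normed.contDiff_convolution_left _ ρ.contDiff_normed hloc
  · refine closure_minimal (fun z hz => ?_) isClosed_cthickening
    by_contra hcon
    refine hz ?_
    show (∫ t, (ContinuousLinearMap.lsmul ℝ ℝ) (ρ.normed volume t) (φ (z - t))) = 0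
    rw [← integral_zero (E d) ℝ]
    congr 1
    funext t
    rw [ContinuousLinearMap.lsmul_apply, smul_eq_mul]
    by_cases ht : t ∈ Function.support (ρ.normed (volume : Measure (E d)))
    · rw [ρ.support_normed_eq, mem_ball_zero_iff, hρ] at ht
      have h1 : φ (z - t) = 0 := by
        by_contra h2
        have h3 : z - t ∈ tsupport φ := subset_tsupport φ h2
        refine hcon (thickening_subset_cthickening _ _ (mem_thickening_iff.2 ⟨z - t, h3, ?_⟩))
        rw [dist_eq_norm, sub_sub_cancel]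
        exact ht.trans hRδ
      rw [h1, mul_zero]
    · rw [Function.notMem_support.1 ht, zero_mul]
  · intro z
    have h1 : HasFDerivAt ψ _ z :=
      hc.hasFDerivAt_convolution_right (ContinuousLinearMap.lsmul ℝ ℝ) hlocρ hφ z
    rw [h1.fderiv]
    have h2 : (ρ.normed volume ⋆[(ContinuousLinearMap.lsmul ℝ ℝ).precompR (E d), volume]
        fderiv ℝ φ) z = (ρ.normed volume ⋆[ContinuousLinearMap.lsmul ℝ ℝ, volume]
          fderiv ℝ φ) z := by
      show (∫ t, _) = ∫ t, _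
      congr 1
    rw [h2, ← dist_eq_norm]
    refine ρ.dist_normed_convolution_le hfc.aestronglyMeasurable fun x hx => ?_
    refine (hur ?_).le
    rw [mem_ball, hρ] at hx
    exact hx.trans hRr

theorem weakClosed_C1 {U : Set (E d)} (hU : IsOpen U) {θ : E d → (E d) [⋀^Fin 2]→L[ℝ] ℝ}
    (hθ : LocallyIntegrableOn θ U) (hw : WeakClosed U θ) {φ : E d → ℝ} (hφ : ContDiff ℝ 1 φ)
    (hc : HasCompactSupport φ) (ht : tsupport φ ⊆ U) (a b c : E d) :
    ∫ z, (θ z ![b, c] * fderiv ℝ φ z a + θ z ![c, a] * fderiv ℝ φ z b +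
      θ z ![a, b] * fderiv ℝ φ z c) = 0 := by
  obtain ⟨δ, hδ, hδU⟩ := hc.isCompact.exists_cthickening_subset_open hU ht
  set S := cthickening δ (tsupport φ) with hS
  have hSc : IsCompact S := hc.isCompact.cthickening
  have hSφ : tsupport φ ⊆ S := self_subset_cthickening _
  have h0 : ∀ (χ : E d → ℝ), tsupport χ ⊆ S → ∀ z, z ∉ S → fderiv ℝ χ z = 0 := by
    intro χ hχ z hz
    by_contra h
    exact hz (hχ (support_fderiv_subset ℝ h))
  have hint : ∀ (χ : E d → ℝ), ContDiff ℝ 1 χ → tsupport χ ⊆ S → ∀ (v : Fin 2 → E d) (u : E d),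
      Integrable (fun z => θ z v * fderiv ℝ χ z u) := by
    intro χ hχ hχS v u
    refine int_term hSc hδU hθ ((hχ.continuous_fderiv (by simp)).clm_apply continuous_const)
      (fun z hz => ?_) v
    rw [h0 χ hχS z hz]
    rfl
  have hθS : IntegrableOn θ S := hθ.integrableOn_compact_subset hδU hSc
  set K : ℝ := ∫ z in S, ‖θ z‖ with hK
  have hK0 : 0 ≤ K := integral_nonneg fun _ => norm_nonneg _
  set I : ℝ := ∫ z, (θ z ![b, c] * fderiv ℝ φ z a + θ z ![c, a] * fderiv ℝ φ z b +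
      θ z ![a, b] * fderiv ℝ φ z c) with hI
  have hmain : ∀ ε : ℝ, 0 < ε → |I| ≤ ε * (3 * (‖a‖ * ‖b‖ * ‖c‖) * K) := by
    intro ε hε
    obtain ⟨ψ, hψ, hψS, hψε⟩ := exists_smooth_approx hφ hc hδ hε
    have hψc : HasCompactSupport ψ := hSc.of_isClosed_subset (isClosed_tsupport ψ) hψS
    have h1 := hw ψ hψ hψc (hψS.trans hδU) a b c
    have hψ1 : ContDiff ℝ 1 ψ := hψ.of_le (by exact_mod_cast le_top)
    have hiφ := ((hint φ hφ hSφ ![b, c] a).add (hint φ hφ hSφ ![c, a] b)).add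
      (hint φ hφ hSφ ![a, b] c)
    have hiψ := ((hint ψ hψ1 hψS ![b, c] a).add (hint ψ hψ1 hψS ![c, a] b)).add
      (hint ψ hψ1 hψS ![a, b] c)
    have h2 : -I = ∫ z, ((θ z ![b, c] * fderiv ℝ ψ z a + θ z ![c, a] * fderiv ℝ ψ z b +
      θ z ![a, b] * fderiv ℝ ψ z c) - (θ z ![b, c] * fderiv ℝ φ z a +
      θ z ![c, a] * fderiv ℝ φ z b + θ z ![a, b] * fderiv ℝ φ z c)) := by
      have h3 := integral_sub hiψ hiφ
      simp only [Pi.add_apply] at h3
      rw [h3, h1, zero_sub]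
    rw [← abs_neg, h2]
    have h4 : ∀ z, ((θ z ![b, c] * fderiv ℝ ψ z a + θ z ![c, a] * fderiv ℝ ψ z b +
      θ z ![a, b] * fderiv ℝ ψ z c) - (θ z ![b, c] * fderiv ℝ φ z a +
      θ z ![c, a] * fderiv ℝ φ z b + θ z ![a, b] * fderiv ℝ φ z c)) =
      θ z ![b, c] * ((fderiv ℝ ψ z - fderiv ℝ φ z) a) +
        θ z ![c, a] * ((fderiv ℝ ψ z - fderiv ℝ φ z) b) +
        θ z ![a, b] * ((fderiv ℝ ψ z - fderiv ℝ φ z) c) := by
      intro z
      simp only [_root_.sub_apply]
      ring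
    simp_rw [h4]
    have h5 : (∫ z, (θ z ![b, c] * ((fderiv ℝ ψ z - fderiv ℝ φ z) a) +
        θ z ![c, a] * ((fderiv ℝ ψ z - fderiv ℝ φ z) b) +
        θ z ![a, b] * ((fderiv ℝ ψ z - fderiv ℝ φ z) c))) =
        ∫ z in S, (θ z ![b, c] * ((fderiv ℝ ψ z - fderiv ℝ φ z) a) +
        θ z ![c, a] * ((fderiv ℝ ψ z - fderiv ℝ φ z) b) +
        θ z ![a, b] * ((fderiv ℝ ψ z - fderiv ℝ φ z) c)) := by
      rw [setIntegral_eq_integral_of_forall_compl_eq_zero]
      intro z hz
      rw [h0 ψ hψS z hz, h0 φ hSφ z hz]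
      simp
    rw [h5, ← Real.norm_eq_abs]
    have h6 : ∀ z, ‖θ z ![b, c] * ((fderiv ℝ ψ z - fderiv ℝ φ z) a) +
        θ z ![c, a] * ((fderiv ℝ ψ z - fderiv ℝ φ z) b) +
        θ z ![a, b] * ((fderiv ℝ ψ z - fderiv ℝ φ z) c)‖ ≤
        (ε * (3 * (‖a‖ * ‖b‖ * ‖c‖))) * ‖θ z‖ := by
      intro z
      have h7 : ∀ x y w : E d, ‖θ z ![x, y] * ((fderiv ℝ ψ z - fderiv ℝ φ z) w)‖ ≤
          (‖θ z‖ * (‖x‖ * ‖y‖)) * (ε * ‖w‖) := by
        intro x y w
        rw [norm_mul]
        have h8 : ‖θ z ![x, y]‖ ≤ ‖θ z‖ * (‖x‖ * ‖y‖) := by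
          have := (θ z).le_opNorm ![x, y]
          simpa [Fin.prod_univ_two] using this
        have h9 : ‖(fderiv ℝ ψ z - fderiv ℝ φ z) w‖ ≤ ε * ‖w‖ :=
          ((fderiv ℝ ψ z - fderiv ℝ φ z).le_opNorm w).trans
            (mul_le_mul_of_nonneg_right (hψε z) (norm_nonneg _))
        exact mul_le_mul h8 h9 (norm_nonneg _) (by positivity)
      refine (norm_add_le _ _).trans ((add_le_add ((norm_add_le _ _).trans
        (add_le_add (h7 b c a) (h7 c a b))) (h7 a b c)).trans (le_of_eq ?_))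
      ring
    refine (norm_integral_le_of_norm_le ((hθS.norm).const_mul _)
      (Eventually.of_forall h6)).trans (le_of_eq ?_)
    rw [integral_const_mul, ← hK]
    ring
  have hC0 : 0 ≤ 3 * (‖a‖ * ‖b‖ * ‖c‖) * K := by positivity
  have hfin : |I| ≤ 0 := by
    refine le_of_forall_pos_le_add fun η hη => ?_
    have h1 := hmain (η / (3 * (‖a‖ * ‖b‖ * ‖c‖) * K + 1)) (by positivity)
    refine h1.trans ?_
    rw [zero_add, div_mul_eq_mul_div, div_le_iff₀ (by positivity)]
    nlinarith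
  exact abs_nonpos_iff.1 hfin

end Pool.Agent.H819.PU
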