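import Mathlib
import Pool.Agent.H819.PU.RadField
import Pool.Agent.H819.PU.WkC1

/-!
# Strongly taming closed forms have finite mass near a puncture
-/

set_option autoImplicit false

open Set Filter Topology MeasureTheory Metric
open scoped ContDiff ENNReal NNReal RealInnerProductSpace

noncomputable section

namespace Pool.Agent.H819.PU

open Pool.Agent.Y501.SY (E)
open Pool.Agent.H819.LN (WeakClosed int_term)

variable {d : ℕ}

/-- The cut-off functions. -/
theorem exists_cut {R : ℝ} (hR : 0 < R) : ∃ M : ℝ, 0 ≤ M ∧ ∀ ε : ℝ, 0 < ε → ∃ h : ℝ → ℝ,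
    ContDiff ℝ ∞ h ∧ (∀ t, t ≤ ε → h t = 0) ∧ (∀ t, R ≤ t → h t = 0) ∧ (∀ t, 0 ≤ h t) ∧
    (∀ t, 2 * ε ≤ t → t ≤ R / 2 → h t = 1) ∧ (∀ t, R < t → deriv h t = 0) ∧
    ∀ t, -(if R / 2 ≤ t ∧ t ≤ R then M else 0) ≤ deriv h t := by
  obtain ⟨h2, hh2⟩ : ∃ h2 : ℝ → ℝ, h2 = fun t => Real.smoothTransition ((R - t) / (R / 2)) :=
    ⟨_, rfl⟩
  have s2 : ContDiff ℝ ∞ h2 := by
    rw [hh2]
    exact Real.smoothTransition.contDiff.comp (by fun_prop)
  have one2 : ∀ t, t ≤ R / 2 → h2 t = 1 := by
    intro t ht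
    rw [hh2]
    refine Real.smoothTransition.one_of_one_le ?_
    rw [le_div_iff₀ (by positivity)]
    linarith
  have zero2 : ∀ t, R ≤ t → h2 t = 0 := by
    intro t ht
    rw [hh2]
    refine Real.smoothTransition.zero_of_nonpos ?_
    exact div_nonpos_of_nonpos_of_nonneg (by linarith) (by positivity)
  have nn2 : ∀ t, 0 ≤ h2 t := fun t => by
    rw [hh2]
    exact Real.smoothTransition.nonneg _
  have dz : ∀ {f : ℝ → ℝ} {t c : ℝ}, (∀ᶠ y in 𝓝 t, f y = c) → deriv f t = 0 := by
    intro f t c h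
    have h1 : f =ᶠ[𝓝 t] fun _ => c := h
    rw [h1.deriv_eq, deriv_const]
  have d2 : ∀ t, ¬ (R / 2 ≤ t ∧ t ≤ R) → deriv h2 t = 0 := by
    intro t ht
    rcases lt_or_ge t (R / 2) with h1 | h1
    · exact dz (c := 1) ((gt_mem_nhds h1).mono fun y hy => one2 y (le_of_lt hy))
    · have h2' : R < t := by
        by_contra h3
        exact ht ⟨h1, not_lt.1 h3⟩
      exact dz (c := 0) ((lt_mem_nhds h2').mono fun y hy => zero2 y (le_of_lt hy))
  obtain ⟨M0, hM0⟩ := (isCompact_Icc (a := R / 2) (b := R)).exists_bound_of_continuousOn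
    (s2.continuous_deriv (by simp)).continuousOn
  refine ⟨|M0|, abs_nonneg _, fun ε hε => ?_⟩
  obtain ⟨h1, hh1⟩ : ∃ h1 : ℝ → ℝ, h1 = fun t => Real.smoothTransition ((t - ε) / ε) := ⟨_, rfl⟩
  have s1 : ContDiff ℝ ∞ h1 := by
    rw [hh1]
    exact Real.smoothTransition.contDiff.comp (by fun_prop)
  have nn1 : ∀ t, 0 ≤ h1 t := fun t => by
    rw [hh1]
    exact Real.smoothTransition.nonneg _
  have le1 : ∀ t, h1 t ≤ 1 := fun t => by
    rw [hh1]
    exact Real.smoothTransition.le_one _
  have m1 : Monotone h1 := by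
    rw [hh1]
    intro x y hxy
    refine Real.smoothTransition.monotone ?_
    exact div_le_div_of_nonneg_right (by linarith) hε.le
  have hmul : ∀ t, deriv (fun t => h1 t * h2 t) t = deriv h1 t * h2 t + h1 t * deriv h2 t := by
    intro t
    exact deriv_fun_mul ((s1.differentiable (by simp)) t) ((s2.differentiable (by simp)) t)
  refine ⟨fun t => h1 t * h2 t, s1.mul s2, fun t ht => ?_, fun t ht => ?_, fun t => ?_,
    fun t ht ht2 => ?_, fun t ht => ?_, fun t => ?_⟩
  · have : h1 t = 0 := by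
      rw [hh1]
      refine Real.smoothTransition.zero_of_nonpos ?_
      exact div_nonpos_of_nonpos_of_nonneg (by linarith) hε.le
    show h1 t * h2 t = 0
    rw [this, zero_mul]
  · show h1 t * h2 t = 0
    rw [zero2 t ht, mul_zero]
  · exact mul_nonneg (nn1 t) (nn2 t)
  · have : h1 t = 1 := by
      rw [hh1]
      refine Real.smoothTransition.one_of_one_le ?_
      rw [le_div_iff₀ hε]
      linarith
    show h1 t * h2 t = 1
    rw [this, one2 t ht2, mul_one]
  · refine dz (c := 0) ((lt_mem_nhds ht).mono fun y hy => ?_)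
    rw [zero2 y (le_of_lt hy), mul_zero]
  · rw [hmul]
    have a1 : 0 ≤ deriv h1 t * h2 t := mul_nonneg m1.deriv_nonneg (nn2 t)
    by_cases ht : R / 2 ≤ t ∧ t ≤ R
    · rw [if_pos ht]
      have a2 : |h1 t * deriv h2 t| ≤ |M0| := by
        rw [abs_mul, abs_of_nonneg (nn1 t)]
        have a3 := hM0 t ht
        rw [Real.norm_eq_abs] at a3
        calc h1 t * |deriv h2 t| ≤ 1 * |deriv h2 t| :=
              mul_le_mul_of_nonneg_right (le1 t) (abs_nonneg _)
          _ ≤ |M0| := by
              rw [one_mul]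
              exact a3.trans (le_abs_self _)
      have a4 := (abs_le.1 a2).1
      linarith
    · rw [if_neg ht, d2 t ht, mul_zero]
      linarith

/-- **Finite mass near a puncture**: no growth condition at `p`.

Proof.  We may assume `0 ≤ C` (replace `C` by `max C 0`).  Take `F, u, r, K, κ` from
`exists_field` and put `R = κ r ^ 2 / 2`; so `u z ≤ R` implies `‖z - p‖ < r`.  For
`0 < ε ≤ R / 8` let `h = h₁ * h₂` with smooth `h₁, h₂ : ℝ → [0, 1]`:
`h₁ t = Real.smoothTransition ((t - ε) / ε)` (zero for `t ≤ ε`, one for `t ≥ 2 ε`, monotone) and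
`h₂ t = Real.smoothTransition ((R - t) / (R / 2))` (one for `t ≤ R / 2`, zero for `t ≥ R`), and
`ψ = h ∘ u`, smooth with support in the compact set
`{ε ≤ u ≤ R} ⊆ closedBall p r \ {p} ⊆ U \ {p}`.  The functions `ψ * F a i j` are of class `C^1`
with compact support in `U \ {p}` (zero outside the support of `ψ`).  `weakClosed_C1` for them and
the vectors `e a, e i, e j` (`e` any orthonormal basis, e.g. `EuclideanSpace.basisFun`), summed over
`a, i, j`, gives, with `fderiv (ψ * F) = h (u z) • fderiv F + (h' (u z) * F) • fderiv u`,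
`∫ (h (u z) * Df e F (θ z) z + h' (u z) * Qf e F u (θ z) z) = 0`.
Now `h' ≥ 0` and `Qf ≥ 0` where `u z ≤ R / 2`, so
`κ ∫_{2 ε ≤ u z ≤ R / 2} ‖θ z‖ ≤ ∫ h (u z) * Df = - ∫ h' (u z) * Qf
   ≤ sup |h₂'| * K * ∫_{R / 2 ≤ u z ≤ R} ‖θ z‖ =: M`,
independent of `ε` (`{R / 2 ≤ u z ≤ R}` is a compact subset of `U \ {p}`, and `h = h₂` there).
Let `ε = ε n → 0` (monotone convergence, e.g. `integrableOn_of_...` or
`MeasureTheory.lintegral_iUnion`/`aecover`: `MeasureTheory.AECover.integrable_of_integral_norm_bounded`)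
: `θ` is integrable on `{0 < u z ≤ R / 2} ⊇ closedBall p r' \ {p}` for `r' ^ 2 = R / 2`
(as `u z ≤ ‖z - p‖ ^ 2`), and `{p}` is a null set (`d ≥ 1`). -/
theorem mass_puncture (hd : 3 ≤ d) {U : Set (E d)} (hU : IsOpen U) {p : E d} (hp : p ∈ U)
    {J : E d → E d →L[ℝ] E d} (hJ : ContDiffOn ℝ 1 J U) (hJ2 : ∀ z ∈ U, ∀ u, J z (J z u) = -u)
    {θ : E d → (E d) [⋀^Fin 2]→L[ℝ] ℝ} (hθ : LocallyIntegrableOn θ (U \ {p}))
    (hw : WeakClosed (U \ {p}) θ) {C : ℝ}
    (hpos : ∀ᵐ z ∂(volume.restrict U), ∀ x, 0 ≤ θ z ![x, J z x])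
    (hdist : ∀ᵐ z ∂(volume.restrict U), ∀ x y,
      θ z ![x, y] ^ 2 ≤ C * θ z ![x, J z x] * θ z ![y, J z y]) :
    ∃ r : ℝ, 0 < r ∧ IntegrableOn θ (closedBall p r) := by
  classical
  obtain ⟨C', hC'def⟩ : ∃ C', C' = max C 0 := ⟨_, rfl⟩
  have hC' : 0 ≤ C' := hC'def ▸ le_max_right _ _
  obtain ⟨e, -⟩ : ∃ e : OrthonormalBasis (Fin d) ℝ (E d), e = EuclideanSpace.basisFun (Fin d) ℝ :=
    ⟨_, rfl⟩
  obtain ⟨F, u, r, K, κ, hr, hK, hκ, hball, hF, hu, hu1, hu2, hQD⟩ :=
    exists_field hd hU hp hJ hJ2 hC' e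
  have hgood : ∀ᵐ z, z ∈ closedBall p r → 0 ≤ Qf e F u (θ z) z ∧
      Qf e F u (θ z) z ≤ K * ‖θ z‖ ∧ κ * ‖θ z‖ ≤ Df e F (θ z) z := by
    have h1 := (ae_restrict_iff' hU.measurableSet).1 hpos
    have h2 := (ae_restrict_iff' hU.measurableSet).1 hdist
    filter_upwards [h1, h2] with z a1 a2 hz
    have hzU := hball hz
    refine hQD z hz (θ z) (a1 hzU) fun x y => (a2 hzU x y).trans ?_
    refine mul_le_mul_of_nonneg_right (mul_le_mul_of_nonneg_right ?_ (a1 hzU x)) (a1 hzU y)
    rw [hC'def]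
    exact le_max_left _ _
  obtain ⟨R, hRdef⟩ : ∃ R, R = κ * (r ^ 2 / 2) := ⟨_, rfl⟩
  have hR : 0 < R := by
    rw [hRdef]
    positivity
  have hin : ∀ z, u z ≤ R → z ∈ closedBall p r := by
    intro z hz
    rw [mem_closedBall, dist_eq_norm]
    have h1 := hu1 z
    have h2 : κ * ‖z - p‖ ^ 2 ≤ κ * (r ^ 2 / 2) := by
      rw [← hRdef]
      exact h1.trans hz
    have h3 := le_of_mul_le_mul_left h2 hκ
    by_contra h4
    push Not at h4
    have h5 := pow_lt_pow_left₀ h4 hr.le (n := 2) (by norm_num)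
    nlinarith [sq_nonneg r]
  have hout : ∀ z, z ∉ closedBall p r → R < u z := fun z hz => by
    by_contra h
    exact hz (hin z (not_lt.1 h))
  have hne : ∀ z, 0 < u z → z ≠ p := by
    intro z hz h
    have h1 := hu2 z
    rw [h, sub_self, norm_zero] at h1
    rw [h] at hz
    norm_num at h1
    linarith
  have huc : Continuous u := hu.continuous
  have hcomp : ∀ a b : ℝ, b ≤ R → IsCompact {z | a ≤ u z ∧ u z ≤ b} := by
    intro a b hb
    refine (isCompact_closedBall p r).of_isClosed_subset ?_ fun z hz => hin z (hz.2.trans hb)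
    exact (isClosed_le continuous_const huc).inter (isClosed_le huc continuous_const)
  have hsub : ∀ a b : ℝ, 0 < a → b ≤ R → {z | a ≤ u z ∧ u z ≤ b} ⊆ U \ {p} := fun a b ha hb z hz =>
    ⟨hball (hin z (hz.2.trans hb)), hne z (ha.trans_le hz.1)⟩
  obtain ⟨M, hM, hcut⟩ := exists_cut hR
  obtain ⟨B, hB⟩ : ∃ B : Set (E d), B = {z | R / 2 ≤ u z ∧ u z ≤ R} := ⟨_, rfl⟩
  have hBc : IsCompact B := hB ▸ hcomp _ _ le_rfl
  have hBi : IntegrableOn θ B :=
    hθ.integrableOn_compact_subset (hB ▸ hsub _ _ (by positivity) le_rfl) hBc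
  -- the main estimate
  have key : ∀ ε : ℝ, 0 < ε → κ * ∫ z in {z | 2 * ε ≤ u z ∧ u z ≤ R / 2}, ‖θ z‖ ≤
      M * K * ∫ z in B, ‖θ z‖ := by
    intro ε hε
    obtain ⟨h, hs, hz0, hzR, hnn, h1, hd0, hdl⟩ := hcut ε hε
    obtain ⟨A, hA⟩ : ∃ A : Set (E d), A = {z | 2 * ε ≤ u z ∧ u z ≤ R / 2} := ⟨_, rfl⟩
    rw [← hA]
    have hAc : IsCompact A := hA ▸ hcomp _ _ (by linarith)
    have hAi : IntegrableOn θ A :=
      hθ.integrableOn_compact_subset (hA ▸ hsub _ _ (by positivity) (by linarith)) hAc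
    obtain ⟨S, hS⟩ : ∃ S : Set (E d), S = {z | ε ≤ u z ∧ u z ≤ R} := ⟨_, rfl⟩
    have hSc : IsCompact S := hS ▸ hcomp _ _ le_rfl
    have hSU : S ⊆ U \ {p} := hS ▸ hsub _ _ hε le_rfl
    have hψ0 : ∀ z, z ∉ S → h (u z) = 0 := by
      intro z hz
      rw [hS, mem_ofPred_eq] at hz
      rcases le_or_gt (u z) ε with a1 | a1
      · exact hz0 _ a1
      · refine hzR _ ?_
        by_contra a2
        exact hz ⟨a1.le, (not_le.1 a2).le⟩
    obtain ⟨φ, hφd⟩ : ∃ φ : Fin d → Fin d → Fin d → E d → ℝ,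
        φ = fun a i j z => h (u z) * F a i j z := ⟨_, rfl⟩
    have hφ0 : ∀ a i j z, z ∉ S → φ a i j z = 0 := by
      intro a i j z hz
      rw [hφd]
      show h (u z) * F a i j z = 0
      rw [hψ0 z hz, zero_mul]
    have hφloc : ∀ a i j z, z ∉ S → φ a i j =ᶠ[𝓝 z] fun _ => 0 := by
      intro a i j z hz
      filter_upwards [hSc.isClosed.isOpen_compl.mem_nhds hz] with y hy
      exact hφ0 a i j y hy
    have hSb : S ⊆ closedBall p r := fun z hz => by
      rw [hS] at hz
      exact hin z hz.2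
    have hFat : ∀ a i j z, z ∈ closedBall p r → ContDiffAt ℝ 1 (F a i j) z := fun a i j z hz =>
      (hF a i j).contDiffAt (hU.mem_nhds (hball hz))
    have hφ : ∀ a i j, ContDiff ℝ 1 (φ a i j) := by
      intro a i j
      rw [contDiff_iff_contDiffAt]
      intro z
      by_cases hz : z ∈ S
      · rw [hφd]
        exact (((hs.comp hu).of_le (by simp)).contDiffAt).mul (hFat a i j z (hSb hz))
      · exact contDiffAt_const.congr_of_eventuallyEq (hφloc a i j z hz)
    have htS : ∀ a i j, tsupport (φ a i j) ⊆ S := by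
      intro a i j
      refine closure_minimal (fun z hz => ?_) hSc.isClosed
      by_contra h2
      exact hz (hφ0 a i j z h2)
    have hc : ∀ a i j, HasCompactSupport (φ a i j) := fun a i j =>
      hSc.of_isClosed_subset (isClosed_tsupport _) (htS a i j)
    have hfd0 : ∀ a i j z, z ∉ S → ∀ v, fderiv ℝ (φ a i j) z v = 0 := by
      intro a i j z hz v
      rw [(hφloc a i j z hz).fderiv_eq]
      simp
    have hfd : ∀ a i j z, z ∈ closedBall p r → ∀ v, fderiv ℝ (φ a i j) z v =
        h (u z) * fderiv ℝ (F a i j) z v + deriv h (u z) * (F a i j z * fderiv ℝ u z v) := by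
      intro a i j z hz v
      have b1 : HasDerivAt h (deriv h (u z)) (u z) :=
        ((hs.differentiable (by simp)) (u z)).hasDerivAt
      have b2 : HasFDerivAt u (fderiv ℝ u z) z := ((hu.differentiable (by simp)) z).hasFDerivAt
      have b3 : HasFDerivAt (F a i j) (fderiv ℝ (F a i j) z) z :=
        ((hFat a i j z hz).differentiableAt (by simp)).hasFDerivAt
      have b4 := (b1.comp_hasFDerivAt z b2).fun_mul b3
      have e1 : φ a i j = fun y => (h ∘ u) y * F a i j y := by
        rw [hφd]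
        rfl
      rw [e1, b4.fderiv]
      simp only [_root_.add_apply, _root_.smul_apply, smul_eq_mul,
        Function.comp_apply]
      ring
    obtain ⟨Tm, hTm⟩ : ∃ Tm : Fin d → Fin d → Fin d → E d → ℝ, Tm = fun a i j z =>
      (θ z ![e i, e j] * fderiv ℝ (φ a i j) z (e a) + θ z ![e j, e a] * fderiv ℝ (φ a i j) z (e i) +
        θ z ![e a, e i] * fderiv ℝ (φ a i j) z (e j)) := ⟨_, rfl⟩
    have hTi : ∀ a i j, Integrable (Tm a i j) := by
      intro a i j
      have c1 : ∀ v, Continuous fun z => fderiv ℝ (φ a i j) z v := fun v =>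
        ((hφ a i j).continuous_fderiv (by simp)).clm_apply continuous_const
      rw [hTm]
      exact ((int_term hSc hSU hθ (c1 _) (fun z hz => hfd0 a i j z hz _) _).add
        (int_term hSc hSU hθ (c1 _) (fun z hz => hfd0 a i j z hz _) _)).add
        (int_term hSc hSU hθ (c1 _) (fun z hz => hfd0 a i j z hz _) _)
    have hT0 : ∀ a i j, ∫ z, Tm a i j z = 0 := by
      intro a i j
      rw [hTm]
      exact weakClosed_C1 (hU.sdiff isClosed_singleton) hθ hw (hφ a i j) (hc a i j)
        ((htS a i j).trans hSU) (e a) (e i) (e j)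
    obtain ⟨g, hg⟩ : ∃ g : E d → ℝ, g = fun z => ∑ a, ∑ i, ∑ j, Tm a i j z := ⟨_, rfl⟩
    have hgi : Integrable g := by
      rw [hg]
      exact integrable_finsetSum _ fun a _ => integrable_finsetSum _ fun i _ =>
        integrable_finsetSum _ fun j _ => hTi a i j
    have hg0 : ∫ z, g z = 0 := by
      rw [hg]
      rw [integral_finsetSum _ fun a _ => integrable_finsetSum _ fun i _ =>
        integrable_finsetSum _ fun j _ => hTi a i j]
      refine Finset.sum_eq_zero fun a _ => ?_
      rw [integral_finsetSum _ fun i _ => integrable_finsetSum _ fun j _ => hTi a i j]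
      refine Finset.sum_eq_zero fun i _ => ?_
      rw [integral_finsetSum _ fun j _ => hTi a i j]
      exact Finset.sum_eq_zero fun j _ => hT0 a i j
    have hgz : ∀ z, z ∈ closedBall p r → g z =
        h (u z) * Df e F (θ z) z + deriv h (u z) * Qf e F u (θ z) z := by
      intro z hz
      rw [hg, hTm]
      unfold Df Qf
      simp only [hfd _ _ _ z hz, Finset.mul_sum]
      rw [← Finset.sum_add_distrib]
      refine Finset.sum_congr rfl fun a _ => ?_
      rw [← Finset.sum_add_distrib]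
      refine Finset.sum_congr rfl fun i _ => ?_
      rw [← Finset.sum_add_distrib]
      refine Finset.sum_congr rfl fun j _ => ?_
      ring
    have hgo : ∀ z, z ∉ closedBall p r → g z = 0 := by
      intro z hz
      rw [hg, hTm]
      refine Finset.sum_eq_zero fun a _ => Finset.sum_eq_zero fun i _ =>
        Finset.sum_eq_zero fun j _ => ?_
      have hzS : z ∉ S := fun h' => hz (hSb h')
      simp only [hfd0 a i j z hzS, mul_zero, add_zero]
    have hL : ∀ᵐ z, κ * A.indicator (fun z => ‖θ z‖) z - M * K * B.indicator (fun z => ‖θ z‖) z ≤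
        g z := by
      filter_upwards [hgood] with z hz
      by_cases hzb : z ∈ closedBall p r
      · obtain ⟨q1, q2, q3⟩ := hz hzb
        rw [hgz z hzb]
        have hn := norm_nonneg (θ z)
        have a1 : κ * A.indicator (fun z => ‖θ z‖) z ≤ h (u z) * Df e F (θ z) z := by
          by_cases hzA : z ∈ A
          · rw [indicator_of_mem hzA]
            rw [hA] at hzA
            rw [h1 _ hzA.1 hzA.2, one_mul]
            exact q3
          · rw [indicator_of_notMem hzA, mul_zero]
            exact mul_nonneg (hnn _) ((mul_nonneg hκ.le hn).trans q3)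
        have a2 : -(M * K * B.indicator (fun z => ‖θ z‖) z) ≤ deriv h (u z) * Qf e F u (θ z) z := by
          have a3 := hdl (u z)
          have a4 := mul_le_mul_of_nonneg_right a3 q1
          refine le_trans ?_ a4
          by_cases hzB : z ∈ B
          · rw [indicator_of_mem hzB]
            rw [hB] at hzB
            have hzB' : R / 2 ≤ u z ∧ u z ≤ R := hzB
            rw [if_pos hzB']
            have a5 := mul_le_mul_of_nonneg_left q2 hM
            linarith
          · rw [indicator_of_notMem hzB]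
            rw [hB] at hzB
            have hzB' : ¬ (R / 2 ≤ u z ∧ u z ≤ R) := hzB
            rw [if_neg hzB']
            simp
        linarith
      · rw [hgo z hzb]
        have hu' := hout z hzb
        have hzA : z ∉ A := by
          rw [hA]
          rintro ⟨-, h'⟩
          linarith
        have hzB : z ∉ B := by
          rw [hB]
          rintro ⟨-, h'⟩
          linarith
        rw [indicator_of_notMem hzA, indicator_of_notMem hzB]
        simp
    have i1 : Integrable (A.indicator fun z => ‖θ z‖) :=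
      IntegrableOn.integrable_indicator hAi.norm hAc.measurableSet
    have i2 : Integrable (B.indicator fun z => ‖θ z‖) :=
      IntegrableOn.integrable_indicator hBi.norm hBc.measurableSet
    have h5 := integral_mono_ae ((i1.const_mul κ).sub (i2.const_mul (M * K))) hgi hL
    rw [hg0] at h5
    have h6 : ∫ z, (κ * A.indicator (fun z => ‖θ z‖) z - M * K * B.indicator (fun z => ‖θ z‖) z) =
        κ * (∫ z in A, ‖θ z‖) - M * K * ∫ z in B, ‖θ z‖ := by
      rw [integral_sub (i1.const_mul κ) (i2.const_mul (M * K)), integral_const_mul,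
        integral_const_mul, integral_indicator hAc.measurableSet,
        integral_indicator hBc.measurableSet]
    have h7 : ∫ z, (κ * A.indicator (fun z => ‖θ z‖) z - M * K * B.indicator (fun z => ‖θ z‖) z) ≤
        0 := h5
    rw [h6] at h7
    linarith
  -- monotone convergence
  obtain ⟨S0, hS0⟩ : ∃ S0 : Set (E d), S0 = {z | 0 < u z ∧ u z ≤ R / 2} := ⟨_, rfl⟩
  have hS0m : MeasurableSet S0 := by
    rw [hS0]
    exact (measurableSet_lt measurable_const huc.measurable).inter
      (measurableSet_le huc.measurable measurable_const)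
  obtain ⟨An, hAn⟩ : ∃ An : ℕ → Set (E d),
      An = fun n : ℕ => {z | 2 * (1 / ((n : ℝ) + 1)) ≤ u z ∧ u z ≤ R / 2} := ⟨_, rfl⟩
  have hAc : ∀ n, IsCompact (An n) := fun n => by
    rw [hAn]
    exact hcomp _ _ (by linarith)
  have hAS : ∀ n, An n ⊆ S0 := fun n z hz => by
    rw [hAn] at hz
    rw [hS0]
    have : 0 < 2 * (1 / ((n : ℝ) + 1)) := by positivity
    exact ⟨this.trans_le hz.1, hz.2⟩
  have hAi : ∀ n, IntegrableOn θ (An n) := fun n =>
    hθ.integrableOn_compact_subset (by
      rw [hAn]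
      exact hsub _ _ (by positivity) (by linarith)) (hAc n)
  have hint : IntegrableOn θ S0 := by
    have hcov : AECover (volume.restrict S0) atTop An := by
      refine ⟨?_, fun n => (hAc n).measurableSet⟩
      rw [ae_restrict_iff' hS0m]
      refine Eventually.of_forall fun z hz => ?_
      rw [hS0] at hz
      have h1 : Tendsto (fun n : ℕ => 2 * (1 / ((n : ℝ) + 1))) atTop (𝓝 (2 * 0)) :=
        tendsto_one_div_add_atTop_nhds_zero_nat.const_mul 2
      rw [mul_zero] at h1
      filter_upwards [h1.eventually_le_const hz.1] with n hn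
      rw [hAn]
      exact ⟨hn, hz.2⟩
    refine hcov.integrable_of_integral_norm_bounded ((M * K * ∫ z in B, ‖θ z‖) / κ)
      (fun n => (hAi n).mono_measure Measure.restrict_le_self) (Eventually.of_forall fun n => ?_)
    rw [Measure.restrict_restrict (hAc n).measurableSet, inter_eq_left.2 (hAS n), le_div_iff₀ hκ,
      mul_comm]
    have h1 := key (1 / ((n : ℝ) + 1)) (by positivity)
    rw [hAn]
    exact h1
  refine ⟨Real.sqrt (R / 2), Real.sqrt_pos.2 (by positivity), ?_⟩
  have h1 : closedBall p (Real.sqrt (R / 2)) \ {p} ⊆ S0 := by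
    rintro z ⟨hz1, hz2⟩
    rw [mem_closedBall, dist_eq_norm] at hz1
    have hz3 : z ≠ p := hz2
    rw [hS0]
    have h2 : 0 < ‖z - p‖ := norm_pos_iff.2 (sub_ne_zero.2 hz3)
    refine ⟨lt_of_lt_of_le (by positivity) (hu1 z), (hu2 z).trans ?_⟩
    have h3 := pow_le_pow_left₀ (norm_nonneg _) hz1 2
    rwa [Real.sq_sqrt (by positivity)] at h3
  have hnt : Nontrivial (E d) := by
    have : Nonempty (Fin d) := ⟨⟨0, by omega⟩⟩
    infer_instance
  have h2 : (closedBall p (Real.sqrt (R / 2)) \ {p} : Set (E d)) =ᵐ[volume]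
      closedBall p (Real.sqrt (R / 2)) := sdiff_null_ae_eq_self (measure_singleton p)
  exact (integrableOn_congr_set_ae h2).1 (hint.mono_set h1)

end Pool.Agent.H819.PU
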