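import Mathlib
import Pool.Agent.H819.PU.Off
import Pool.Agent.H819.PU.Punct
import Pool.Agent.H819.DR.Across

/-!
# Integrability at the points of countable sets is automatic
-/

set_option autoImplicit false

open Set Filter Topology MeasureTheory Metric
open scoped Manifold ContDiff ENNReal NNReal

noncomputable section

namespace Pool.Agent.H819.PU

open Pool.Agent.Y501.SY
open Pool.Agent.H819
open Pool.Agent.H819.DR (L1Closed)
open Pool.Agent.H819.LN (WeakClosed)

variable {d : ℕ} {X : Type} [TopologicalSpace X] [ChartedSpace (E d) X] [IsManifold (𝓡 d) ∞ X]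

namespace CantAux

open Pool.Agent.H819.LG (tr trD tr_injOn isOpen_trD tr_smooth pb_tr extF extF_symm inChart_sq)
open Pool.Agent.H819.DR.H962 (locInt_extF)

/-- extension by zero -/
theorem exists_ind {F : Type} [NormedAddCommGroup F] {f : E d → F} {Q : Set (E d)}
    (hQ : MeasurableSet Q) (h : IntegrableOn f Q) :
    ∃ b : E d → F, (∀ z ∈ Q, b z = f z) ∧ (∀ z, z ∉ Q → b z = 0) ∧ Integrable b :=
  ⟨Q.indicator f, fun z hz => indicator_of_mem hz _, fun z hz => indicator_of_notMem hz _,
    (integrable_indicator_iff hQ).2 h⟩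

/-- integrability near a point is an open condition -/
theorem atF_open {f : E d → (E d) [⋀^Fin 2]→L[ℝ] ℝ} {z : E d} (h : IntegrableAtFilter f (𝓝 z)) :
    ∀ᶠ y in 𝓝 z, IntegrableAtFilter f (𝓝 y) := by
  obtain ⟨s, hs, hi⟩ := h
  filter_upwards [eventually_mem_nhds_iff.2 hs] with y hy
  exact ⟨s, hy, hi⟩

omit [IsManifold (𝓡 d) ∞ X] in
theorem intNear_iff {θ : Form d X 2} {p : X} :
    IntNear θ p ↔ IntegrableAtFilter (pb (chartAt (E d) p).symm θ) (𝓝 (chartAt (E d) p p)) := by
  constructor
  · rintro ⟨r, hr, h⟩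
    exact ⟨_, closedBall_mem_nhds _ hr, h⟩
  · rintro ⟨s, hs, h⟩
    obtain ⟨r, hr, hrs⟩ := nhds_basis_closedBall.mem_iff.1 hs
    exact ⟨r, hr, h.mono_set hrs⟩

/-- change of charts -/
theorem transfer [T2Space X] (x₀ x₁ : X) {x : X} (h0 : x ∈ (chartAt (E d) x₀).source)
    (h1 : x ∈ (chartAt (E d) x₁).source) {θ : Form d X 2}
    (h : IntegrableAtFilter (pb (chartAt (E d) x₁).symm θ) (𝓝 (chartAt (E d) x₁ x))) :
    IntegrableAtFilter (pb (chartAt (E d) x₀).symm θ) (𝓝 (chartAt (E d) x₀ x)) := by
  classical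
  obtain ⟨s, hs, hi⟩ := h
  have ht1 : (chartAt (E d) x₁).target ∈ 𝓝 (chartAt (E d) x₁ x) :=
    (chartAt (E d) x₁).open_target.mem_nhds ((chartAt (E d) x₁).map_source h1)
  obtain ⟨r, hr, hrs⟩ := nhds_basis_closedBall.mem_iff.1 (inter_mem hs ht1)
  set Q : Set (E d) := closedBall (chartAt (E d) x₁ x) r with hQ
  have hQc : IsCompact Q := isCompact_closedBall _ _
  have hQt : Q ⊆ (chartAt (E d) x₁).target := fun z hz => (hrs hz).2
  set f := pb (chartAt (E d) x₁).symm θ with hf
  have hiQ : IntegrableOn f Q := hi.mono_set fun z hz => (hrs hz).1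
  obtain ⟨b, hb1, hb0', ib⟩ := exists_ind hQc.measurableSet hiQ
  have hb0 : ∀ z, z ∉ Q → b z = 0 := fun z hz => hb0' z hz
  have hL := locInt_extF ib hQc hQt hb0 x₀ (chartAt (E d) x₀ x) ((chartAt (E d) x₀).map_source h0)
  rw [(chartAt (E d) x₀).open_target.nhdsWithin_eq ((chartAt (E d) x₀).map_source h0)] at hL
  obtain ⟨s', hs', hi'⟩ := hL
  -- a neighbourhood which is mapped into `Q`
  have htD : chartAt (E d) x₀ x ∈ trD (d := d) x₀ x₁ := by
    refine ⟨(chartAt (E d) x₀).map_source h0, ?_⟩
    change (chartAt (E d) x₀).symm (chartAt (E d) x₀ x) ∈ (chartAt (E d) x₁).source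
    rw [(chartAt (E d) x₀).left_inv h0]
    exact h1
  have htr : tr (d := d) x₀ x₁ (chartAt (E d) x₀ x) = chartAt (E d) x₁ x := by
    unfold tr
    rw [(chartAt (E d) x₀).left_inv h0]
  have hcont : ContinuousAt (tr (d := d) x₀ x₁) (chartAt (E d) x₀ x) :=
    ((tr_smooth x₀ x₁).contDiffAt ((isOpen_trD x₀ x₁).mem_nhds htD)).continuousAt
  have hQn : tr (d := d) x₀ x₁ ⁻¹' Q ∈ 𝓝 (chartAt (E d) x₀ x) := by
    apply hcont
    rw [htr]
    exact closedBall_mem_nhds _ hr
  obtain ⟨ρ, hρ, hρs⟩ := nhds_basis_closedBall.mem_iff.1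
    (inter_mem (inter_mem hs' hQn) ((isOpen_trD x₀ x₁).mem_nhds htD))
  refine ⟨_, closedBall_mem_nhds _ hρ, ?_⟩
  refine (hi'.mono_set fun z hz => (hρs hz).1.1).congr_fun (fun z hz => ?_)
    isClosed_closedBall.measurableSet
  have hzD := (hρs hz).2
  have hzQ : tr x₀ x₁ z ∈ Q := (hρs hz).1.2
  rw [pb_tr (extF x₁ b) hzD, pb_tr θ hzD, extF_symm x₁ b (hQt hzQ), hb1 _ hzQ]

/-- the bad set in a chart is a null set -/
theorem null_chart {S : Set X} (hS0 : HNull d S) (x₀ : X) :
    volume (chartAt (E d) x₀ '' (S ∩ (chartAt (E d) x₀).source)) = 0 := by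
  set T := chartAt (E d) x₀ '' (S ∩ (chartAt (E d) x₀).source) with hT
  rcases T.eq_empty_or_nonempty with h0 | ⟨a, -⟩
  · rw [h0]; exact measure_empty
  have : Nonempty (EuclideanSpace ℝ (Fin d)) := ⟨a⟩
  have hμ : (volume : Measure (EuclideanSpace ℝ (Fin d))) =
      (volume : Measure (EuclideanSpace ℝ (Fin d))).addHaarScalarFactor μH[(d : ℝ)] •
        (μH[(d : ℝ)] : Measure (EuclideanSpace ℝ (Fin d))) := by
    have h1 : (μH[(d : ℝ)] : Measure (EuclideanSpace ℝ (Fin d))).IsAddHaarMeasure := by
      simpa using MeasureTheory.isAddHaarMeasure_hausdorffMeasure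
        (E := EuclideanSpace ℝ (Fin d))
    exact Measure.isAddLeftInvariant_eq_smul _ _
  have h1 : (μH[(d : ℝ)] : Measure (E d)) T = 0 := by
    have h2 : (((d - 3 : ℕ) : ℕ) : ℝ) ≤ (d : ℝ) := by exact_mod_cast Nat.sub_le d 3
    exact le_antisymm ((Measure.hausdorffMeasure_mono h2 T).trans (hS0 x₀).le) zero_le
  rw [hμ]
  simp only [Measure.smul_apply]
  rw [h1, smul_zero]

omit [IsManifold (𝓡 d) ∞ X] in
theorem pb_two (θ : Form d X 2) (x₀ : X) (z v w : E d) : pb (chartAt (E d) x₀).symm θ z ![v, w] =
    θ ((chartAt (E d) x₀).symm z) ![Pool.Agent.Y455.SY.A x₀ z v, Pool.Agent.Y455.SY.A x₀ z w] := by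
  unfold pb
  rw [ContinuousAlternatingMap.compContinuousLinearMap_apply]
  congr 1
  funext i
  fin_cases i <;> rfl

theorem A_inChart (J : End d X) (x₀ : X) {z : E d} (hz : z ∈ (chartAt (E d) x₀).target) (v : E d) :
    Pool.Agent.Y455.SY.A x₀ z (inChart J x₀ z v) =
      J ((chartAt (E d) x₀).symm z) (Pool.Agent.Y455.SY.A x₀ z v) :=
  Pool.Agent.Y455.SY.AB x₀ hz _

/-- weak closedness in a part of a chart -/
theorem weakClosed_part (hd : 3 ≤ d) {S : Set X} (hS : IsClosed S) (hS0 : HNull d S)
    {θ : Form d X 2} (hθ : SmoothOff S θ) (hcl : ClosedOff S θ) (x₀ : X) {U N : Set (E d)}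
    (hU : IsOpen U) (hN : IsClosed N) (hUN : U ⊆ N) (hNt : N ⊆ (chartAt (E d) x₀).target)
    (hi : LocallyIntegrableOn (pb (chartAt (E d) x₀).symm θ) U) :
    WeakClosed U (pb (chartAt (E d) x₀).symm θ) := by
  set S' : Set (E d) := N ∩ (chartAt (E d) x₀).symm ⁻¹' S with hS'
  have hS'c : IsClosed S' :=
    ((chartAt (E d) x₀).continuousOn_symm.mono hNt).preimage_isClosed_of_isClosed hN hS
  have hS'0 : μH[((d - 3 : ℕ) : ℝ)] (S' ∩ U) = 0 := by
    refine measure_mono_null ?_ (hS0 x₀)
    rintro z ⟨⟨hzN, hzS⟩, -⟩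
    exact ⟨(chartAt (E d) x₀).symm z, ⟨hzS, (chartAt (E d) x₀).map_target (hNt hzN)⟩,
      (chartAt (E d) x₀).right_inv (hNt hzN)⟩
  have hopen : IsOpen (U \ S') := hU.sdiff hS'c
  have hsm : ContMDiffOn (𝓡 d) (𝓡 d) ∞ (chartAt (E d) x₀).symm (U \ S') :=
    contMDiffOn_chart_symm.mono fun z hz => hNt (hUN hz.1)
  have hoff : ∀ z ∈ U \ S', (chartAt (E d) x₀).symm z ∉ S := fun z hz h =>
    hz.2 ⟨hUN hz.1, h⟩
  exact Pool.Agent.H819.DR.weakClosed_across hd hU hS'c hS'0 hi
    (Pool.Agent.H819.LN.smooth_part hopen (hθ _ _ hopen hsm hoff) (hcl _ _ hopen hsm hoff))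

/-- integrability at the points outside of `S` -/
theorem intNear_off {S : Set X} (hS : IsClosed S) {θ : Form d X 2} (hθ : SmoothOff S θ) {p : X}
    (hp : p ∉ S) : IntNear θ p := by
  rw [intNear_iff]
  set U : Set (E d) := (chartAt (E d) p).target ∩ (chartAt (E d) p).symm ⁻¹' Sᶜ with hU
  have hUo : IsOpen U := (chartAt (E d) p).isOpen_inter_preimage_symm hS.isOpen_compl
  have h1 : ContDiffOn ℝ ∞ (pb (chartAt (E d) p).symm θ) U :=
    hθ U _ hUo (contMDiffOn_chart_symm.mono inter_subset_left) fun z hz => hz.2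
  have h2 : LocallyIntegrableOn (pb (chartAt (E d) p).symm θ) U :=
    h1.continuousOn.locallyIntegrableOn hUo.measurableSet
  have hpU : chartAt (E d) p p ∈ U := by
    refine ⟨mem_chart_target _ _, ?_⟩
    change (chartAt (E d) p).symm (chartAt (E d) p p) ∈ Sᶜ
    rw [(chartAt (E d) p).left_inv (mem_chart_source _ _)]
    exact hp
  have h3 := h2 _ hpU
  rwa [hUo.nhdsWithin_eq hpU] at h3

/-- the bad set is closed -/
theorem isClosed_bad [T2Space X] (θ : Form d X 2) : IsClosed {p | ¬ IntNear θ p} := by
  have h1 : IsOpen {p : X | IntNear θ p} := by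
    rw [isOpen_iff_mem_nhds]
    intro p hp
    have h2 := atF_open (intNear_iff.1 hp)
    have h3 := (chartAt (E d) p).continuousAt (mem_chart_source _ p)
    filter_upwards [h3.eventually h2, (chartAt (E d) p).open_source.mem_nhds (mem_chart_source _ p)]
      with q hq hqs
    exact intNear_iff.2 (transfer q p (mem_chart_source _ q) hqs hq)
  have h2 : {p : X | ¬ IntNear θ p} = {p : X | IntNear θ p}ᶜ := rfl
  rw [h2]
  exact h1.isClosed_compl

/-- a nonempty countable closed set has an isolated point -/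
theorem exists_isolated [T2Space X] [CompactSpace X] {B : Set X} (hB : IsClosed B)
    (hc : B.Countable) (hne : B.Nonempty) : ∃ p ∈ B, ∃ O : Set X, IsOpen O ∧ B ∩ O = {p} := by
  have : CompactSpace B := isCompact_iff_compactSpace.1 hB.isCompact
  have : Countable B := hc.to_subtype
  have : Nonempty B := hne.to_subtype
  obtain ⟨⟨p, hp⟩, q, hq⟩ := nonempty_interior_of_iUnion_of_closed
    (f := fun x : B => ({x} : Set B)) (fun _ => isClosed_singleton) (iUnion_of_singleton _)
  have h1 : IsOpen ({⟨p, hp⟩} : Set B) := by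
    have h2 : interior ({⟨p, hp⟩} : Set B) = {⟨p, hp⟩} := by
      apply Subset.antisymm interior_subset
      intro x hx
      have hx' : x = ⟨p, hp⟩ := hx
      have h3 : q ∈ ({⟨p, hp⟩} : Set B) := interior_subset hq
      have h4 : q = ⟨p, hp⟩ := h3
      rw [hx', ← h4]
      rw [← h4] at hq
      exact hq
    rw [← h2]
    exact isOpen_interior
  obtain ⟨O, hO, hOp⟩ := isOpen_induced_iff.1 h1
  refine ⟨p, hp, O, hO, ?_⟩
  ext x
  constructor
  · rintro ⟨hx, hxO⟩
    have h2 : (⟨x, hx⟩ : B) ∈ (Subtype.val ⁻¹' O : Set B) := hxO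
    rw [hOp] at h2
    have h3 : (⟨x, hx⟩ : B) = ⟨p, hp⟩ := h2
    exact congrArg Subtype.val h3
  · intro hx
    rw [mem_singleton_iff] at hx
    rw [hx]
    have h2 : (⟨p, hp⟩ : B) ∈ (Subtype.val ⁻¹' O : Set B) := by
      rw [hOp]
      exact mem_singleton _
    exact ⟨hp, h2⟩

end CantAux

open CantAux

/-- **Integrability near the points of a countable set is automatic.**

Proof.  (0) `S` is Lebesgue null in all charts (`μH[d - 3]` null implies `μH[d]` null,
`Measure.hausdorffMeasure_zero_or_top`/`hausdorffMeasure_mono`, and `μH[finrank]` is Haar; or use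
`AcrossAux.null_preimage`), so the hypotheses at the points outside `S` hold a.e. in charts.
(1) Integrability is a local condition independent of the chart: if `θ` is integrable near `p` in
the chart at `p` then in each chart at `x₀` whose source contains `p` it is integrable near the
coordinate of `p` (change of variables, `LG.chart_compare` in `LG/CV.lean`, or `locInt_extF` /
`chart_compareK` in `DR/ExtW.lean`), and conversely.  At the points outside `S` the form is smooth
in a neighbourhood (closed `S`), so locally bounded and integrable.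
(2) Let `B = {p | ¬ IntNear θ p}`.  It is closed by (1) (`IntNear` is an open condition) and
`B ⊆ S ∩ D`, so it is compact and countable.  Suppose it is nonempty.  A nonempty countable compact
Hausdorff space has an isolated point (Baire: it is the countable union of its points, so some
point is open: `nonempty_interior_of_iUnion_of_closed`, compact Hausdorff spaces are Baire).  So
there are `p ∈ B` and an open `O ∋ p` with `B ∩ O = {p}`.  In the chart at `p` take a ball
`U = ball c R`, `c = chartAt p p`, `closedBall c R ⊆ target`, mapped into `O`.  Then `pb .. θ` is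
locally integrable on `U \ {c}` by (1).  It is weakly closed on `U \ {c}`:
the set `S' = (chartAt (E d) p) '' (S ∩ source) ∩ closedBall c R` is compact, `μH[d - 3] S' = 0`,
on `U \ S'` the form is smooth and closed, hence weakly closed there (`LN.smooth_part`), and
`DR.weakClosed_across` with the open set `U \ {c}` and the closed set `S'` gives it on `U \ {c}`
(note `(U \ {c}) \ S' ⊆ U \ S'`).
(3) `mass_puncture` with `J` replaced by `inChart J p` (of class `C^1`, square `-1` by
`LG.inChart_sq`): `θ` is integrable near `c`, i.e. `IntNear θ p`, a contradiction.  Hence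
`B = ∅` and `L1Closed.int` by (1).
(4) `L1Closed.closed`: in each chart and for each test function, again by `smooth_part` off `S` and
`weakClosed_across`; the set `chartAt x₀ '' (S ∩ source)` is only relatively closed in the target:
localize with a finite partition of unity on `tsupport φ` by balls whose closures are in the target
(`WeakClosed` on a neighbourhood of each point implies `WeakClosed`), or intersect with a compact
neighbourhood `N` of `tsupport φ` in the target: `S' = chartAt '' (S ∩ source) ∩ N` is compact, apply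
`weakClosed_across` with the open set `interior N`. -/
theorem l1_of_countable [T2Space X] [CompactSpace X] (hd : 3 ≤ d) {J : End d X}
    (hJ2 : ∀ (x : X) (v : TangentSpace (𝓡 d) x), J x (J x v) = -v)
    (hJ1 : ∀ x₀, ContDiffOn ℝ 1 (inChart J x₀) (chartAt (E d) x₀).target)
    {S : Set X} (hS : IsClosed S) (hS0 : HNull d S) {θ : Form d X 2} (hθ : SmoothOff S θ)
    (hcl : ClosedOff S θ)
    (hpos : ∀ x, x ∉ S → ∀ v : TangentSpace (𝓡 d) x, 0 ≤ θ x ![v, J x v]) {C : ℝ}
    (hdist : ∀ x, x ∉ S → ∀ u v : TangentSpace (𝓡 d) x,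
      θ x ![u, v] ^ 2 ≤ C * θ x ![u, J x u] * θ x ![v, J x v])
    {D : Set X} (hD : D.Countable) (hint : ∀ p ∈ S, p ∉ D → IntNear θ p) : L1Closed θ := by
  -- there are no bad points
  have hall : ∀ p : X, IntNear θ p := by
    set B : Set X := {p | ¬ IntNear θ p} with hB
    have hBc : IsClosed B := isClosed_bad θ
    have hBD : B ⊆ D := by
      intro p hp
      by_contra hpD
      apply hp
      by_cases hpS : p ∈ S
      · exact hint p hpS hpD
      · exact intNear_off hS hθ hpS
    rcases B.eq_empty_or_nonempty with h0 | h0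
    · intro p
      by_contra hp
      have : p ∈ B := hp
      rw [h0] at this
      exact this
    exfalso
    obtain ⟨p, hp, O, hO, hOp⟩ := exists_isolated hBc (hD.mono hBD) h0
    apply hp
    set f := pb (chartAt (E d) p).symm θ with hf
    set c := chartAt (E d) p p with hc
    have hpO : p ∈ O := by
      have : p ∈ B ∩ O := by rw [hOp]; exact mem_singleton _
      exact this.2
    have hopen : IsOpen ((chartAt (E d) p).target ∩ (chartAt (E d) p).symm ⁻¹' O) :=
      (chartAt (E d) p).isOpen_inter_preimage_symm hO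
    have hcm : c ∈ (chartAt (E d) p).target ∩ (chartAt (E d) p).symm ⁻¹' O := by
      refine ⟨mem_chart_target _ _, ?_⟩
      change (chartAt (E d) p).symm (chartAt (E d) p p) ∈ O
      rw [(chartAt (E d) p).left_inv (mem_chart_source _ _)]
      exact hpO
    obtain ⟨R, hR, hRs⟩ := nhds_basis_closedBall.mem_iff.1 (hopen.mem_nhds hcm)
    have hbt : closedBall c R ⊆ (chartAt (E d) p).target := fun z hz => (hRs hz).1
    have hbb : ball c R ⊆ closedBall c R := ball_subset_closedBall
    -- integrability outside of the centre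
    have hloc : LocallyIntegrableOn f (ball c R \ {c}) := by
      intro z hz
      have hzt := hbt (hbb hz.1)
      have hq : (chartAt (E d) p).symm z ∈ (chartAt (E d) p).source :=
        (chartAt (E d) p).map_target hzt
      have hqp : (chartAt (E d) p).symm z ≠ p := by
        intro h
        apply hz.2
        have h5 := (chartAt (E d) p).right_inv hzt
        rw [h] at h5
        exact h5.symm
      have hqB : IntNear θ ((chartAt (E d) p).symm z) := by
        by_contra hcon
        have h1 : (chartAt (E d) p).symm z ∈ B ∩ O := ⟨hcon, (hRs (hbb hz.1)).2⟩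
        rw [hOp] at h1
        exact hqp h1
      have h1 := transfer p ((chartAt (E d) p).symm z) hq (mem_chart_source _ _)
        (intNear_iff.1 hqB)
      rw [(chartAt (E d) p).right_inv hzt] at h1
      exact h1.filter_mono nhdsWithin_le_nhds
    have hw : WeakClosed (ball c R \ {c}) f :=
      weakClosed_part hd hS hS0 hθ hcl p (isOpen_ball.sdiff isClosed_singleton)
        isClosed_closedBall (fun z hz => hbb hz.1) hbt hloc
    have hae : ∀ᵐ z ∂(volume.restrict (ball c R)), z ∈ (chartAt (E d) p).target ∧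
        (chartAt (E d) p).symm z ∉ S := by
      have h1 : ∀ᵐ z : E d, z ∉ chartAt (E d) p '' (S ∩ (chartAt (E d) p).source) := by
        rw [ae_iff]
        have h2 : {a : E d | ¬ a ∉ chartAt (E d) p '' (S ∩ (chartAt (E d) p).source)} =
            chartAt (E d) p '' (S ∩ (chartAt (E d) p).source) := by
          ext a
          simp only [mem_ofPred_eq, not_not]
        rw [h2]
        exact null_chart hS0 p
      filter_upwards [ae_restrict_of_ae h1, ae_restrict_mem isOpen_ball.measurableSet] with z hz hzb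
      have hzt := hbt (hbb hzb)
      refine ⟨hzt, fun h => hz ⟨_, ⟨h, (chartAt (E d) p).map_target hzt⟩, ?_⟩⟩
      exact (chartAt (E d) p).right_inv hzt
    obtain ⟨r, hr, hir⟩ := mass_puncture hd isOpen_ball (mem_ball_self hR)
      ((hJ1 p).mono fun z hz => hbt (hbb hz))
      (fun z hz u => Pool.Agent.H819.LG.inChart_sq hJ2 p (hbt (hbb hz)) u) hloc hw (C := C)
      (by
        filter_upwards [hae] with z hz x
        rw [hf, pb_two, A_inChart J p hz.1]
        exact hpos _ hz.2 _)
      (by
        filter_upwards [hae] with z hz x y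
        rw [hf, pb_two, pb_two, pb_two, A_inChart J p hz.1, A_inChart J p hz.1]
        exact hdist _ hz.2 _ _)
    exact ⟨r, hr, hir⟩
  have hloc : ∀ x₀ : X, LocallyIntegrableOn (pb (chartAt (E d) x₀).symm θ)
      (chartAt (E d) x₀).target := by
    intro x₀ z hz
    have h1 := transfer x₀ ((chartAt (E d) x₀).symm z) ((chartAt (E d) x₀).map_target hz)
      (mem_chart_source _ _) (intNear_iff.1 (hall _))
    rw [(chartAt (E d) x₀).right_inv hz] at h1
    exact h1.filter_mono nhdsWithin_le_nhds
  refine ⟨hloc, fun x₀ φ hφ hφc hφt a b c => ?_⟩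
  obtain ⟨N, hN, hKN, hNt⟩ := exists_compact_between hφc.isCompact
    (chartAt (E d) x₀).open_target hφt
  exact weakClosed_part hd hS hS0 hθ hcl x₀ isOpen_interior hN.isClosed interior_subset hNt
    ((hloc x₀).mono_set (interior_subset.trans hNt)) φ hφ hφc hKN a b c

end Pool.Agent.H819.PU
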