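import Mathlib
import Pool.Agent.H819.DR.Across

/-!
# Closed one-forms off small sets are exact
-/

set_option autoImplicit false

open Set Filter Topology MeasureTheory Metric
open scoped ContDiff ENNReal NNReal RealInnerProductSpace

noncomputable section

namespace Pool.Agent.H819.PU

open Pool.Agent.Y501.SY (E)

variable {d : ℕ}

namespace GenPosAux

section

variable {F : Type*} [NormedAddCommGroup F] [NormedSpace ℝ F] {W : Set F} {m : F → F → ℝ}

theorem add_of_compact (hW : IsOpen W)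
    (hadd : ∀ Q : Set F, Convex ℝ Q → IsOpen Q → Q ⊆ W → ∀ a ∈ Q, ∀ b ∈ Q, ∀ c ∈ Q,
      m a b + m b c = m a c)
    {K : Set F} (hK : IsCompact K) (hKc : Convex ℝ K) (hKW : K ⊆ W) {a b c : F} (ha : a ∈ K)
    (hb : b ∈ K) (hc : c ∈ K) : m a b + m b c = m a c := by
  obtain ⟨δ, hδ, hth⟩ := hK.exists_thickening_subset_open hW hKW
  exact hadd _ (hKc.thickening δ) isOpen_thickening hth a (self_subset_thickening hδ K ha) b
    (self_subset_thickening hδ K hb) c (self_subset_thickening hδ K hc)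

theorem isCompact_seg (a b : F) : IsCompact (segment ℝ a b) := by
  rw [← convexHull_pair]
  exact (Set.toFinite _).isCompact_convexHull ℝ

/-- perturbation of a segment by a small translation -/
theorem pert (hW : IsOpen W)
    (hadd : ∀ Q : Set F, Convex ℝ Q → IsOpen Q → Q ⊆ W → ∀ a ∈ Q, ∀ b ∈ Q, ∀ c ∈ Q,
      m a b + m b c = m a c) {a b : F} (hab : segment ℝ a b ⊆ W) :
    ∃ δ > 0, ∀ σ : F, ‖σ‖ < δ → a + σ ∈ W ∧
      m a b = m a (a + σ) + m (a + σ) (b + σ) + m (b + σ) b ∧ m a (a + σ) + m (a + σ) a = 0 := by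
  obtain ⟨δ, hδ, hth⟩ := (isCompact_seg a b).exists_thickening_subset_open hW hab
  refine ⟨δ, hδ, fun σ hσ => ?_⟩
  have hc : Convex ℝ (thickening δ (segment ℝ a b)) := (convex_segment a b).thickening δ
  have h1 := hadd _ hc isOpen_thickening hth
  have ha : a ∈ thickening δ (segment ℝ a b) :=
    self_subset_thickening hδ _ (left_mem_segment ℝ a b)
  have hb : b ∈ thickening δ (segment ℝ a b) :=
    self_subset_thickening hδ _ (right_mem_segment ℝ a b)
  have ha' : a + σ ∈ thickening δ (segment ℝ a b) :=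
    mem_thickening_iff.2 ⟨a, left_mem_segment ℝ a b, by simpa [dist_eq_norm] using hσ⟩
  have hb' : b + σ ∈ thickening δ (segment ℝ a b) :=
    mem_thickening_iff.2 ⟨b, right_mem_segment ℝ a b, by simpa [dist_eq_norm] using hσ⟩
  have e1 := h1 a ha (a + σ) ha' (b + σ) hb'
  have e2 := h1 a ha (b + σ) hb' b hb
  have e3 := h1 a ha (a + σ) ha' a ha
  have e4 := h1 a ha a ha a ha
  refine ⟨hth ha', by linarith, by linarith⟩

end

/-- small translations with a null set of exceptions -/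
theorem exists_small {P : E d → Prop} (h : ∀ᵐ z : E d, P z) (a : E d) {δ : ℝ} (hδ : 0 < δ) :
    ∃ σ : E d, ‖σ‖ < δ ∧ P (a + σ) := by
  have h1 : ∃ z ∈ ball a δ, P z := by
    by_contra hne
    push Not at hne
    have h2 : volume (ball a δ) = 0 := by
      refine measure_mono_null (fun z hz => ?_) (ae_iff.1 h)
      exact hne z hz
    exact (measure_ball_pos volume a hδ).ne' h2
  obtain ⟨z, hz, hP⟩ := h1
  refine ⟨z - a, by simpa [dist_eq_norm] using hz, ?_⟩
  rwa [add_sub_cancel]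

/-- the integral over a closed quadrilateral is zero -/
theorem quad (hd : 3 ≤ d) {S U : Set (E d)} (hU : IsOpen U) (hc : Convex ℝ U)
    (hS : IsCompact S) (h0 : μH[((d - 3 : ℕ) : ℝ)] S = 0) {m : E d → E d → ℝ}
    (hadd : ∀ Q : Set (E d), Convex ℝ Q → IsOpen Q → Q ⊆ U \ S → ∀ a ∈ Q, ∀ b ∈ Q, ∀ c ∈ Q,
      m a b + m b c = m a c) {a b c e : E d} (hab : segment ℝ a b ⊆ U \ S)
    (hbc : segment ℝ b c ⊆ U \ S) (hce : segment ℝ c e ⊆ U \ S) (hea : segment ℝ e a ⊆ U \ S) :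
    m a b + m b c + m c e + m e a = 0 := by
  have hW : IsOpen (U \ S) := hU.sdiff hS.isClosed
  obtain ⟨δ₁, hδ₁, h₁⟩ := pert hW hadd hab
  obtain ⟨δ₂, hδ₂, h₂⟩ := pert hW hadd hbc
  obtain ⟨δ₃, hδ₃, h₃⟩ := pert hW hadd hce
  obtain ⟨δ₄, hδ₄, h₄⟩ := pert hW hadd hea
  obtain ⟨p, hp, p1, p2, p3⟩ := Pool.Agent.H819.DR.AcrossAux.exists_proj hd (b - a) (c - a) (e - a)
  have hδ : 0 < min (min δ₁ δ₂) (min δ₃ δ₄) := lt_min (lt_min hδ₁ hδ₂) (lt_min hδ₃ hδ₄)
  obtain ⟨σ, hσ, hpσ⟩ := exists_small (Pool.Agent.H819.DR.AcrossAux.null_preimage p hp hS h0) a hδ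
  simp only [lt_min_iff] at hσ
  obtain ⟨⟨s1, s2⟩, s3, s4⟩ := hσ
  obtain ⟨wa, ea, ea'⟩ := h₁ σ s1
  obtain ⟨wb, eb, eb'⟩ := h₂ σ s2
  obtain ⟨wc, ec, ec'⟩ := h₃ σ s3
  obtain ⟨we, ee, ee'⟩ := h₄ σ s4
  set K : Set (E d) := convexHull ℝ {a + σ, b + σ, c + σ, e + σ} with hK
  have hKc : IsCompact K := (Set.toFinite _).isCompact_convexHull ℝ
  have hKU : K ⊆ U := by
    refine convexHull_min ?_ hc
    rintro z (rfl | rfl | rfl | rfl)
    · exact wa.1
    · exact wb.1
    · exact wc.1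
    · exact we.1
  have hKp : K ⊆ {z | p z = p (a + σ)} := by
    refine convexHull_min ?_ ?_
    · rw [map_sub, sub_eq_zero] at p1 p2 p3
      rintro z (rfl | rfl | rfl | rfl) <;> simp [*]
    · exact (convex_singleton (p (a + σ))).is_linear_preimage p.toLinearMap.isLinear
  have hKS : K ⊆ U \ S := by
    refine fun z hz => ⟨hKU hz, fun hzS => hpσ ⟨z, hzS, hKp hz⟩⟩
  have hm : ∀ z ∈ ({a + σ, b + σ, c + σ, e + σ} : Set (E d)), z ∈ K :=
    fun z hz => subset_convexHull ℝ _ hz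
  have ka : a + σ ∈ K := hm _ (by simp)
  have kb : b + σ ∈ K := hm _ (by simp)
  have kc : c + σ ∈ K := hm _ (by simp)
  have ke : e + σ ∈ K := hm _ (by simp)
  have f1 := add_of_compact hW hadd hKc (convex_convexHull ℝ _) hKS ka kb kc
  have f2 := add_of_compact hW hadd hKc (convex_convexHull ℝ _) hKS ka kc ke
  have f3 := add_of_compact hW hadd hKc (convex_convexHull ℝ _) hKS ka ke ka
  have f4 := add_of_compact hW hadd hKc (convex_convexHull ℝ _) hKS ka ka ka
  linarith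

/-- almost parallel segments which avoid the set -/
theorem exists_seg (hd : 3 ≤ d) {S U : Set (E d)} (hU : IsOpen U) (hc : Convex ℝ U)
    (hS : IsCompact S) (h0 : μH[((d - 3 : ℕ) : ℝ)] S = 0) {x₀ x : E d} {r ρ : ℝ} (hr : 0 < r)
    (hρ : 0 < ρ) (h1 : ball x₀ r ⊆ U \ S) (hx : x ∈ U \ S) :
    ∃ y ∈ ball x₀ r, ∃ z ∈ ball x ρ, segment ℝ y z ⊆ U \ S := by
  obtain ⟨ε, hε, hεU⟩ := Metric.isOpen_iff.1 hU x hx.1
  obtain ⟨p, hp, p1, p2, p3⟩ := Pool.Agent.H819.DR.AcrossAux.exists_proj hd (x - x₀) 0 0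
  obtain ⟨σ, hσ, hpσ⟩ := exists_small (Pool.Agent.H819.DR.AcrossAux.null_preimage p hp hS h0) x₀
    (lt_min hr (lt_min hρ hε))
  simp only [lt_min_iff] at hσ
  obtain ⟨s1, s2, s3⟩ := hσ
  have hy : x₀ + σ ∈ ball x₀ r := by simpa [dist_eq_norm] using s1
  refine ⟨x₀ + σ, hy, x + σ, by simpa [dist_eq_norm] using s2, fun z hz => ⟨?_, fun hzS => ?_⟩⟩
  · refine hc.segment_subset (h1 hy).1 (hεU ?_) hz
    simpa [dist_eq_norm] using s3
  · refine hpσ ⟨z, hzS, ?_⟩
    have : segment ℝ (x₀ + σ) (x + σ) ⊆ {z | p z = p (x₀ + σ)} := by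
      have hcv : Convex ℝ {z | p z = p (x₀ + σ)} :=
        (convex_singleton (p (x₀ + σ))).is_linear_preimage p.toLinearMap.isLinear
      refine hcv.segment_subset rfl ?_
      rw [map_sub, sub_eq_zero] at p1
      simp [p1]
    exact this hz

end GenPosAux

open GenPosAux

/-- **Closed one-forms on `U ∖ S` are exact** if `U` is convex and open and `S` is compact with
`H^(d - 3) (S) = 0` (general position).

Proof.  Put `W = U \ S` (open).  For a convex open (or convex compact) set `Q ⊆ W` the form has a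
primitive on a convex open neighbourhood
(`Convex.exists_forall_hasFDerivAt_of_fderiv_symmetric`; a compact convex `Q ⊆ W` has a convex
open neighbourhood `thickening δ Q ⊆ W`, `IsCompact.exists_thickening_subset_open`,
`Convex.thickening`); two primitives on a convex open set differ by a constant.  Let
`m a b = h b - h a` for a primitive `h` near the segment `[a, b] ⊆ W` (well defined; or use
`curveIntegral ν (.segment a b)` and
`Convex.curveIntegral_segment_add_eq_of_hasFDerivWithinAt_symmetric`); `m a b + m b c = m a c` if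
the triangle `convexHull {a, b, c}` is contained in `W`.
If `W` is empty nothing has to be shown.  Otherwise fix `x₀ ∈ W`, `r₀ > 0` with
`B₀ = ball x₀ r₀ ⊆ W`, and for `x ∈ W` a radius `r x > 0` with `ball x (r x) ⊆ W`.  For `x ∈ W` a
vector `τ` is good if `‖τ‖ < min r₀ (r x)` and the segment `[x₀ + τ, x + τ]` is contained in `W`;
put `Φ x τ = m x₀ (x₀ + τ) + m (x₀ + τ) (x + τ) + m (x + τ) x`.
(1) There are good `τ`: let `p` be a surjective linear map onto `ℝ ^ (d - 3)` which kills `x - x₀`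
(`Pool.Agent.H819.DR.AcrossAux.exists_proj`).  For almost all `z` one has `p z ∉ p '' S`
(`null_preimage`); so there is a small `τ` with `p (x₀ + τ) ∉ p '' S`, and the whole line through
`x₀ + τ` in the direction `x - x₀` misses `S`; the segment is in `U` by convexity.
(2) `Φ x τ` does not depend on the good `τ`: for good `τ, τ'` and all sufficiently small `σ` the
vectors `τ + σ` and `τ' + σ` are good and `Φ x (τ + σ) = Φ x τ`, `Φ x (τ' + σ) = Φ x τ'` (the hull
of `[x₀ + τ, x + τ]` and its translate by `σ` is contained in a convex neighbourhood of the segment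
inside `W`, the other pieces are in the balls).  Choose `σ` such that moreover
`p (x₀ + σ) ∉ p '' S`, where `p` kills `x - x₀`, `τ`, `τ'`; then the hull of
`x₀ + τ + σ, x + τ + σ, x + τ' + σ, x₀ + τ' + σ` misses `S`, is contained in `W`, and
additivity gives `Φ x (τ + σ) = Φ x (τ' + σ)`.
(3) Put `f x = Φ x (τ x)` for a choice of good vectors.  If `τ` is good for `x`, it is good (up to
the radii, use the ball `ball x (r x)` in place of `ball x' (r x')`) for `x'` near `x`, and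
`f x' = Φ x τ + m x x'`: the hull of `[x₀ + τ, x + τ]` and `x' + τ` is in `W`, the hull of
`x, x', x + τ, x' + τ` is in the ball.  So `f` has derivative `ν x` at `x`. -/
theorem exists_primitive_off (hd : 3 ≤ d) {S U : Set (E d)} (hU : IsOpen U) (hc : Convex ℝ U)
    (hS : IsCompact S) (h0 : μH[((d - 3 : ℕ) : ℝ)] S = 0) {ν : E d → E d →L[ℝ] ℝ}
    (hν : ContDiffOn ℝ ∞ ν (U \ S))
    (hcl : ∀ a ∈ U \ S, ∀ x y, fderiv ℝ ν a x y = fderiv ℝ ν a y x) :
    ∃ f : E d → ℝ, ∀ a ∈ U \ S, HasFDerivAt f (ν a) a := by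
  have hW : IsOpen (U \ S) := hU.sdiff hS.isClosed
  have hνd : DifferentiableOn ℝ ν (U \ S) := hν.differentiableOn (by simp)
  set m : E d → E d → ℝ := fun a b => ∫ᶜ x in .segment a b, ν x with hm
  have hadd : ∀ Q : Set (E d), Convex ℝ Q → IsOpen Q → Q ⊆ U \ S → ∀ a ∈ Q, ∀ b ∈ Q, ∀ c ∈ Q,
      m a b + m b c = m a c := by
    intro Q hQ _ hQW a ha b hb c hc
    exact hQ.curveIntegral_segment_add_eq_of_hasFDerivWithinAt_symmetric (dω := fderiv ℝ ν)
      (fun x hx => ((hνd x (hQW hx)).differentiableAt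
        (hW.mem_nhds (hQW hx))).hasFDerivAt.hasFDerivWithinAt)
      (fun a ha x _ y _ => hcl a (hQW ha) x y) ha hb hc
  have hder : ∀ Q : Set (E d), Convex ℝ Q → IsOpen Q → Q ⊆ U \ S → ∀ a ∈ Q, ∀ b ∈ Q,
      HasFDerivAt (m a) (ν b) b := by
    intro Q hQ hQo hQW a ha b hb
    exact (hQ.hasFDerivWithinAt_curveIntegral_segment_of_hasFDerivWithinAt_symmetric
      (dω := fderiv ℝ ν)
      (fun x hx => ((hνd x (hQW hx)).differentiableAt
        (hW.mem_nhds (hQW hx))).hasFDerivAt.hasFDerivWithinAt)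
      (fun a ha x _ y _ => hcl a (hQW ha) x y) ha hb).hasFDerivAt (hQo.mem_nhds hb)
  clear_value m
  rcases (U \ S).eq_empty_or_nonempty with he | ⟨x₀, hx₀⟩
  · refine ⟨0, fun a ha => ?_⟩
    rw [he] at ha
    exact absurd ha (notMem_empty a)
  obtain ⟨r₀, hr₀, hB₀⟩ := Metric.isOpen_iff.1 hW x₀ hx₀
  have hr : ∀ x, x ∈ U \ S → ∃ r > 0, ball x r ⊆ U \ S := fun x hx => Metric.isOpen_iff.1 hW x hx
  choose! r hr0 hrW using hr
  have hB0 := hadd _ (convex_ball x₀ r₀) isOpen_ball hB₀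
  have hBx : ∀ x ∈ U \ S, _ := fun x hx => hadd _ (convex_ball x (r x)) isOpen_ball (hrW x hx)
  have hx0m : x₀ ∈ ball x₀ r₀ := mem_ball_self hr₀
  -- independence
  have hind : ∀ x ∈ U \ S, ∀ y ∈ ball x₀ r₀, ∀ z ∈ ball x (r x), segment ℝ y z ⊆ U \ S →
      ∀ y' ∈ ball x₀ r₀, ∀ z' ∈ ball x (r x), segment ℝ y' z' ⊆ U \ S →
      m x₀ y + m y z + m z x = m x₀ y' + m y' z' + m z' x := by
    intro x hx y hy z hz hyz y' hy' z' hz' hyz'
    have hxm : x ∈ ball x (r x) := mem_ball_self (hr0 x hx)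
    have hzz : segment ℝ z z' ⊆ U \ S :=
      ((convex_ball x (r x)).segment_subset hz hz').trans (hrW x hx)
    have hyy : segment ℝ y' y ⊆ U \ S :=
      ((convex_ball x₀ r₀).segment_subset hy' hy).trans hB₀
    have hzy' : segment ℝ z' y' ⊆ U \ S := by rwa [segment_symm]
    have q1 := quad hd hU hc hS h0 hadd hyz hzz hzy' hyy
    have q2 := quad hd hU hc hS h0 hadd (a := y') (b := z') (c := z') (e := z') hyz'
      (by rw [segment_same]; exact singleton_subset_iff.2 (hrW x hx hz'))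
      (by rw [segment_same]; exact singleton_subset_iff.2 (hrW x hx hz')) hzy'
    have e1 := hB0 x₀ hx0m y' hy' y hy
    have e2 := hBx x hx z hz z' hz' x hxm
    have e3 := hBx x hx z' hz' z' hz' z' hz'
    linarith
  have hex : ∀ x, x ∈ U \ S → ∃ y z, y ∈ ball x₀ r₀ ∧ z ∈ ball x (r x) ∧
      segment ℝ y z ⊆ U \ S := by
    intro x hx
    obtain ⟨y, hy, z, hz, hyz⟩ := exists_seg hd hU hc hS h0 hr₀ (hr0 x hx) hB₀ hx
    exact ⟨y, z, hy, hz, hyz⟩
  choose! Y Z hY hZ hYZ using hex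
  refine ⟨fun x => m x₀ (Y x) + m (Y x) (Z x) + m (Z x) x, fun x hx => ?_⟩
  have hxm : x ∈ ball x (r x) := mem_ball_self (hr0 x hx)
  have hd1 : HasFDerivAt (fun x' => (m x₀ (Y x) + m (Y x) (Z x) + m (Z x) x) + m x x')
      (ν x) x := by
    have := hder _ (convex_ball x (r x)) isOpen_ball (hrW x hx) x hxm x hxm
    exact this.const_add _
  refine hd1.congr_of_eventuallyEq ?_
  filter_upwards [isOpen_ball.mem_nhds hxm] with x₁ hx₁
  have hx₁W := hrW x hx hx₁
  obtain ⟨ρ, hρ, hρb⟩ := Metric.isOpen_iff.1 (isOpen_ball (x := x) (ε := r x)) x₁ hx₁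
  obtain ⟨y, hy, z, hz, hyz⟩ := exists_seg hd hU hc hS h0 hr₀
    (lt_min hρ (hr0 x₁ hx₁W)) hB₀ hx₁W
  have hz1 : z ∈ ball x (r x) := hρb (ball_subset_ball (min_le_left _ _) hz)
  have hz2 : z ∈ ball x₁ (r x₁) := ball_subset_ball (min_le_right _ _) hz
  have i1 := hind x hx (Y x) (hY x hx) (Z x) (hZ x hx) (hYZ x hx) y hy z hz1 hyz
  have i2 := hind x₁ hx₁W (Y x₁) (hY x₁ hx₁W) (Z x₁) (hZ x₁ hx₁W) (hYZ x₁ hx₁W) y hy z hz2 hyz
  have e1 := hBx x hx z hz1 x hxm x₁ hx₁
  linarith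

end Pool.Agent.H819.PU
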