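import Mathlib
import Pool.Agent.H819.DR.HomA

/-!
# Weakly closed one-forms: definitions and local primitives
-/

set_option autoImplicit false

open Set Filter Topology MeasureTheory Metric ContinuousLinearMap
open scoped ContDiff ENNReal NNReal Convolution

noncomputable section

namespace Pool.Agent.H819.PU

open Pool.Agent.Y501.SY (E)
open Pool.Agent.H819.DR (nu nu_prod comp_shear bump_bound test_shift fd_cont fubini_B conv_C)
open Pool.Agent.H819.LN (int_fderiv_zero)

variable {d : ℕ}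

/-- closed in the sense of distributions on `U` -/
def WeakClosed1 (U : Set (E d)) (γ : E d → E d →L[ℝ] ℝ) : Prop :=
  ∀ φ : E d → ℝ, ContDiff ℝ ∞ φ → HasCompactSupport φ → tsupport φ ⊆ U → ∀ a b : E d,
    ∫ z, (γ z b * fderiv ℝ φ z a - γ z a * fderiv ℝ φ z b) = 0

/-- `γ` is the gradient of `f` in the sense of distributions on `U`. -/
def WeakGrad (U : Set (E d)) (f : E d → ℝ) (γ : E d → E d →L[ℝ] ℝ) : Prop :=
  ∀ φ : E d → ℝ, ContDiff ℝ ∞ φ → HasCompactSupport φ → tsupport φ ⊆ U → ∀ v : E d,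
    ∫ z, f z * fderiv ℝ φ z v = - ∫ z, γ z v * φ z

/-! ### The homotopy formula in degree one -/

/-- the averaged homotopy operator in degree one -/
def kA (ρ : ContDiffBump (0 : E d)) (γ : E d → E d →L[ℝ] ℝ) (z : E d) : ℝ :=
  ∫ q, ρ.normed volume q.1 * γ (z + q.2 • q.1) q.1 ∂(nu ρ)

/-- the integrand -/
theorem kF_int (ρ : ContDiffBump (0 : E d)) {γ : E d → E d →L[ℝ] ℝ} (hγ : Integrable γ) :
    Integrable (fun p : (E d × ℝ) × E d =>
      ρ.normed volume p.1.1 * γ (p.2 + p.1.2 • p.1.1) p.1.1) ((nu ρ).prod volume) := by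
  have h1 := comp_shear ρ hγ
  have hρ : Continuous (ρ.normed volume) := (ρ.contDiff_normed (n := 0)).continuous
  obtain ⟨M, hM0, hM⟩ := bump_bound ρ
  refine (h1.norm.const_mul M).mono' ?_ (Eventually.of_forall fun p => ?_)
  · have h3 : AEStronglyMeasurable (fun p : (E d × ℝ) × E d => p.1.1) ((nu ρ).prod volume) :=
      (continuous_fst.comp continuous_fst).aestronglyMeasurable
    have h4 : AEStronglyMeasurable (fun p : (E d × ℝ) × E d => ρ.normed volume p.1.1)
        ((nu ρ).prod volume) :=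
      (hρ.comp (continuous_fst.comp continuous_fst)).aestronglyMeasurable
    have h5 : AEStronglyMeasurable (fun p : (E d × ℝ) × E d => γ (p.2 + p.1.2 • p.1.1) p.1.1)
        ((nu ρ).prod volume) :=
      (ContinuousLinearMap.id ℝ (E d →L[ℝ] ℝ)).aestronglyMeasurable_comp₂ h1.aestronglyMeasurable h3
    exact h4.mul h5
  · rw [norm_mul]
    have h2 := (γ (p.2 + p.1.2 • p.1.1)).le_opNorm p.1.1
    have h3 := hM p.1.1
    calc ‖ρ.normed volume p.1.1‖ * ‖γ (p.2 + p.1.2 • p.1.1) p.1.1‖
        ≤ ‖ρ.normed volume p.1.1‖ * (‖γ (p.2 + p.1.2 • p.1.1)‖ * ‖p.1.1‖) :=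
          mul_le_mul_of_nonneg_left h2 (norm_nonneg _)
      _ = (|ρ.normed volume p.1.1| * ‖p.1.1‖) * ‖γ (p.2 + p.1.2 • p.1.1)‖ := by
          rw [Real.norm_eq_abs]; ring
      _ ≤ M * ‖γ (p.2 + p.1.2 • p.1.1)‖ := mul_le_mul_of_nonneg_right h3 (norm_nonneg _)

theorem kA_integrable (ρ : ContDiffBump (0 : E d)) {γ : E d → E d →L[ℝ] ℝ}
    (hγ : Integrable γ) : Integrable (kA ρ γ) := (kF_int ρ hγ).integral_prod_right

theorem ev1_int {γ : E d → E d →L[ℝ] ℝ} (hγ : Integrable γ) (w : E d) :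
    Integrable (fun z => γ z w) := by
  have h := (ContinuousLinearMap.apply ℝ ℝ w).integrable_comp hγ
  exact h

theorem itm1 {γ : E d → E d →L[ℝ] ℝ} (hγ : Integrable γ) (w : E d)
    {ψ : E d → ℝ} (hψ : Continuous ψ) (hc : HasCompactSupport ψ) :
    Integrable (fun z => γ z w * ψ z) := by
  obtain ⟨M, hM⟩ := hc.exists_bound_of_continuous hψ
  exact (ev1_int hγ w).mul_bdd hψ.aestronglyMeasurable (Eventually.of_forall hM)

theorem inner_id1 {ρ : ContDiffBump (0 : E d)} {γ : E d → E d →L[ℝ] ℝ}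
    (hγ : Integrable γ) {U V : Set (E d)}
    (hUV : ∀ z ∈ U, closedBall z ρ.rOut ⊆ V) (hcl : WeakClosed1 V γ)
    {φ : E d → ℝ} (hφ : ContDiff ℝ ∞ φ) (hc : HasCompactSupport φ) (hs : tsupport φ ⊆ U)
    (v y : E d) {t : ℝ} (hy : ‖y‖ ≤ ρ.rOut) (ht : t ∈ Icc (0 : ℝ) 1) :
    ∫ z, γ (z + t • y) y * fderiv ℝ φ z v = ∫ z, γ z v * fderiv ℝ φ (z - t • y) y := by
  obtain ⟨c, hcdef⟩ : ∃ c, c = t • y := ⟨_, rfl⟩
  rw [← hcdef]
  obtain ⟨s1, s2, s3, s4⟩ := test_shift hφ hc c
  have hcn : ‖c‖ ≤ ρ.rOut := by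
    rw [hcdef, norm_smul, Real.norm_of_nonneg ht.1]
    nlinarith [ht.1, ht.2, norm_nonneg y]
  have hsub : tsupport (fun z => φ (z - c)) ⊆ V := by
    intro z hz
    refine hUV _ (hs (s4 z hz)) ?_
    rw [mem_closedBall, dist_eq_norm]
    simpa using hcn
  have hw := hcl _ s1 s2 hsub v y
  simp only [s3] at hw
  have hD : ∀ w : E d, Continuous (fun z => fderiv ℝ φ (z - c) w) := fun w =>
    ((fd_cont hφ).comp (by fun_prop)).clm_apply continuous_const
  have hDc : ∀ w : E d, HasCompactSupport (fun z => fderiv ℝ φ (z - c) w) := by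
    intro w
    have h1 : HasCompactSupport (fderiv ℝ φ) := hc.fderiv (𝕜 := ℝ)
    have h2 := h1.comp_homeomorph (Homeomorph.subRight c)
    exact h2.comp_left (g := fun L : E d →L[ℝ] ℝ => L w) rfl
  have i1 := itm1 hγ y (hD v) (hDc v)
  have i2 := itm1 hγ v (hD y) (hDc y)
  have e1 := integral_add_right_eq_self (μ := volume) (fun w => γ w y * fderiv ℝ φ (w - c) v) c
  simp only [add_sub_cancel_right] at e1
  rw [e1]
  rw [integral_sub i1 i2] at hw
  linarith

/-- **The homotopy formula** in degree one. -/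
theorem kA_weak (ρ : ContDiffBump (0 : E d)) {γ : E d → E d →L[ℝ] ℝ}
    (hγ : Integrable γ) {U V : Set (E d)}
    (hUV : ∀ z ∈ U, closedBall z ρ.rOut ⊆ V) (hcl : WeakClosed1 V γ) {φ : E d → ℝ}
    (hφ : ContDiff ℝ ∞ φ) (hc : HasCompactSupport φ) (hs : tsupport φ ⊆ U) (v : E d) :
    ∫ z, kA ρ γ z * fderiv ℝ φ z v =
      (∫ z, γ z v * φ z) - ∫ z, (ρ.normed volume ⋆[lsmul ℝ ℝ, volume] γ) z v * φ z := by
  have hρ : Continuous (ρ.normed volume) := (ρ.contDiff_normed (n := 0)).continuous
  have hcs : HasCompactSupport (ρ.normed volume) := ρ.hasCompactSupport_normed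
  have hF := kF_int ρ hγ
  have hg : Integrable (fun z => γ z v) := ev1_int hγ v
  obtain ⟨M', hM'⟩ := (hc.fderiv (𝕜 := ℝ)).exists_bound_of_continuous (fd_cont hφ)
  have hDb : ∀ w z : E d, ‖fderiv ℝ φ z w‖ ≤ M' * ‖w‖ := fun w z =>
    ((fderiv ℝ φ z).le_opNorm w).trans (mul_le_mul_of_nonneg_right (hM' z) (norm_nonneg _))
  have hD : ∀ w : E d, Continuous (fun z => fderiv ℝ φ z w) := fun w =>
    (fd_cont hφ).clm_apply continuous_const
  have i1 : Integrable (fun p : (E d × ℝ) × E d =>
      ρ.normed volume p.1.1 * γ (p.2 + p.1.2 • p.1.1) p.1.1 * fderiv ℝ φ p.2 v)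
      ((nu ρ).prod volume) :=
    hF.mul_bdd ((hD v).comp continuous_snd).aestronglyMeasurable
      (Eventually.of_forall fun p => hDb v p.2)
  have hL : ∫ z, kA ρ γ z * fderiv ℝ φ z v =
      ∫ z, ∫ q, ρ.normed volume q.1 * γ (z + q.2 • q.1) q.1 * fderiv ℝ φ z v ∂(nu ρ) := by
    refine integral_congr_ae (Eventually.of_forall fun z => ?_)
    simp only
    rw [integral_mul_const]
    rfl
  rw [hL]
  have hswap := integral_integral_swap (μ := nu ρ) (ν := volume) (f := fun q z =>
    ρ.normed volume q.1 * γ (z + q.2 • q.1) q.1 * fderiv ℝ φ z v) i1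
  rw [← hswap]
  have hin : ∫ q, (∫ z, ρ.normed volume q.1 * γ (z + q.2 • q.1) q.1 * fderiv ℝ φ z v) ∂(nu ρ) =
      ∫ q, ρ.normed volume q.1 * (∫ z, γ z v * fderiv ℝ φ (z - q.2 • q.1) q.1) ∂(nu ρ) := by
    refine integral_congr_ae ?_
    have hmem : ∀ᵐ q ∂(nu ρ), q ∈ (closedBall (0 : E d) ρ.rOut) ×ˢ (Icc (0 : ℝ) 1) :=
      ae_restrict_mem (isClosed_closedBall.measurableSet.prod measurableSet_Icc)
    filter_upwards [hmem] with q hq
    have h1 : ‖q.1‖ ≤ ρ.rOut := by
      have := hq.1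
      rwa [mem_closedBall, dist_zero_right] at this
    have h2 := inner_id1 hγ hUV hcl hφ hc hs v q.1 h1 hq.2
    rw [← h2, ← integral_const_mul]
    refine integral_congr_ae (Eventually.of_forall fun z => ?_)
    simp only
    ring
  rw [hin]
  obtain ⟨b1, b2⟩ := fubini_B ρ hg hφ hc
  obtain ⟨c1, c2⟩ := conv_C ρ hg hφ.continuous hc
  rw [b2]
  have hconv : ∀ z : E d, (ρ.normed volume ⋆[lsmul ℝ ℝ, volume] γ) z v =
      ∫ y, ρ.normed volume y * γ (z - y) v := by
    intro z
    have hcb : Integrable (fun t => ρ.normed volume t • γ (z - t)) :=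
      hcs.convolutionExists_left (lsmul ℝ ℝ) (μ := volume) hρ hγ.locallyIntegrable z
    have h3 := (ContinuousLinearMap.apply ℝ ℝ v).integral_comp_comm hcb
    exact h3.symm
  have i3 : Integrable (fun z => γ z v * φ z) := itm1 hγ v hφ.continuous hc
  have i4 : Integrable (fun z => γ z v * ∫ y, ρ.normed volume y * φ (z - y)) := by
    have := i3.sub b1
    refine this.congr (Eventually.of_forall fun z => ?_)
    simp only [Pi.sub_apply]
    ring
  have e2 : ∫ z, (ρ.normed volume ⋆[lsmul ℝ ℝ, volume] γ) z v * φ z =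
      ∫ z, γ z v * ∫ y, ρ.normed volume y * φ (z - y) := by
    rw [← c2]
    refine integral_congr_ae (Eventually.of_forall fun z => ?_)
    simp only
    rw [hconv]
  rw [e2, ← integral_sub i3 i4]
  refine integral_congr_ae (Eventually.of_forall fun z => ?_)
  simp only
  ring

/-- the mollified form is closed -/
theorem moll_symm (ρ : ContDiffBump (0 : E d)) {γ : E d → E d →L[ℝ] ℝ}
    (hγ : Integrable γ) {V : Set (E d)} (hcl : WeakClosed1 V γ) {x : E d}
    (hx : closedBall x ρ.rOut ⊆ V) (a b : E d) :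
    fderiv ℝ (ρ.normed volume ⋆[lsmul ℝ ℝ, volume] γ) x a b =
      fderiv ℝ (ρ.normed volume ⋆[lsmul ℝ ℝ, volume] γ) x b a := by
  have hρ : ContDiff ℝ ∞ (ρ.normed volume) := ρ.contDiff_normed
  have hρc : HasCompactSupport (ρ.normed volume) := ρ.hasCompactSupport_normed
  have hρ1 : ContDiff ℝ 1 (ρ.normed volume) := ρ.contDiff_normed
  have hval : ∀ (u w : E d), fderiv ℝ (ρ.normed volume ⋆[lsmul ℝ ℝ, volume] γ) x u w =
      ∫ z, fderiv ℝ (ρ.normed volume) (x - z) u * γ z w := by
    intro u w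
    obtain ⟨h2, h1⟩ := Pool.Agent.H819.LG.moll_fderiv hγ.locallyIntegrable ρ x u
    rw [h1]
    have h3 : ∫ t, (fderiv ℝ (ρ.normed volume) t u • γ (x - t)) w =
        (∫ t, fderiv ℝ (ρ.normed volume) t u • γ (x - t)) w :=
      (ContinuousLinearMap.apply ℝ ℝ w).integral_comp_comm h2
    rw [← h3, ← integral_sub_left_eq_self (fun t =>
      (fderiv ℝ (ρ.normed volume) t u • γ (x - t)) w) volume x]
    refine integral_congr_ae (Eventually.of_forall fun z => ?_)
    simp only [sub_sub_cancel]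
    rfl
  have hφ : ContDiff ℝ ∞ (fun z => ρ.normed volume (x - z)) := hρ.comp (by fun_prop)
  have hφc : HasCompactSupport (fun z => ρ.normed volume (x - z)) := by
    have := hρc.comp_homeomorph (Homeomorph.subLeft x)
    exact this
  have hφd : ∀ z u, fderiv ℝ (fun z => ρ.normed volume (x - z)) z u =
      - fderiv ℝ (ρ.normed volume) (x - z) u := by
    intro z u
    have h1 : HasFDerivAt (fun z : E d => x - z) (-ContinuousLinearMap.id ℝ (E d)) z := by
      have := (hasFDerivAt_id (𝕜 := ℝ) z).const_sub x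
      exact this
    have h2 : HasFDerivAt (ρ.normed volume) (fderiv ℝ (ρ.normed volume) (x - z)) (x - z) :=
      (hρ1.differentiable (by simp) _).hasFDerivAt
    have h3 : fderiv ℝ (fun z => ρ.normed volume (x - z)) z =
        (fderiv ℝ (ρ.normed volume) (x - z)).comp (-ContinuousLinearMap.id ℝ (E d)) :=
      (h2.comp z h1).fderiv
    rw [h3]
    simp
  have hφs : tsupport (fun z => ρ.normed volume (x - z)) ⊆ V := by
    refine Subset.trans (closure_minimal (fun z hz => ?_) isClosed_closedBall) hx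
    have h2 : x - z ∈ Function.support (ρ.normed volume) := hz
    rw [ρ.support_normed_eq (μ := volume), mem_ball, dist_zero_right] at h2
    rw [mem_closedBall, dist_comm, dist_eq_norm]
    exact h2.le
  have hw := hcl _ hφ hφc hφs a b
  simp only [hφd] at hw
  have hi : ∀ (u w : E d), Integrable (fun z => γ z w * -fderiv ℝ (ρ.normed volume) (x - z) u) := by
    intro u w
    have h1 : ContDiff ℝ ∞ (fun z => ρ.normed volume (x - z)) := hφ
    have h2 := itm1 hγ w ((fd_cont hφ).clm_apply (continuous_const (y := u)))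
      ((hφc.fderiv (𝕜 := ℝ)).comp_left (g := fun L : E d →L[ℝ] ℝ => L u) rfl)
    refine h2.congr (Eventually.of_forall fun z => ?_)
    simp only
    rw [← hφd]
  rw [integral_sub (hi a b) (hi b a)] at hw
  have e1 : ∀ u w : E d, ∫ z, γ z w * -fderiv ℝ (ρ.normed volume) (x - z) u =
      - ∫ z, fderiv ℝ (ρ.normed volume) (x - z) u * γ z w := by
    intro u w
    rw [← integral_neg]
    refine integral_congr_ae (Eventually.of_forall fun z => ?_)
    simp only
    ring
  rw [e1, e1] at hw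
  rw [hval, hval]
  linarith

/-- integration by parts for a function which is differentiable near the support -/
theorem ibp {U : Set (E d)} {g : E d → ℝ} {Γ : E d → E d →L[ℝ] ℝ}
    (hΓ : Continuous Γ) (hg : ∀ z ∈ U, HasFDerivAt g (Γ z) z) {φ : E d → ℝ}
    (hφ : ContDiff ℝ ∞ φ) (hc : HasCompactSupport φ) (hs : tsupport φ ⊆ U) (v : E d) :
    Integrable (fun z => g z * fderiv ℝ φ z v) ∧
      ∫ z, g z * fderiv ℝ φ z v = - ∫ z, Γ z v * φ z := by
  have hgc : ContinuousOn g U := fun z hz => (hg z hz).continuousAt.continuousWithinAt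
  have hfd : ∀ z ∈ U, HasFDerivAt (fun z => g z * φ z) (g z • fderiv ℝ φ z + φ z • Γ z) z :=
    fun z hz => (hg z hz).mul ((hφ.differentiable (by simp)) z).hasFDerivAt
  have hout : ∀ z, z ∉ tsupport φ → (fun z => g z * φ z) =ᶠ[𝓝 z] fun _ => 0 := by
    intro z hz
    filter_upwards [(isClosed_tsupport φ).isOpen_compl.mem_nhds hz] with y hy
    rw [image_eq_zero_of_notMem_tsupport hy, mul_zero]
  have hfd2 : ∀ z, HasFDerivAt (fun z => g z * φ z) (g z • fderiv ℝ φ z + φ z • Γ z) z := by
    intro z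
    by_cases hz : z ∈ tsupport φ
    · exact hfd z (hs hz)
    · rw [image_eq_zero_of_notMem_tsupport hz, fderiv_of_notMem_tsupport (𝕜 := ℝ) hz, smul_zero,
        zero_smul, add_zero]
      exact (hasFDerivAt_const (0 : ℝ) z).congr_of_eventuallyEq (hout z hz)
  have hcont : ∀ {ψ : E d → ℝ}, Continuous ψ → tsupport ψ ⊆ tsupport φ →
      Continuous (fun z => g z * ψ z) := by
    intro ψ hψ hsub
    rw [continuous_iff_continuousAt]
    intro z
    by_cases hz : z ∈ tsupport φ
    · exact ((hg z (hs hz)).continuousAt).mul hψ.continuousAt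
    · have h1 : (fun z => g z * ψ z) =ᶠ[𝓝 z] fun _ => 0 := by
        filter_upwards [(isClosed_tsupport φ).isOpen_compl.mem_nhds hz] with y hy
        rw [image_eq_zero_of_notMem_tsupport (fun h => hy (hsub h)), mul_zero]
      exact continuousAt_const.congr h1.symm
  have hD : Continuous (fun z => fderiv ℝ φ z v) := (fd_cont hφ).clm_apply continuous_const
  have hDs : tsupport (fun z => fderiv ℝ φ z v) ⊆ tsupport φ := by
    refine closure_minimal (fun z hz => ?_) (isClosed_tsupport φ)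
    by_contra h
    apply hz
    show fderiv ℝ φ z v = 0
    rw [fderiv_of_notMem_tsupport (𝕜 := ℝ) h]
    rfl
  have hDc : HasCompactSupport (fun z => fderiv ℝ φ z v) :=
    hc.of_isClosed_subset (isClosed_tsupport _) hDs
  have j1 : Integrable (fun z => g z * fderiv ℝ φ z v) :=
    (hcont hD hDs).integrable_of_hasCompactSupport hDc.mul_left
  have j2 : Integrable (fun z => Γ z v * φ z) :=
    ((hΓ.clm_apply continuous_const).mul hφ.continuous).integrable_of_hasCompactSupport
      hc.mul_left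
  refine ⟨j1, ?_⟩
  have hG1 : ContDiff ℝ 1 (fun z => g z * φ z) := by
    rw [contDiff_one_iff_fderiv]
    refine ⟨fun z => (hfd2 z).differentiableAt, ?_⟩
    have e1 : fderiv ℝ (fun z => g z * φ z) = fun z => g z • fderiv ℝ φ z + φ z • Γ z := by
      funext z
      exact (hfd2 z).fderiv
    rw [e1]
    refine Continuous.add ?_ (hφ.continuous.smul hΓ)
    rw [continuous_iff_continuousAt]
    intro z
    by_cases hz : z ∈ tsupport φ
    · exact ((hg z (hs hz)).continuousAt).smul (fd_cont hφ).continuousAt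
    · have h1 : (fun z => g z • fderiv ℝ φ z) =ᶠ[𝓝 z] fun _ => 0 := by
        filter_upwards [(isClosed_tsupport φ).isOpen_compl.mem_nhds hz] with y hy
        rw [fderiv_of_notMem_tsupport (𝕜 := ℝ) hy, smul_zero]
      exact continuousAt_const.congr h1.symm
  have hGc : HasCompactSupport (fun z => g z * φ z) := hc.mul_left
  have h0 := (int_fderiv_zero hG1 hGc v).2
  have e2 : ∀ z, fderiv ℝ (fun z => g z * φ z) z v = g z * fderiv ℝ φ z v + Γ z v * φ z := by
    intro z
    rw [(hfd2 z).fderiv]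
    simp only [_root_.add_apply, _root_.smul_apply, smul_eq_mul]
    ring
  simp only [e2] at h0
  rw [integral_add j1 j2] at h0
  linarith

/-- **Local primitives.**

Proof.  Choose `r > 0` with `closedBall x (3 * r) ⊆ W`, let `γ'` be `γ` on `closedBall x (3 * r)`
and zero elsewhere (integrable, weakly closed on `ball x (3 * r)`), `ρ : ContDiffBump (0 : E d)`
with `rOut = r`, and
`k z = ∫ q in closedBall 0 r ×ˢ Icc 0 1, ρ.normed volume q.1 * γ' (z + q.2 • q.1) q.1`,
integrable, with `∫ k z * fderiv φ z v = - ∫ ((ρ * γ') z - γ' z) v * φ z` for test functions `φ`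
with support in `ball x (2 * r)`.  This is the homotopy formula of `DR/HomA.lean`
(`hA_weak`, `hA_integrable`, `inner_id`, `ftc`, `fubini_B`, `conv_C`, ...) in degree one: copy that
file with `γ` in place of `θ`, `k` in place of `hA`; the inner identity is
`∫_z γ(z)(y) ∂_v φ(z - t y) dz = ∫_z γ(z)(v) ∂_y φ(z - t y) dz = - d/dt ∫_z γ(z)(v) φ(z - t y) dz`
by weak closedness for the vectors `y, v`.
`ρ * γ'` is smooth (`HasCompactSupport.contDiff_convolution_left`) and closed on `ball x (2 * r)`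
(differentiate under the integral: `fderiv (ρ * γ') z a b = ∫ fderiv ρ (z - z') a * γ' z' b`, weak
closedness for the test function `z' ↦ ρ (z - z')`), so it has a primitive `g` on the ball
(`Convex.exists_forall_hasFDerivAt_of_fderiv_symmetric`).  On the ball `γ' = ρ * γ' - grad k`
weakly, so `f = g - k` on `ball x r`. -/
theorem local_primitive {W : Set (E d)} (hW : IsOpen W) {γ : E d → E d →L[ℝ] ℝ}
    (hγ : LocallyIntegrableOn γ W) (hcl : WeakClosed1 W γ) {x : E d} (hx : x ∈ W) :
    ∃ (r : ℝ) (f : E d → ℝ), 0 < r ∧ ball x r ⊆ W ∧ IntegrableOn f (ball x r) ∧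
      WeakGrad (ball x r) f γ := by
  obtain ⟨R, hR, hRW⟩ := Metric.isOpen_iff.1 hW x hx
  obtain ⟨r, hrdef⟩ : ∃ r, r = R / 4 := ⟨_, rfl⟩
  have hr : 0 < r := by rw [hrdef]; positivity
  have h3r : closedBall x (3 * r) ⊆ W := by
    refine (closedBall_subset_ball ?_).trans hRW
    rw [hrdef]
    linarith
  obtain ⟨γ', hγ'⟩ : ∃ γ' : E d → E d →L[ℝ] ℝ, γ' = (closedBall x (3 * r)).indicator γ := ⟨_, rfl⟩
  have hγ'i : Integrable γ' := by
    have h0 : IntegrableOn γ (closedBall x (3 * r)) volume :=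
      hγ.integrableOn_compact_subset h3r (isCompact_closedBall _ _)
    rw [hγ']
    exact (integrable_indicator_iff (f := γ) (μ := volume) (s := closedBall x (3 * r))
      measurableSet_closedBall).2 h0
  have heq : ∀ z ∈ closedBall x (3 * r), γ' z = γ z := by
    intro z hz
    rw [hγ', indicator_of_mem hz]
  have hcl' : WeakClosed1 (ball x (3 * r)) γ' := by
    intro φ hφ hc hs a b
    have h1 := hcl φ hφ hc (hs.trans (ball_subset_closedBall.trans h3r)) a b
    rw [← h1]
    refine integral_congr_ae (Eventually.of_forall fun z => ?_)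
    simp only
    by_cases hz : z ∈ tsupport φ
    · rw [heq z (ball_subset_closedBall (hs hz))]
    · rw [fderiv_of_notMem_tsupport (𝕜 := ℝ) hz]
      simp
  obtain ⟨ρ, hρ⟩ : ∃ ρ : ContDiffBump (0 : E d), ρ.rOut = r :=
    ⟨⟨r / 2, r, by positivity, by linarith⟩, rfl⟩
  have hUV : ∀ z ∈ ball x (2 * r), closedBall z ρ.rOut ⊆ ball x (3 * r) := by
    intro z hz w hw
    rw [hρ, mem_closedBall] at hw
    rw [mem_ball] at hz ⊢
    calc dist w x ≤ dist w z + dist z x := dist_triangle _ _ _
      _ < r + 2 * r := by linarith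
      _ = 3 * r := by ring
  obtain ⟨Γ, hΓ⟩ : ∃ Γ : E d → E d →L[ℝ] ℝ, Γ = ρ.normed volume ⋆[lsmul ℝ ℝ, volume] γ' := ⟨_, rfl⟩
  have hΓs : ContDiff ℝ ∞ Γ := by
    rw [hΓ]
    exact ρ.hasCompactSupport_normed.contDiff_convolution_left (lsmul ℝ ℝ) (μ := volume)
      ρ.contDiff_normed hγ'i.locallyIntegrable
  obtain ⟨g, hg⟩ := (convex_ball x (2 * r)).exists_forall_hasFDerivAt_of_fderiv_symmetric
    isOpen_ball (hΓs.differentiable (by simp)).differentiableOn (fun z hz a b => by
      rw [hΓ]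
      exact moll_symm ρ hγ'i hcl' (hUV z hz) a b)
  have hsub : closedBall x r ⊆ ball x (2 * r) := closedBall_subset_ball (by linarith)
  refine ⟨r, fun z => g z - kA ρ γ' z, hr, ?_, ?_, ?_⟩
  · exact (ball_subset_closedBall.trans (closedBall_subset_closedBall (by linarith))).trans h3r
  · have h1 : IntegrableOn g (ball x r) := by
      have h2 : ContinuousOn g (closedBall x r) := fun z hz =>
        (hg z (hsub hz)).continuousAt.continuousWithinAt
      exact (h2.integrableOn_compact (isCompact_closedBall _ _)).mono_set ball_subset_closedBall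
    exact h1.sub (kA_integrable ρ hγ'i).integrableOn
  · intro φ hφ hc hs v
    have hs2 : tsupport φ ⊆ ball x (2 * r) :=
      hs.trans (ball_subset_closedBall.trans hsub)
    obtain ⟨j1, j2⟩ := ibp hΓs.continuous hg hφ hc hs2 v
    have j3 := kA_weak ρ hγ'i hUV hcl' hφ hc hs2 v
    have hD : Continuous (fun z => fderiv ℝ φ z v) := (fd_cont hφ).clm_apply continuous_const
    obtain ⟨M, hM⟩ := ((hc.fderiv (𝕜 := ℝ)).comp_left (g := fun L : E d →L[ℝ] ℝ => L v)
      rfl).exists_bound_of_continuous hD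
    have j4 : Integrable (fun z => kA ρ γ' z * fderiv ℝ φ z v) :=
      (kA_integrable ρ hγ'i).mul_bdd hD.aestronglyMeasurable (Eventually.of_forall hM)
    have e1 : ∫ z, (g z - kA ρ γ' z) * fderiv ℝ φ z v =
        (∫ z, g z * fderiv ℝ φ z v) - ∫ z, kA ρ γ' z * fderiv ℝ φ z v := by
      rw [← integral_sub j1 j4]
      refine integral_congr_ae (Eventually.of_forall fun z => ?_)
      simp only
      ring
    have e2 : ∫ z, γ z v * φ z = ∫ z, γ' z v * φ z := by
      refine integral_congr_ae (Eventually.of_forall fun z => ?_)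
      simp only
      by_cases hz : z ∈ tsupport φ
      · rw [heq z]
        exact closedBall_subset_closedBall (by linarith) (ball_subset_closedBall (hs hz))
      · rw [image_eq_zero_of_notMem_tsupport hz, mul_zero, mul_zero]
    rw [e1, j2, j3, e2, ← hΓ]
    ring

end Pool.Agent.H819.PU
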