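import Mathlib
import Pool.Agent.H819.PU.One

/-!
# A weakly closed one-form is smooth up to a gradient
-/

set_option autoImplicit false

open Set Filter Topology MeasureTheory Metric ContinuousLinearMap
open scoped ContDiff ENNReal NNReal Convolution Manifold

noncomputable section

namespace Pool.Agent.H819.PU

open Pool.Agent.Y501.SY (E)

variable {d : ℕ}

namespace OneSm

/-! ### Functions with weak gradient zero -/

theorem fderiv_moll_zero {f : E d → ℝ} (hf : Integrable f) {x : E d} {r : ℝ}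
    (hw : WeakGrad (ball x r) f (fun _ => 0)) (ρ : ContDiffBump (0 : E d)) {z : E d}
    (hz : closedBall z ρ.rOut ⊆ ball x r) :
    fderiv ℝ (ρ.normed volume ⋆[lsmul ℝ ℝ, volume] f) z = 0 := by
  have hρ : ContDiff ℝ ∞ (ρ.normed volume) := ρ.contDiff_normed
  have hρc : HasCompactSupport (ρ.normed volume) := ρ.hasCompactSupport_normed
  have hφ : ContDiff ℝ ∞ (fun y => ρ.normed volume (z - y)) := hρ.comp (by fun_prop)
  have hφs : tsupport (fun y => ρ.normed volume (z - y)) ⊆ closedBall z ρ.rOut := by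
    refine closure_minimal (fun y hy => ?_) isClosed_closedBall
    have h1 : z - y ∈ Function.support (ρ.normed volume) := hy
    rw [ρ.support_normed_eq, mem_ball, dist_zero_right] at h1
    rw [mem_closedBall, dist_comm, dist_eq_norm]
    exact h1.le
  have hφc : HasCompactSupport (fun y => ρ.normed volume (z - y)) :=
    (isCompact_closedBall z ρ.rOut).of_isClosed_subset (isClosed_tsupport _) hφs
  ext u
  rw [(Pool.Agent.H819.LG.moll_fderiv hf.locallyIntegrable ρ z u).2]
  have h1 : ∫ t, fderiv ℝ (ρ.normed volume) t u • f (z - t) =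
      ∫ t, fderiv ℝ (ρ.normed volume) (z - t) u • f t := by
    rw [← integral_sub_left_eq_self _ volume z]
    simp
  have h2 : ∀ t, fderiv ℝ (ρ.normed volume) (z - t) u • f t =
      - (f t * fderiv ℝ (fun y => ρ.normed volume (z - y)) t u) := by
    intro t
    have h3 : HasFDerivAt (fun y => ρ.normed volume (z - y))
        ((fderiv ℝ (ρ.normed volume) (z - t)).comp (-(ContinuousLinearMap.id ℝ (E d)))) t := by
      have h4 : HasFDerivAt (fun y : E d => z - y) (-(ContinuousLinearMap.id ℝ (E d))) t := by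
        have := (hasFDerivAt_id (𝕜 := ℝ) t).const_sub z
        exact this
      exact ((hρ.differentiable (by simp)) (z - t)).hasFDerivAt.comp t h4
    rw [h3.fderiv]
    have h5 : ((fderiv ℝ (ρ.normed volume) (z - t)).comp (-(ContinuousLinearMap.id ℝ (E d)))) u =
        - fderiv ℝ (ρ.normed volume) (z - t) u := by simp
    rw [h5, smul_eq_mul]
    ring
  rw [h1]
  simp_rw [h2]
  rw [integral_neg, hw _ hφ hφc (hφs.trans hz) u]
  simp

theorem ae_const {f : E d → ℝ} (hf : Integrable f) {x : E d} {r : ℝ} (hr : 0 < r)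
    (hw : WeakGrad (ball x r) f (fun _ => 0)) :
    ∃ c : ℝ, ∀ᵐ z, z ∈ ball x (r / 2) → f z = c := by
  let ρ : ℕ → ContDiffBump (0 : E d) := fun n =>
    ⟨r / 4 * (1 / ((n : ℝ) + 1)), r / 2 * (1 / ((n : ℝ) + 1)), by positivity, by
      have : (0 : ℝ) < 1 / ((n : ℝ) + 1) := by positivity
      nlinarith⟩
  have hle : ∀ n, (ρ n).rOut ≤ r / 2 := by
    intro n
    have h1 : 1 / ((n : ℝ) + 1) ≤ 1 := by
      rw [div_le_one (by positivity)]
      have : (0 : ℝ) ≤ n := Nat.cast_nonneg n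
      linarith
    change r / 2 * (1 / ((n : ℝ) + 1)) ≤ r / 2
    nlinarith
  have hlim : Tendsto (fun n => (ρ n).rOut) atTop (𝓝 0) := by
    have h1 := (tendsto_one_div_add_atTop_nhds_zero_nat (𝕜 := ℝ)).const_mul (r / 2)
    rw [mul_zero] at h1
    exact h1
  have hK : ∀ᶠ n in atTop, (ρ n).rOut ≤ 2 * (ρ n).rIn := by
    refine Eventually.of_forall fun n => le_of_eq ?_
    change r / 2 * (1 / ((n : ℝ) + 1)) = 2 * (r / 4 * (1 / ((n : ℝ) + 1)))
    ring
  have hconst : ∀ n, ∀ z ∈ ball x (r / 2),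
      ((ρ n).normed volume ⋆[lsmul ℝ ℝ, volume] f) z =
      ((ρ n).normed volume ⋆[lsmul ℝ ℝ, volume] f) x := by
    intro n z hz
    have hsm : ContDiff ℝ ∞ ((ρ n).normed volume ⋆[lsmul ℝ ℝ, volume] f) :=
      (ρ n).hasCompactSupport_normed.contDiff_convolution_left (lsmul ℝ ℝ) (μ := volume)
        (ρ n).contDiff_normed hf.locallyIntegrable
    refine IsOpen.is_const_of_fderiv_eq_zero (𝕜 := ℝ) (s := ball x (r / 2)) isOpen_ball
      (convex_ball x (r / 2)).isPreconnected (hsm.differentiable (by simp)).differentiableOn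
      (fun y hy => ?_) hz (mem_ball_self (by positivity))
    refine fderiv_moll_zero hf hw (ρ n) (fun w hw' => ?_)
    rw [mem_ball] at hy ⊢
    rw [mem_closedBall] at hw'
    have := dist_triangle w y x
    have := hle n
    linarith
  have hae := ContDiffBump.ae_convolution_tendsto_right_of_locallyIntegrable (μ := volume)
    hlim hK hf.locallyIntegrable
  by_cases hex : ∃ z₁ ∈ ball x (r / 2), Tendsto (fun n =>
      ((ρ n).normed volume ⋆[lsmul ℝ ℝ, volume] f) z₁) atTop (𝓝 (f z₁))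
  · obtain ⟨z₁, hz₁, hl₁⟩ := hex
    refine ⟨f z₁, ?_⟩
    filter_upwards [hae] with z hz hzB
    have h1 : (fun n => ((ρ n).normed volume ⋆[lsmul ℝ ℝ, volume] f) z) =
        fun n => ((ρ n).normed volume ⋆[lsmul ℝ ℝ, volume] f) z₁ := by
      funext n
      rw [hconst n z hzB, hconst n z₁ hz₁]
    rw [h1] at hz
    exact tendsto_nhds_unique hz hl₁
  · refine ⟨0, ?_⟩
    filter_upwards [hae] with z hz hzB
    exact absurd ⟨z, hzB, hz⟩ hex

/-! ### A partition of unity from bump functions -/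

/-- the `n`-th function -/
def PP (χ : ℕ → E d → ℝ) (n : ℕ) (z : E d) : ℝ := χ n z * ∏ k ∈ Finset.range n, (1 - χ k z)

theorem PP_sum (χ : ℕ → E d → ℝ) (m : ℕ) (z : E d) :
    ∑ n ∈ Finset.range m, PP χ n z = 1 - ∏ k ∈ Finset.range m, (1 - χ k z) := by
  induction m with
  | zero => simp
  | succ m ih =>
    rw [Finset.sum_range_succ, ih, Finset.prod_range_succ, PP]
    ring

theorem PP_sum_one {χ : ℕ → E d → ℝ} {k m : ℕ} {z : E d} (hk : χ k z = 1) (hkm : k < m) :
    ∑ n ∈ Finset.range m, PP χ n z = 1 := by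
  rw [PP_sum, Finset.prod_eq_zero (Finset.mem_range.2 hkm) (by rw [hk, sub_self]), sub_zero]

theorem PP_zero {χ : ℕ → E d → ℝ} {k n : ℕ} {z : E d} (hk : χ k z = 1) (hkn : k < n) :
    PP χ n z = 0 := by
  rw [PP, Finset.prod_eq_zero (Finset.mem_range.2 hkn) (by rw [hk, sub_self]), mul_zero]

theorem PP_smooth {χ : ℕ → E d → ℝ} (hχ : ∀ n, ContDiff ℝ ∞ (χ n)) (n : ℕ) :
    ContDiff ℝ ∞ (PP χ n) :=
  (hχ n).mul (contDiff_prod fun k _ => contDiff_const.sub (hχ k))

theorem PP_tsupport (χ : ℕ → E d → ℝ) (n : ℕ) : tsupport (PP χ n) ⊆ tsupport (χ n) :=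
  tsupport_mul_subset_left

theorem PP_fderiv_zero {χ : ℕ → E d → ℝ} {k n : ℕ} {O : Set (E d)} (hO : IsOpen O)
    (hk : ∀ z ∈ O, χ k z = 1) (hkn : k < n) {z : E d} (hz : z ∈ O) :
    fderiv ℝ (PP χ n) z = 0 := by
  have h1 : PP χ n =ᶠ[𝓝 z] fun _ => (0 : ℝ) := by
    filter_upwards [hO.mem_nhds hz] with y hy
    exact PP_zero (hk y hy) hkn
  rw [h1.fderiv_eq]
  simp

theorem PP_fderiv_sum {χ : ℕ → E d → ℝ} (hχ : ∀ n, ContDiff ℝ ∞ (χ n)) {k m : ℕ}
    {O : Set (E d)} (hO : IsOpen O) (hk : ∀ z ∈ O, χ k z = 1) (hkm : k < m) {z : E d}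
    (hz : z ∈ O) : ∑ n ∈ Finset.range m, fderiv ℝ (PP χ n) z = 0 := by
  have h1 : (fun y => ∑ n ∈ Finset.range m, PP χ n y) =ᶠ[𝓝 z] fun _ => (1 : ℝ) := by
    filter_upwards [hO.mem_nhds hz] with y hy
    exact PP_sum_one (hk y hy) hkm
  have h2 := h1.fderiv_eq (𝕜 := ℝ)
  rw [fderiv_fun_sum fun n _ => ((PP_smooth hχ n).differentiable (by simp)) z] at h2
  rw [h2]
  simp

/-- the gluing data -/
structure Data (W : Set (E d)) (γ : E d → E d →L[ℝ] ℝ) where
  B : ℕ → Set (E d)
  O : ℕ → Set (E d)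
  f : ℕ → E d → ℝ
  χ : ℕ → E d → ℝ
  hB : ∀ n, IsOpen (B n)
  hO : ∀ n, IsOpen (O n)
  hf : ∀ n, Integrable (f n)
  hχ : ∀ n, ContDiff ℝ ∞ (χ n)
  hχc : ∀ n, HasCompactSupport (χ n)
  hχB : ∀ n, tsupport (χ n) ⊆ B n
  hBW : ∀ n, B n ⊆ W
  hχO : ∀ n, ∀ z ∈ O n, χ n z = 1
  hcov : W ⊆ ⋃ n, O n
  hw : ∀ n, WeakGrad (B n) (f n) γ

variable {W : Set (E d)} {γ : E d → E d →L[ℝ] ℝ} (D : Data W γ)

/-- the glued function -/
def gg (z : E d) : ℝ := ∑' n, PP D.χ n z * D.f n z

/-- the error form -/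
def NN (z : E d) : E d →L[ℝ] ℝ := ∑' n, D.f n z • fderiv ℝ (PP D.χ n) z

theorem gg_eq {k m : ℕ} (hkm : k < m) {z : E d} (hz : z ∈ D.O k) :
    gg D z = ∑ n ∈ Finset.range m, PP D.χ n z * D.f n z := by
  refine tsum_eq_sum fun n hn => ?_
  rw [Finset.mem_range, not_lt] at hn
  rw [PP_zero (D.hχO k z hz) (hkm.trans_le hn), zero_mul]

theorem NN_eq {k m : ℕ} (hkm : k < m) {z : E d} (hz : z ∈ D.O k) :
    NN D z = ∑ n ∈ Finset.range m, D.f n z • fderiv ℝ (PP D.χ n) z := by
  refine tsum_eq_sum fun n hn => ?_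
  rw [Finset.mem_range, not_lt] at hn
  rw [PP_fderiv_zero (D.hO k) (D.hχO k) (hkm.trans_le hn) hz, smul_zero]

theorem O_sub (n : ℕ) : D.O n ⊆ D.B n := by
  intro z hz
  refine D.hχB n (subset_tsupport _ ?_)
  rw [Function.mem_support, D.hχO n z hz]
  exact one_ne_zero

theorem weakGrad_sub {U : Set (E d)} {f g : E d → ℝ} (hf : Integrable f) (hg : Integrable g)
    (h1 : WeakGrad U f γ) (h2 : WeakGrad U g γ) : WeakGrad U (fun z => f z - g z) fun _ => 0 := by
  intro φ hφ hc hs v
  have hb : Continuous fun z => fderiv ℝ φ z v :=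
    (hφ.continuous_fderiv (by simp)).clm_apply continuous_const
  have hbc : HasCompactSupport fun z => fderiv ℝ φ z v :=
    (hc.fderiv (𝕜 := ℝ)).comp_left (g := fun L : E d →L[ℝ] ℝ => L v) rfl
  obtain ⟨M, hM⟩ := hbc.exists_bound_of_continuous hb
  have i1 : Integrable fun z => f z * fderiv ℝ φ z v :=
    hf.mul_bdd hb.aestronglyMeasurable (Eventually.of_forall hM)
  have i2 : Integrable fun z => g z * fderiv ℝ φ z v :=
    hg.mul_bdd hb.aestronglyMeasurable (Eventually.of_forall hM)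
  have e1 : ∀ z, (f z - g z) * fderiv ℝ φ z v = f z * fderiv ℝ φ z v - g z * fderiv ℝ φ z v :=
    fun z => sub_mul _ _ _
  simp_rw [e1]
  rw [integral_sub i1 i2, h1 φ hφ hc hs v, h2 φ hφ hc hs v]
  simp

theorem WeakGrad.mono {U U' : Set (E d)} (hU : U' ⊆ U) {f : E d → ℝ} (h : WeakGrad U f γ) :
    WeakGrad U' f γ := fun φ hφ hc hs v => h φ hφ hc (hs.trans hU) v

/-- smooth forms with symmetric derivative -/
def SymSmooth (S : E d → E d →L[ℝ] ℝ) : Prop :=
  ContDiff ℝ ∞ S ∧ ∀ a x y, fderiv ℝ S a x y = fderiv ℝ S a y x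

theorem symSmooth_sum {χ : ℕ → E d → ℝ} (hχ : ∀ n, ContDiff ℝ ∞ (χ n)) (c : ℕ → ℝ) (m : ℕ) :
    SymSmooth fun z => ∑ n ∈ Finset.range m, c n • fderiv ℝ (PP χ n) z := by
  have h1 : ∀ n, ContDiff ℝ ∞ (fderiv ℝ (PP χ n)) := fun n =>
    (PP_smooth hχ n).fderiv_right (by simp)
  refine ⟨ContDiff.sum fun n _ => (h1 n).const_smul (c n), fun a x y => ?_⟩
  rw [fderiv_fun_sum fun n _ => (((h1 n).const_smul (c n)).differentiable (by simp)) a]
  simp only [ContinuousLinearMap.sum_apply]
  refine Finset.sum_congr rfl fun n _ => ?_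
  rw [fderiv_fun_const_smul (((h1 n).differentiable (by simp)) a)]
  have h2 := ((PP_smooth hχ n).contDiffAt (x := a)).isSymmSndFDerivAt
    Pool.Agent.H819.LG.smooth2 x y
  change c n • fderiv ℝ (fderiv ℝ (PP χ n)) a x y = c n • fderiv ℝ (fderiv ℝ (PP χ n)) a y x
  rw [h2]

/-- near every point the error form is a.e. equal to a smooth form with symmetric derivative -/
theorem local_form {z₀ : E d} (hz₀ : z₀ ∈ W) (hW : IsOpen W) :
    ∃ s : ℝ, 0 < s ∧ ball z₀ s ⊆ W ∧ ∃ S : E d → E d →L[ℝ] ℝ, SymSmooth S ∧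
      ∀ᵐ z, z ∈ ball z₀ s → NN D z = S z := by
  obtain ⟨k, hk⟩ := mem_iUnion.1 (D.hcov hz₀)
  have h1 : ∀ᶠ z in 𝓝 z₀, z ∈ D.O k := (D.hO k).mem_nhds hk
  have h2 : ∀ᶠ z in 𝓝 z₀, ∀ n ∈ Finset.range (k + 1),
      (z₀ ∈ tsupport (D.χ n) → z ∈ D.B n) ∧ (z₀ ∉ tsupport (D.χ n) → z ∉ tsupport (D.χ n)) := by
    rw [Filter.eventually_all_finset]
    intro n _
    by_cases h : z₀ ∈ tsupport (D.χ n)
    · filter_upwards [(D.hB n).mem_nhds (D.hχB n h)] with z hz
      exact ⟨fun _ => hz, fun h' => absurd h h'⟩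
    · filter_upwards [(isClosed_tsupport (D.χ n)).isOpen_compl.mem_nhds h] with z hz
      exact ⟨fun h' => absurd h' h, fun _ => hz⟩
  obtain ⟨s, hs, hsub⟩ := Metric.mem_nhds_iff.1 ((h1.and h2).and (hW.mem_nhds hz₀))
  have hkk : ∀ z ∈ ball z₀ s, z ∈ D.O k := fun z hz => (hsub hz).1.1
  have hc : ∀ n, n ∈ Finset.range (k + 1) → z₀ ∈ tsupport (D.χ n) → ∃ c : ℝ, ∀ᵐ z,
      z ∈ ball z₀ (s / 2) → D.f n z - D.f k z = c := by
    intro n hn hz
    refine ae_const ((D.hf n).sub (D.hf k)) hs (weakGrad_sub (D.hf n) (D.hf k)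
      (WeakGrad.mono (fun z hz' => ((hsub hz').1.2 n hn).1 hz) (D.hw n))
      (WeakGrad.mono (fun z hz' => O_sub D k (hkk z hz')) (D.hw k)))
  choose! c hc using hc
  refine ⟨s / 2, by positivity, fun z hz => (hsub (ball_subset_ball (by linarith) hz)).2,
    fun z => ∑ n ∈ Finset.range (k + 1), c n • fderiv ℝ (PP D.χ n) z,
    symSmooth_sum D.hχ c (k + 1), ?_⟩
  have hall : ∀ᵐ z, ∀ n ∈ Finset.range (k + 1), z₀ ∈ tsupport (D.χ n) →
      z ∈ ball z₀ (s / 2) → D.f n z - D.f k z = c n := by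
    rw [Filter.eventually_all_finset]
    intro n hn
    by_cases h : z₀ ∈ tsupport (D.χ n)
    · filter_upwards [hc n hn h] with z hz _
      exact hz
    · exact Eventually.of_forall fun z h' => absurd h' h
  filter_upwards [hall] with z hz hzB
  have hzB' : z ∈ ball z₀ s := ball_subset_ball (by linarith) hzB
  have hzO := hkk z hzB'
  rw [NN_eq D (Nat.lt_succ_self k) hzO]
  have h3 : ∀ n ∈ Finset.range (k + 1), D.f n z • fderiv ℝ (PP D.χ n) z =
      D.f k z • fderiv ℝ (PP D.χ n) z + c n • fderiv ℝ (PP D.χ n) z := by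
    intro n hn
    by_cases h : z₀ ∈ tsupport (D.χ n)
    · rw [← hz n hn h hzB, ← add_smul]
      congr 1
      ring
    · have h4 : z ∉ tsupport (PP D.χ n) := fun h' =>
        ((hsub hzB').1.2 n hn).2 h (PP_tsupport D.χ n h')
      rw [fderiv_of_notMem_tsupport (𝕜 := ℝ) h4]
      simp
  rw [Finset.sum_congr rfl h3, Finset.sum_add_distrib, ← Finset.smul_sum,
    PP_fderiv_sum D.hχ (D.hO k) (D.hχO k) (Nat.lt_succ_self k) hzO, smul_zero, zero_add]

/-- the smooth form, up to sign -/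
theorem global_form (hW : IsOpen W) :
    ∃ S : E d → E d →L[ℝ] ℝ, ContDiffOn ℝ ∞ S W ∧
      (∀ a ∈ W, ∀ x y, fderiv ℝ S a x y = fderiv ℝ S a y x) ∧ ∀ᵐ z, z ∈ W → NN D z = S z := by
  classical
  have h0 : ∀ z₀ : E d, ∃ (s : ℝ) (S : E d → E d →L[ℝ] ℝ), z₀ ∈ W → 0 < s ∧ ball z₀ s ⊆ W ∧
      SymSmooth S ∧ ∀ᵐ z, z ∈ ball z₀ s → NN D z = S z := by
    intro z₀
    by_cases h : z₀ ∈ W
    · obtain ⟨s, hs, hb, S, hS, hae⟩ := local_form D h hW
      exact ⟨s, S, fun _ => ⟨hs, hb, hS, hae⟩⟩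
    · exact ⟨0, 0, fun h' => absurd h' h⟩
  choose s S hsS using h0
  have hglue : ∀ z ∈ W, ∀ w ∈ ball z (s z), S w w = S z w := by
    intro z hz w hw
    obtain ⟨hs, hb, hS, hae⟩ := hsS z hz
    have hwW := hb hw
    obtain ⟨hs', hb', hS', hae'⟩ := hsS w hwW
    have h1 : S w =ᵐ[volume.restrict (ball w (s w) ∩ ball z (s z))] S z := by
      rw [Filter.EventuallyEq, ae_restrict_iff' (isOpen_ball.inter isOpen_ball).measurableSet]
      filter_upwards [hae, hae'] with y hy hy' hyB
      rw [← hy' hyB.1, hy hyB.2]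
    exact Measure.eqOn_open_of_ae_eq h1 (isOpen_ball.inter isOpen_ball)
      hS'.1.continuous.continuousOn hS.1.continuous.continuousOn ⟨mem_ball_self hs', hw⟩
  have hnear : ∀ z ∈ W, (fun w => S w w) =ᶠ[𝓝 z] S z := by
    intro z hz
    filter_upwards [ball_mem_nhds z (hsS z hz).1] with w hw
    exact hglue z hz w hw
  refine ⟨fun w => S w w, fun z hz => ?_, fun z hz x y => ?_, ?_⟩
  · exact (((hsS z hz).2.2.1.1.contDiffAt).congr_of_eventuallyEq (hnear z hz)).contDiffWithinAt
  · rw [(hnear z hz).fderiv_eq]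
    exact (hsS z hz).2.2.1.2 z x y
  · rw [ae_iff]
    refine measure_null_of_locally_null _ fun z hz => ?_
    simp only [mem_ofPred_eq, Classical.not_imp] at hz
    obtain ⟨hs, hb, hS, hae⟩ := hsS z hz.1
    refine ⟨{y | ¬ (y ∈ W → NN D y = S y y)} ∩ ball z (s z),
      inter_mem self_mem_nhdsWithin (mem_nhdsWithin_of_mem_nhds (ball_mem_nhds z hs)), ?_⟩
    have h2 : {y | ¬ (y ∈ W → NN D y = S y y)} ∩ ball z (s z) ⊆
        {y | ¬ (y ∈ ball z (s z) → NN D y = S z y)} := by
      rintro y ⟨hy, hyB⟩ hc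
      refine hy fun _ => ?_
      rw [hc hyB, hglue z hz.1 y hyB]
    exact measure_mono_null h2 (ae_iff.1 hae)

/-! ### The weak gradient of the glued function -/

theorem test_int {γ : E d → E d →L[ℝ] ℝ} (hγ : LocallyIntegrableOn γ W) {ψ : E d → ℝ}
    (hψ : Continuous ψ) (hc : HasCompactSupport ψ) (hs : tsupport ψ ⊆ W) (v : E d) :
    Integrable fun z => γ z v * ψ z := by
  have h1 : IntegrableOn γ (tsupport ψ) := hγ.integrableOn_compact_subset hs hc
  have h2 : IntegrableOn (fun z => γ z v) (tsupport ψ) := h1.apply_continuousLinearMap v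
  obtain ⟨M, hM⟩ := hc.exists_bound_of_continuous hψ
  have h3 : IntegrableOn (fun z => γ z v * ψ z) (tsupport ψ) :=
    Integrable.mul_bdd (μ := volume.restrict (tsupport ψ)) h2 hψ.aestronglyMeasurable
      (Eventually.of_forall hM)
  refine (integrableOn_iff_integrable_of_support_subset ?_).1 h3
  intro z hz
  refine subset_tsupport ψ ?_
  rw [Function.mem_support] at hz ⊢
  intro h
  exact hz (by rw [h, mul_zero])

theorem weakGrad_gg (hγ : LocallyIntegrableOn γ W) {φ : E d → ℝ} (hφ : ContDiff ℝ ∞ φ)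
    (hc : HasCompactSupport φ) (hs : tsupport φ ⊆ W) (v : E d) :
    ∫ z, gg D z * fderiv ℝ φ z v = - (∫ z, γ z v * φ z) - ∫ z, NN D z v * φ z := by
  have hφd : ∀ z, DifferentiableAt ℝ φ z := hφ.differentiable (by simp)
  have hP : ∀ n, ContDiff ℝ ∞ (PP D.χ n) := PP_smooth D.hχ
  have hPd : ∀ n z, DifferentiableAt ℝ (PP D.χ n) z := fun n => (hP n).differentiable (by simp)
  obtain ⟨t, ht⟩ := hc.elim_finite_subcover D.O D.hO (hs.trans D.hcov)
  obtain ⟨m, hm⟩ : ∃ m, ∀ k ∈ t, k < m := by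
    refine ⟨t.sup id + 1, fun k hk => ?_⟩
    have := Finset.le_sup (f := id) hk
    simp only [id] at this
    omega
  have hmem : ∀ z ∈ tsupport φ, ∃ k, k < m ∧ z ∈ D.O k := by
    intro z hz
    have := ht hz
    simp only [mem_iUnion] at this
    obtain ⟨k, hk, hzk⟩ := this
    exact ⟨k, hm k hk, hzk⟩
  have hcn : ∀ n, HasCompactSupport (fun z => PP D.χ n z * φ z) := fun n => hc.mul_left
  have hsn : ∀ n, ContDiff ℝ ∞ (fun z => PP D.χ n z * φ z) := fun n => (hP n).mul hφ
  have htn : ∀ n, tsupport (fun z => PP D.χ n z * φ z) ⊆ D.B n := fun n =>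
    (tsupport_mul_subset_left.trans (PP_tsupport D.χ n)).trans (D.hχB n)
  -- the weak gradients of the pieces
  have hw : ∀ n, ∫ z, D.f n z * fderiv ℝ (fun z => PP D.χ n z * φ z) z v =
      - ∫ z, γ z v * (PP D.χ n z * φ z) := fun n => D.hw n _ (hsn n) (hcn n) (htn n) v
  -- the product rule
  have hprod : ∀ n z, fderiv ℝ (fun z => PP D.χ n z * φ z) z v =
      PP D.χ n z * fderiv ℝ φ z v + φ z * fderiv ℝ (PP D.χ n) z v := by
    intro n z
    rw [fderiv_fun_mul (hPd n z) (hφd z)]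
    simp
  -- integrability
  have hdφ : Continuous fun z => fderiv ℝ φ z v :=
    (hφ.continuous_fderiv (by simp)).clm_apply continuous_const
  have hdφc : HasCompactSupport fun z => fderiv ℝ φ z v :=
    (hc.fderiv (𝕜 := ℝ)).comp_left (g := fun L : E d →L[ℝ] ℝ => L v) rfl
  have hdP : ∀ n, Continuous fun z => fderiv ℝ (PP D.χ n) z v := fun n =>
    ((hP n).continuous_fderiv (by simp)).clm_apply continuous_const
  have i1 : ∀ n, Integrable fun z => D.f n z * (PP D.χ n z * fderiv ℝ φ z v) := by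
    intro n
    have h1 : Continuous fun z => PP D.χ n z * fderiv ℝ φ z v := (hP n).continuous.mul hdφ
    have h2 : HasCompactSupport fun z => PP D.χ n z * fderiv ℝ φ z v := hdφc.mul_left
    obtain ⟨M, hM⟩ := h2.exists_bound_of_continuous h1
    exact (D.hf n).mul_bdd h1.aestronglyMeasurable (Eventually.of_forall hM)
  have i2 : ∀ n, Integrable fun z => D.f n z * (φ z * fderiv ℝ (PP D.χ n) z v) := by
    intro n
    have h1 : Continuous fun z => φ z * fderiv ℝ (PP D.χ n) z v := hφ.continuous.mul (hdP n)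
    have h2 : HasCompactSupport fun z => φ z * fderiv ℝ (PP D.χ n) z v := hc.mul_right
    obtain ⟨M, hM⟩ := h2.exists_bound_of_continuous h1
    exact (D.hf n).mul_bdd h1.aestronglyMeasurable (Eventually.of_forall hM)
  have i3 : ∀ n, Integrable fun z => γ z v * (PP D.χ n z * φ z) := fun n =>
    test_int hγ (hsn n).continuous (hcn n) ((htn n).trans (D.hBW n)) v
  -- the piecewise formula
  have hpiece : ∀ n, ∫ z, D.f n z * (PP D.χ n z * fderiv ℝ φ z v) =
      - (∫ z, γ z v * (PP D.χ n z * φ z)) -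
        ∫ z, D.f n z * (φ z * fderiv ℝ (PP D.χ n) z v) := by
    intro n
    have h1 := hw n
    simp_rw [hprod n, mul_add] at h1
    rw [integral_add (i1 n) (i2 n)] at h1
    linarith
  have hg : ∀ z, gg D z * fderiv ℝ φ z v =
      ∑ n ∈ Finset.range m, D.f n z * (PP D.χ n z * fderiv ℝ φ z v) := by
    intro z
    by_cases hz : z ∈ tsupport φ
    · obtain ⟨k, hkm, hk⟩ := hmem z hz
      rw [gg_eq D hkm hk, Finset.sum_mul]
      exact Finset.sum_congr rfl fun n _ => by ring
    · rw [fderiv_of_notMem_tsupport (𝕜 := ℝ) hz]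
      simp
  have hN : ∀ z, NN D z v * φ z =
      ∑ n ∈ Finset.range m, D.f n z * (φ z * fderiv ℝ (PP D.χ n) z v) := by
    intro z
    by_cases hz : z ∈ tsupport φ
    · obtain ⟨k, hkm, hk⟩ := hmem z hz
      rw [NN_eq D hkm hk, ContinuousLinearMap.sum_apply, Finset.sum_mul]
      exact Finset.sum_congr rfl fun n _ => by
        rw [ContinuousLinearMap.smul_apply, smul_eq_mul]
        ring
    · rw [image_eq_zero_of_notMem_tsupport hz]
      simp
  have hγs : ∀ z, γ z v * φ z = ∑ n ∈ Finset.range m, γ z v * (PP D.χ n z * φ z) := by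
    intro z
    by_cases hz : z ∈ tsupport φ
    · obtain ⟨k, hkm, hk⟩ := hmem z hz
      rw [← Finset.mul_sum, ← Finset.sum_mul, PP_sum_one (D.hχO k z hk) hkm, one_mul]
    · rw [image_eq_zero_of_notMem_tsupport hz]
      simp
  simp_rw [hg, hN, hγs]
  rw [integral_finsetSum _ fun n _ => i1 n, integral_finsetSum _ fun n _ => i2 n,
    integral_finsetSum _ fun n _ => i3 n, ← Finset.sum_neg_distrib, ← Finset.sum_sub_distrib]
  exact Finset.sum_congr rfl fun n _ => hpiece n

theorem locInt_gg : LocallyIntegrableOn (gg D) W := by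
  intro z hz
  obtain ⟨k, hk⟩ := mem_iUnion.1 (D.hcov hz)
  refine ⟨D.O k, mem_nhdsWithin_of_mem_nhds ((D.hO k).mem_nhds hk), ?_⟩
  have h1 : Integrable fun z => ∑ n ∈ Finset.range (k + 1), PP D.χ n z * D.f n z := by
    refine integrable_finsetSum _ fun n _ => ?_
    have h2 : HasCompactSupport (PP D.χ n) := (D.hχc n).mul_right
    obtain ⟨M, hM⟩ := h2.exists_bound_of_continuous (PP_smooth D.hχ n).continuous
    exact (D.hf n).bdd_mul (PP_smooth D.hχ n).continuous.aestronglyMeasurable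
      (Eventually.of_forall hM)
  refine h1.integrableOn.congr_fun (fun y hy => ?_) (D.hO k).measurableSet
  exact (gg_eq D (Nat.lt_succ_self k) hy).symm

/-- the gluing data exist -/
theorem exists_data (hW : IsOpen W) (hne : W.Nonempty) (hγ : LocallyIntegrableOn γ W)
    (hcl : WeakClosed1 W γ) : Nonempty (Data W γ) := by
  classical
  have h0 : ∀ x : E d, ∃ (r : ℝ) (f : E d → ℝ), x ∈ W → 0 < r ∧ ball x r ⊆ W ∧
      IntegrableOn f (ball x r) ∧ WeakGrad (ball x r) f γ := by
    intro x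
    by_cases hx : x ∈ W
    · obtain ⟨r, f, h⟩ := local_primitive hW hγ hcl hx
      exact ⟨r, f, fun _ => h⟩
    · exact ⟨0, 0, fun h' => absurd h' hx⟩
  choose r f hrf using h0
  obtain ⟨t, htW, htc, hcov⟩ := TopologicalSpace.countable_cover_nhdsWithin (s := W)
    (f := fun x => ball x (r x / 2)) (fun x hx => mem_nhdsWithin_of_mem_nhds
      (ball_mem_nhds x (half_pos (hrf x hx).1)))
  have htne : t.Nonempty := by
    obtain ⟨x, hx⟩ := hne
    obtain ⟨y, hy, -⟩ := mem_iUnion₂.1 (hcov hx)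
    exact ⟨y, hy⟩
  obtain ⟨x, rfl⟩ := htc.exists_eq_range htne
  have hxW : ∀ n, x n ∈ W := fun n => htW (mem_range_self n)
  let b : ∀ n, ContDiffBump (x n) := fun n =>
    ⟨r (x n) / 2, 3 * r (x n) / 4, half_pos (hrf _ (hxW n)).1, by
      have := (hrf _ (hxW n)).1
      linarith⟩
  refine ⟨⟨fun n => ball (x n) (r (x n)), fun n => ball (x n) (r (x n) / 2),
    fun n => (ball (x n) (r (x n))).indicator (f (x n)), fun n => b n, fun n => isOpen_ball,
    fun n => isOpen_ball, fun n => ?_, fun n => (b n).contDiff, fun n => (b n).hasCompactSupport,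
    fun n => ?_, fun n => (hrf _ (hxW n)).2.1, fun n z hz => ?_, ?_, fun n => ?_⟩⟩
  · exact (integrable_indicator_iff isOpen_ball.measurableSet).2 (hrf _ (hxW n)).2.2.1
  · rw [(b n).tsupport_eq]
    refine closedBall_subset_ball ?_
    have := (hrf _ (hxW n)).1
    change 3 * r (x n) / 4 < r (x n)
    linarith
  · exact (b n).one_of_mem_closedBall (ball_subset_closedBall hz)
  · intro z hz
    obtain ⟨y, ⟨n, rfl⟩, hy⟩ := mem_iUnion₂.1 (hcov hz)
    exact mem_iUnion.2 ⟨n, hy⟩
  · intro φ hφ hc hs v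
    rw [← (hrf _ (hxW n)).2.2.2 φ hφ hc hs v]
    refine integral_congr_ae (Eventually.of_forall fun z => ?_)
    by_cases hz : z ∈ ball (x n) (r (x n))
    · simp only [indicator_of_mem hz]
    · have h1 : fderiv ℝ φ z = 0 := fderiv_of_notMem_tsupport (𝕜 := ℝ) fun h' => hz (hs h')
      simp only [h1]
      simp

end OneSm

/-- **A weakly closed one-form on an open set is the sum of a smooth closed form and a gradient.**

Proof.  For each `x ∈ W` take `r x`, `f x` from `local_primitive`, `B x = ball x (r x)`.  On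
`B x ∩ B y` (convex) the function `f x - f y` has weak gradient zero, so it is a.e. equal to a
constant `c x y` (if the intersection is nonempty; mollify: the convolutions with bumps have
derivative zero, and converge in `L¹` locally; the library may have: a function with weak gradient
zero on a ball or a connected open set is a.e. constant).  Let `P i`, `i ∈ ι`, be a smooth partition of
unity on `W` subordinate to the balls, `P i` with support in `B (x i)`: for instance
`SmoothPartitionOfUnity.exists_isSubordinate` on the manifold `(⟨W, hW⟩ : Opens (E d))` (sigma-compact,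
Hausdorff), `P i` extended by zero to `E d`; it is smooth on `W`, the supports are locally finite in
`W`, `∑ P i = 1` on `W`.
Put `g = ∑ᶠ i, P i * f (x i)` (locally a finite sum; `P i * f (x i)` is locally integrable on `W`
since the support of `P i` in `W` is a relatively closed subset of `B (x i)`), and on `B (x j)`
`ν = - ∑ᶠ i, c (x i) (x j) • fderiv (P i)` (sum over the `i` with `B (x i) ∩ B (x j)` nonempty):
this does not depend on `j` since `c (x i) (x j) + c (x j) (x k) = c (x i) (x k)` on triple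
intersections and `∑ fderiv (P i) = 0`; it is smooth on `W` with symmetric derivative (the second
derivative of a smooth function is symmetric).
Weak gradient of `g` on `B (x j)`: `g = f (x j) + ∑ P i * (f (x i) - f (x j)) =
f (x j) + ∑ c (x i) (x j) * P i` a.e. on `B (x j)`, so the weak gradient is `γ - ν` there.  A test
function `φ` with support in `W` is a finite sum of test functions with support in balls
`B (x j)` (multiply with `P j`, or with a finite smooth partition of unity for the compact set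
`tsupport φ`). -/
theorem smooth_plus_grad {W : Set (E d)} (hW : IsOpen W) {γ : E d → E d →L[ℝ] ℝ}
    (hγ : LocallyIntegrableOn γ W) (hcl : WeakClosed1 W γ) :
    ∃ (g : E d → ℝ) (ν : E d → E d →L[ℝ] ℝ), LocallyIntegrableOn g W ∧ ContDiffOn ℝ ∞ ν W ∧
      (∀ a ∈ W, ∀ x y, fderiv ℝ ν a x y = fderiv ℝ ν a y x) ∧
      WeakGrad W g (fun z => γ z - ν z) := by
  rcases W.eq_empty_or_nonempty with rfl | hne
  · refine ⟨0, 0, fun x hx => absurd hx (notMem_empty x), fun x hx => absurd hx (notMem_empty x),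
      fun a ha => absurd ha (notMem_empty a), fun φ hφ hc hs v => ?_⟩
    have h1 : ∀ z, φ z = 0 := fun z => image_eq_zero_of_notMem_tsupport fun h' => hs h'
    simp [h1]
  obtain ⟨D⟩ := OneSm.exists_data hW hne hγ hcl
  obtain ⟨S, hS, hsym, hae⟩ := OneSm.global_form D hW
  refine ⟨OneSm.gg D, fun z => - S z, OneSm.locInt_gg D, hS.neg, fun a ha x y => ?_,
    fun φ hφ hc hs v => ?_⟩
  · rw [fderiv_fun_neg]
    change - (fderiv ℝ S a x y) = - (fderiv ℝ S a y x)
    rw [hsym a ha x y]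
  · rw [OneSm.weakGrad_gg D hγ hφ hc hs v]
    have h1 : ∫ z, OneSm.NN D z v * φ z = ∫ z, S z v * φ z := by
      refine integral_congr_ae ?_
      filter_upwards [hae] with z hz
      by_cases hzW : z ∈ W
      · rw [hz hzW]
      · rw [image_eq_zero_of_notMem_tsupport fun h' => hzW (hs h'), mul_zero, mul_zero]
    have i1 : Integrable fun z => γ z v * φ z := OneSm.test_int hγ hφ.continuous hc hs v
    have i2 : Integrable fun z => S z v * φ z :=
      OneSm.test_int (hS.continuousOn.locallyIntegrableOn hW.measurableSet) hφ.continuous hc hs v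
    have e1 : ∀ z, (γ z - - S z) v * φ z = γ z v * φ z + S z v * φ z := by
      intro z
      rw [sub_neg_eq_add, ContinuousLinearMap.add_apply, add_mul]
    simp_rw [e1]
    rw [h1, integral_add i1 i2]
    ring

end Pool.Agent.H819.PU
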