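import Mathlib
import Pool.Agent.H819.PU.OneSm
import Pool.Agent.H819.PU.GenPos
import Pool.Agent.H819.LN.Stat

/-!
# The difference of two primitives off a small set is a gradient
-/

set_option autoImplicit false

open Set Filter Topology MeasureTheory Metric
open scoped Manifold ContDiff ENNReal NNReal

noncomputable section

namespace Pool.Agent.H819.PU

open Pool.Agent.Y501.SY (E)
open Pool.Agent.H819

variable {d : ℕ}

namespace LocPotx

open Pool.Agent.H819.LG (int_bilin)
open Pool.Agent.Y431.SY (ev ev_apply)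

/-- one-forms as linear forms -/
def L1 : ((E d) [⋀^Fin 1]→L[ℝ] ℝ) →L[ℝ] (E d →L[ℝ] ℝ) :=
  LinearMap.mkContinuous
    { toFun := fun f => (ContinuousAlternatingMap.ofSubsingleton ℝ (E d) ℝ (0 : Fin 1)).symm f
      map_add' := fun f g => by ext v; rfl
      map_smul' := fun c f => by ext v; rfl } 1 (fun f => by
        rw [one_mul]
        refine ContinuousLinearMap.opNorm_le_bound _ (norm_nonneg f) fun v => ?_
        have h := f.le_opNorm (fun _ => v)
        rw [Fin.prod_univ_one] at h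
        exact h)

theorem L1_apply (f : (E d) [⋀^Fin 1]→L[ℝ] ℝ) (v : E d) : L1 f v = f ![v] := by
  have h : (![v] : Fin 1 → E d) = fun _ => v := by
    funext i
    rw [Subsingleton.elim i 0]
    rfl
  rw [h]
  rfl

/-- integration by parts on an open set -/
theorem ibp {W : Set (E d)} (hW : IsOpen W) {f : E d → ℝ} {f' : E d → E d →L[ℝ] ℝ}
    (hf : ∀ z ∈ W, HasFDerivAt f (f' z) z) (hf' : ContinuousOn f' W) {φ : E d → ℝ}
    (hφ : ContDiff ℝ ∞ φ) (hφc : HasCompactSupport φ) (hφt : tsupport φ ⊆ W) (v : E d) :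
    Integrable (fun z => f' z v * φ z) ∧ Integrable (fun z => f z * fderiv ℝ φ z v) ∧
      ∫ z, f z * fderiv ℝ φ z v = - ∫ z, f' z v * φ z := by
  have hφ0 : ∀ z, z ∉ tsupport φ → φ z = 0 := fun z hz => image_eq_zero_of_notMem_tsupport hz
  have hdφ : Continuous (fun z => fderiv ℝ φ z v) :=
    (hφ.continuous_fderiv (by simp)).clm_apply continuous_const
  have hdφ0 : ∀ z, z ∉ tsupport φ → fderiv ℝ φ z v = 0 := by
    intro z hz
    rw [fderiv_of_notMem_tsupport (𝕜 := ℝ) hz]
    rfl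
  have hfc : ContinuousOn f W := fun z hz => (hf z hz).continuousAt.continuousWithinAt
  have i1 : Integrable (fun z => f' z v * φ z) := by
    have h1 : LocallyIntegrableOn (fun z => f' z v) W :=
      (hf'.clm_apply continuousOn_const).locallyIntegrableOn hW.measurableSet
    have h2 := int_bilin (ContinuousLinearMap.mul ℝ ℝ) hφc.isCompact hφt hφ.continuous hφ0 h1
    refine h2.congr (Eventually.of_forall fun z => ?_)
    exact mul_comm _ _
  have i2 : Integrable (fun z => f z * fderiv ℝ φ z v) := by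
    have h1 : LocallyIntegrableOn f W := hfc.locallyIntegrableOn hW.measurableSet
    have h2 := int_bilin (ContinuousLinearMap.mul ℝ ℝ) hφc.isCompact hφt hdφ hdφ0 h1
    refine h2.congr (Eventually.of_forall fun z => ?_)
    exact mul_comm _ _
  have i3 : Integrable (fun z => f z * φ z) := by
    have h1 : LocallyIntegrableOn f W := hfc.locallyIntegrableOn hW.measurableSet
    have h2 := int_bilin (ContinuousLinearMap.mul ℝ ℝ) hφc.isCompact hφt hφ.continuous hφ0 h1
    refine h2.congr (Eventually.of_forall fun z => ?_)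
    exact mul_comm _ _
  have hcongr : (fun z => fderiv ℝ f z v * φ z) = fun z => f' z v * φ z := by
    funext z
    by_cases hz : z ∈ tsupport φ
    · rw [(hf z (hφt hz)).fderiv]
    · rw [hφ0 z hz, mul_zero, mul_zero]
  refine ⟨i1, i2, ?_⟩
  have h1 := integral_mul_fderiv_eq_neg_fderiv_mul_of_integrable (𝕜 := ℝ) (μ := volume)
    (f := f) (g := φ) (v := v) (by rw [hcongr]; exact i1) i2 i3
    (fun z hz => (hf z (hφt hz)).differentiableAt)
    (fun z _ => hφ.differentiable (by simp) z)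
  rw [h1, hcongr]

/-- the exterior derivative is the weak exterior derivative -/
theorem weak_ext {W : Set (E d)} (hW : IsOpen W) {β : E d → (E d) [⋀^Fin 1]→L[ℝ] ℝ}
    {τ : E d → (E d) [⋀^Fin 2]→L[ℝ] ℝ} (hβ : ContDiffOn ℝ ∞ β W)
    (hdβ : ∀ z ∈ W, extDeriv β z = τ z) {φ : E d → ℝ}
    (hφ : ContDiff ℝ ∞ φ) (hφc : HasCompactSupport φ) (hφt : tsupport φ ⊆ W) (u v : E d) :
    Integrable (fun z => β z ![v] * fderiv ℝ φ z u - β z ![u] * fderiv ℝ φ z v) ∧
    ∫ z, (β z ![v] * fderiv ℝ φ z u - β z ![u] * fderiv ℝ φ z v) = - ∫ z, τ z ![u, v] * φ z := by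
  have hφ0 : ∀ z, z ∉ tsupport φ → φ z = 0 := fun z hz => image_eq_zero_of_notMem_tsupport hz
  have hbd : ∀ z ∈ W, HasFDerivAt β (fderiv ℝ β z) z := fun z hz =>
    ((hβ.contDiffAt (hW.mem_nhds hz)).differentiableAt (by simp)).hasFDerivAt
  have hc : ContinuousOn (fderiv ℝ β) W := hβ.continuousOn_fderiv_of_isOpen hW (by simp)
  have key : ∀ u w : E d, Integrable (fun z => fderiv ℝ β z u ![w] * φ z) ∧
      Integrable (fun z => β z ![w] * fderiv ℝ φ z u) ∧
      ∫ z, β z ![w] * fderiv ℝ φ z u = - ∫ z, fderiv ℝ β z u ![w] * φ z := by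
    intro u w
    have h1 := ibp hW (f := fun z => β z ![w])
      (f' := fun z => (ev (![w] : Fin 1 → E d)).comp (fderiv ℝ β z))
      (fun z hz => (ev (![w] : Fin 1 → E d)).hasFDerivAt.comp z (hbd z hz))
      (continuousOn_const.clm_comp hc) hφ hφc hφt u
    exact h1
  obtain ⟨a1, a2, a3⟩ := key u v
  obtain ⟨b1, b2, b3⟩ := key v u
  refine ⟨a2.sub b2, ?_⟩
  rw [integral_sub a2 b2, a3, b3, sub_neg_eq_add, neg_add_eq_sub, ← integral_sub b1 a1,
    ← integral_neg]
  refine integral_congr_ae (Eventually.of_forall fun z => ?_)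
  show fderiv ℝ β z v ![u] * φ z - fderiv ℝ β z u ![v] * φ z = -(τ z ![u, v] * φ z)
  by_cases hz : z ∈ tsupport φ
  · have hzT := hφt hz
    rw [← hdβ z hzT, extDeriv_apply (hbd z hzT).differentiableAt, Fin.sum_univ_two]
    have e0 : Fin.removeNth 0 (![u, v] : Fin 2 → E d) = ![v] := by
      funext i; fin_cases i; rfl
    have e1 : Fin.removeNth 1 (![u, v] : Fin 2 → E d) = ![u] := by
      funext i; fin_cases i; rfl
    rw [e0, e1]
    have hfd : ∀ w u : E d, fderiv ℝ (fun z => β z ![w]) z u = fderiv ℝ β z u ![w] := by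
      intro w u
      have h1 : HasFDerivAt (fun z => β z ![w]) ((ev (![w] : Fin 1 → E d)).comp (fderiv ℝ β z)) z :=
        (ev (![w] : Fin 1 → E d)).hasFDerivAt.comp z (hbd z hzT)
      rw [h1.fderiv]
      rfl
    simp only [Fin.val_zero, pow_zero, one_smul, Fin.val_one, pow_one, neg_smul,
      Matrix.cons_val_zero, Matrix.cons_val_one, hfd]
    ring
  · rw [hφ0 z hz]
    ring

end LocPotx

/-- **Potentials.**  `β` is a smooth primitive of `τ` on `ball x r \ S`, and `η` is an integrable weak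
primitive of `τ` on the whole ball.  Then `β - η` is a weak gradient on `ball x r \ S`.

Proof.  Put `W = ball x r \ S` (open) and `γ z = ` the linear form `v ↦ β z ![v] - η z ![v]`
(e.g. compose with the continuous linear isomorphism between `(E d) [⋀^Fin 1]→L[ℝ] ℝ` and
`E d →L[ℝ] ℝ`, or `v ↦ (curryLeft v)` evaluated at `![]`).  `γ` is locally integrable on `W`
(`β` is continuous there) and `WeakClosed1 W γ`: for a test function `φ` with support in `W`
integrate by parts for the smooth `β` (as in `LG.weakPrim_of_smooth`, or `LN.int_fderiv_zero`):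
`∫ (β ![b] ∂_a φ - β ![a] ∂_b φ) = - ∫ extDeriv β ![a, b] φ = - ∫ τ ![a, b] φ`, the same as for
`η` (`hη`), so the difference is zero.  `smooth_plus_grad` gives `γ = ν + grad g` weakly on `W`
with `ν` smooth and closed, and `exists_primitive_off` (with `U = ball x r`) a function `f` with
derivative `ν` on `W`; `f` is of class `C^1` on `W`, so it is continuous, locally integrable and
`WeakGrad W f ν` (integrate by parts).  `F = f + g`. -/
theorem local_potential (hd : 3 ≤ d) {x : E d} {r : ℝ} {S : Set (E d)} (hS : IsCompact S)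
    (h0 : μH[((d - 3 : ℕ) : ℝ)] S = 0) {β η : E d → (E d) [⋀^Fin 1]→L[ℝ] ℝ}
    {τ : E d → (E d) [⋀^Fin 2]→L[ℝ] ℝ} (hβ : ContDiffOn ℝ ∞ β (ball x r \ S))
    (hdβ : ∀ z ∈ ball x r \ S, extDeriv β z = τ z) (hη : Integrable η)
    (hwη : ∀ φ : E d → ℝ, ContDiff ℝ ∞ φ → HasCompactSupport φ → tsupport φ ⊆ ball x r →
      ∀ u v : E d, ∫ z, (η z ![v] * fderiv ℝ φ z u - η z ![u] * fderiv ℝ φ z v) =
        - ∫ z, τ z ![u, v] * φ z) :
    ∃ F : E d → ℝ, LocallyIntegrableOn F (ball x r \ S) ∧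
      ∀ φ : E d → ℝ, ContDiff ℝ ∞ φ → HasCompactSupport φ → tsupport φ ⊆ ball x r \ S → ∀ v : E d,
        ∫ z, F z * fderiv ℝ φ z v = - ∫ z, (β z ![v] - η z ![v]) * φ z := by
  classical
  obtain ⟨W, hWd⟩ : ∃ W, W = ball x r \ S := ⟨_, rfl⟩
  have hW : IsOpen W := by rw [hWd]; exact isOpen_ball.sdiff hS.isClosed
  rw [← hWd] at hβ hdβ
  rw [← hWd]
  have hWb : W ⊆ ball x r := by rw [hWd]; exact sdiff_subset
  obtain ⟨γ, hγd⟩ : ∃ γ : E d → E d →L[ℝ] ℝ, γ = fun z => LocPotx.L1 (β z) - LocPotx.L1 (η z) :=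
    ⟨_, rfl⟩
  have hγv : ∀ z v, γ z v = β z ![v] - η z ![v] := by
    intro z v
    rw [hγd]
    show LocPotx.L1 (β z) v - LocPotx.L1 (η z) v = _
    rw [LocPotx.L1_apply, LocPotx.L1_apply]
  have hβi : LocallyIntegrableOn (fun z => LocPotx.L1 (β z)) W :=
    (LocPotx.L1.continuous.comp_continuousOn hβ.continuousOn).locallyIntegrableOn hW.measurableSet
  have hηi : LocallyIntegrableOn (fun z => LocPotx.L1 (η z)) W :=
    (LocPotx.L1.integrable_comp hη).locallyIntegrable.locallyIntegrableOn W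
  have hγ : LocallyIntegrableOn γ W := by
    rw [hγd]
    exact hβi.sub hηi
  have hηφ : ∀ φ : E d → ℝ, Continuous φ → HasCompactSupport φ → ∀ v : E d,
      Integrable (fun z => η z ![v] * φ z) := by
    intro φ hφ hφc v
    have h0 : ∀ z, z ∉ tsupport φ → φ z = 0 := fun z hz => image_eq_zero_of_notMem_tsupport hz
    have h1 := Pool.Agent.H819.LG.int_bilin (ContinuousLinearMap.lsmul ℝ ℝ) hφc.isCompact
      (subset_univ _) hφ h0 (hη.locallyIntegrable.locallyIntegrableOn univ)
    have h2 := (Pool.Agent.Y431.SY.ev (![v] : Fin 1 → E d)).integrable_comp h1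
    refine h2.congr (Eventually.of_forall fun z => ?_)
    show (φ z • η z) ![v] = _
    rw [ContinuousAlternatingMap.smul_apply, smul_eq_mul, mul_comm]
  have hdφc : ∀ φ : E d → ℝ, ContDiff ℝ ∞ φ → HasCompactSupport φ → ∀ u : E d,
      Continuous (fun z => fderiv ℝ φ z u) ∧ HasCompactSupport (fun z => fderiv ℝ φ z u) := by
    intro φ hφ hφc u
    refine ⟨(hφ.continuous_fderiv (by simp)).clm_apply continuous_const, ?_⟩
    exact (hφc.fderiv (𝕜 := ℝ)).comp_left (g := fun L : E d →L[ℝ] ℝ => L u) rfl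
  have hcl : WeakClosed1 W γ := by
    intro φ hφ hφc hφt a b
    obtain ⟨h1, h2⟩ := LocPotx.weak_ext hW hβ hdβ hφ hφc hφt a b
    have h3 := hwη φ hφ hφc (hφt.trans hWb) a b
    obtain ⟨k1, k2⟩ := hdφc φ hφ hφc a
    obtain ⟨k3, k4⟩ := hdφc φ hφ hφc b
    have h4 : Integrable (fun z => η z ![b] * fderiv ℝ φ z a - η z ![a] * fderiv ℝ φ z b) :=
      (hηφ _ k1 k2 b).sub (hηφ _ k3 k4 a)
    have h5 : ∀ z, γ z b * fderiv ℝ φ z a - γ z a * fderiv ℝ φ z b =
        (β z ![b] * fderiv ℝ φ z a - β z ![a] * fderiv ℝ φ z b) -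
        (η z ![b] * fderiv ℝ φ z a - η z ![a] * fderiv ℝ φ z b) := by
      intro z
      rw [hγv, hγv]
      ring
    simp only [h5]
    rw [integral_sub h1 h4, h2, h3, sub_self]
  obtain ⟨g, ν, hg, hν, hsym, hgrad⟩ := smooth_plus_grad hW hγ hcl
  have hν' := hν
  have hsym' := hsym
  rw [hWd] at hν' hsym'
  obtain ⟨f, hf⟩ := exists_primitive_off hd isOpen_ball (convex_ball x r) hS h0 hν' hsym'
  rw [← hWd] at hf
  have hfc : ContinuousOn f W := fun z hz => (hf z hz).continuousAt.continuousWithinAt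
  refine ⟨fun z => f z + g z, (hfc.locallyIntegrableOn hW.measurableSet).add hg, ?_⟩
  intro φ hφ hφc hφt v
  obtain ⟨i1, i2, i3⟩ := LocPotx.ibp hW hf hν.continuousOn hφ hφc hφt v
  obtain ⟨k1, k2⟩ := hdφc φ hφ hφc v
  have hφ0 : ∀ z, z ∉ tsupport φ → φ z = 0 := fun z hz => image_eq_zero_of_notMem_tsupport hz
  have hdφ0 : ∀ z, z ∉ tsupport φ → fderiv ℝ φ z v = 0 := by
    intro z hz
    rw [fderiv_of_notMem_tsupport (𝕜 := ℝ) hz]
    rfl
  have i4 : Integrable (fun z => g z * fderiv ℝ φ z v) := by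
    have h2 := Pool.Agent.H819.LG.int_bilin (ContinuousLinearMap.mul ℝ ℝ) hφc.isCompact hφt k1
      hdφ0 hg
    refine h2.congr (Eventually.of_forall fun z => ?_)
    exact mul_comm _ _
  have i5 : Integrable (fun z => γ z v * φ z) := by
    have h2 := Pool.Agent.H819.LG.int_bilin (ContinuousLinearMap.lsmul ℝ ℝ) hφc.isCompact hφt
      hφ.continuous hφ0 hγ
    have h3 := (ContinuousLinearMap.apply ℝ ℝ v).integrable_comp h2
    refine h3.congr (Eventually.of_forall fun z => ?_)
    show φ z * γ z v = _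
    exact mul_comm _ _
  have h1 := hgrad φ hφ hφc hφt v
  have h2 : ∀ z, (f z + g z) * fderiv ℝ φ z v = f z * fderiv ℝ φ z v + g z * fderiv ℝ φ z v :=
    fun z => add_mul _ _ _
  have h3 : ∀ z, (γ z - ν z) v * φ z = γ z v * φ z - ν z v * φ z := fun z => by
    rw [sub_apply]
    ring
  simp only [h2]
  rw [integral_add i2 i4, i3, h1]
  simp only [h3]
  rw [integral_sub i5 i1]
  have h4 : ∀ z, (β z ![v] - η z ![v]) * φ z = γ z v * φ z := fun z => by rw [hγv]
  simp only [h4]
  ring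

end Pool.Agent.H819.PU
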