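import Mathlib
import Pool.Agent.H819.PU.Off
import Pool.Agent.H819.PU.LocPot
import Pool.Agent.H819.DR.LP
import Pool.Agent.H819.LN.Disc

/-!
# Exactness on the complement of a small set
-/

set_option autoImplicit false

open Set Filter Topology MeasureTheory Metric
open scoped Manifold ContDiff ENNReal NNReal

noncomputable section

namespace Pool.Agent.H819.PU

open Pool.Agent.Y501.SY
open Pool.Agent.H819
open Pool.Agent.H819.DR (L1Closed)
open Pool.Agent.H819.LG (WeakPrim)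
open Pool.Agent.H819.LN (WeakClosed)

variable {d : ℕ} {X : Type} [TopologicalSpace X] [ChartedSpace (E d) X] [IsManifold (𝓡 d) ∞ X]

namespace GlueAux

open Pool.Agent.H819.LG (WeakExt int_bilin wedgeL wedge1_pair local_weak cutE cutE_mem suppE
  cutE_zero isCompact_suppE suppE_subset cutE_eventually contDiff_cutE bE pb_prodD_eq prodD_zero
  extF extF_of_mem extF_of_notMem weakPrim_of_smooth sum_prodD)
open Pool.Agent.H819.DR (int_test weakPrim_extF weakPrim_add weakPrim_zero)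
open Pool.Agent.Y658.SY (pb_prodD smooth_wedge1 ext_prod)
open Pool.Agent.Y484.SY (comp_smooth)

/-- linear forms as alternating maps -/
def oneL : (E d →L[ℝ] ℝ) →L[ℝ] (E d) [⋀^Fin 1]→L[ℝ] ℝ :=
  ((ContinuousAlternatingMap.ofSubsingletonLIE (𝕜 := ℝ) (E := E d) (F := ℝ)
    (0 : Fin 1)).toContinuousLinearEquiv : (E d →L[ℝ] ℝ) →L[ℝ] (E d) [⋀^Fin 1]→L[ℝ] ℝ)

omit [TopologicalSpace X] [ChartedSpace (E d) X] [IsManifold (𝓡 d) ∞ X] in
theorem oneL_apply (a : E d →L[ℝ] ℝ) (v : E d) : oneL a ![v] = a v := rfl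

/-- the weak exterior derivative of `F dχ` -/
theorem weak_grad_wedge {V K : Set (E d)} (hK : IsCompact K) (hKV : K ⊆ V) {χ : E d → ℝ}
    (hχ : ContDiff ℝ ∞ χ) (hχ0 : ∀ z, z ∉ K → fderiv ℝ χ z = 0)
    {F : E d → ℝ} {G : E d → (E d) [⋀^Fin 1]→L[ℝ] ℝ}
    (hF : LocallyIntegrableOn F V) (hG : LocallyIntegrableOn G V)
    (hw : ∀ φ : E d → ℝ, ContDiff ℝ ∞ φ → HasCompactSupport φ → tsupport φ ⊆ V → ∀ v : E d,
        ∫ z, F z * fderiv ℝ φ z v = - ∫ z, G z ![v] * φ z) :
    Integrable (fun z => F z • oneL (fderiv ℝ χ z)) ∧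
    Integrable (fun z => wedge1 (fderiv ℝ χ z) (G z)) ∧
    WeakExt (fun z => F z • oneL (fderiv ℝ χ z)) (fun z => - wedge1 (fderiv ℝ χ z) (G z)) := by
  have hdχ : Continuous (fderiv ℝ χ) := hχ.continuous_fderiv (by simp)
  have i1 : Integrable (fun z => F z • oneL (fderiv ℝ χ z)) :=
    int_bilin (((ContinuousLinearMap.lsmul ℝ ℝ : ℝ →L[ℝ] ((E d) [⋀^Fin 1]→L[ℝ] ℝ) →L[ℝ]
      ((E d) [⋀^Fin 1]→L[ℝ] ℝ)).flip).comp oneL) hK hKV hdχ hχ0 hF
  have i2 : Integrable (fun z => wedge1 (fderiv ℝ χ z) (G z)) :=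
    int_bilin wedgeL hK hKV hdχ hχ0 hG
  refine ⟨i1, i2, ?_⟩
  intro φ hφ hφc u v
  have hψs : ∀ w : E d, ContDiff ℝ ∞ (fun z => φ z * fderiv ℝ χ z w) := fun w =>
    hφ.mul ((hχ.fderiv_right (m := ∞) (by simp)).clm_apply contDiff_const)
  have hψ0 : ∀ w : E d, ∀ z, z ∉ K → φ z * fderiv ℝ χ z w = 0 := by
    intro w z hz
    rw [hχ0 z hz]
    exact mul_zero _
  have htψ : ∀ w : E d, tsupport (fun z => φ z * fderiv ℝ χ z w) ⊆ K := by
    intro w
    refine closure_minimal ?_ hK.isClosed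
    intro z hz
    by_contra h
    exact hz (hψ0 w z h)
  have hψc : ∀ w : E d, HasCompactSupport (fun z => φ z * fderiv ℝ χ z w) := fun w =>
    hK.of_isClosed_subset (isClosed_tsupport _) (htψ w)
  have hψd : ∀ w x z : E d, fderiv ℝ (fun z => φ z * fderiv ℝ χ z w) z x =
      fderiv ℝ φ z x * fderiv ℝ χ z w + φ z * fderiv ℝ (fderiv ℝ χ) z x w := by
    intro w x z
    have h1 : HasFDerivAt φ (fderiv ℝ φ z) z := (hφ.differentiable (by simp) z).hasFDerivAt
    have h2 : HasFDerivAt (fderiv ℝ χ) (fderiv ℝ (fderiv ℝ χ) z) z :=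
      ((hχ.fderiv_right (m := ∞) (by simp)).differentiable (by simp) z).hasFDerivAt
    have h3 : HasFDerivAt (fun z => fderiv ℝ χ z w)
        ((ContinuousLinearMap.apply ℝ ℝ w).comp (fderiv ℝ (fderiv ℝ χ) z)) z :=
      (ContinuousLinearMap.apply ℝ ℝ w).hasFDerivAt.comp z h2
    have h4 := (h1.mul h3).fderiv
    have h5 : fderiv ℝ (fun z => φ z * fderiv ℝ χ z w) z = φ z •
      ((ContinuousLinearMap.apply ℝ ℝ w).comp (fderiv ℝ (fderiv ℝ χ) z)) +
      fderiv ℝ χ z w • fderiv ℝ φ z := h4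
    rw [h5]
    show φ z * fderiv ℝ (fderiv ℝ χ) z x w + fderiv ℝ χ z w * fderiv ℝ φ z x = _
    ring
  have hsymm : ∀ z : E d, fderiv ℝ (fderiv ℝ χ) z u v = fderiv ℝ (fderiv ℝ χ) z v u := by
    intro z
    have h1 : IsSymmSndFDerivAt ℝ χ z := hχ.contDiffAt.isSymmSndFDerivAt LG.smooth2
    exact h1 u v
  have k1 := hw _ (hψs v) (hψc v) ((htψ v).trans hKV) u
  have k2 := hw _ (hψs u) (hψc u) ((htψ u).trans hKV) v
  have hdc : ∀ w x : E d, Continuous (fun z => fderiv ℝ (fun z => φ z * fderiv ℝ χ z w) z x) :=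
    fun w x => ((hψs w).continuous_fderiv (by simp)).clm_apply continuous_const
  have hd0 : ∀ w x z : E d, z ∉ K → fderiv ℝ (fun z => φ z * fderiv ℝ χ z w) z x = 0 := by
    intro w x z hz
    rw [fderiv_of_notMem_tsupport (𝕜 := ℝ) (fun h => hz (htψ w h))]
    rfl
  have j1 : ∀ w x : E d, Integrable (fun z => F z *
      fderiv ℝ (fun z => φ z * fderiv ℝ χ z w) z x) := by
    intro w x
    have h2 := int_bilin (ContinuousLinearMap.mul ℝ ℝ) hK hKV (hdc w x) (hd0 w x) hF
    refine h2.congr (Eventually.of_forall fun z => ?_)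
    exact mul_comm _ _
  have j2 : ∀ w x : E d, Integrable (fun z => G z ![x] * (φ z * fderiv ℝ χ z w)) := fun w x =>
    int_test hG (hψs w).continuous hK hKV (hψ0 w) _
  have e1 : ∫ z, ((F z • oneL (fderiv ℝ χ z)) ![v] * fderiv ℝ φ z u -
      (F z • oneL (fderiv ℝ χ z)) ![u] * fderiv ℝ φ z v) =
      ∫ z, (F z * fderiv ℝ (fun z => φ z * fderiv ℝ χ z v) z u -
        F z * fderiv ℝ (fun z => φ z * fderiv ℝ χ z u) z v) := by
    refine integral_congr_ae (Eventually.of_forall fun z => ?_)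
    show F z * fderiv ℝ χ z v * fderiv ℝ φ z u - F z * fderiv ℝ χ z u * fderiv ℝ φ z v =
      F z * fderiv ℝ (fun z => φ z * fderiv ℝ χ z v) z u -
        F z * fderiv ℝ (fun z => φ z * fderiv ℝ χ z u) z v
    rw [hψd v u z, hψd u v z, hsymm z]
    ring
  have e2 : ∫ z, (- wedge1 (fderiv ℝ χ z) (G z)) ![u, v] * φ z =
      ∫ z, (G z ![u] * (φ z * fderiv ℝ χ z v) - G z ![v] * (φ z * fderiv ℝ χ z u)) := by
    refine integral_congr_ae (Eventually.of_forall fun z => ?_)
    have h1 := wedge1_pair (fderiv ℝ χ z) (G z) u v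
    have h2 : (- wedge1 (fderiv ℝ χ z) (G z)) ![u, v] = - (wedge1 (fderiv ℝ χ z) (G z) ![u, v]) :=
      rfl
    show (- wedge1 (fderiv ℝ χ z) (G z)) ![u, v] * φ z = _
    rw [h2, h1]
    ring
  rw [e1, e2, integral_sub (j1 v u) (j1 u v), integral_sub (j2 v u) (j2 u v), k1, k2]
  ring

theorem weakExt_sub {a a' : E d → (E d) [⋀^Fin 1]→L[ℝ] ℝ} {b b' : E d → (E d) [⋀^Fin 2]→L[ℝ] ℝ}
    (ha : Integrable a) (ha' : Integrable a') (hb : Integrable b) (hb' : Integrable b')
    (h : WeakExt a b) (h' : WeakExt a' b') :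
    WeakExt (fun z => a z - a' z) (fun z => b z - b' z) := by
  intro φ hφ hφc u v
  have e1 := h φ hφ hφc u v
  have e2 := h' φ hφ hφc u v
  have i : ∀ {γ : E d → (E d) [⋀^Fin 1]→L[ℝ] ℝ}, Integrable γ → ∀ p q : E d,
      Integrable (fun z => γ z ![p] * fderiv ℝ φ z q) :=
    fun hγ p q => int_test (hγ.locallyIntegrable.locallyIntegrableOn univ)
      (DR.fd_cont' hφ q) hφc (subset_univ _) DR.fd_zero _
  have j : ∀ {γ : E d → (E d) [⋀^Fin 2]→L[ℝ] ℝ}, Integrable γ →
      Integrable (fun z => γ z ![u, v] * φ z) :=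
    fun hγ => int_test (hγ.locallyIntegrable.locallyIntegrableOn univ) hφ.continuous hφc
      (subset_univ _) (fun z hz => image_eq_zero_of_notMem_tsupport hz) _
  have k1 : Integrable (fun z => a z ![v] * fderiv ℝ φ z u - a z ![u] * fderiv ℝ φ z v) :=
    (i ha v u).sub (i ha u v)
  have k2 : Integrable (fun z => a' z ![v] * fderiv ℝ φ z u - a' z ![u] * fderiv ℝ φ z v) :=
    (i ha' v u).sub (i ha' u v)
  have e3 : ∫ z, ((a z - a' z) ![v] * fderiv ℝ φ z u - (a z - a' z) ![u] * fderiv ℝ φ z v) =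
      ∫ z, ((a z ![v] * fderiv ℝ φ z u - a z ![u] * fderiv ℝ φ z v) -
        (a' z ![v] * fderiv ℝ φ z u - a' z ![u] * fderiv ℝ φ z v)) := by
    refine integral_congr_ae (Eventually.of_forall fun z => ?_)
    show (a z ![v] - a' z ![v]) * fderiv ℝ φ z u - (a z ![u] - a' z ![u]) * fderiv ℝ φ z v = _
    ring
  have e4 : ∫ z, (b z - b' z) ![u, v] * φ z =
      ∫ z, (b z ![u, v] * φ z - b' z ![u, v] * φ z) := by
    refine integral_congr_ae (Eventually.of_forall fun z => ?_)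
    show (b z ![u, v] - b' z ![u, v]) * φ z = _
    ring
  rw [e3, e4, integral_sub k1 k2, integral_sub (j hb) (j hb'), e1, e2]
  ring

theorem extF_bE [CompactSpace X] {x₀ : X} {f : X → ℝ} (hf : SmoothFun (d := d) f)
    (hs : tsupport f ⊆ (chartAt (E d) x₀).source) (β : Form d X 1) (τ : Form d X 2) :
    extF x₀ (bE x₀ f β τ) = prodD f β τ := by
  funext x
  by_cases hx : x ∈ (chartAt (E d) x₀).source
  · obtain ⟨p, hp, rfl⟩ : ∃ p ∈ (chartAt (E d) x₀).target, (chartAt (E d) x₀).symm p = x :=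
      ⟨chartAt (E d) x₀ x, (chartAt (E d) x₀).map_source hx, (chartAt (E d) x₀).left_inv hx⟩
    rw [extF_of_mem x₀ _ hx, (chartAt (E d) x₀).right_inv hp, ← pb_prodD_eq hf β τ hp]
    ext v
    show prodD f β τ ((chartAt (E d) x₀).symm p) (fun i =>
      (mfderiv (𝓡 d) (𝓡 d) (chartAt (E d) x₀).symm p)
      ((mfderiv (𝓡 d) (𝓡 d) (chartAt (E d) x₀) ((chartAt (E d) x₀).symm p)) (v i))) =
      prodD f β τ ((chartAt (E d) x₀).symm p) v
    congr 1
    funext i
    exact Pool.Agent.Y455.SY.AB x₀ hp (v i)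
  · rw [extF_of_notMem x₀ _ hx, prodD_zero β τ (fun h => hx (hs h))]

/-- the smooth piece -/
theorem weakPrim_smooth {S : Set X} (hS : IsClosed S) {τ : Form d X 2} (hτ : SmoothOff S τ)
    {β : Form d X 1} (hβ : SmoothOff S β) (hD : DOff S β τ) {f : X → ℝ}
    (hf : SmoothFun (d := d) f) (hfS : ∀ x ∈ S, x ∉ tsupport f) :
    WeakPrim (fun x => f x • β x : Form d X 1) (prodD f β τ) := by
  have hvan1 : ∀ x, x ∉ tsupport f → (fun x => f x • β x : Form d X 1) x =
      (0 : Form d X 1) x := by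
    intro x hx
    show f x • β x = 0
    rw [image_eq_zero_of_notMem_tsupport hx, zero_smul]
  have hvan2 : ∀ x, x ∉ tsupport f → prodD f β τ x = (0 : Form d X 2) x := fun x hx =>
    prodD_zero β τ hx
  have hnear : ∀ {k : ℕ} {σ : Form d X k}, (∀ x, x ∉ tsupport f → σ x = (0 : Form d X k) x) →
      ∀ {U : Set (E d)} {φ : E d → X}, IsOpen U → ContMDiffOn (𝓡 d) (𝓡 d) ∞ φ U →
      ∀ {p : E d}, p ∈ U → φ p ∉ tsupport f → pb φ σ =ᶠ[𝓝 p] fun _ => 0 := by
    intro k σ hσ U φ hU hφ p hp hs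
    have h1 : ContinuousAt φ p := (hφ.contMDiffAt (hU.mem_nhds hp)).continuousAt
    filter_upwards [h1.eventually ((isClosed_tsupport f).isOpen_compl.mem_nhds hs)] with q hq
    rw [LG.pb_congr_form (τ := 0) φ (hσ _ hq)]
    rfl
  have hU' : ∀ {U : Set (E d)} {φ : E d → X}, IsOpen U → ContMDiffOn (𝓡 d) (𝓡 d) ∞ φ U →
      IsOpen (U ∩ φ ⁻¹' Sᶜ) ∧ ContMDiffOn (𝓡 d) (𝓡 d) ∞ φ (U ∩ φ ⁻¹' Sᶜ) := fun hU hφ =>
    ⟨hφ.continuousOn.isOpen_inter_preimage hU hS.isOpen_compl, hφ.mono inter_subset_left⟩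
  have hS1 : IsSmooth (fun x => f x • β x : Form d X 1) := by
    intro U φ hU hφ p hp
    refine ContDiffAt.contDiffWithinAt ?_
    by_cases hs : φ p ∈ tsupport f
    · obtain ⟨hUo, hφ'⟩ := hU' hU hφ
      have hp' : p ∈ U ∩ φ ⁻¹' Sᶜ := ⟨hp, fun h => hfS _ h hs⟩
      have h1 : ContDiffOn ℝ ∞ (pb φ (fun x => f x • β x : Form d X 1)) (U ∩ φ ⁻¹' Sᶜ) :=
        (comp_smooth hφ' hf).smul (hβ _ φ hUo hφ' fun q hq => hq.2)
      exact h1.contDiffAt (hUo.mem_nhds hp')
    · exact contDiffAt_const.congr_of_eventuallyEq (hnear hvan1 hU hφ hp hs)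
  have hS2 : IsSmooth (prodD f β τ) := by
    intro U φ hU hφ p hp
    refine ContDiffAt.contDiffWithinAt ?_
    by_cases hs : φ p ∈ tsupport f
    · obtain ⟨hUo, hφ'⟩ := hU' hU hφ
      have hp' : p ∈ U ∩ φ ⁻¹' Sᶜ := ⟨hp, fun h => hfS _ h hs⟩
      have h1 : ContDiffOn ℝ ∞ (pb φ (prodD f β τ)) (U ∩ φ ⁻¹' Sᶜ) := by
        refine ContDiffOn.congr ?_ fun p hp => pb_prodD hUo hφ' hf hp
        exact (smooth_wedge1 ((comp_smooth hφ' hf).fderiv_of_isOpen hUo (by simp))
          (hβ _ φ hUo hφ' fun q hq => hq.2)).add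
          ((comp_smooth hφ' hf).smul (hτ _ φ hUo hφ' fun q hq => hq.2))
      exact h1.contDiffAt (hUo.mem_nhds hp')
    · exact contDiffAt_const.congr_of_eventuallyEq (hnear hvan2 hU hφ hp hs)
  refine weakPrim_of_smooth hS1 hS2 ?_
  intro U φ hU hφ p hp
  by_cases hs : φ p ∈ tsupport f
  · obtain ⟨hUo, hφ'⟩ := hU' hU hφ
    have hp' : p ∈ U ∩ φ ⁻¹' Sᶜ := ⟨hp, fun h => hfS _ h hs⟩
    have hF : DifferentiableAt ℝ (f ∘ φ) p :=
      ((comp_smooth hφ' hf).contDiffAt (hUo.mem_nhds hp')).differentiableAt (by simp)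
    have hB : DifferentiableAt ℝ (pb φ β) p :=
      ((hβ _ φ hUo hφ' fun q hq => hq.2).contDiffAt (hUo.mem_nhds hp')).differentiableAt (by simp)
    rw [pb_prodD hUo hφ' hf hp', ← hD _ φ hUo hφ' (fun q hq => hq.2) p hp', ← ext_prod hF hB]
    rfl
  · rw [(hnear hvan1 hU hφ hp hs).extDeriv_eq, LG.extDeriv_zero',
      (hnear hvan2 hU hφ hp hs).self_of_nhds]

/-- the piece near a point of `S` -/
theorem local_piece [T2Space X] [CompactSpace X] (hd : 3 ≤ d) {S : Set X} (hS : IsClosed S)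
    (hS0 : HNull d S) {τ : Form d X 2} (hL : L1Closed τ) {β : Form d X 1} (hβ : SmoothOff S β)
    (hD : DOff S β τ) {x₀ : X} {r : ℝ} {η : E d → (E d) [⋀^Fin 1]→L[ℝ] ℝ}
    (hr : closedBall (chartAt (E d) x₀ x₀) r ⊆ (chartAt (E d) x₀).target) (hη : Integrable η)
    (hwη : ∀ φ : E d → ℝ, ContDiff ℝ ∞ φ → HasCompactSupport φ →
      tsupport φ ⊆ ball (chartAt (E d) x₀ x₀) r → ∀ u v : E d,
      ∫ z, (η z ![v] * fderiv ℝ φ z u - η z ![u] * fderiv ℝ φ z v) =
        - ∫ z, pb (chartAt (E d) x₀).symm τ z ![u, v] * φ z)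
    {f : X → ℝ} (hf : SmoothFun (d := d) f)
    (hfs : ∀ x ∈ tsupport f, x ∈ (chartAt (E d) x₀).source ∧
      chartAt (E d) x₀ x ∈ ball (chartAt (E d) x₀ x₀) r)
    (hfS : ∀ x ∈ S, x ∈ tsupport f → ∀ᶠ y in 𝓝 x, f y = 1) :
    ∃ α : Form d X 1, WeakPrim α (prodD f β τ) := by
  obtain ⟨e, he⟩ : ∃ e, e = chartAt (E d) x₀ := ⟨_, rfl⟩
  obtain ⟨c, hc⟩ : ∃ c, c = chartAt (E d) x₀ x₀ := ⟨_, rfl⟩
  have hs : tsupport f ⊆ (chartAt (E d) x₀).source := fun x hx => (hfs x hx).1
  rw [← hc] at hr hfs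
  have hwη' : ∀ φ : E d → ℝ, ContDiff ℝ ∞ φ → HasCompactSupport φ →
      tsupport φ ⊆ ball c r → ∀ u v : E d,
      ∫ z, (η z ![v] * fderiv ℝ φ z u - η z ![u] * fderiv ℝ φ z v) =
        - ∫ z, pb (chartAt (E d) x₀).symm τ z ![u, v] * φ z := by
    rw [hc]
    exact hwη
  have hbt : ball c r ⊆ (chartAt (E d) x₀).target := ball_subset_closedBall.trans hr
  -- the bad set in the chart
  set S' : Set (E d) := closedBall c r ∩ (chartAt (E d) x₀).symm ⁻¹' S with hS'
  have hS'c : IsCompact S' := (isCompact_closedBall c r).of_isClosed_subset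
    (((chartAt (E d) x₀).continuousOn_symm.mono hr).preimage_isClosed_of_isClosed
      isClosed_closedBall hS) inter_subset_left
  have hS'0 : μH[((d - 3 : ℕ) : ℝ)] S' = 0 := by
    refine measure_mono_null ?_ (hS0 x₀)
    rintro z ⟨hz1, hz2⟩
    exact ⟨(chartAt (E d) x₀).symm z, ⟨hz2, (chartAt (E d) x₀).map_target (hr hz1)⟩,
      (chartAt (E d) x₀).right_inv (hr hz1)⟩
  set V : Set (E d) := ball c r \ S' with hV
  have hVo : IsOpen V := isOpen_ball.sdiff hS'c.isClosed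
  have hVt : V ⊆ (chartAt (E d) x₀).target := fun z hz => hbt hz.1
  have hVS : ∀ z ∈ V, (chartAt (E d) x₀).symm z ∉ S := fun z hz h =>
    hz.2 ⟨ball_subset_closedBall hz.1, h⟩
  have hVs : ContMDiffOn (𝓡 d) (𝓡 d) ∞ (chartAt (E d) x₀).symm V :=
    contMDiffOn_chart_symm.mono hVt
  have hβV : ContDiffOn ℝ ∞ (pb (chartAt (E d) x₀).symm β) V := hβ V _ hVo hVs hVS
  have hdβ : ∀ z ∈ V, extDeriv (pb (chartAt (E d) x₀).symm β) z =
      pb (chartAt (E d) x₀).symm τ z := hD V _ hVo hVs hVS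
  obtain ⟨F, hF, hwF⟩ := local_potential hd hS'c hS'0 hβV hdβ hη hwη'
  -- the cut-off function
  have hχ : ContDiff ℝ ∞ (cutE (d := d) x₀ f) := contDiff_cutE hf hs
  have hQc : IsCompact (suppE (d := d) x₀ f) := isCompact_suppE hs
  have hQt : suppE (d := d) x₀ f ⊆ (chartAt (E d) x₀).target := suppE_subset hs
  have hQb : suppE (d := d) x₀ f ⊆ ball c r := by
    rintro _ ⟨x, hx, rfl⟩
    exact (hfs x hx).2
  set K : Set (E d) := chartAt (E d) x₀ '' (tsupport f \ interior {y | f y = 1}) with hK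
  have hKc : IsCompact K := ((isClosed_tsupport f).isCompact.diff isOpen_interior).image_of_continuousOn
    ((chartAt (E d) x₀).continuousOn.mono fun x hx => hs hx.1)
  have hKV : K ⊆ V := by
    rintro _ ⟨x, hx, rfl⟩
    refine ⟨(hfs x hx.1).2, fun h => ?_⟩
    have h1 : x ∈ S := by
      have h2 := h.2
      rwa [mem_preimage, (chartAt (E d) x₀).left_inv (hs hx.1)] at h2
    exact hx.2 (mem_interior_iff_mem_nhds.2 (hfS x h1 hx.1))
  have hχK : ∀ z, z ∉ K → fderiv ℝ (cutE (d := d) x₀ f) z = 0 := by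
    intro z hz
    by_cases hzQ : z ∈ suppE (d := d) x₀ f
    · obtain ⟨x, hx, rfl⟩ := hzQ
      have h1 : x ∈ interior {y | f y = 1} := by
        by_contra h
        exact hz ⟨x, ⟨hx, h⟩, rfl⟩
      have h2 : ∀ᶠ y in 𝓝 x, f y = 1 := mem_interior_iff_mem_nhds.1 h1
      have ht := (chartAt (E d) x₀).map_source (hs hx)
      have h3 : ContinuousAt (chartAt (E d) x₀).symm (chartAt (E d) x₀ x) :=
        (chartAt (E d) x₀).continuousAt_symm ht
      have h4 : Tendsto (chartAt (E d) x₀).symm (𝓝 (chartAt (E d) x₀ x)) (𝓝 x) := by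
        have h5 := h3.tendsto
        rwa [(chartAt (E d) x₀).left_inv (hs hx)] at h5
      have h6 : cutE (d := d) x₀ f =ᶠ[𝓝 (chartAt (E d) x₀ x)] fun _ => 1 := by
        filter_upwards [cutE_eventually x₀ f ht, h4.eventually h2] with y hy1 hy2
        rw [hy1]
        exact hy2
      rw [h6.fderiv_eq]
      exact fderiv_const_apply 1
    · have h1 : cutE (d := d) x₀ f =ᶠ[𝓝 z] fun _ => 0 := by
        filter_upwards [hQc.isClosed.isOpen_compl.mem_nhds hzQ] with y hy
        exact cutE_zero x₀ f hy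
      rw [h1.fderiv_eq]
      exact fderiv_const_apply 0
  -- the potential part
  have hG : LocallyIntegrableOn (fun z => pb (chartAt (E d) x₀).symm β z - η z) V :=
    (hβV.continuousOn.locallyIntegrableOn hVo.measurableSet).sub
      (hη.locallyIntegrable.locallyIntegrableOn V)
  obtain ⟨i3, i4, w2⟩ := weak_grad_wedge hKc hKV hχ hχK hF hG hwF
  obtain ⟨i1, i2, w1⟩ := local_weak hQc hQb hχ (fun z hz => cutE_zero x₀ f hz)
    (hη.locallyIntegrable.locallyIntegrableOn _) ((hL.int x₀).mono_set hbt) hwη'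
  have hw := weakExt_sub i1 i3 i2 i4.neg w1 w2
  have hbE : (fun z => (wedge1 (fderiv ℝ (cutE (d := d) x₀ f) z) (η z) +
      cutE x₀ f z • pb (chartAt (E d) x₀).symm τ z) -
      (- wedge1 (fderiv ℝ (cutE (d := d) x₀ f) z)
        (pb (chartAt (E d) x₀).symm β z - η z))) = bE x₀ f β τ := by
    funext z
    have h1 : wedge1 (fderiv ℝ (cutE (d := d) x₀ f) z)
        (pb (chartAt (E d) x₀).symm β z - η z) =
        wedge1 (fderiv ℝ (cutE (d := d) x₀ f) z) (pb (chartAt (E d) x₀).symm β z) -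
        wedge1 (fderiv ℝ (cutE (d := d) x₀ f) z) (η z) :=
      map_sub (wedgeL (fderiv ℝ (cutE (d := d) x₀ f) z)) _ _
    rw [h1]
    unfold bE
    abel
  have ib := i1.sub i3
  have ic := i2.sub i4.neg
  have hw' : WeakExt (fun z => cutE x₀ f z • η z -
      F z • oneL (fderiv ℝ (cutE (d := d) x₀ f) z)) (bE x₀ f β τ) := by
    rw [← hbE]
    exact hw
  have ic' : Integrable (bE x₀ f β τ) := by
    rw [← hbE]
    exact ic
  have hd0 : ∀ z, z ∉ suppE (d := d) x₀ f → fderiv ℝ (cutE (d := d) x₀ f) z = 0 := by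
    intro z hz
    refine hχK z fun h => hz ?_
    obtain ⟨x, hx, rfl⟩ := h
    exact ⟨x, hx.1, rfl⟩
  have hfin := weakPrim_extF (x₀ := x₀) ib ic' hw' hQc hQt (fun z hz => by
    show cutE x₀ f z • η z - F z • oneL (fderiv ℝ (cutE (d := d) x₀ f) z) = 0
    rw [cutE_zero x₀ f hz, hd0 z hz, zero_smul, map_zero, smul_zero, sub_zero]) (fun z hz => by
    unfold bE
    rw [cutE_zero x₀ f hz, hd0 z hz, zero_smul, add_zero]
    exact (congrArg (fun t : (E d) [⋀^Fin 1]→L[ℝ] ℝ →L[ℝ] (E d) [⋀^Fin 2]→L[ℝ] ℝ =>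
      t (pb (chartAt (E d) x₀).symm β z)) (map_zero (wedgeL (V := E d)))))
  rw [extF_bE hf hs] at hfin
  exact ⟨_, hfin⟩

end GlueAux

/-- **A closed form with integrable coefficients which is exact off a small totally disconnected
set is weakly exact** (there is no condition on the growth of the primitive `β` near `S`).

Proof.  For `p ∈ S` let `e = chartAt (E d) p`, `c = e p`, `T = pb e.symm τ`.  `DR.local_weak_primitive`
(for `U = e.target`, `x = c`) gives `r p > 0` and an integrable `η p` with `d (η p) = T` weakly on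
`ball c (r p)`; `closedBall c (r p) ⊆ e.target`.  The set
`S' = e '' (S ∩ e.source) ∩ closedBall c (r p)` is compact and `μH[d - 3] S' = 0`; `pb e.symm β` is a smooth
primitive of `T` on `ball c (r p) \ S'`, so `local_potential` gives `F p`, locally integrable on
`ball c (r p) \ S'`, with weak gradient `pb e.symm β - η p`.
`LN.exists_disc_cover` (`LN/Disc.lean`) with `W p = e.source ∩ e ⁻¹' (ball c (r p))` gives finitely many
points `p j`, pairwise disjoint open `U j ⊆ W (p j)`, compact `A j ⊆ interior (P j)`,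
`P j ⊆ U j`, `S ⊆ ⋃ interior (A j)`.  Choose smooth `χ j : E d → [0, 1]` with compact support in the
open set `e '' (U j)`, equal to `1` near the compact set `e '' (A j)`; `e = chartAt (p j)`.
Put, in the chart at `p j`, `B j = pb e.symm β`,
`b j = χ j • η j - F j • dχ j` (the one-form `v ↦ χ j z * η j z ![v] - F j z * fderiv (χ j) z v`;
`F j` is used only on `supp dχ j`, a compact subset of `ball \ S'`, so `b j` is integrable on `E d`), and
`c j = χ j • T + wedge1 (fderiv (χ j)) B j`; then `WeakExt (b j) (c j)` (`LG/Moll2.lean`): the weak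
derivative of `χ j • η j` is `wedge1 dχ (η j) + χ j • T` (`LG.local_weak`), and the weak derivative of
`F j • dχ j` is `grad F j ∧ dχ j = - wedge1 dχ (B j - η j)` (integrate by parts: for a test function `φ`
the function `φ * fderiv χ v` is a test function with support in `ball \ S'`, and the second
derivatives of `χ` are symmetric).  Hence `WeakPrim (extF (p j) (b j)) (extF (p j) (c j))` by
`DR.weakPrim_extF`.
The form `β' = (1 - ∑ χ j) β` (defined by `β' x = (1 - χ j (e x)) • β x` for `x ∈ U j`, `β' x = β x` if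
`x` is in no `U j`) is smooth on `X` (it vanishes near `S`), its exterior derivative is the smooth
form `ξ = (1 - ∑ χ j) τ - ∑ dχ j ∧ β`; so `WeakPrim β' ξ` (`LG.weakPrim_of_smooth`).  The sum
`β' + ∑ extF (p j) (b j)` has weak derivative `ξ + ∑ extF (p j) (c j) = τ`
(`DR.weakPrim_add`, an induction over `Fin m`). -/
theorem weakPrim_of_off [T2Space X] [CompactSpace X] (hd : 3 ≤ d) {S : Set X} (hS : IsClosed S)
    (hSd : IsTotallyDisconnected S) (hS0 : HNull d S) {τ : Form d X 2} (hτ : SmoothOff S τ)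
    (hL : L1Closed τ) {β : Form d X 1} (hβ : SmoothOff S β) (hD : DOff S β τ) :
    ∃ α : Form d X 1, WeakPrim α τ := by
  classical
  -- the local primitives
  choose r η hr0 hrt hηi hηw using fun p : X => DR.local_weak_primitive
    (chartAt (E d) p).open_target (hL.int p) (hL.closed p) (mem_chart_target (E d) p)
  obtain ⟨m, p, U, P, A, hpS, hUo, hUW, hUd, hAc, hPc, hAP, hPU, hcov⟩ :=
    LN.exists_disc_cover hS hSd
      (W := fun p => (chartAt (E d) p).source ∩ chartAt (E d) p ⁻¹' ball (chartAt (E d) p p) (r p))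
      (fun p _ => ⟨(chartAt (E d) p).isOpen_inter_preimage isOpen_ball,
        mem_chart_source (E d) p, mem_ball_self (hr0 p)⟩)
  have hAU : ∀ j, A j ⊆ U j := fun j => (hAP j).trans (interior_subset.trans (hPU j))
  choose g hg0 hg1 hg01 using fun j => exists_contMDiffMap_zero_one_nhds_of_isClosed
    (n := (⊤ : ℕ∞)) (𝓡 d) (hUo j).isClosed_compl (hAc j).isClosed
    (Set.disjoint_left.2 fun x hx hx' => hx (hAU j hx'))
  have hgs : ∀ j, SmoothFun (d := d) (fun x => g j x) := fun j => (g j).contMDiff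
  have hgt : ∀ j, ∀ x, x ∈ tsupport (fun x => g j x) → x ∈ U j := by
    intro j x hx
    by_contra h
    have h1 : ∀ᶠ y in 𝓝 x, g j y = 0 := (hg0 j).filter_mono (nhds_le_nhdsSet h)
    exact notMem_tsupport_iff_eventuallyEq.2 h1 hx
  have hgA : ∀ j, ∀ x ∈ A j, ∀ᶠ y in 𝓝 x, g j y = 1 := fun j x hx =>
    (hg1 j).filter_mono (nhds_le_nhdsSet hx)
  -- the partition
  let f : Option (Fin m) → X → ℝ := fun i => i.elim (fun x => 1 - ∑ j, g j x) fun j x => g j x
  have hf : ∀ i, SmoothFun (d := d) (f i) := by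
    rintro (_ | j)
    · exact contMDiff_const.sub (contMDiff_finsetSum fun j _ => hgs j)
    · exact hgs j
  have hsum : ∀ x, ∑ i, f i x = 1 := by
    intro x
    rw [Fintype.sum_option]
    show 1 - ∑ j, g j x + ∑ j, g j x = 1
    ring
  have hpiece : ∀ i, ∃ α : Form d X 1, WeakPrim α (prodD (f i) β τ) := by
    rintro (_ | j)
    · refine ⟨_, GlueAux.weakPrim_smooth hS hτ hβ hD (hf none) ?_⟩
      intro x hx
      obtain ⟨j, hj⟩ := mem_iUnion.1 (hcov hx)
      have hxA : x ∈ A j := interior_subset hj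
      rw [notMem_tsupport_iff_eventuallyEq]
      filter_upwards [hgA j x hxA, (hUo j).mem_nhds (hAU j hxA)] with y hy1 hy2
      show 1 - ∑ k, g k y = 0
      rw [Finset.sum_eq_single j]
      · rw [hy1, sub_self]
      · intro k _ hkj
        by_contra h
        exact Set.disjoint_left.1 (hUd k j hkj) (hgt k y (subset_tsupport _ h)) hy2
      · intro h
        exact absurd (Finset.mem_univ j) h
    · refine GlueAux.local_piece hd hS hS0 hL hβ hD (hrt (p j)) (hηi (p j)) (hηw (p j)) (hf (some j))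
        ?_ ?_
      · intro x hx
        exact hUW j (hgt j x hx)
      · intro x hxS hx
        obtain ⟨k, hk⟩ := mem_iUnion.1 (hcov hxS)
        have hxA : x ∈ A k := interior_subset hk
        have hkj : k = j := by
          by_contra h
          exact Set.disjoint_left.1 (hUd k j h) (hAU k hxA) (hgt j x hx)
        subst hkj
        exact hgA k x hxA
  choose α hα using hpiece
  have hall : ∀ s : Finset (Option (Fin m)), WeakPrim (∑ i ∈ s, α i) (∑ i ∈ s, prodD (f i) β τ) := by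
    intro s
    induction s using Finset.induction_on with
    | empty => simpa using DR.weakPrim_zero
    | insert a s ha ih =>
      rw [Finset.sum_insert ha, Finset.sum_insert ha]
      exact DR.weakPrim_add (hα a) ih
  have h := hall Finset.univ
  rw [LG.sum_prodD hf hsum β τ] at h
  exact ⟨_, h⟩

end Pool.Agent.H819.PU
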