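import Mathlib
import Pool.Agent.H819.PU.Off

/-!
# Homotopies of nondegenerate two-forms
-/

set_option autoImplicit false

open Set Filter Topology MeasureTheory Metric
open scoped Manifold ContDiff ENNReal NNReal

noncomputable section

namespace Pool.Agent.H819.PU

open Pool.Agent.Y501.SY
open Pool.Agent.H819

variable {d : ℕ} {X : Type} [TopologicalSpace X] [ChartedSpace (E d) X]

/-- `τ` and `τ'` are joined by a continuous path of nondegenerate two-forms. -/
def Htp (τ τ' : Form d X 2) : Prop :=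
  ∃ H : ℝ → Form d X 2, H 0 = τ ∧ H 1 = τ' ∧
    (∀ t ∈ Icc (0 : ℝ) 1, ∀ (x : X) (v : TangentSpace (𝓡 d) x), (∀ w, H t x ![v, w] = 0) → v = 0) ∧
    ∀ x₀ : X, ContinuousOn (fun q : ℝ × E d => pb (chartAt (E d) x₀).symm (H q.1) q.2)
      (Icc (0 : ℝ) 1 ×ˢ (chartAt (E d) x₀).target)

theorem Htp.symm {τ τ' : Form d X 2} (h : Htp τ τ') : Htp τ' τ := by
  obtain ⟨H, h0, h1, hn, hc⟩ := h
  refine ⟨fun t => H (1 - t), by simpa using h1, by simpa using h0, fun t ht x v hv =>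
    hn (1 - t) ⟨by linarith [ht.2], by linarith [ht.1]⟩ x v hv, fun x₀ => ?_⟩
  have h2 : ContinuousOn (fun q : ℝ × E d => ((1 - q.1, q.2) : ℝ × E d))
      (Icc (0 : ℝ) 1 ×ˢ (chartAt (E d) x₀).target) := by fun_prop
  exact (hc x₀).comp h2 fun q hq => ⟨⟨by linarith [hq.1.2], by linarith [hq.1.1]⟩, hq.2⟩

theorem Htp.trans {τ τ' τ'' : Form d X 2} (h : Htp τ τ') (h' : Htp τ' τ'') : Htp τ τ'' := by
  obtain ⟨H, h0, h1, hn, hc⟩ := h
  obtain ⟨H', h0', h1', hn', hc'⟩ := h'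
  refine ⟨fun t => if t ≤ 1 / 2 then H (2 * t) else H' (2 * t - 1), ?_, ?_, ?_, ?_⟩
  · simp only [show (0 : ℝ) ≤ 1 / 2 by norm_num, if_true, mul_zero, h0]
  · have : ¬ ((1 : ℝ) ≤ 1 / 2) := by norm_num
    simp only [this, if_false]
    have e : (2 : ℝ) * 1 - 1 = 1 := by norm_num
    rw [e, h1']
  · intro t ht x v hv
    by_cases h2 : t ≤ 1 / 2
    · simp only [h2, if_true] at hv
      exact hn (2 * t) ⟨by linarith [ht.1], by linarith⟩ x v hv
    · simp only [h2, if_false] at hv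
      rw [not_le] at h2
      exact hn' (2 * t - 1) ⟨by linarith, by linarith [ht.2]⟩ x v hv
  · intro x₀
    set T := (chartAt (E d) x₀).target with hT
    have hA : IsClosed {q : ℝ × E d | q.1 ≤ 1 / 2} := isClosed_le continuous_fst continuous_const
    have hB : IsClosed {q : ℝ × E d | 1 / 2 ≤ q.1} := isClosed_le continuous_const continuous_fst
    have c1 : ContinuousOn (fun q : ℝ × E d => pb (chartAt (E d) x₀).symm (H (2 * q.1)) q.2)
        ((Icc (0 : ℝ) 1 ×ˢ T) ∩ {q : ℝ × E d | q.1 ≤ 1 / 2}) := by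
      have h2 : ContinuousOn (fun q : ℝ × E d => ((2 * q.1, q.2) : ℝ × E d))
        ((Icc (0 : ℝ) 1 ×ˢ T) ∩ {q : ℝ × E d | q.1 ≤ 1 / 2}) := by fun_prop
      refine (hc x₀).comp h2 fun q hq => ⟨⟨?_, ?_⟩, hq.1.2⟩
      · have := hq.1.1.1
        show 0 ≤ 2 * q.1
        linarith
      · have : q.1 ≤ 1 / 2 := hq.2
        show 2 * q.1 ≤ 1
        linarith
    have c2 : ContinuousOn (fun q : ℝ × E d => pb (chartAt (E d) x₀).symm (H' (2 * q.1 - 1)) q.2)
        ((Icc (0 : ℝ) 1 ×ˢ T) ∩ {q : ℝ × E d | 1 / 2 ≤ q.1}) := by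
      have h2 : ContinuousOn (fun q : ℝ × E d => ((2 * q.1 - 1, q.2) : ℝ × E d))
        ((Icc (0 : ℝ) 1 ×ˢ T) ∩ {q : ℝ × E d | 1 / 2 ≤ q.1}) := by fun_prop
      refine (hc' x₀).comp h2 fun q hq => ⟨⟨?_, ?_⟩, hq.1.2⟩
      · have : 1 / 2 ≤ q.1 := hq.2
        show 0 ≤ 2 * q.1 - 1
        linarith
      · have := hq.1.1.2
        show 2 * q.1 - 1 ≤ 1
        linarith
    have key1 : ContinuousOn (fun q : ℝ × E d => pb (chartAt (E d) x₀).symm
        (if q.1 ≤ 1 / 2 then H (2 * q.1) else H' (2 * q.1 - 1)) q.2)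
        ((Icc (0 : ℝ) 1 ×ˢ T) ∩ {q : ℝ × E d | q.1 ≤ 1 / 2}) := by
      refine c1.congr fun q hq => ?_
      have : q.1 ≤ 1 / 2 := hq.2
      simp only [this, if_true]
    have key2 : ContinuousOn (fun q : ℝ × E d => pb (chartAt (E d) x₀).symm
        (if q.1 ≤ 1 / 2 then H (2 * q.1) else H' (2 * q.1 - 1)) q.2)
        ((Icc (0 : ℝ) 1 ×ˢ T) ∩ {q : ℝ × E d | 1 / 2 ≤ q.1}) := by
      refine c2.congr fun q hq => ?_
      have h3 : 1 / 2 ≤ q.1 := hq.2
      by_cases h4 : q.1 ≤ 1 / 2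
      · have h5 : q.1 = 1 / 2 := le_antisymm h4 h3
        simp only [h4, if_true]
        rw [h5]
        have e1 : (2 : ℝ) * (1 / 2) = 1 := by norm_num
        have e2 : (1 : ℝ) - 1 = 0 := by norm_num
        rw [e1, e2, h1, h0']
      · simp only [h4, if_false]
    have hun : (Icc (0 : ℝ) 1 ×ˢ T) = ((Icc (0 : ℝ) 1 ×ˢ T) ∩ {q : ℝ × E d | q.1 ≤ 1 / 2}) ∪
        ((Icc (0 : ℝ) 1 ×ˢ T) ∩ {q : ℝ × E d | 1 / 2 ≤ q.1}) := by
      ext q
      constructor
      · intro hq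
        rcases le_total q.1 (1 / 2) with h3 | h3
        · exact Or.inl ⟨hq, h3⟩
        · exact Or.inr ⟨hq, h3⟩
      · rintro (hq | hq)
        · exact hq.1
        · exact hq.1
    intro q hq
    have g1 : ContinuousWithinAt (fun q : ℝ × E d => pb (chartAt (E d) x₀).symm
        (if q.1 ≤ 1 / 2 then H (2 * q.1) else H' (2 * q.1 - 1)) q.2)
        ((Icc (0 : ℝ) 1 ×ˢ T) ∩ {q : ℝ × E d | q.1 ≤ 1 / 2}) q := by
      by_cases h3 : q.1 ≤ 1 / 2
      · exact key1 q ⟨hq, h3⟩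
      · refine continuousWithinAt_of_notMem_closure fun h4 => h3 ?_
        exact closure_minimal (inter_subset_right) hA h4
    have g2 : ContinuousWithinAt (fun q : ℝ × E d => pb (chartAt (E d) x₀).symm
        (if q.1 ≤ 1 / 2 then H (2 * q.1) else H' (2 * q.1 - 1)) q.2)
        ((Icc (0 : ℝ) 1 ×ˢ T) ∩ {q : ℝ × E d | 1 / 2 ≤ q.1}) q := by
      by_cases h3 : 1 / 2 ≤ q.1
      · exact key2 q ⟨hq, h3⟩
      · refine continuousWithinAt_of_notMem_closure fun h4 => h3 ?_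
        exact closure_minimal (inter_subset_right) hB h4
    have := g1.union g2
    rwa [← hun] at this

/-- two forms which tame the same almost complex structure are joined by a segment -/
theorem htp_of_tames {τ τ' : Form d X 2} {J : End d X}
    (hc : ∀ x₀ : X, ContinuousOn (pb (chartAt (E d) x₀).symm τ) (chartAt (E d) x₀).target)
    (hc' : ∀ x₀ : X, ContinuousOn (pb (chartAt (E d) x₀).symm τ') (chartAt (E d) x₀).target)
    (h : ∀ (x : X) (v : TangentSpace (𝓡 d) x), v ≠ 0 → 0 < τ x ![v, J x v])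
    (h' : ∀ (x : X) (v : TangentSpace (𝓡 d) x), v ≠ 0 → 0 < τ' x ![v, J x v]) : Htp τ τ' := by
  refine ⟨fun t => (1 - t) • τ + t • τ', by simp, by simp, ?_, ?_⟩
  · intro t ht x v hv
    by_contra hne
    have h1 := hv (J x v)
    have h2 : ((1 - t) • τ + t • τ') x ![v, J x v] =
        (1 - t) * τ x ![v, J x v] + t * τ' x ![v, J x v] := rfl
    rw [h2] at h1
    have h3 := h x v hne
    have h4 := h' x v hne
    rcases eq_or_lt_of_le ht.1 with h5 | h5
    · rw [← h5] at h1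
      linarith
    · have h6 : 0 ≤ (1 - t) * τ x ![v, J x v] := mul_nonneg (by linarith [ht.2]) h3.le
      have h7 : 0 < t * τ' x ![v, J x v] := mul_pos h5 h4
      linarith
  · intro x₀
    have e : (fun q : ℝ × E d => pb (chartAt (E d) x₀).symm ((1 - q.1) • τ + q.1 • τ') q.2) =
        fun q : ℝ × E d => (1 - q.1) • pb (chartAt (E d) x₀).symm τ q.2 +
          q.1 • pb (chartAt (E d) x₀).symm τ' q.2 := by
      funext q
      rfl
    rw [e]
    have h1 : ContinuousOn (fun q : ℝ × E d => pb (chartAt (E d) x₀).symm τ q.2)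
        (Icc (0 : ℝ) 1 ×ˢ (chartAt (E d) x₀).target) :=
      (hc x₀).comp continuousOn_snd fun q hq => hq.2
    have h2 : ContinuousOn (fun q : ℝ × E d => pb (chartAt (E d) x₀).symm τ' q.2)
        (Icc (0 : ℝ) 1 ×ˢ (chartAt (E d) x₀).target) :=
      (hc' x₀).comp continuousOn_snd fun q hq => hq.2
    exact ((continuousOn_const.sub continuousOn_fst).smul h1).add (continuousOn_fst.smul h2)

theorem Htp.cont_right {τ τ' : Form d X 2} (h : Htp τ τ') (x₀ : X) :
    ContinuousOn (pb (chartAt (E d) x₀).symm τ') (chartAt (E d) x₀).target := by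
  obtain ⟨H, h0, h1, hn, hc⟩ := h
  have h2 : ContinuousOn (fun z : E d => ((1, z) : ℝ × E d)) (chartAt (E d) x₀).target := by
    fun_prop
  have h3 := (hc x₀).comp h2 fun z hz => ⟨⟨by norm_num, le_refl _⟩, hz⟩
  rw [← h1]
  exact h3

end Pool.Agent.H819.PU
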