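import Mathlib
import Pool.Agent.H819.PU.Off
import Pool.Agent.H819.LN.Disc

/-!
# Exact forms which tame `J` near a totally disconnected set
-/

set_option autoImplicit false

open Set Filter Topology MeasureTheory Metric
open scoped Manifold ContDiff ENNReal NNReal RealInnerProductSpace

noncomputable section

namespace Pool.Agent.H819.PU

open Pool.Agent.Y501.SY
open Pool.Agent.H819
open Pool.Agent.H819.LG (StronglyTames)

variable {d : ℕ} {X : Type} [TopologicalSpace X] [ChartedSpace (E d) X] [IsManifold (𝓡 d) ∞ X]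

/-- a constant form which tames a linear complex structure -/
private theorem exists_form (J₀ : E d →L[ℝ] E d) (hJ : ∀ u, J₀ (J₀ u) = -u) :
    ∃ s : (E d) [⋀^Fin 2]→L[ℝ] ℝ, ∀ v, ‖v‖ ^ 2 ≤ s ![v, J₀ v] := by
  refine ⟨∑ i : Fin d, wedge ((EuclideanSpace.proj i : E d →L[ℝ] ℝ).comp J₀)
    (EuclideanSpace.proj i : E d →L[ℝ] ℝ), fun v => ?_⟩
  rw [ContinuousAlternatingMap.sum_apply]
  have h : ∀ i : Fin d, wedge ((EuclideanSpace.proj i : E d →L[ℝ] ℝ).comp J₀)
      (EuclideanSpace.proj i : E d →L[ℝ] ℝ) ![v, J₀ v] = (J₀ v) i ^ 2 + (v i) ^ 2 := by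
    intro i
    rw [wedge_apply]
    show (J₀ v) i * (J₀ v) i - (J₀ (J₀ v)) i * v i = _
    rw [hJ]
    show (J₀ v) i * (J₀ v) i - (-(v i)) * v i = _
    ring
  rw [Finset.sum_congr rfl fun i _ => h i, Finset.sum_add_distrib, EuclideanSpace.norm_sq_eq]
  have h1 : ∑ i, ‖v i‖ ^ 2 = ∑ i, (v i) ^ 2 :=
    Finset.sum_congr rfl fun i _ => by rw [Real.norm_eq_abs, sq_abs]
  rw [h1]
  have h2 : 0 ≤ ∑ i, (J₀ v) i ^ 2 := Finset.sum_nonneg fun i _ => sq_nonneg _
  linarith

/-- a primitive of a constant form -/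
private theorem exists_prim (s : (E d) [⋀^Fin 2]→L[ℝ] ℝ) :
    ∃ b : E d → (E d) [⋀^Fin 1]→L[ℝ] ℝ, ContDiff ℝ ∞ b ∧ ∀ z, extDeriv b z = s := by
  have hd : ∀ z, HasFDerivAt (fun z : E d => ((1 / 2 : ℝ) • s.curryLeft) z)
      ((1 / 2 : ℝ) • s.curryLeft) z := fun z =>
    ((1 / 2 : ℝ) • s.curryLeft).hasFDerivAt
  refine ⟨fun z => ((1 / 2 : ℝ) • s.curryLeft) z, ((1 / 2 : ℝ) • s.curryLeft).contDiff,
    fun z => ?_⟩
  rw [extDeriv, (hd z).fderiv]
  ext v
  rw [ContinuousAlternatingMap.alternatizeUncurryFin_apply, Fin.sum_univ_two]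
  have hv : v = ![v 0, v 1] := by
    funext i; fin_cases i <;> rfl
  have e0 : Fin.removeNth 0 v = ![v 1] := by
    funext i
    fin_cases i
    rfl
  have e1 : Fin.removeNth 1 v = ![v 0] := by
    funext i
    fin_cases i
    rfl
  rw [e0, e1]
  have e2 : ((1 / 2 : ℝ) • s.curryLeft) (v 0) ![v 1] = (1 / 2) * s ![v 0, v 1] := rfl
  have e3 : ((1 / 2 : ℝ) • s.curryLeft) (v 1) ![v 0] = (1 / 2) * s ![v 1, v 0] := rfl
  rw [e2, e3, LG.two_swap s (v 1) (v 0)]
  conv_rhs => rw [hv]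
  simp
  ring

omit [IsManifold (𝓡 d) ∞ X] in
private theorem inChart_pos [IsManifold (𝓡 d) ∞ X] {J : End d X} {p : X}
    {s : (E d) [⋀^Fin 2]→L[ℝ] ℝ} {z : E d} (hz : z ∈ (chartAt (E d) p).target)
    (hs : ∀ v : E d, v ≠ 0 → 0 < s ![v, inChart J p z v])
    (v : TangentSpace (𝓡 d) ((chartAt (E d) p).symm z)) (hv : v ≠ 0) :
    0 < (s.compContinuousLinearMap
      (mfderiv (𝓡 d) (𝓡 d) (chartAt (E d) p) ((chartAt (E d) p).symm z)))
      ![v, J ((chartAt (E d) p).symm z) v] := by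
  set w : E d := Pool.Agent.Y455.SY.B p z v with hw
  have h1 : Pool.Agent.Y455.SY.A p z w = v := Pool.Agent.Y455.SY.AB p hz v
  have hw0 : w ≠ 0 := by
    intro h0
    apply hv
    rw [← h1, h0]
    exact map_zero _
  have h2 := hs w hw0
  have h3 : inChart J p z w = Pool.Agent.Y455.SY.B p z (J ((chartAt (E d) p).symm z) v) := by
    have h4 : inChart J p z w = Pool.Agent.Y455.SY.B p z (J ((chartAt (E d) p).symm z)
      (Pool.Agent.Y455.SY.A p z w)) := rfl
    rw [h4, h1]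
  rw [h3] at h2
  have h5 : (s.compContinuousLinearMap
      (mfderiv (𝓡 d) (𝓡 d) (chartAt (E d) p) ((chartAt (E d) p).symm z)))
      ![v, J ((chartAt (E d) p).symm z) v] =
      s ![w, Pool.Agent.Y455.SY.B p z (J ((chartAt (E d) p).symm z) v)] := by
    show s _ = s _
    congr 1
    funext i
    fin_cases i <;> rfl
  rw [h5]
  exact h2

private theorem exists_ball {J : End d X}
    (hJ2 : ∀ (x : X) (v : TangentSpace (𝓡 d) x), J x (J x v) = -v)
    (hJc : ∀ x₀, ContinuousOn (inChart J x₀) (chartAt (E d) x₀).target) (p : X) :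
    ∃ (s : (E d) [⋀^Fin 2]→L[ℝ] ℝ) (r : ℝ), 0 < r ∧
      ball (chartAt (E d) p p) r ⊆ (chartAt (E d) p).target ∧
      ∀ z ∈ ball (chartAt (E d) p p) r, ∀ v : E d, v ≠ 0 → 0 < s ![v, inChart J p z v] := by
  set c := chartAt (E d) p p with hc
  have hct : c ∈ (chartAt (E d) p).target := mem_chart_target (E d) p
  have htn : (chartAt (E d) p).target ∈ 𝓝 c := (chartAt (E d) p).open_target.mem_nhds hct
  obtain ⟨s, hs⟩ := exists_form (inChart J p c) fun u => LG.inChart_sq hJ2 p hct u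
  have hcont : ContinuousAt (inChart J p) c := (hJc p).continuousAt htn
  set δ : ℝ := 1 / (2 * (‖s‖ + 1)) with hδ
  have hδ0 : 0 < δ := by positivity
  obtain ⟨r₁, hr₁, h1⟩ := Metric.continuousAt_iff.1 hcont δ hδ0
  obtain ⟨r₂, hr₂, h2⟩ := Metric.mem_nhds_iff.1 htn
  refine ⟨s, min r₁ r₂, lt_min hr₁ hr₂, (ball_subset_ball (min_le_right _ _)).trans h2,
    fun z hz v hv => ?_⟩
  have h3 : dist (inChart J p z) (inChart J p c) < δ :=
    h1 ((mem_ball.1 hz).trans_le (min_le_left _ _))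
  rw [dist_eq_norm] at h3
  have h4 : s ![v, inChart J p z v] = s ![v, inChart J p c v] +
      s ![v, (inChart J p z - inChart J p c) v] := by
    rw [← LN.bil_apply, ← LN.bil_apply, ← LN.bil_apply, ← map_add]
    congr 1
    simp
  have h5 := LG.form2_le s v ((inChart J p z - inChart J p c) v)
  have h6 : ‖(inChart J p z - inChart J p c) v‖ ≤ δ * ‖v‖ :=
    ((inChart J p z - inChart J p c).le_opNorm v).trans
      (mul_le_mul_of_nonneg_right h3.le (norm_nonneg _))
  have hv0 : 0 < ‖v‖ := norm_pos_iff.2 hv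
  have h7 : ‖s‖ * (‖v‖ * ‖(inChart J p z - inChart J p c) v‖) ≤ (1 / 2) * ‖v‖ ^ 2 := by
    calc ‖s‖ * (‖v‖ * ‖(inChart J p z - inChart J p c) v‖) ≤ ‖s‖ * (‖v‖ * (δ * ‖v‖)) := by
          gcongr
      _ = (‖s‖ * δ) * ‖v‖ ^ 2 := by ring
      _ ≤ (1 / 2) * ‖v‖ ^ 2 := by
          gcongr
          rw [hδ, mul_one_div, div_le_div_iff₀ (by positivity) (by norm_num)]
          linarith
  have h8 := (abs_le.1 h5).1
  have h9 := hs v
  rw [h4]
  have h10 : 0 < ‖v‖ ^ 2 := by positivity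
  linarith

/-- a constant form cut off in a chart -/
private theorem exists_piece [T2Space X] (x₀ : X) {U A : Set X} (hU : IsOpen U)
    (hUs : U ⊆ (chartAt (E d) x₀).source) (hA : IsCompact A) (hAU : A ⊆ U)
    (s : (E d) [⋀^Fin 2]→L[ℝ] ℝ) :
    ∃ (ζ : Form d X 1) (η : Form d X 2), IsSmooth ζ ∧ IsSmooth η ∧ IsD ζ η ∧
      (∀ x, x ∉ U → η x = 0) ∧
      ∀ x ∈ interior A, η x =
        s.compContinuousLinearMap (mfderiv (𝓡 d) (𝓡 d) (chartAt (E d) x₀) x) := by
  obtain ⟨b, hb, hbs⟩ := exists_prim s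
  set O : Set (E d) := (chartAt (E d) x₀).target ∩ (chartAt (E d) x₀).symm ⁻¹' U with hO
  have hOo : IsOpen O := (chartAt (E d) x₀).isOpen_inter_preimage_symm hU
  set K : Set (E d) := chartAt (E d) x₀ '' A with hK
  have hAs : A ⊆ (chartAt (E d) x₀).source := hAU.trans hUs
  have hKc : IsCompact K := hA.image_of_continuousOn ((chartAt (E d) x₀).continuousOn.mono hAs)
  have hKO : K ⊆ O := by
    rintro _ ⟨x, hx, rfl⟩
    refine ⟨(chartAt (E d) x₀).map_source (hAs hx), ?_⟩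
    show (chartAt (E d) x₀).symm (chartAt (E d) x₀ x) ∈ U
    rw [(chartAt (E d) x₀).left_inv (hAs hx)]
    exact hAU hx
  obtain ⟨r, hr, hrO⟩ := hKc.exists_cthickening_subset_open hOo hKO
  obtain ⟨f, hf, hf1, hf2, hf3⟩ := exists_contMDiff_support_eq_eq_one_iff (n := (⊤ : ℕ∞)) 𝓘(ℝ, E d)
    (isOpen_thickening (δ := r) (E := K)) hKc.isClosed (self_subset_thickening hr K)
  have hfs : ContDiff ℝ ∞ f := contMDiff_iff_contDiff.1 hf
  set Q : Set (E d) := cthickening r K with hQ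
  have hQc : IsCompact Q := hKc.cthickening
  have hQt : Q ⊆ (chartAt (E d) x₀).target := hrO.trans inter_subset_left
  have hf0 : ∀ z, z ∉ Q → f z = 0 := by
    intro z hz
    by_contra h
    have h1 : z ∈ Function.support f := h
    rw [hf2] at h1
    exact hz (thickening_subset_cthickening _ _ h1)
  have hb1 : ContDiff ℝ ∞ (fun z => f z • b z) := hfs.smul hb
  have hb0 : ∀ z, z ∉ Q → f z • b z = 0 := by
    intro z hz
    rw [hf0 z hz]
    exact zero_smul ℝ _
  obtain ⟨hd1, hd0⟩ := LG.isD_extF (x₀ := x₀) hb1 hQc hQt hb0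
  have hsm2 : ContDiff ℝ ∞ (extDeriv (fun z => f z • b z)) := by
    rw [contDiff_iff_contDiffAt]
    intro z
    exact Pool.Agent.Y891.SY.contDiffAt_extDeriv hb1.contDiffAt
  refine ⟨LG.extF x₀ (fun z => f z • b z), LG.extF x₀ (extDeriv (fun z => f z • b z)),
    LG.smooth_extF hb1 hQc hQt hb0, LG.smooth_extF hsm2 hQc hQt hd0, hd1, ?_, ?_⟩
  · intro x hx
    refine LG.extF_zero x₀ _ hd0 ?_
    rintro ⟨z, hz, rfl⟩
    exact hx (hrO hz).2
  · intro x hx
    have hxs : x ∈ (chartAt (E d) x₀).source := hAs (interior_subset hx)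
    rw [LG.extF_of_mem x₀ _ hxs]
    congr 1
    have hopen : IsOpen ((chartAt (E d) x₀).target ∩
        (chartAt (E d) x₀).symm ⁻¹' (interior A)) :=
      (chartAt (E d) x₀).isOpen_inter_preimage_symm isOpen_interior
    have hmem : chartAt (E d) x₀ x ∈ (chartAt (E d) x₀).target ∩
        (chartAt (E d) x₀).symm ⁻¹' (interior A) := by
      refine ⟨(chartAt (E d) x₀).map_source hxs, ?_⟩
      show (chartAt (E d) x₀).symm (chartAt (E d) x₀ x) ∈ interior A
      rw [(chartAt (E d) x₀).left_inv hxs]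
      exact hx
    have h1 : (fun z => f z • b z) =ᶠ[𝓝 (chartAt (E d) x₀ x)] b := by
      filter_upwards [hopen.mem_nhds hmem] with z hz
      have h2 : z ∈ K := ⟨_, interior_subset hz.2, (chartAt (E d) x₀).right_inv hz.1⟩
      rw [(hf3 z).1 h2]
      exact one_smul ℝ _
    rw [h1.extDeriv_eq, hbs]

/-- **An exact form which tames `J` near `S`.**

Proof.  For `p ∈ S` let `J₀ = inChart J p (chartAt p p)`, `c = chartAt p p`, and let `s` be the
constant two-form `s ![u, v] = ⟪J₀ u, v⟫ - ⟪u, J₀ v⟫` on `E d`: `s ![v, J₀ v] = ‖J₀ v‖² + ‖v‖²`.  By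
continuity `s ![v, inChart J p z v] ≥ ‖v‖² / 2` for `z ∈ ball c (r p) ⊆ target`.  It has the primitive
`b z ![v] = s ![z - c, v] / 2`.  Apply `LN.exists_disc_cover` with
`W p = source ∩ chart ⁻¹' (ball c (r p))` and choose smooth cut-offs `χ j` with compact support in
`chart '' (U j)`, equal to `1` near `chart '' (A j)`.
`ζ = ∑ j, extF (p j) (χ j • b j)`, `η = ∑ j, extF (p j) (extDeriv (χ j • b j))`, `O = ⋃ interior (A j)`
(`LG.smooth_extF`, `LG.isD_extF`; on `interior (A j)` the other terms vanish because the `U k` are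
pairwise disjoint, and `η` is the constant form `s` in the chart at `p j`;
`inChart` is `J` in the chart, see `BC.inChart_apply` or `LG.inChart_sq` for how to pass from `X` to
the chart). -/
theorem exists_taming_near [T2Space X] [CompactSpace X] {J : End d X}
    (hJ2 : ∀ (x : X) (v : TangentSpace (𝓡 d) x), J x (J x v) = -v)
    (hJc : ∀ x₀, ContinuousOn (inChart J x₀) (chartAt (E d) x₀).target)
    {S : Set X} (hS : IsClosed S) (hSd : IsTotallyDisconnected S) :
    ∃ (ζ : Form d X 1) (η : Form d X 2) (O : Set X), IsSmooth ζ ∧ IsSmooth η ∧ IsD ζ η ∧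
      IsOpen O ∧ S ⊆ O ∧ ∀ x ∈ O, ∀ v : TangentSpace (𝓡 d) x, v ≠ 0 → 0 < η x ![v, J x v] := by
  classical
  choose s r hr hrt hpos using exists_ball hJ2 hJc
  set W : X → Set X := fun p => (chartAt (E d) p).source ∩
    (chartAt (E d) p) ⁻¹' (ball (chartAt (E d) p p) (r p)) with hW
  obtain ⟨m, p, U, P, A, -, hUo, hUW, hUd, hAc, -, hAP, hPU, hSA⟩ :=
    LN.exists_disc_cover hS hSd (W := W) fun p _ =>
      ⟨(chartAt (E d) p).isOpen_inter_preimage isOpen_ball,
        mem_chart_source (E d) p, mem_ball_self (hr p)⟩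
  have hAU : ∀ j, A j ⊆ U j := fun j => ((hAP j).trans interior_subset).trans (hPU j)
  have hUs : ∀ j, U j ⊆ (chartAt (E d) (p j)).source := fun j x hx => (hUW j hx).1
  choose ζ η h1 h2 h3 h4 h5 using fun j => exists_piece (p j) (hUo j) (hUs j) (hAc j) (hAU j)
    (s (p j))
  refine ⟨∑ j, ζ j, ∑ j, η j, ⋃ j, interior (A j), IsSmooth.sum _ fun j _ => h1 j,
    IsSmooth.sum _ fun j _ => h2 j, LG.IsD.sum' _ (fun j _ => h3 j) fun j _ => h1 j,
    isOpen_iUnion fun j => isOpen_interior, hSA, ?_⟩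
  intro x hx
  obtain ⟨j, hj⟩ := mem_iUnion.1 hx
  have hxU : x ∈ U j := hAU j (interior_subset hj)
  have e1 : (∑ k, η k) x = η j x := by
    rw [Finset.sum_apply]
    refine Finset.sum_eq_single_of_mem j (Finset.mem_univ j) fun k _ hk => h4 k x fun hxk => ?_
    exact disjoint_left.1 (hUd k j hk) hxk hxU
  have hxW := hUW j hxU
  obtain ⟨z, hz, hzx⟩ : ∃ z ∈ ball (chartAt (E d) (p j) (p j)) (r (p j)),
      (chartAt (E d) (p j)).symm z = x :=
    ⟨_, hxW.2, (chartAt (E d) (p j)).left_inv hxW.1⟩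
  intro v hv
  rw [e1, h5 j x hj]
  clear e1 hxW hx
  subst hzx
  exact inChart_pos (hrt (p j) hz) (hpos (p j) z hz) v hv

end Pool.Agent.H819.PU
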