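import Mathlib
import Pool.Agent.H819.PU.Off
import Pool.Agent.H819.LN.Main

/-!
# The lower bound near the singular set
-/

set_option autoImplicit false
set_option linter.unusedSectionVars false
set_option linter.unusedVariables false

open Set Filter Topology MeasureTheory Metric
open scoped Manifold ContDiff ENNReal NNReal RealInnerProductSpace

noncomputable section

namespace Pool.Agent.H819.PU

open Pool.Agent.Y501.SY
open Pool.Agent.H819
open Pool.Agent.H819.LG (StronglyTames)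

variable {d : ℕ} {X : Type} [TopologicalSpace X] [ChartedSpace (E d) X] [IsManifold (𝓡 d) ∞ X]

open Pool.Agent.H819.LG (form2_le continuous_ev2 smooth_chart GoodAt)

namespace LwB

theorem loc_bd {s : E d → (E d) [⋀^Fin 2]→L[ℝ] ℝ} {A : E d → (E d →L[ℝ] E d)} {N : Set (E d)}
    (hN : IsCompact N) (hsc : ContinuousOn s N) (hAc : ContinuousOn A N)
    (hpos : ∀ z ∈ N, ∀ v : E d, v ≠ 0 → 0 < s z ![v, A z v]) :
    ∃ m : ℝ, 0 < m ∧ ∀ z ∈ N, ∀ u : E d, m * ‖u‖ ^ 2 ≤ s z ![u, A z u] := by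
  obtain ⟨m, hm, hm'⟩ : ∃ m : ℝ, 0 < m ∧ ∀ z ∈ N, ∀ v ∈ sphere (0 : E d) 1,
      m ≤ s z ![v, A z v] := by
    rcases (N ×ˢ sphere (0 : E d) 1).eq_empty_or_nonempty with h0 | h0
    · refine ⟨1, one_pos, fun z hz v hv => ?_⟩
      have : (z, v) ∈ N ×ˢ sphere (0 : E d) 1 := ⟨hz, hv⟩
      rw [h0] at this
      exact this.elim
    · have hc : ContinuousOn (fun q : E d × E d => s q.1 ![q.2, A q.1 q.2])
          (N ×ˢ sphere (0 : E d) 1) := by
        have h1 : ContinuousOn (fun q : E d × E d => s q.1) (N ×ˢ sphere (0 : E d) 1) :=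
          hsc.comp continuousOn_fst fun q hq => hq.1
        have h2 : ContinuousOn (fun q : E d × E d => A q.1 q.2) (N ×ˢ sphere (0 : E d) 1) :=
          (hAc.comp continuousOn_fst fun q hq => hq.1).clm_apply continuousOn_snd
        have h3 : ContinuousOn (fun q : E d × E d => (![q.2, A q.1 q.2] : Fin 2 → E d))
            (N ×ˢ sphere (0 : E d) 1) := by
          refine continuousOn_pi.2 fun i => ?_
          fin_cases i
          · exact continuousOn_snd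
          · exact h2
        exact continuous_ev2.comp_continuousOn (h1.prodMk h3)
      obtain ⟨q, hq, hmin⟩ := (hN.prod (isCompact_sphere 0 1)).exists_isMinOn h0 hc
      refine ⟨_, hpos q.1 hq.1 q.2 ?_, fun z hz v hv => hmin (a := (z, v)) ⟨hz, hv⟩⟩
      have := hq.2
      rw [mem_sphere_zero_iff_norm] at this
      intro h3
      rw [h3, norm_zero] at this
      exact zero_ne_one this
  refine ⟨m, hm, fun z hz u => ?_⟩
  by_cases hu : u = 0
  · have h1 : s z ![u, A z u] = 0 := by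
      refine (s z).map_coord_zero 0 ?_
      exact hu
    rw [h1, hu, norm_zero]
    simp
  · have hu' : 0 < ‖u‖ := norm_pos_iff.2 hu
    have h1 := hm' z hz (‖u‖⁻¹ • u) (by
      rw [mem_sphere_zero_iff_norm, norm_smul, norm_inv, norm_norm, inv_mul_cancel₀ hu'.ne'])
    have h2 : s z ![‖u‖⁻¹ • u, A z (‖u‖⁻¹ • u)] = ‖u‖⁻¹ ^ 2 * s z ![u, A z u] := by
      have h1 : (![‖u‖⁻¹ • u, A z (‖u‖⁻¹ • u)] : Fin 2 → E d) =
          fun i => (fun _ : Fin 2 => ‖u‖⁻¹) i • (![u, A z u] : Fin 2 → E d) i := by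
        funext i
        fin_cases i
        · rfl
        · exact map_smul (A z) _ u
      rw [h1, ContinuousAlternatingMap.map_smul_univ]
      simp [pow_two]
    rw [h2, inv_pow] at h1
    rw [← div_eq_inv_mul, le_div_iff₀ (by positivity)] at h1
    exact h1

theorem dist_of_bd {s : (E d) [⋀^Fin 2]→L[ℝ] ℝ} {A : E d →L[ℝ] E d} {m M : ℝ} (hm : 0 < m)
    (hlow : ∀ u : E d, m * ‖u‖ ^ 2 ≤ s ![u, A u]) (hM : ‖s‖ ≤ M) (u w : E d) :
    s ![u, w] ^ 2 ≤ M ^ 2 / m ^ 2 * s ![u, A u] * s ![w, A w] := by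
  have hM0 : 0 ≤ M := (norm_nonneg _).trans hM
  have h1 : |s ![u, w]| ≤ M * (‖u‖ * ‖w‖) :=
    (form2_le _ _ _).trans (mul_le_mul_of_nonneg_right hM (by positivity))
  have h2 : s ![u, w] ^ 2 ≤ (M * (‖u‖ * ‖w‖)) ^ 2 := by
    rw [← sq_abs]
    exact pow_le_pow_left₀ (abs_nonneg _) h1 2
  have h3 := hlow u
  have h4 := hlow w
  refine h2.trans ?_
  have h5 : (m * ‖u‖ ^ 2) * (m * ‖w‖ ^ 2) ≤ s ![u, A u] * s ![w, A w] :=
    mul_le_mul h3 h4 (by positivity) ((by positivity : (0 : ℝ) ≤ m * ‖u‖ ^ 2).trans h3)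
  calc (M * (‖u‖ * ‖w‖)) ^ 2 = M ^ 2 / m ^ 2 * ((m * ‖u‖ ^ 2) * (m * ‖w‖ ^ 2)) := by
        field_simp
    _ ≤ M ^ 2 / m ^ 2 * (s ![u, A u] * s ![w, A w]) := by gcongr
    _ = M ^ 2 / m ^ 2 * s ![u, A u] * s ![w, A w] := by ring

theorem alg_ineq {s e a b p q ε C D : ℝ} (hε : 0 ≤ ε) (hD : 0 ≤ D) (ha : 0 ≤ a) (hb : 0 ≤ b)
    (hp : 0 ≤ p) (hq : 0 ≤ q) (h1 : s ^ 2 ≤ C * a * b) (h2 : e ^ 2 ≤ D * p * q) :
    (s + ε * e) ^ 2 ≤ (2 * |C| + 2 * D) * (a + ε * p) * (b + ε * q) := by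
  have hC0 : 0 ≤ |C| := abs_nonneg C
  have h3 : (s + ε * e) ^ 2 ≤ 2 * s ^ 2 + 2 * (ε ^ 2 * e ^ 2) := by
    nlinarith [sq_nonneg (s - ε * e)]
  have h4 : C * a * b ≤ |C| * (a * b) := by
    rw [mul_assoc]
    exact mul_le_mul_of_nonneg_right (le_abs_self C) (mul_nonneg ha hb)
  have h5 : ε ^ 2 * e ^ 2 ≤ D * ((ε * p) * (ε * q)) := by
    have := mul_le_mul_of_nonneg_left h2 (sq_nonneg ε)
    refine this.trans (le_of_eq ?_)
    ring
  have h6 : a * b + (ε * p) * (ε * q) ≤ (a + ε * p) * (b + ε * q) := by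
    have h7 : 0 ≤ a * (ε * q) := by positivity
    have h8 : 0 ≤ (ε * p) * b := by positivity
    nlinarith
  have h7 : 0 ≤ a * b := by positivity
  have h8 : 0 ≤ (ε * p) * (ε * q) := by positivity
  calc (s + ε * e) ^ 2 ≤ 2 * s ^ 2 + 2 * (ε ^ 2 * e ^ 2) := h3
    _ ≤ 2 * (|C| * (a * b)) + 2 * (D * ((ε * p) * (ε * q))) := by linarith
    _ ≤ (2 * |C| + 2 * D) * (a * b + (ε * p) * (ε * q)) := by
        have h9 := mul_nonneg hC0 h8
        have h10 := mul_nonneg hD h7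
        nlinarith
    _ ≤ (2 * |C| + 2 * D) * ((a + ε * p) * (b + ε * q)) :=
        mul_le_mul_of_nonneg_left h6 (by positivity)
    _ = _ := by ring

/-- the distortion of a form at a point -/
def Dst (σ : Form d X 2) (J : End d X) (C : ℝ) (x : X) : Prop :=
  ∀ u v : TangentSpace (𝓡 d) x, σ x ![u, v] ^ 2 ≤ C * σ x ![u, J x u] * σ x ![v, J x v]

omit [IsManifold (𝓡 d) ∞ X] in
theorem dst_mono {σ : Form d X 2} {J : End d X} {C C' : ℝ} {x : X} (hC : C ≤ C')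
    (h0 : ∀ v : TangentSpace (𝓡 d) x, 0 ≤ σ x ![v, J x v]) (h : Dst σ J C x) : Dst σ J C' x := by
  intro u v
  refine (h u v).trans ?_
  have h1 := h0 u
  have h2 := h0 v
  gcongr

omit [IsManifold (𝓡 d) ∞ X] in
theorem pb_pair (θ : Form d X 2) (x₀ : X) (z u w : E d) :
    pb (chartAt (E d) x₀).symm θ z ![u, w] = θ ((chartAt (E d) x₀).symm z)
      ![Pool.Agent.Y455.SY.A x₀ z u, Pool.Agent.Y455.SY.A x₀ z w] := by
  unfold pb
  rw [ContinuousAlternatingMap.compContinuousLinearMap_apply]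
  congr 1
  funext i
  fin_cases i <;> rfl

omit [IsManifold (𝓡 d) ∞ X] in
theorem nonneg_of_tames {σ : Form d X 2} {J : End d X} {x : X} (h : TamesAt σ J x)
    (v : TangentSpace (𝓡 d) x) : 0 ≤ σ x ![v, J x v] := by
  by_cases hv : v = 0
  · refine le_of_eq ?_
    exact ((σ x).map_coord_zero 0 hv).symm
  · exact (h v hv).le

omit [IsManifold (𝓡 d) ∞ X] in
theorem null_chart (hd : 3 ≤ d) {S : Set X} (hS0 : HNull d S) (x₀ : X) :
    volume (chartAt (E d) x₀ '' (S ∩ (chartAt (E d) x₀).source)) = 0 := by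
  have h1 := hS0 x₀
  have h2 : μH[((Module.finrank ℝ (E d) : ℕ) : ℝ)]
      (chartAt (E d) x₀ '' (S ∩ (chartAt (E d) x₀).source)) = 0 := by
    refine le_antisymm ?_ zero_le
    rw [← h1]
    refine Measure.hausdorffMeasure_mono ?_ _
    rw [finrank_euclideanSpace_fin]
    exact_mod_cast Nat.sub_le d 3
  exact Measure.absolutelyContinuous_isAddHaarMeasure volume
    μH[((Module.finrank ℝ (E d) : ℕ) : ℝ)] h2

theorem dst_iff {σ : Form d X 2} {J : End d X} {C : ℝ} (x₀ : X) {z : E d}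
    (hz : z ∈ (chartAt (E d) x₀).target) :
    Dst σ J C ((chartAt (E d) x₀).symm z) ↔ ∀ u w : E d,
      pb (chartAt (E d) x₀).symm σ z ![u, w] ^ 2 ≤
        C * pb (chartAt (E d) x₀).symm σ z ![u, inChart J x₀ z u] *
          pb (chartAt (E d) x₀).symm σ z ![w, inChart J x₀ z w] := by
  have hQ : ∀ v : E d, pb (chartAt (E d) x₀).symm σ z ![v, inChart J x₀ z v] =
      σ ((chartAt (E d) x₀).symm z) ![Pool.Agent.Y455.SY.A x₀ z v,
        J ((chartAt (E d) x₀).symm z) (Pool.Agent.Y455.SY.A x₀ z v)] := fun v =>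
    Pool.Agent.Y455.SY.Q_eq σ J x₀ hz v
  constructor
  · intro h u w
    rw [hQ, hQ, pb_pair]
    exact h _ _
  · intro h u w
    obtain ⟨u', rfl⟩ := Pool.Agent.Y455.SY.A_surj x₀ hz u
    obtain ⟨w', rfl⟩ := Pool.Agent.Y455.SY.A_surj x₀ hz w
    have h1 := h u' w'
    rw [hQ, hQ, pb_pair] at h1
    exact h1

theorem tames_chart {σ : Form d X 2} {J : End d X} (x₀ : X) {z : E d}
    (hz : z ∈ (chartAt (E d) x₀).target) :
    TamesAt σ J ((chartAt (E d) x₀).symm z) ↔ ∀ v : E d, v ≠ 0 →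
      0 < pb (chartAt (E d) x₀).symm σ z ![v, inChart J x₀ z v] :=
  Pool.Agent.Y455.SY.tames_iff σ J x₀ hz

/-- the smooth part in the charts -/
theorem smoothOff_chart {S : Set X} (hS : IsClosed S) {θ : Form d X 2} (hθ : SmoothOff S θ)
    (x₀ : X) : ContinuousOn (pb (chartAt (E d) x₀).symm θ)
      ((chartAt (E d) x₀).target ∩ (chartAt (E d) x₀).symm ⁻¹' Sᶜ) := by
  refine (hθ _ (chartAt (E d) x₀).symm
    ((chartAt (E d) x₀).isOpen_inter_preimage_symm hS.isOpen_compl) ?_ ?_).continuousOn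
  · exact contMDiffOn_chart_symm.mono inter_subset_left
  · intro p hp
    exact hp.2

end LwB

open LwB

/-- **The lower bound near `S`.**

Proof.  Measure tangent vectors in finitely many compact chart pieces covering `X`
(`LN.exists_ord_cover`).  Let `O₁` be open with `S ⊆ O₁`, `closure O₁ ⊆ O` (`X` is normal).
(1) On the compact set `closure O₁`: `η(v, J v) ≥ c ‖v‖²`, `|η(u, w)| ≤ K ‖u‖ ‖w‖`, `c > 0`.
(2) `Y = X \ O₁` is compact and `θ` is smooth near it (it misses `S`), so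
`θ(v, J v) ≥ c' ‖v‖²`, `|θ(u, w)|, |η(u, w)| ≤ K' ‖u‖ ‖w‖` on `Y`, `c' > 0`.  Take
`ε = c' / (2 (K' ‖J‖ + 1))`, so `(θ + ε η)(v, J v) ≥ θ(v, J v) / 2` on `Y`.
(3) Off `S`: positivity of `θ + ε η` on `closure O₁ \ S` (both terms are `≥ 0`, `η` positive), on `Y` by
(2).  Distortion on `closure O₁ \ S`: `(θ + ε η)(u, w)² ≤ 2 θ(u, w)² + 2 ε² η(u, w)²
≤ 2 C θ(u, J u) θ(w, J w) + 2 (K / c)² (ε η(u, J u)) (ε η(w, J w)) ≤ C' (θ + ε η)(u, J u) (θ + ε η)(w, J w)`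
with `C' = 2 |C| + 2 (K / c)²` (both forms are nonnegative on complex lines); on `Y`:
`(θ + ε η)(u, w)² ≤ K'' ‖u‖² ‖w‖² ≤ K'' (2 / c')² (θ + ε η)(u, J u) (θ + ε η)(w, J w)`.
(4) `StronglyTames`: on a compact piece `N` of a chart, for a.e. `z` (those with `e.symm z ∉ S`; `S` is
null by `hS0`: `μH[d - 3] = 0` implies Lebesgue measure zero), lower bound `c₀ ‖u‖²` from
`(θ + ε η)(u, J u) ≥ ε c ‖u‖²` on `closure O₁ \ S` and `≥ (c' / 2) ‖u‖²` on `Y`. -/
theorem exists_lower [T2Space X] [CompactSpace X] (hd : 3 ≤ d) {J : End d X}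
    (hJ2 : ∀ (x : X) (v : TangentSpace (𝓡 d) x), J x (J x v) = -v)
    (hJc : ∀ x₀, ContinuousOn (inChart J x₀) (chartAt (E d) x₀).target)
    {S : Set X} (hS : IsClosed S) (hS0 : HNull d S) {θ : Form d X 2} (hθ : SmoothOff S θ)
    (hpos : ∀ x, x ∉ S → ∀ v : TangentSpace (𝓡 d) x, v ≠ 0 → 0 < θ x ![v, J x v]) {C : ℝ}
    (hdist : ∀ x, x ∉ S → ∀ u v : TangentSpace (𝓡 d) x,
      θ x ![u, v] ^ 2 ≤ C * θ x ![u, J x u] * θ x ![v, J x v])
    {η : Form d X 2} (hη : IsSmooth η) {O : Set X} (hO : IsOpen O) (hSO : S ⊆ O)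
    (hηO : ∀ x ∈ O, ∀ v : TangentSpace (𝓡 d) x, v ≠ 0 → 0 < η x ![v, J x v]) :
    ∃ ε : ℝ, 0 < ε ∧ StronglyTames (θ + ε • η) J ∧
      (∀ x, x ∉ S → ∀ v : TangentSpace (𝓡 d) x, v ≠ 0 → 0 < (θ + ε • η) x ![v, J x v]) ∧
      ∃ C' : ℝ, ∀ x, x ∉ S → ∀ u v : TangentSpace (𝓡 d) x,
        (θ + ε • η) x ![u, v] ^ 2 ≤ C' * (θ + ε • η) x ![u, J x u] * (θ + ε • η) x ![v, J x v] := by
  classical
  obtain ⟨O₁, hO₁, hSO₁, hO₁O⟩ := normal_exists_closure_subset hS hO hSO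
  have hY₁ : IsCompact (closure O₁) := isClosed_closure.isCompact
  have hY₂ : IsCompact (O₁ᶜ) := hO₁.isClosed_compl.isCompact
  have hY₂S : O₁ᶜ ⊆ Sᶜ := compl_subset_compl.2 hSO₁
  obtain ⟨n₁, x₁, t₁, ht₁, hB₁, hc₁⟩ := LN.exists_ord_cover (d := d) hY₁ hO hO₁O
  obtain ⟨n₂, x₂, t₂, ht₂, hB₂, hc₂⟩ := LN.exists_ord_cover (d := d) hY₂ hS.isOpen_compl hY₂S
  -- the second family
  have hK₂ : ∀ j, closedBall (chartAt (E d) (x₂ j) (x₂ j)) (t₂ j) ⊆
      (chartAt (E d) (x₂ j)).target ∩ (chartAt (E d) (x₂ j)).symm ⁻¹' Sᶜ := fun j =>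
    (closedBall_subset_closedBall (by have := ht₂ j; linarith)).trans (hB₂ j)
  have hK₂t : ∀ j, closedBall (chartAt (E d) (x₂ j) (x₂ j)) (t₂ j) ⊆
      (chartAt (E d) (x₂ j)).target := fun j => (hK₂ j).trans inter_subset_left
  have hθc₂ := fun j => (smoothOff_chart hS hθ (x₂ j)).mono (hK₂ j)
  have hηc₂ := fun j => (smooth_chart hη (x₂ j)).continuousOn.mono (hK₂t j)
  have hJc₂ := fun j => (hJc (x₂ j)).mono (hK₂t j)
  have hex : ∀ j, ∃ m : ℝ, 0 < m ∧ ∀ z ∈ closedBall (chartAt (E d) (x₂ j) (x₂ j)) (t₂ j),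
      ∀ u : E d, m * ‖u‖ ^ 2 ≤
        pb (chartAt (E d) (x₂ j)).symm θ z ![u, inChart J (x₂ j) z u] := fun j =>
    loc_bd (isCompact_closedBall _ _) (hθc₂ j) (hJc₂ j) fun z hz =>
      (tames_chart (x₂ j) (hK₂t j hz)).1 (hpos _ (hK₂ j hz).2)
  choose m hm hlow using hex
  have hP : ∀ j, ∃ P : ℝ, ∀ z ∈ closedBall (chartAt (E d) (x₂ j) (x₂ j)) (t₂ j),
      ‖pb (chartAt (E d) (x₂ j)).symm θ z‖ ≤ P := fun j =>
    (isCompact_closedBall _ _).exists_bound_of_continuousOn (hθc₂ j)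
  choose P hP using hP
  have hM : ∀ j, ∃ M : ℝ, ∀ z ∈ closedBall (chartAt (E d) (x₂ j) (x₂ j)) (t₂ j),
      ‖pb (chartAt (E d) (x₂ j)).symm η z‖ ≤ M := fun j =>
    (isCompact_closedBall _ _).exists_bound_of_continuousOn (hηc₂ j)
  choose M hM using hM
  have hL : ∀ j, ∃ L : ℝ, ∀ z ∈ closedBall (chartAt (E d) (x₂ j) (x₂ j)) (t₂ j),
      ‖inChart J (x₂ j) z‖ ≤ L := fun j =>
    (isCompact_closedBall _ _).exists_bound_of_continuousOn (hJc₂ j)
  choose L hL using hL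
  have hM0 : ∀ j, 0 ≤ M j := fun j =>
    (norm_nonneg _).trans (hM j _ (mem_closedBall_self (ht₂ j).le))
  have hL0 : ∀ j, 0 ≤ L j := fun j =>
    (norm_nonneg _).trans (hL j _ (mem_closedBall_self (ht₂ j).le))
  obtain ⟨ε, hε, hε'⟩ := LN.exists_pos_le' (fun j => m j / (2 * (M j * L j + 1))) fun j => by
    have h1 := hm j
    have h2 := hM0 j
    have h3 := hL0 j
    positivity
  have hpbT : ∀ (x₀ : X) (z : E d), pb (chartAt (E d) x₀).symm (θ + ε • η) z =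
      pb (chartAt (E d) x₀).symm θ z + ε • pb (chartAt (E d) x₀).symm η z := fun x₀ z => rfl
  have hTapp : ∀ (x : X) (u v : TangentSpace (𝓡 d) x),
      (θ + ε • η) x ![u, v] = θ x ![u, v] + ε * η x ![u, v] := fun _ _ _ => rfl
  have hTlow : ∀ j, ∀ z ∈ closedBall (chartAt (E d) (x₂ j) (x₂ j)) (t₂ j), ∀ u : E d,
      m j / 2 * ‖u‖ ^ 2 ≤
        pb (chartAt (E d) (x₂ j)).symm (θ + ε • η) z ![u, inChart J (x₂ j) z u] := by
    intro j z hz u
    rw [hpbT]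
    show m j / 2 * ‖u‖ ^ 2 ≤
      pb (chartAt (E d) (x₂ j)).symm θ z ![u, inChart J (x₂ j) z u] +
        ε * pb (chartAt (E d) (x₂ j)).symm η z ![u, inChart J (x₂ j) z u]
    have h1 := hlow j z hz u
    have h2 : |pb (chartAt (E d) (x₂ j)).symm η z ![u, inChart J (x₂ j) z u]| ≤
        M j * (‖u‖ * (L j * ‖u‖)) := by
      refine (form2_le _ _ _).trans ?_
      have h3 : ‖inChart J (x₂ j) z u‖ ≤ L j * ‖u‖ :=
        ((inChart J (x₂ j) z).le_opNorm u).trans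
          (mul_le_mul_of_nonneg_right (hL j z hz) (norm_nonneg _))
      have h4 := hM j z hz
      have h5 := hM0 j
      gcongr
    have h0 := hM0 j
    have h0' := hL0 j
    have h5 : ε * (M j * L j) ≤ m j / 2 := by
      have h6 := hε' j
      have h6' : ε ≤ m j / (2 * (M j * L j + 1)) := h6
      rw [le_div_iff₀ (by positivity)] at h6'
      nlinarith
    have h7 := (abs_le.1 h2).1
    have h8 : -(ε * (M j * L j) * ‖u‖ ^ 2) ≤
        ε * pb (chartAt (E d) (x₂ j)).symm η z ![u, inChart J (x₂ j) z u] := by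
      have h9 := mul_le_mul_of_nonneg_left h7 hε.le
      refine le_trans (le_of_eq ?_) h9
      ring
    have h9 : ε * (M j * L j) * ‖u‖ ^ 2 ≤ m j / 2 * ‖u‖ ^ 2 :=
      mul_le_mul_of_nonneg_right h5 (by positivity)
    linarith
  have hTpos₂ : ∀ x, x ∈ O₁ᶜ → TamesAt (θ + ε • η) J x := by
    intro x hx
    obtain ⟨j, z, hz, rfl⟩ := hc₂ x hx
    refine (tames_chart (x₂ j) (hK₂t j hz)).2 fun v hv => ?_
    have h1 := hTlow j z hz v
    have h2 : 0 < ‖v‖ := norm_pos_iff.2 hv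
    have h4 := hm j
    have h3 : 0 < m j / 2 * ‖v‖ ^ 2 := by positivity
    exact h3.trans_le h1
  have hTpos : ∀ x, x ∉ S → TamesAt (θ + ε • η) J x := by
    intro x hx
    by_cases h : x ∈ O₁
    · intro v hv
      rw [hTapp]
      exact add_pos (hpos x hx v hv) (mul_pos hε (hηO x (hO₁O (subset_closure h)) v hv))
    · exact hTpos₂ x h
  -- the distortion
  have hD₁ : ∀ i, ∃ D : ℝ, ∀ z ∈ closedBall (chartAt (E d) (x₁ i) (x₁ i)) (t₁ i),
      Dst η J D ((chartAt (E d) (x₁ i)).symm z) := by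
    intro i
    have hK₁ : closedBall (chartAt (E d) (x₁ i) (x₁ i)) (t₁ i) ⊆
        (chartAt (E d) (x₁ i)).target ∩ (chartAt (E d) (x₁ i)).symm ⁻¹' O :=
      (closedBall_subset_closedBall (by have := ht₁ i; linarith)).trans (hB₁ i)
    have hK₁t := hK₁.trans inter_subset_left
    have hηc := (smooth_chart hη (x₁ i)).continuousOn.mono hK₁t
    obtain ⟨c, hc, hcl⟩ := loc_bd (isCompact_closedBall _ _) hηc ((hJc (x₁ i)).mono hK₁t)
      fun z hz => (tames_chart (x₁ i) (hK₁t hz)).1 (hηO _ (hK₁ hz).2)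
    obtain ⟨K, hK⟩ := (isCompact_closedBall _ _).exists_bound_of_continuousOn hηc
    exact ⟨K ^ 2 / c ^ 2, fun z hz => (dst_iff (x₁ i) (hK₁t hz)).2 fun u w =>
      dist_of_bd hc (hcl z hz) (hK z hz) u w⟩
  choose D₁ hD₁ using hD₁
  have hD₁' : ∀ x ∈ closure O₁, Dst η J (∑ i, |D₁ i|) x := by
    intro x hx
    obtain ⟨i, z, hz, rfl⟩ := hc₁ x hx
    refine dst_mono ?_ (nonneg_of_tames (hηO _ (hO₁O hx))) (hD₁ i z hz)
    exact (le_abs_self _).trans (Finset.single_le_sum (f := fun i => |D₁ i|)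
      (fun i _ => abs_nonneg _) (Finset.mem_univ i))
  have hD₂ : ∀ j, ∀ z ∈ closedBall (chartAt (E d) (x₂ j) (x₂ j)) (t₂ j),
      Dst (θ + ε • η) J ((P j + ε * M j) ^ 2 / (m j / 2) ^ 2)
        ((chartAt (E d) (x₂ j)).symm z) := by
    intro j z hz
    refine (dst_iff (x₂ j) (hK₂t j hz)).2 fun u w =>
      dist_of_bd (by have := hm j; positivity) (hTlow j z hz) ?_ u w
    rw [hpbT]
    refine (norm_add_le _ _).trans (add_le_add (hP j z hz) ?_)
    rw [norm_smul, Real.norm_of_nonneg hε.le]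
    exact mul_le_mul_of_nonneg_left (hM j z hz) hε.le
  obtain ⟨C', hC'⟩ : ∃ C' : ℝ, ∀ x, x ∉ S → Dst (θ + ε • η) J C' x := by
    refine ⟨(2 * |C| + 2 * ∑ i, |D₁ i|) + ∑ j, |(P j + ε * M j) ^ 2 / (m j / 2) ^ 2|,
      fun x hx => ?_⟩
    have hs0 : 0 ≤ ∑ j, |(P j + ε * M j) ^ 2 / (m j / 2) ^ 2| :=
      Finset.sum_nonneg fun _ _ => abs_nonneg _
    have hD0 : 0 ≤ ∑ i, |D₁ i| := Finset.sum_nonneg fun _ _ => abs_nonneg _
    have hC0 : 0 ≤ |C| := abs_nonneg C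
    by_cases h : x ∈ O₁
    · have hxc := subset_closure h
      refine dst_mono (C := 2 * |C| + 2 * ∑ i, |D₁ i|) (by linarith)
        (nonneg_of_tames (hTpos x hx)) ?_
      intro u v
      rw [hTapp, hTapp, hTapp]
      exact alg_ineq hε.le hD0 (nonneg_of_tames (hpos x hx) u) (nonneg_of_tames (hpos x hx) v)
        (nonneg_of_tames (hηO x (hO₁O hxc)) u) (nonneg_of_tames (hηO x (hO₁O hxc)) v)
        (hdist x hx u v) (hD₁' x hxc u v)
    · obtain ⟨j, z, hz, rfl⟩ := hc₂ x h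
      refine dst_mono ?_ (nonneg_of_tames (hTpos _ hx)) (hD₂ j z hz)
      have h1 : |(P j + ε * M j) ^ 2 / (m j / 2) ^ 2| ≤
          ∑ j, |(P j + ε * M j) ^ 2 / (m j / 2) ^ 2| :=
        Finset.single_le_sum (f := fun j => |(P j + ε * M j) ^ 2 / (m j / 2) ^ 2|)
          (fun i _ => abs_nonneg _) (Finset.mem_univ j)
      have h2 := le_abs_self ((P j + ε * M j) ^ 2 / (m j / 2) ^ 2)
      linarith
  refine ⟨ε, hε, ?_, fun x hx => hTpos x hx, C', hC'⟩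
  -- strong taming
  intro x₀ N hN hNt
  have hJN := (hJc x₀).mono hNt
  have hηN := (smooth_chart hη x₀).continuousOn.mono hNt
  have hsymm : ContinuousOn (chartAt (E d) x₀).symm N :=
    (chartAt (E d) x₀).continuousOn_symm.mono hNt
  have hN₁ : IsCompact (N ∩ (chartAt (E d) x₀).symm ⁻¹' closure O₁) :=
    hN.of_isClosed_subset (hsymm.preimage_isClosed_of_isClosed hN.isClosed isClosed_closure)
      inter_subset_left
  have hN₂ : IsCompact (N ∩ (chartAt (E d) x₀).symm ⁻¹' O₁ᶜ) :=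
    hN.of_isClosed_subset (hsymm.preimage_isClosed_of_isClosed hN.isClosed hO₁.isClosed_compl)
      inter_subset_left
  obtain ⟨m₁, hm₁, hm₁'⟩ := loc_bd hN₁ (hηN.mono inter_subset_left) (hJN.mono inter_subset_left)
    fun z hz => (tames_chart x₀ (hNt hz.1)).1 (hηO _ (hO₁O hz.2))
  have hTc : ContinuousOn (pb (chartAt (E d) x₀).symm (θ + ε • η))
      (N ∩ (chartAt (E d) x₀).symm ⁻¹' O₁ᶜ) := by
    have h1 := (smoothOff_chart hS hθ x₀).mono
      (show N ∩ (chartAt (E d) x₀).symm ⁻¹' O₁ᶜ ⊆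
        (chartAt (E d) x₀).target ∩ (chartAt (E d) x₀).symm ⁻¹' Sᶜ from
        fun z hz => ⟨hNt hz.1, hY₂S hz.2⟩)
    have h2 : ContinuousOn (fun z => ε • pb (chartAt (E d) x₀).symm η z)
        (N ∩ (chartAt (E d) x₀).symm ⁻¹' O₁ᶜ) := (hηN.mono inter_subset_left).const_smul ε
    exact h1.add h2
  obtain ⟨m₂, hm₂, hm₂'⟩ := loc_bd hN₂ hTc (hJN.mono inter_subset_left)
    fun z hz => (tames_chart x₀ (hNt hz.1)).1 (hTpos₂ _ hz.2)
  refine ⟨min (ε * m₁) m₂, by positivity, C', ?_⟩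
  have hae : ∀ᵐ z ∂(volume.restrict N), (chartAt (E d) x₀).symm z ∉ S := by
    refine (ae_restrict_iff' hN.measurableSet).2 ?_
    refine measure_mono_null ?_ (null_chart hd hS0 x₀)
    intro z hz
    have hz' : ¬ (z ∈ N → (chartAt (E d) x₀).symm z ∉ S) := hz
    push Not at hz'
    exact ⟨(chartAt (E d) x₀).symm z, ⟨hz'.2, (chartAt (E d) x₀).map_target (hNt hz'.1)⟩,
      (chartAt (E d) x₀).right_inv (hNt hz'.1)⟩
  filter_upwards [hae, ae_restrict_mem hN.measurableSet] with z hzS hzN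
  refine ⟨fun u => ?_, (dst_iff x₀ (hNt hzN)).1 (hC' _ hzS)⟩
  by_cases h : (chartAt (E d) x₀).symm z ∈ O₁
  · have h1 := hm₁' z ⟨hzN, subset_closure h⟩ u
    have h2 : 0 ≤ pb (chartAt (E d) x₀).symm θ z ![u, inChart J x₀ z u] := by
      have h3 := Pool.Agent.Y455.SY.Q_eq θ J x₀ (hNt hzN) u
      have h4 := nonneg_of_tames (hpos _ hzS) (Pool.Agent.Y455.SY.A x₀ z u)
      exact h4.trans_eq h3.symm
    rw [hpbT]
    show min (ε * m₁) m₂ * ‖u‖ ^ 2 ≤
      pb (chartAt (E d) x₀).symm θ z ![u, inChart J x₀ z u] +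
        ε * pb (chartAt (E d) x₀).symm η z ![u, inChart J x₀ z u]
    have h5 : min (ε * m₁) m₂ * ‖u‖ ^ 2 ≤ (ε * m₁) * ‖u‖ ^ 2 :=
      mul_le_mul_of_nonneg_right (min_le_left _ _) (by positivity)
    have h6 : ε * (m₁ * ‖u‖ ^ 2) ≤
        ε * pb (chartAt (E d) x₀).symm η z ![u, inChart J x₀ z u] :=
      mul_le_mul_of_nonneg_left h1 hε.le
    linarith
  · have h1 := hm₂' z ⟨hzN, h⟩ u
    refine le_trans ?_ h1
    exact mul_le_mul_of_nonneg_right (min_le_right _ _) (by positivity)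

end Pool.Agent.H819.PU
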