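import Mathlib
import Pool.Agent.H819.PU.Off
import Pool.Agent.H819.LN.Fin

/-!
# Forms on the complement of a closed set: elementary properties
-/

set_option autoImplicit false

open Set Filter Topology MeasureTheory Metric
open scoped Manifold ContDiff ENNReal NNReal

noncomputable section

namespace Pool.Agent.H819.PU

open Pool.Agent.Y501.SY
open Pool.Agent.H819
open Pool.Agent.H819.DR (L1Closed locInt_add locInt_neg int_test fd_cont' fd_zero)
open Pool.Agent.H819.LN (WeakClosed ZeroLelong ms)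

variable {d : ℕ} {X : Type} [TopologicalSpace X] [ChartedSpace (E d) X]

theorem IsSmooth.off {k : ℕ} {σ : Form d X k} (h : IsSmooth σ) (S : Set X) : SmoothOff S σ :=
  fun U φ hU hφ _ => h U φ hU hφ

theorem IsD.off {k : ℕ} {α : Form d X k} {η : Form d X (k + 1)} (h : IsD α η) (S : Set X) :
    DOff S α η := fun U φ hU hφ _ => h U φ hU hφ

theorem SmoothOff.add {k : ℕ} {S : Set X} {σ τ : Form d X k} (h : SmoothOff S σ)
    (h' : SmoothOff S τ) : SmoothOff S (σ + τ) := by
  intro U φ hU hφ hS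
  rw [pb_add]
  exact (h U φ hU hφ hS).add (h' U φ hU hφ hS)

theorem SmoothOff.smul {k : ℕ} {S : Set X} {σ : Form d X k} (h : SmoothOff S σ) (c : ℝ) :
    SmoothOff S (c • σ) := by
  intro U φ hU hφ hS
  rw [pb_smul]
  exact contDiffOn_const.smul (h U φ hU hφ hS)

theorem SmoothOff.sub {k : ℕ} {S : Set X} {σ τ : Form d X k} (h : SmoothOff S σ)
    (h' : SmoothOff S τ) : SmoothOff S (σ - τ) := by
  have e : σ - τ = σ + (-1 : ℝ) • τ := by
    funext x
    refine ContinuousAlternatingMap.ext fun v => ?_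
    show σ x v - τ x v = σ x v + (-1 : ℝ) * τ x v
    ring
  rw [e]
  exact h.add (h'.smul (-1))

theorem SmoothOff.diffAt {k : ℕ} {S : Set X} {σ : Form d X k} (hσ : SmoothOff S σ) {U : Set (E d)}
    {φ : E d → X} (hU : IsOpen U) (hφ : ContMDiffOn (𝓡 d) (𝓡 d) ∞ φ U) (hS : ∀ p ∈ U, φ p ∉ S)
    {p : E d} (hp : p ∈ U) : DifferentiableAt ℝ (pb φ σ) p :=
  ((hσ U φ hU hφ hS).contDiffAt (hU.mem_nhds hp)).differentiableAt (by simp)

theorem DOff.add {k : ℕ} {S : Set X} {α β : Form d X k} {η ζ : Form d X (k + 1)} (hα : DOff S α η)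
    (hβ : DOff S β ζ) (sα : SmoothOff S α) (sβ : SmoothOff S β) : DOff S (α + β) (η + ζ) := by
  intro U φ hU hφ hS p hp
  rw [pb_add, pb_add, extDeriv_add (sα.diffAt hU hφ hS hp) (sβ.diffAt hU hφ hS hp),
    hα U φ hU hφ hS p hp, hβ U φ hU hφ hS p hp]
  rfl

theorem DOff.smul {k : ℕ} {S : Set X} {α : Form d X k} {η : Form d X (k + 1)} (hα : DOff S α η)
    (c : ℝ) : DOff S (c • α) (c • η) := by
  intro U φ hU hφ hS p hp
  rw [pb_smul, pb_smul, extDeriv_smul, hα U φ hU hφ hS p hp]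
  rfl

theorem ClosedOff.add {k : ℕ} {S : Set X} {σ τ : Form d X k} (h : ClosedOff S σ)
    (h' : ClosedOff S τ) (sσ : SmoothOff S σ) (sτ : SmoothOff S τ) : ClosedOff S (σ + τ) := by
  intro U φ hU hφ hS p hp
  rw [pb_add, extDeriv_add (sσ.diffAt hU hφ hS hp) (sτ.diffAt hU hφ hS hp),
    h U φ hU hφ hS p hp, h' U φ hU hφ hS p hp, add_zero]

theorem ClosedOff.smul {k : ℕ} {S : Set X} {σ : Form d X k} (h : ClosedOff S σ) (c : ℝ) :
    ClosedOff S (c • σ) := by
  intro U φ hU hφ hS p hp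
  rw [pb_smul, extDeriv_smul, h U φ hU hφ hS p hp, smul_zero]

theorem IsClosedForm.off {k : ℕ} {σ : Form d X k} (h : IsClosedForm σ) (S : Set X) :
    ClosedOff S σ := fun U φ hU hφ _ p hp => by
  rw [h U φ hU hφ p hp]
  rfl

/-- exact forms are closed -/
theorem DOff.closed {S : Set X} {α : Form d X 1} {η : Form d X 2} (h : DOff S α η)
    (hα : SmoothOff S α) : ClosedOff S η := by
  intro U φ hU hφ hS p hp
  have h1 : pb φ η =ᶠ[𝓝 p] extDeriv (pb φ α) := by
    filter_upwards [hU.mem_nhds hp] with q hq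
    exact (h U φ hU hφ hS q hq).symm
  rw [Filter.EventuallyEq.extDeriv_eq h1]
  exact extDeriv_extDeriv_apply (r := ∞) ((hα U φ hU hφ hS).contDiffAt (hU.mem_nhds hp)) LG.smooth2

variable [IsManifold (𝓡 d) ∞ X]

/-- the chart, off `S` -/
theorem SmoothOff.chartAt {k : ℕ} {S : Set X} (hS : IsClosed S) {σ : Form d X k}
    (h : SmoothOff S σ) (x₀ : X) {z : E d} (hz : z ∈ (chartAt (E d) x₀).target)
    (hzS : (chartAt (E d) x₀).symm z ∉ S) : DR.SmAt x₀ σ z := by
  have ho : IsOpen ((ChartedSpace.chartAt (H := E d) x₀).target ∩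
      (ChartedSpace.chartAt (H := E d) x₀).symm ⁻¹' Sᶜ) :=
    (ChartedSpace.chartAt (H := E d) x₀).isOpen_inter_preimage_symm hS.isOpen_compl
  have h1 := h _ _ ho ((contMDiffOn_chart_symm (x := x₀) (I := 𝓡 d) (n := ∞)).mono
    inter_subset_left) (fun p hp => hp.2)
  filter_upwards [ho.mem_nhds ⟨hz, hzS⟩] with y hy
  exact h1.contDiffAt (ho.mem_nhds hy)

/-- smooth forms have zero Lelong numbers -/
theorem zeroLelong_of_smAt (hd : 3 ≤ d) {θ : Form d X 2} {p : X}
    (h : DR.SmAt p θ (ChartedSpace.chartAt (H := E d) p p)) : ZeroLelong θ p := by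
  set c := ChartedSpace.chartAt (H := E d) p p with hc
  set T := pb (ChartedSpace.chartAt (H := E d) p).symm θ with hT
  have h1 : ContinuousAt T c := (h.self_of_nhds).continuousAt
  have h2 : ∀ᶠ z in 𝓝 c, ‖T z‖ < ‖T c‖ + 1 := by
    have h3 : Tendsto (fun z => ‖T z‖) (𝓝 c) (𝓝 ‖T c‖) := h1.norm
    exact h3.eventually (gt_mem_nhds (by linarith))
  obtain ⟨s, hs, hsB⟩ := Metric.nhds_basis_closedBall.mem_iff.1 h2
  set M := ‖T c‖ + 1 with hM
  have hM0 : 0 < M := by positivity
  set κ : ℝ := (volume (closedBall (0 : E d) 1)).toReal with hκ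
  have hκ0 : 0 ≤ κ := ENNReal.toReal_nonneg
  have hfin : volume (closedBall (0 : E d) 1) ≠ ⊤ := (isCompact_closedBall _ _).measure_ne_top
  intro ε hε r₀ hr₀
  have hden : 0 < M * κ + 1 := by positivity
  set r := min (min (s / 2) (r₀ / 2)) (min (ε / (M * κ + 1)) 1 / 2) with hr
  have hrpos : 0 < r := by positivity
  have hr1 : r ≤ s / 2 := (min_le_left _ _).trans (min_le_left _ _)
  have hr2 : r ≤ r₀ / 2 := (min_le_left _ _).trans (min_le_right _ _)
  have hr3 : r ≤ ε / (M * κ + 1) := by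
    have h4 : r ≤ min (ε / (M * κ + 1)) 1 / 2 := min_le_right _ _
    have h5 : min (ε / (M * κ + 1)) 1 ≤ ε / (M * κ + 1) := min_le_left _ _
    have h6 : 0 < min (ε / (M * κ + 1)) 1 := by positivity
    linarith
  have hr4 : r ≤ 1 := by
    have h4 : r ≤ min (ε / (M * κ + 1)) 1 / 2 := min_le_right _ _
    have h5 : min (ε / (M * κ + 1)) 1 ≤ 1 := min_le_right _ _
    linarith
  refine ⟨r, hrpos, by linarith, ?_⟩
  unfold ms
  calc ∫⁻ z' in closedBall c r, ‖T z'‖ₑ ≤ ∫⁻ _ in closedBall c r, ENNReal.ofReal M := by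
        refine setLIntegral_mono measurable_const fun z' hz' => ?_
        rw [← ofReal_norm]
        refine ENNReal.ofReal_le_ofReal ?_
        have h4 : z' ∈ closedBall c s := closedBall_subset_closedBall (by linarith) hz'
        exact (hsB h4).le
    _ = ENNReal.ofReal M * volume (closedBall c r) := by
        rw [setLIntegral_const]
    _ = ENNReal.ofReal M * (ENNReal.ofReal (r ^ d) * volume (closedBall (0 : E d) 1)) := by
        rw [Measure.addHaar_closedBall' volume c hrpos.le]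
        simp
    _ = ENNReal.ofReal (M * (r ^ d * κ)) := by
        rw [ENNReal.ofReal_mul hM0.le, ENNReal.ofReal_mul (by positivity), hκ,
          ENNReal.ofReal_toReal hfin]
    _ ≤ ENNReal.ofReal (ε * r ^ (d - 2)) := by
        refine ENNReal.ofReal_le_ofReal ?_
        have e1 : r ^ d = r ^ (d - 2) * r ^ 2 := by
          rw [← pow_add]
          congr 1
          omega
        rw [e1]
        have h5 : M * κ * r ≤ ε := by
          have h6 : (M * κ + 1) * r ≤ ε := by
            have := mul_le_mul_of_nonneg_left hr3 hden.le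
            rwa [mul_div_cancel₀ _ hden.ne'] at this
          nlinarith
        have h7 : M * κ * r ^ 2 ≤ ε := by
          have h8 : M * κ * r ^ 2 ≤ M * κ * r := by
            have h9 : r ^ 2 ≤ r := by nlinarith
            exact mul_le_mul_of_nonneg_left h9 (by positivity)
          linarith
        have h10 : 0 ≤ r ^ (d - 2) := by positivity
        calc M * (r ^ (d - 2) * r ^ 2 * κ) = (M * κ * r ^ 2) * r ^ (d - 2) := by ring
          _ ≤ ε * r ^ (d - 2) := mul_le_mul_of_nonneg_right h7 h10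

omit [IsManifold (𝓡 d) ∞ X] in
theorem weakClosed_add {U : Set (E d)} {θ τ : E d → (E d) [⋀^Fin 2]→L[ℝ] ℝ}
    (hθ : LocallyIntegrableOn θ U) (hτ : LocallyIntegrableOn τ U) (h : WeakClosed U θ)
    (h' : WeakClosed U τ) (c : ℝ) : WeakClosed U (fun z => θ z + c • τ z) := by
  intro φ hφ hc ht a b e
  have e1 := h φ hφ hc ht a b e
  have e2 := h' φ hφ hc ht a b e
  have i : ∀ {γ : E d → (E d) [⋀^Fin 2]→L[ℝ] ℝ}, LocallyIntegrableOn γ U →
      Integrable (fun z => γ z ![b, e] * fderiv ℝ φ z a + γ z ![e, a] * fderiv ℝ φ z b +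
        γ z ![a, b] * fderiv ℝ φ z e) := fun hγ =>
    ((int_test hγ (fd_cont' hφ a) hc ht fd_zero _).add
      (int_test hγ (fd_cont' hφ b) hc ht fd_zero _)).add
      (int_test hγ (fd_cont' hφ e) hc ht fd_zero _)
  have e3 : ∫ z, ((θ z ![b, e] * fderiv ℝ φ z a + θ z ![e, a] * fderiv ℝ φ z b +
      θ z ![a, b] * fderiv ℝ φ z e) + c * (τ z ![b, e] * fderiv ℝ φ z a +
      τ z ![e, a] * fderiv ℝ φ z b + τ z ![a, b] * fderiv ℝ φ z e)) = 0 := by
    rw [integral_add (i hθ) ((i hτ).const_mul c), integral_const_mul, e1, e2]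
    ring
  rw [← e3]
  refine integral_congr_ae (Eventually.of_forall fun z => ?_)
  show (θ z ![b, e] + c * τ z ![b, e]) * _ + (θ z ![e, a] + c * τ z ![e, a]) * _ +
    (θ z ![a, b] + c * τ z ![a, b]) * _ = _
  ring

theorem l1Closed_of_smooth {σ : Form d X 2} (h : IsSmooth σ) (hc : IsClosedForm σ) :
    L1Closed σ := by
  refine ⟨fun x₀ => (LG.smooth_chart h x₀).continuousOn.locallyIntegrableOn
      (ChartedSpace.chartAt (H := E d) x₀).open_target.measurableSet, fun x₀ => ?_⟩
  exact LN.smooth_part (ChartedSpace.chartAt (H := E d) x₀).open_target (LG.smooth_chart h x₀)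
    (LG.closed_chart hc x₀)

theorem L1Closed.add_smul {θ τ : Form d X 2} (h : L1Closed θ) (h' : L1Closed τ) (c : ℝ) :
    L1Closed (θ + c • τ) := by
  refine ⟨fun x₀ => ?_, fun x₀ => weakClosed_add (h.int x₀) (h'.int x₀) (h.closed x₀)
    (h'.closed x₀) c⟩
  have h1 : LocallyIntegrableOn (fun z => c • pb (ChartedSpace.chartAt (H := E d) x₀).symm τ z)
      (ChartedSpace.chartAt (H := E d) x₀).target := (h'.int x₀).smul c
  exact locInt_add (h.int x₀) h1

end Pool.Agent.H819.PU
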