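import Mathlib

/-!
# The complex structure of a skew isomorphism
-/

set_option autoImplicit false

open Set Filter Topology MeasureTheory Metric
open scoped ContDiff ENNReal NNReal

noncomputable section

namespace Pool.Agent.H819.PU

namespace PolarAux

/-- spectral theorem for the inner product `g` -/
theorem eigb {V : Type} [AddCommGroup V] [Module ℝ V] [FiniteDimensional ℝ V]
    (g : V → V → ℝ) (hadd : ∀ u v w, g (u + v) w = g u w + g v w)
    (hsm : ∀ (r : ℝ) u v, g (r • u) v = r * g u v)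
    (symm : ∀ u v, g u v = g v u) (pos : ∀ v, v ≠ 0 → 0 < g v v)
    (P : V →ₗ[ℝ] V) (hP : ∀ u v, g (P u) v = g u (P v)) :
    ∃ (b : Module.Basis (Fin (Module.finrank ℝ V)) ℝ V) (l : Fin (Module.finrank ℝ V) → ℝ),
      (∀ i, P (b i) = l i • b i) ∧ ∀ i j, g (b i) (b j) = if i = j then 1 else 0 := by
  have h0 : g 0 0 = 0 := by
    have := hsm 0 0 0
    rwa [zero_smul, zero_mul] at this
  let core : InnerProductSpace.Core ℝ V :=
    { inner := g
      conj_inner_symm := fun x y => by
        simp only [conj_trivial]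
        exact symm y x
      re_inner_nonneg := fun x => by
        simp only [RCLike.re_to_real]
        by_cases h : x = 0
        · rw [h]; exact h0.ge
        · exact (pos x h).le
      add_left := hadd
      smul_left := fun x y r => by
        simp only [conj_trivial]
        exact hsm r x y
      definite := fun x hx => by
        by_contra h
        exact (pos x h).ne' hx }
  let i1 : NormedAddCommGroup V := core.toNormedAddCommGroup
  let i2 : InnerProductSpace ℝ V := InnerProductSpace.ofCore core.toCore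
  have hPs : P.IsSymmetric := fun u v => hP u v
  refine ⟨(hPs.eigenvectorBasis rfl).toBasis, hPs.eigenvalues rfl, fun i => ?_, fun i j => ?_⟩
  · rw [OrthonormalBasis.coe_toBasis]
    exact hPs.apply_eigenvectorBasis rfl i
  · rw [OrthonormalBasis.coe_toBasis]
    exact orthonormal_iff_ite.1 (hPs.eigenvectorBasis rfl).orthonormal i j

/-- the elementary integral -/
theorem int_val (l : ℝ) (hl : 0 < l) :
    ∫ t in Icc (0 : ℝ) (Real.pi / 2), (Real.sin t ^ 2 + l * Real.cos t ^ 2)⁻¹ =
      Real.pi / (2 * √l) := by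
  have hs : 0 < √l := Real.sqrt_pos.2 hl
  have hsl : √l ^ 2 = l := Real.sq_sqrt hl.le
  set k : ℝ := (√l)⁻¹ with hk
  have hk0 : 0 < k := inv_pos.2 hs
  have hpi : (0 : ℝ) ≤ Real.pi / 2 := by positivity
  have hD : ∀ t : ℝ, 0 < Real.cos t ^ 2 + k * Real.sin t ^ 2 := by
    intro t
    have h1 := Real.sin_sq_add_cos_sq t
    by_cases h : Real.cos t = 0
    · have : Real.sin t ^ 2 = 1 := by rw [h] at h1; linarith
      rw [h, this]; simp [hk0]
    · have : 0 < Real.cos t ^ 2 := by positivity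
      have : 0 ≤ k * Real.sin t ^ 2 := by positivity
      linarith
  have hE : ∀ t : ℝ, 0 < Real.sin t ^ 2 + l * Real.cos t ^ 2 := by
    intro t
    have h1 := Real.sin_sq_add_cos_sq t
    by_cases h : Real.sin t = 0
    · have : Real.cos t ^ 2 = 1 := by rw [h] at h1; linarith
      rw [h, this]; simp [hl]
    · have : 0 < Real.sin t ^ 2 := by positivity
      have : 0 ≤ l * Real.cos t ^ 2 := by positivity
      linarith
  rw [integral_Icc_eq_integral_Ioc, ← intervalIntegral.integral_of_le hpi]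
  have hder : ∀ t ∈ uIcc (0 : ℝ) (Real.pi / 2), HasDerivAt (fun t => k * (t + Real.arctan
      (((k - 1) * (Real.sin t * Real.cos t)) / (Real.cos t ^ 2 + k * Real.sin t ^ 2))))
      ((Real.sin t ^ 2 + l * Real.cos t ^ 2)⁻¹) t := by
    intro t _
    have d1 : HasDerivAt (fun t => (k - 1) * (Real.sin t * Real.cos t))
        ((k - 1) * (Real.cos t * Real.cos t + Real.sin t * (-Real.sin t))) t :=
      ((Real.hasDerivAt_sin t).mul (Real.hasDerivAt_cos t)).const_mul _
    have d2 : HasDerivAt (fun t => Real.cos t ^ 2 + k * Real.sin t ^ 2)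
        (2 * Real.cos t * (-Real.sin t) + k * (2 * Real.sin t * Real.cos t)) t := by
      have e1 := (Real.hasDerivAt_cos t).pow 2
      have e2 := (Real.hasDerivAt_sin t).pow 2
      refine (e1.add (e2.const_mul k)).congr_deriv ?_
      norm_num
    have d3 : HasDerivAt (fun t => ((k - 1) * (Real.sin t * Real.cos t)) /
        (Real.cos t ^ 2 + k * Real.sin t ^ 2))
        ((((k - 1) * (Real.cos t * Real.cos t + Real.sin t * (-Real.sin t))) *
          (Real.cos t ^ 2 + k * Real.sin t ^ 2) - ((k - 1) * (Real.sin t * Real.cos t)) *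
          (2 * Real.cos t * (-Real.sin t) + k * (2 * Real.sin t * Real.cos t))) /
          (Real.cos t ^ 2 + k * Real.sin t ^ 2) ^ 2) t := d1.div d2 (hD t).ne'
    have d4 := ((hasDerivAt_id t).add d3.arctan).const_mul k
    refine d4.congr_deriv ?_
    have h1 := Real.sin_sq_add_cos_sq t
    have hc : Real.cos t ^ 2 = 1 - Real.sin t ^ 2 := by linarith
    have hkl : l = 1 / k ^ 2 := by
      rw [hk, ← hsl]; simp
    have hE' := (hE t).ne'
    have hD' := (hD t).ne'
    set s := Real.sin t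
    set c := Real.cos t
    have hF : (c ^ 2 + k * s ^ 2) ^ 2 + ((k - 1) * (s * c)) ^ 2 = c ^ 2 + k ^ 2 * s ^ 2 := by
      have : (c ^ 2 + k * s ^ 2) ^ 2 + ((k - 1) * (s * c)) ^ 2 =
        (s ^ 2 + c ^ 2) * (c ^ 2 + k ^ 2 * s ^ 2) := by ring
      rw [this, h1, one_mul]
    have hF0 : c ^ 2 + k ^ 2 * s ^ 2 ≠ 0 := by
      have h2 : s ^ 2 + l * c ^ 2 = (c ^ 2 + k ^ 2 * s ^ 2) / k ^ 2 := by
        rw [hkl]; field_simp; ring
      intro h
      rw [h2, h, zero_div] at hE'
      exact hE' rfl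
    have e3 : 1 + (((k - 1) * (s * c)) / (c ^ 2 + k * s ^ 2)) ^ 2 =
        (c ^ 2 + k ^ 2 * s ^ 2) / (c ^ 2 + k * s ^ 2) ^ 2 := by
      rw [← hF]; field_simp
    rw [e3, hkl]
    have hk0' := hk0.ne'
    have h5 : s ^ 2 + 1 / k ^ 2 * c ^ 2 = (c ^ 2 + k ^ 2 * s ^ 2) / k ^ 2 := by
      field_simp; ring
    rw [h5]
    field_simp
    have hs4 : c ^ 4 = (1 - s ^ 2) ^ 2 := by rw [← hc]; ring
    ring_nf
    rw [hs4, hc]
    ring
  have hint : IntervalIntegrable (fun t => (Real.sin t ^ 2 + l * Real.cos t ^ 2)⁻¹) volume 0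
      (Real.pi / 2) := by
    apply Continuous.intervalIntegrable
    exact Continuous.inv₀ (by fun_prop) fun t => (hE t).ne'
  rw [intervalIntegral.integral_eq_sub_of_hasDerivAt hder hint]
  simp only [Real.sin_zero, Real.cos_pi_div_two, mul_zero, zero_mul, zero_div, Real.arctan_zero,
    add_zero, sub_zero]
  rw [hk]
  field_simp


end PolarAux

variable {V : Type} [NormedAddCommGroup V] [NormedSpace ℝ V] [FiniteDimensional ℝ V]

/-- the map `(2 / π) ∫_0^{π/2} (sin² t - cos² t A²)⁻¹ dt ∘ A` -/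
def sgn (A : V →L[ℝ] V) : V →L[ℝ] V :=
  ((2 / Real.pi) • ∫ t in Icc (0 : ℝ) (Real.pi / 2),
    Ring.inverse ((Real.sin t ^ 2) • (1 : V →L[ℝ] V) - (Real.cos t ^ 2) • (A * A))) * A

/-- `A` is injective and skew for the inner product `g`. -/
structure SkewFor (g : V →L[ℝ] V →L[ℝ] ℝ) (A : V →L[ℝ] V) : Prop where
  symm : ∀ u v, g u v = g v u
  pos : ∀ v, v ≠ 0 → 0 < g v v
  skew : ∀ u v, g (A u) v = - g u (A v)
  inj : ∀ v, A v = 0 → v = 0

namespace PolarAux

/-- the integrand -/
def Bt (A : V →L[ℝ] V) (t : ℝ) : V →L[ℝ] V :=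
  (Real.sin t ^ 2) • (1 : V →L[ℝ] V) - (Real.cos t ^ 2) • (A * A)

theorem Bt_cont (A : V →L[ℝ] V) : Continuous (Bt A) := by
  unfold Bt
  fun_prop

theorem Bt_pos {g : V →L[ℝ] V →L[ℝ] ℝ} {A : V →L[ℝ] V} (h : SkewFor g A) (t : ℝ) (v : V)
    (hv : v ≠ 0) : 0 < g (Bt A t v) v := by
  have h1 : g (Bt A t v) v = Real.sin t ^ 2 * g v v + Real.cos t ^ 2 * g (A v) (A v) := by
    have h2 : g (A (A v)) v = - g (A v) (A v) := h.skew _ _
    have h3 : Bt A t v = (Real.sin t ^ 2) • v - (Real.cos t ^ 2) • (A (A v)) := rfl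
    rw [h3, map_sub, map_smul, map_smul]
    show Real.sin t ^ 2 * g v v - Real.cos t ^ 2 * g (A (A v)) v = _
    rw [h2]
    ring
  rw [h1]
  have h3 := h.pos v hv
  have h4 : A v ≠ 0 := fun e => hv (h.inj v e)
  have h5 := h.pos _ h4
  have h6 := Real.sin_sq_add_cos_sq t
  by_cases hc : Real.cos t = 0
  · have : Real.sin t ^ 2 = 1 := by rw [hc] at h6; linarith
    rw [hc, this]; simp [h3]
  · have : 0 < Real.cos t ^ 2 := by positivity
    have h7 : 0 < Real.cos t ^ 2 * g (A v) (A v) := mul_pos this h5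
    have h8 : 0 ≤ Real.sin t ^ 2 * g v v := by positivity
    linarith

theorem isUnit_of_inj (B : V →L[ℝ] V) (h : ∀ v, B v = 0 → v = 0) : IsUnit B := by
  have hinj : Function.Injective (B : V →ₗ[ℝ] V) := by
    rw [← LinearMap.ker_eq_bot, LinearMap.ker_eq_bot']
    exact h
  have hcomp : CompleteSpace V := FiniteDimensional.complete ℝ V
  rw [ContinuousLinearMap.isUnit_iff_bijective]
  exact ⟨hinj, LinearMap.injective_iff_surjective.1 hinj⟩

theorem Bt_unit {g : V →L[ℝ] V →L[ℝ] ℝ} {A : V →L[ℝ] V} (h : SkewFor g A) (t : ℝ) :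
    IsUnit (Bt A t) := by
  refine isUnit_of_inj _ fun v hv => ?_
  by_contra hne
  have h1 := Bt_pos h t v hne
  rw [hv, map_zero] at h1
  simp at h1

theorem inv_cont {g : V →L[ℝ] V →L[ℝ] ℝ} {A : V →L[ℝ] V} (h : SkewFor g A) :
    Continuous fun t => Ring.inverse (Bt A t) := by
  have hcomp : CompleteSpace V := FiniteDimensional.complete ℝ V
  rw [continuous_iff_continuousAt]
  intro t
  obtain ⟨u, hu⟩ := Bt_unit h t
  have h1 : ContinuousAt Ring.inverse (Bt A t) := by
    rw [← hu]
    exact NormedRing.inverse_continuousAt u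
  exact ContinuousAt.comp (f := Bt A) h1 (Bt_cont A).continuousAt

theorem inv_int {g : V →L[ℝ] V →L[ℝ] ℝ} {A : V →L[ℝ] V} (h : SkewFor g A) :
    IntegrableOn (fun t => Ring.inverse (Bt A t)) (Icc (0 : ℝ) (Real.pi / 2)) :=
  (inv_cont h).integrableOn_Icc

/-- the operator `Q` -/
def Qo (A : V →L[ℝ] V) : V →L[ℝ] V :=
  (2 / Real.pi) • ∫ t in Icc (0 : ℝ) (Real.pi / 2), Ring.inverse (Bt A t)

theorem Qo_comm {g : V →L[ℝ] V →L[ℝ] ℝ} {A : V →L[ℝ] V} (h : SkewFor g A) :
    Qo A * A = A * Qo A := by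
  have hcomp : CompleteSpace V := FiniteDimensional.complete ℝ V
  have h1 : ∀ t, Ring.inverse (Bt A t) * A = A * Ring.inverse (Bt A t) := by
    intro t
    have hu := Bt_unit h t
    have h2 : Bt A t * A = A * Bt A t := by
      simp only [Bt, sub_mul, mul_sub, smul_mul_assoc, mul_smul_comm, one_mul, mul_one, mul_assoc]
    calc Ring.inverse (Bt A t) * A = Ring.inverse (Bt A t) * (A * Bt A t) *
          Ring.inverse (Bt A t) := by
          rw [mul_assoc, mul_assoc, Ring.mul_inverse_cancel _ hu, mul_one]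
      _ = Ring.inverse (Bt A t) * (Bt A t * A) * Ring.inverse (Bt A t) := by rw [h2]
      _ = A * Ring.inverse (Bt A t) := by
          rw [← mul_assoc, Ring.inverse_mul_cancel _ hu, one_mul]
  unfold Qo
  rw [smul_mul_assoc, mul_smul_comm]
  congr 1
  rw [← integral_mul_const_of_integrable (inv_int h), ← integral_const_mul_of_integrable (inv_int h)]
  exact integral_congr_ae (Eventually.of_forall fun t => h1 t)

theorem Qo_eig {g : V →L[ℝ] V →L[ℝ] ℝ} {A : V →L[ℝ] V} (h : SkewFor g A) (b : V) (l : ℝ)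
    (hl : 0 < l) (hb : A (A b) = -(l • b)) : Qo A b = (√l)⁻¹ • b := by
  have hcomp : CompleteSpace V := FiniteDimensional.complete ℝ V
  have h1 : ∀ t, Ring.inverse (Bt A t) b = (Real.sin t ^ 2 + l * Real.cos t ^ 2)⁻¹ • b := by
    intro t
    have h2 : Bt A t b = (Real.sin t ^ 2 + l * Real.cos t ^ 2) • b := by
      have h3 : Bt A t b = (Real.sin t ^ 2) • b - (Real.cos t ^ 2) • (A (A b)) := rfl
      rw [h3, hb]
      module
    have h3 : Ring.inverse (Bt A t) (Bt A t b) = b := by
      have := congrArg (fun C : V →L[ℝ] V => C b) (Ring.inverse_mul_cancel _ (Bt_unit h t))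
      exact this
    have h4 : Real.sin t ^ 2 + l * Real.cos t ^ 2 ≠ 0 := by
      have h6 := Real.sin_sq_add_cos_sq t
      by_cases hc : Real.cos t = 0
      · have : Real.sin t ^ 2 = 1 := by rw [hc] at h6; linarith
        rw [hc, this]; simp
      · have : 0 < Real.cos t ^ 2 := by positivity
        positivity
    rw [h2, map_smul] at h3
    rw [eq_inv_smul_iff₀ h4]
    exact h3
  unfold Qo
  rw [ContinuousLinearMap.smul_apply, ContinuousLinearMap.integral_apply (inv_int h)]
  simp only [h1]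
  rw [integral_smul_const, int_val l hl, smul_smul]
  congr 1
  have := Real.pi_pos
  have : 0 < √l := Real.sqrt_pos.2 hl
  field_simp

end PolarAux

open PolarAux in
/-- **Polar decomposition.**

Proof.  `P = - A * A` is symmetric for `g` and positive: `g (P v) v = g (A v) (A v) > 0`.  So there is
a basis `b i` of `V`, orthonormal for `g`, with `P (b i) = l i • b i`, `l i > 0` (spectral theorem,
`LinearMap.IsSymmetric.eigenvectorBasis` for the inner product space structure given by `g` on a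
copy of `V`, or transport to `EuclideanSpace` by a `g`-orthonormal basis).  For all `t` the map
`B t = sin² t • 1 + cos² t • P` is invertible, `B t (b i) = (sin² t + l i cos² t) • b i`, and
`t ↦ Ring.inverse (B t)` is continuous on `[0, π/2]`.  Hence `Q = (2 / π) ∫ (B t)⁻¹` satisfies
`Q (b i) = ((2 / π) ∫_0^{π/2} dt / (sin² t + l i cos² t)) • b i = (l i) ^ (-1/2) • b i`
(for `l > 0`: on `[0, π/2)` the function `t ↦ arctan (tan t / √l) / √l` is a primitive of
`1 / (sin² t + l cos² t)`, with limit `π / (2 √l)` at `π / 2`; e.g.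
`intervalIntegral.integral_eq_sub_of_hasDerivAt_of_tendsto`, or the primitive
`-arctan (√l cos t / sin t) / √l` near `π/2`).  So `Q * Q * P = 1`, `Q` commutes with `A` (each
`B t` does), `Q` is symmetric and positive for `g`.  `sgn A = Q * A`:
`sgn A * sgn A = Q * Q * A * A = - Q * Q * P = -1`; `g (A v) (Q (A v)) > 0` for `A v ≠ 0`;
`g (A (Q (A u))) (Q (A v)) = g (Q (A (A u))) (Q (A v)) = g (Q (Q (A (A u)))) (A v) = - g u (A v) =
g (A u) v`. -/
theorem sgn_props {g : V →L[ℝ] V →L[ℝ] ℝ} {A : V →L[ℝ] V} (h : SkewFor g A) :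
    (∀ v, sgn A (sgn A v) = -v) ∧ (∀ v, v ≠ 0 → 0 < g (A v) (sgn A v)) ∧
      ∀ u v, g (A (sgn A u)) (sgn A v) = g (A u) v := by
  obtain ⟨b, l, hb, ho⟩ := eigb (fun u v => g u v) (fun u v w => by simp) (fun r u v => by simp)
    h.symm h.pos ((-(A * A) : V →L[ℝ] V) : V →ₗ[ℝ] V) (fun u v => by
      show g (-(A (A u))) v = g u (-(A (A v)))
      rw [map_neg, map_neg, ContinuousLinearMap.neg_apply, h.skew, h.skew, neg_neg])
  have hb' : ∀ i, A (A (b i)) = -(l i • b i) := by
    intro i
    have := hb i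
    have h2 : -(A (A (b i))) = l i • b i := this
    rw [← h2, neg_neg]
  have hl : ∀ i, 0 < l i := by
    intro i
    have hne : A (b i) ≠ 0 := fun e => b.ne_zero i (h.inj _ e)
    have h1 := h.pos _ hne
    have h2 : g (A (b i)) (A (b i)) = - g (A (A (b i))) (b i) := by
      rw [h.skew (A (b i)) (b i)]; ring
    have h3 : g (b i) (b i) = 1 := by have := ho i i; simpa using this
    rw [h2, hb', map_neg, ContinuousLinearMap.neg_apply, map_smul, ContinuousLinearMap.smul_apply,
      h3] at h1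
    simpa using h1
  have hQ : ∀ i, Qo A (b i) = (√(l i))⁻¹ • b i := fun i => Qo_eig h (b i) (l i) (hl i) (hb' i)
  have hsg : ∀ v, sgn A v = Qo A (A v) := fun v => rfl
  have hcm : ∀ v, Qo A (A v) = A (Qo A v) := fun v => by
    have := congrArg (fun C : V →L[ℝ] V => C v) (Qo_comm h)
    exact this
  have hQ2 : ∀ v, Qo A (Qo A (A (A v))) = -v := by
    have h1 : (Qo A * Qo A * A * A : V →L[ℝ] V) = -1 := by
      apply ContinuousLinearMap.coe_injective
      refine b.ext fun i => ?_
      show Qo A (Qo A (A (A (b i)))) = -(b i)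
      rw [hb', map_neg, map_smul, hQ, map_neg, map_smul, map_smul, hQ, smul_smul, smul_smul]
      have h2 : √(l i) * √(l i) = l i := Real.mul_self_sqrt (hl i).le
      have h4 : l i * (√(l i))⁻¹ * (√(l i))⁻¹ = 1 := by
        rw [mul_assoc, ← mul_inv, h2, mul_inv_cancel₀ (hl i).ne']
      rw [h4, one_smul]
    intro v
    have := congrArg (fun C : V →L[ℝ] V => C v) h1
    exact this
  have hsym : ∀ u v, g (Qo A u) v = g u (Qo A v) := by
    have h1 : ((g : V →L[ℝ] V →L[ℝ] ℝ).comp (Qo A)) = (g.flip.comp (Qo A)).flip := by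
      apply ContinuousLinearMap.coe_injective
      refine b.ext fun i => ?_
      apply ContinuousLinearMap.coe_injective
      refine b.ext fun j => ?_
      show g (Qo A (b i)) (b j) = g (b i) (Qo A (b j))
      have h3 : g (b i) (b j) = if i = j then 1 else 0 := ho i j
      rw [hQ, hQ, map_smul, map_smul, ContinuousLinearMap.smul_apply, h3]
      by_cases hij : i = j
      · rw [hij]
      · simp [hij]
    intro u v
    exact congrArg (fun C : V →L[ℝ] V →L[ℝ] ℝ => C u v) h1
  have hpos : ∀ w, w ≠ 0 → 0 < g w (Qo A w) := by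
    intro w hw
    have hw' : w = ∑ i, b.repr w i • b i := (b.sum_repr w).symm
    have hQw : Qo A w = ∑ i, (b.repr w i * (√(l i))⁻¹) • b i := by
      conv_lhs => rw [hw']
      rw [map_sum]
      refine Finset.sum_congr rfl fun i _ => ?_
      rw [map_smul, hQ, smul_smul]
    have h5 : ∀ i, g w (b i) = b.repr w i := by
      intro i
      have h3 : ∀ j, g (b j) (b i) = if j = i then 1 else 0 := fun j => ho j i
      conv_lhs => rw [hw']
      rw [map_sum, ContinuousLinearMap.sum_apply]
      simp only [map_smul, ContinuousLinearMap.smul_apply, h3, smul_eq_mul, mul_ite, mul_one,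
        mul_zero, Finset.sum_ite_eq', Finset.mem_univ, if_true]
    have h1 : g w (Qo A w) = ∑ i, (b.repr w i) ^ 2 * (√(l i))⁻¹ := by
      rw [hQw, map_sum]
      refine Finset.sum_congr rfl fun i _ => ?_
      rw [map_smul, h5, smul_eq_mul]
      ring
    rw [h1]
    have hne : ∃ i, b.repr w i ≠ 0 := by
      by_contra hcon
      push Not at hcon
      apply hw
      rw [hw']
      simp [hcon]
    obtain ⟨i, hi⟩ := hne
    refine Finset.sum_pos' (fun j _ => ?_) ⟨i, Finset.mem_univ i, ?_⟩
    · have : 0 < √(l j) := Real.sqrt_pos.2 (hl j)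
      positivity
    · have : 0 < √(l i) := Real.sqrt_pos.2 (hl i)
      positivity
  refine ⟨fun v => ?_, fun v hv => ?_, fun u v => ?_⟩
  · rw [hsg, hsg, ← hcm, hQ2]
  · rw [hsg]
    exact hpos _ fun e => hv (h.inj v e)
  · rw [hsg, hsg, ← hcm, ← hsym, hQ2, map_neg, ContinuousLinearMap.neg_apply, h.skew u v]

namespace PolarAux

theorem ringInverse_map {R S : Type} [Ring R] [Ring S] (Φ : R ≃+* S) (x : R) :
    Φ (Ring.inverse x) = Ring.inverse (Φ x) := by
  by_cases h : IsUnit x
  · have h1 : Φ (Ring.inverse x) * Φ x = 1 := by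
      rw [← map_mul, Ring.inverse_mul_cancel _ h, map_one]
    have h2 : IsUnit (Φ x) := h.map Φ
    calc Φ (Ring.inverse x) = Φ (Ring.inverse x) * (Φ x * Ring.inverse (Φ x)) := by
          rw [Ring.mul_inverse_cancel _ h2, mul_one]
      _ = _ := by rw [← mul_assoc, h1, one_mul]
  · have h2 : ¬ IsUnit (Φ x) := fun h' => h (by
      have := h'.map Φ.symm
      rwa [RingEquiv.symm_apply_apply] at this)
    rw [Ring.inverse_non_unit _ h, Ring.inverse_non_unit _ h2, map_zero]

end PolarAux

/-- Proof: conjugation commutes with the ring inverse and with the integral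
(`ContinuousLinearMap.integral_comp_comm` for the continuous linear map `B ↦ T B T⁻¹`; if the integrand
is not integrable both sides are computed in the same way since conjugation is an isomorphism:
`ContinuousLinearEquiv.integral_comp_comm`). -/
theorem sgn_conj {W : Type} [NormedAddCommGroup W] [NormedSpace ℝ W] [FiniteDimensional ℝ W]
    (T : V ≃L[ℝ] W) (A : V →L[ℝ] V) :
    sgn ((T : V →L[ℝ] W).comp (A.comp (T.symm : W →L[ℝ] V))) =
      (T : V →L[ℝ] W).comp ((sgn A).comp (T.symm : W →L[ℝ] V)) := by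
  have hcomp : CompleteSpace V := FiniteDimensional.complete ℝ V
  let Φ : (V →L[ℝ] V) ≃A[ℝ] (W →L[ℝ] W) := T.conjContinuousAlgEquiv
  have e1 : (T : V →L[ℝ] W).comp (A.comp (T.symm : W →L[ℝ] V)) = Φ A := rfl
  have e2 : (T : V →L[ℝ] W).comp ((sgn A).comp (T.symm : W →L[ℝ] V)) = Φ (sgn A) := rfl
  rw [e1, e2]
  unfold sgn
  rw [map_mul, map_smul]
  congr 2
  have e3 : ∀ t : ℝ, Ring.inverse ((Real.sin t ^ 2) • (1 : W →L[ℝ] W) -
      (Real.cos t ^ 2) • (Φ A * Φ A)) = Φ.toContinuousLinearEquiv (Ring.inverse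
        ((Real.sin t ^ 2) • (1 : V →L[ℝ] V) - (Real.cos t ^ 2) • (A * A))) := by
    intro t
    have h1 : Φ ((Real.sin t ^ 2) • (1 : V →L[ℝ] V) - (Real.cos t ^ 2) • (A * A)) =
        (Real.sin t ^ 2) • (1 : W →L[ℝ] W) - (Real.cos t ^ 2) • (Φ A * Φ A) := by
      rw [map_sub, map_smul, map_smul, map_one, map_mul]
    have h2 := PolarAux.ringInverse_map (Φ.toAlgEquiv.toRingEquiv)
      ((Real.sin t ^ 2) • (1 : V →L[ℝ] V) - (Real.cos t ^ 2) • (A * A))
    rw [← h1]
    exact h2.symm
  simp only [e3]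
  exact ContinuousLinearEquiv.integral_comp_comm Φ.toContinuousLinearEquiv _

namespace PolarAux

/-- the interval -/
abbrev KK : Type := Icc (0 : ℝ) (Real.pi / 2)

/-- the projection to the interval -/
def pj (t : ℝ) : KK := projIcc 0 (Real.pi / 2) (by positivity) t

theorem pj_cont : Continuous pj :=
  continuous_projIcc (h := (by positivity : (0 : ℝ) ≤ Real.pi / 2))

/-- the cosine part -/
def cosL : (V →L[ℝ] V) →L[ℝ] C(KK, V →L[ℝ] V) :=
  LinearMap.toContinuousLinearMap
    { toFun := fun X => ⟨fun t => (Real.cos t ^ 2) • X, by fun_prop⟩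
      map_add' := fun X Y => by ext1 t; exact smul_add _ _ _
      map_smul' := fun r X => by ext1 t; exact smul_comm _ _ _ }

/-- the sine part -/
def sinC : C(KK, V →L[ℝ] V) := ⟨fun t => (Real.sin t ^ 2) • (1 : V →L[ℝ] V), by fun_prop⟩

theorem comp_int (f : C(KK, V →L[ℝ] V)) :
    IntegrableOn (fun t => f (pj t)) (Icc (0 : ℝ) (Real.pi / 2)) :=
  (f.continuous.comp pj_cont).integrableOn_Icc

/-- the integral -/
def JJ : C(KK, V →L[ℝ] V) →L[ℝ] (V →L[ℝ] V) :=
  LinearMap.mkContinuous
    { toFun := fun f : C(KK, V →L[ℝ] V) => ∫ t in Icc (0 : ℝ) (Real.pi / 2), f (pj t)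
      map_add' := fun f g => by
        exact integral_add (comp_int f) (comp_int g)
      map_smul' := fun r f => by
        exact integral_smul r _ } (Real.pi / 2) (fun f => by
    have h1 : ‖∫ t in Icc (0 : ℝ) (Real.pi / 2), f (pj t)‖ ≤
        ‖f‖ * volume.real (Icc (0 : ℝ) (Real.pi / 2)) :=
      norm_setIntegral_le_of_norm_le_const (by simp) (fun t _ => f.norm_coe_le_norm _)
    have h2 : volume.real (Icc (0 : ℝ) (Real.pi / 2)) = Real.pi / 2 := by
      rw [Real.volume_real_Icc_of_le (by positivity)]; ring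
    rw [h2, mul_comm] at h1
    exact h1)

theorem inv_apply (w : C(KK, V →L[ℝ] V)) (hw : IsUnit w) (k : KK) :
    Ring.inverse (w k) = (Ring.inverse w : C(KK, V →L[ℝ] V)) k := by
  have h3 : w k * (Ring.inverse w : C(KK, V →L[ℝ] V)) k = 1 := by
    have := congrArg (fun f : C(KK, V →L[ℝ] V) => f k) (Ring.mul_inverse_cancel _ hw)
    exact this
  have h4 : (Ring.inverse w : C(KK, V →L[ℝ] V)) k * w k = 1 := by
    have := congrArg (fun f : C(KK, V →L[ℝ] V) => f k) (Ring.inverse_mul_cancel _ hw)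
    exact this
  have h5 : IsUnit (w k) := ⟨⟨_, _, h3, h4⟩, rfl⟩
  calc Ring.inverse (w k) = Ring.inverse (w k) * (w k *
        (Ring.inverse w : C(KK, V →L[ℝ] V)) k) := by rw [h3, mul_one]
    _ = _ := by rw [← mul_assoc, Ring.inverse_mul_cancel _ h5, one_mul]

theorem sgn_eq (A : V →L[ℝ] V) (hA : IsUnit (sinC - cosL (A * A))) :
    sgn A = ((2 / Real.pi) • JJ (Ring.inverse (sinC - cosL (A * A)))) * A := by
  unfold sgn
  congr 2
  refine setIntegral_congr_fun measurableSet_Icc fun t ht => ?_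
  have h1 : pj t = ⟨t, ht⟩ := projIcc_of_mem (by positivity) ht
  have h2 : ((sinC - cosL (A * A) : C(KK, V →L[ℝ] V)) (pj t) : V →L[ℝ] V) =
      (Real.sin t ^ 2) • (1 : V →L[ℝ] V) - (Real.cos t ^ 2) • (A * A) := by
    rw [h1]; rfl
  have h3 := inv_apply _ hA (pj t)
  rw [h2] at h3
  exact h3

end PolarAux

/-- Smooth dependence.  Proof: near each point `(z, t)`, `z ∈ U`, `t ∈ [0, π/2]`, the map
`(z, t) ↦ sin² t - cos² t (A z)²` is smooth with invertible values (see `sgn_props`), so its
`Ring.inverse` is smooth (`contDiffAt_ringInverse`), and the parametric integral over the compact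
interval is smooth.  For the latter use `Pool.Agent.Y431.SY.contDiff_setInt` (globally smooth
integrands: multiply `A` by a cut-off near `z₀`: replace `A z` by `A' z = A z₀ + κ z • (A z - A z₀)`,
with `κ` a bump function supported in a small ball such that all values stay in the open set of
maps `B` for which `sin² t - cos² t B²` is invertible for all `t` in a neighbourhood of `[0, π/2]`,
and cut off in `t` as well, or use `hasFDerivAt_integral_of_dominated_of_fderiv_le` and induction as
in its proof). -/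
theorem sgn_smooth {F : Type} [NormedAddCommGroup F] [NormedSpace ℝ F] [FiniteDimensional ℝ F]
    {U : Set F} (hU : IsOpen U) {A : F → V →L[ℝ] V} (hA : ContDiffOn ℝ ∞ A U)
    (h : ∀ z ∈ U, ∃ g, SkewFor g (A z)) : ContDiffOn ℝ ∞ (fun z => sgn (A z)) U := by
  have hcomp : CompleteSpace V := FiniteDimensional.complete ℝ V
  have hu : ∀ z ∈ U, IsUnit (PolarAux.sinC - PolarAux.cosL (A z * A z)) := by
    intro z hz
    obtain ⟨g, hg⟩ := h z hz
    rw [ContinuousMap.isUnit_iff_forall_isUnit]
    intro t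
    exact PolarAux.Bt_unit hg t
  have hAA : ContDiffOn ℝ ∞ (fun z => A z * A z) U := hA.mul hA
  have hc : ContDiff ℝ ∞ (PolarAux.cosL (V := V)) := ContinuousLinearMap.contDiff _
  have hj : ContDiff ℝ ∞ (PolarAux.JJ (V := V)) := ContinuousLinearMap.contDiff _
  have hf : ContDiffOn ℝ ∞ (fun z => PolarAux.sinC - PolarAux.cosL (A z * A z)) U :=
    contDiffOn_const.sub (hc.comp_contDiffOn hAA)
  have hi : ContDiffOn ℝ ∞ (fun z => Ring.inverse
      (PolarAux.sinC - PolarAux.cosL (A z * A z))) U := by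
    intro z hz
    obtain ⟨u, hu'⟩ := hu z hz
    have h1 : ContDiffAt ℝ ∞ Ring.inverse (PolarAux.sinC - PolarAux.cosL (A z * A z)) := by
      rw [← hu']
      exact contDiffAt_ringInverse (R := C(PolarAux.KK, V →L[ℝ] V)) ℝ u
    exact h1.comp_contDiffWithinAt z (hf z hz)
  have hji : ContDiffOn ℝ ∞ (fun z => PolarAux.JJ (Ring.inverse
      (PolarAux.sinC - PolarAux.cosL (A z * A z)))) U := hj.comp_contDiffOn hi
  have hs1 : ContDiffOn ℝ ∞ (fun z => (2 / Real.pi) • PolarAux.JJ (Ring.inverse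
      (PolarAux.sinC - PolarAux.cosL (A z * A z)))) U := hji.const_smul (2 / Real.pi)
  have hs : ContDiffOn ℝ ∞ (fun z => ((2 / Real.pi) • PolarAux.JJ (Ring.inverse
      (PolarAux.sinC - PolarAux.cosL (A z * A z)))) * A z) U := hs1.mul hA
  exact hs.congr fun z hz => PolarAux.sgn_eq (A z) (hu z hz)

end Pool.Agent.H819.PU
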