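import Mathlib
import Pool.Agent.H819.PU.Polar
import Pool.Agent.H819.PU.Off
import Pool.Agent.H819.LN.Main

/-!
# Compatible almost complex structures
-/

set_option autoImplicit false

open Set Filter Topology MeasureTheory Metric
open scoped Manifold ContDiff ENNReal NNReal RealInnerProductSpace

noncomputable section

namespace Pool.Agent.H819.PU

open Pool.Agent.Y501.SY
open Pool.Agent.H819

namespace PG

section lin

variable {V : Type} [NormedAddCommGroup V] [NormedSpace ℝ V] [FiniteDimensional ℝ V]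

theorem exists_equiv (G : V →L[ℝ] V →L[ℝ] ℝ) (hpos : ∀ v, v ≠ 0 → 0 < G v v) :
    ∃ e : V ≃L[ℝ] (V →L[ℝ] ℝ), (e : V →L[ℝ] (V →L[ℝ] ℝ)) = G := by
  have hinj : Function.Injective (G : V →ₗ[ℝ] (V →L[ℝ] ℝ)) := by
    rw [injective_iff_map_eq_zero]
    intro v hv
    by_contra h
    have h1 := hpos v h
    have h2 : G v = 0 := hv
    rw [h2] at h1
    exact lt_irrefl _ h1
  have hfr : Module.finrank ℝ V = Module.finrank ℝ (V →L[ℝ] ℝ) := by
    have h1 : Module.finrank ℝ (V →ₗ[ℝ] ℝ) = Module.finrank ℝ V := Subspace.dual_finrank_eq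
    rw [← h1]
    exact LinearEquiv.finrank_eq LinearMap.toContinuousLinearMap
  set e := (LinearEquiv.ofInjectiveOfFinrankEq (G : V →ₗ[ℝ] (V →L[ℝ] ℝ)) hinj hfr) with he
  refine ⟨e.toContinuousLinearEquiv, ?_⟩
  ext u v
  rfl

/-- the endomorphism `A` with `G (A u) v = S u v` -/
def AA (G S : V →L[ℝ] V →L[ℝ] ℝ) : V →L[ℝ] V := (ContinuousLinearMap.inverse G).comp S

theorem AA_spec {G : V →L[ℝ] V →L[ℝ] ℝ} (hpos : ∀ v, v ≠ 0 → 0 < G v v)
    (S : V →L[ℝ] V →L[ℝ] ℝ) (u v : V) : G (AA G S u) v = S u v := by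
  obtain ⟨e, he⟩ := exists_equiv G hpos
  unfold AA
  rw [← he, ContinuousLinearMap.inverse_equiv]
  show (e (e.symm (S u))) v = S u v
  rw [e.apply_symm_apply]

theorem AA_unique {G : V →L[ℝ] V →L[ℝ] ℝ} (hpos : ∀ v, v ≠ 0 → 0 < G v v)
    (S : V →L[ℝ] V →L[ℝ] ℝ) (B : V →L[ℝ] V) (hB : ∀ u v, G (B u) v = S u v) : B = AA G S := by
  ext1 u
  by_contra h
  have h1 := hpos _ (sub_ne_zero.2 h)
  rw [map_sub G] at h1
  have h2 : (G (B u) - G (AA G S u)) (B u - AA G S u) =
    G (B u) (B u - AA G S u) - G (AA G S u) (B u - AA G S u) := rfl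
  rw [h2, hB, AA_spec hpos, sub_self] at h1
  exact lt_irrefl _ h1

theorem AA_smooth {F : Type} [NormedAddCommGroup F] [NormedSpace ℝ F] {U : Set F} (hU : IsOpen U)
    {G S : F → V →L[ℝ] V →L[ℝ] ℝ} (hG : ContDiffOn ℝ ∞ G U) (hS : ContDiffOn ℝ ∞ S U)
    (hpos : ∀ z ∈ U, ∀ v, v ≠ 0 → 0 < G z v v) : ContDiffOn ℝ ∞ (fun z => AA (G z) (S z)) U := by
  have : CompleteSpace V := FiniteDimensional.complete ℝ V
  intro z hz
  obtain ⟨e, he⟩ := exists_equiv (G z) (hpos z hz)
  have h1 : ContDiffAt ℝ ∞ G z := hG.contDiffAt (hU.mem_nhds hz)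
  have h2 : ContDiffAt ℝ ∞ S z := hS.contDiffAt (hU.mem_nhds hz)
  have h3 : ContDiffAt ℝ ∞ ContinuousLinearMap.inverse (G z) := by
    rw [← he]
    exact contDiffAt_map_inverse e
  have h4 : ContDiffAt ℝ ∞ (fun y => ContinuousLinearMap.inverse (G y)) z := h3.comp z h1
  exact (h4.clm_comp h2).contDiffWithinAt

theorem swap2 (s : V [⋀^Fin 2]→L[ℝ] ℝ) (u v : V) : s ![u, v] = - s ![v, u] := by
  have h := s.toAlternatingMap.map_swap ![v, u] (show (0 : Fin 2) ≠ 1 by decide)
  have h1 : (![v, u] : Fin 2 → V) ∘ (Equiv.swap (0 : Fin 2) 1) = ![u, v] := by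
    funext i
    fin_cases i
    · rfl
    · rfl
  rw [h1] at h
  exact h

theorem add2 (s : V [⋀^Fin 2]→L[ℝ] ℝ) (u u' v : V) : s ![u + u', v] = s ![u, v] + s ![u', v] := by
  have h1 : ∀ w : V, s ![w, v] = s.curryLeft w ![v] := fun w => rfl
  rw [h1, h1, h1, map_add]
  rfl

theorem smul2 (s : V [⋀^Fin 2]→L[ℝ] ℝ) (c : ℝ) (u v : V) : s ![c • u, v] = c • s ![u, v] := by
  have h1 : ∀ w : V, s ![w, v] = s.curryLeft w ![v] := fun w => rfl
  rw [h1, h1, map_smul]
  rfl

/-- a two-form as a bilinear map -/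
def bil (s : V [⋀^Fin 2]→L[ℝ] ℝ) : V →L[ℝ] V →L[ℝ] ℝ :=
  LinearMap.toContinuousLinearMap
    ((LinearMap.toContinuousLinearMap : (V →ₗ[ℝ] ℝ) ≃ₗ[ℝ] (V →L[ℝ] ℝ)).toLinearMap ∘ₗ
      (LinearMap.mk₂ ℝ (fun u v => s ![u, v]) (fun u u' v => add2 s u u' v)
        (fun c u v => smul2 s c u v)
        (fun u v v' => by rw [swap2, add2, swap2 s u v, swap2 s u v']; ring)
        (fun c u v => by rw [swap2, smul2, swap2 s u v, smul_neg])))

theorem bil_apply (s : V [⋀^Fin 2]→L[ℝ] ℝ) (u v : V) : bil s u v = s ![u, v] := rfl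

/-- the pull-back of the scalar product -/
def gram {n : ℕ} (D : V →L[ℝ] E n) : V →L[ℝ] V →L[ℝ] ℝ :=
  (innerSL ℝ : E n →L[ℝ] E n →L[ℝ] ℝ).bilinearComp D D

theorem gram_apply {n : ℕ} (D : V →L[ℝ] E n) (u v : V) : gram D u v = ⟪D u, D v⟫ := rfl

theorem gram_pos {n : ℕ} {D : V →L[ℝ] E n} (hD : Function.Injective D) (v : V) (hv : v ≠ 0) :
    0 < gram D v v := by
  rw [gram_apply, real_inner_self_eq_norm_sq]
  have h1 : D v ≠ 0 := by
    intro h
    exact hv (hD (by rw [h, map_zero]))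
  have := norm_pos_iff.2 h1
  positivity

theorem skewFor {n : ℕ} {D : V →L[ℝ] E n} (hD : Function.Injective D)
    (s : V [⋀^Fin 2]→L[ℝ] ℝ) (hs : ∀ v, (∀ w, s ![v, w] = 0) → v = 0) :
    SkewFor (gram D) (AA (gram D) (bil s)) where
  symm u v := by
    rw [gram_apply, gram_apply, real_inner_comm]
  pos := gram_pos hD
  skew u v := by
    have h1 : gram D u (AA (gram D) (bil s) v) = gram D (AA (gram D) (bil s) v) u := by
      rw [gram_apply, gram_apply, real_inner_comm]
    rw [h1, AA_spec (gram_pos hD), AA_spec (gram_pos hD), bil_apply, bil_apply, swap2]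
  inj v hv := by
    apply hs
    intro w
    rw [← bil_apply, ← AA_spec (gram_pos hD), hv, map_zero]
    rfl

end lin

variable {d : ℕ} {X : Type} [TopologicalSpace X] [ChartedSpace (E d) X] [IsManifold (𝓡 d) ∞ X]

/-- the derivative of the chart as an equivalence -/
theorem exists_T (x₀ : X) {z : E d} (hz : z ∈ (chartAt (E d) x₀).target) :
    ∃ T : E d ≃L[ℝ] E d,
      (T : E d →L[ℝ] E d) =
        mfderiv (𝓡 d) (𝓡 d) (chartAt (E d) x₀) ((chartAt (E d) x₀).symm z) ∧
      (T.symm : E d →L[ℝ] E d) = mfderiv (𝓡 d) (𝓡 d) (chartAt (E d) x₀).symm z := by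
  have hm : (chartAt (E d) x₀).MDifferentiable (𝓡 d) (𝓡 d) := by
    have : IsManifold (𝓡 d) 1 X := IsManifold.of_le (n := ∞) (by norm_num)
    exact mdifferentiable_chart x₀
  have h1 := hm.comp_symm_deriv hz
  have h2 := hm.symm_comp_deriv ((chartAt (E d) x₀).map_target hz)
  rw [(chartAt (E d) x₀).right_inv hz] at h2
  refine ⟨ContinuousLinearEquiv.equivOfInverse
    (mfderiv (𝓡 d) (𝓡 d) (chartAt (E d) x₀) ((chartAt (E d) x₀).symm z) : E d →L[ℝ] E d)
    (mfderiv (𝓡 d) (𝓡 d) (chartAt (E d) x₀).symm z : E d →L[ℝ] E d) ?_ ?_, rfl, rfl⟩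
  · intro v
    exact congrArg (fun L : E d →L[ℝ] E d => L v) h2
  · intro v
    exact congrArg (fun L : E d →L[ℝ] E d => L v) h1

end PG

variable {d : ℕ} {X : Type} [TopologicalSpace X] [ChartedSpace (E d) X] [IsManifold (𝓡 d) ∞ X]

open PG in
/-- **Every nondegenerate smooth two-form is compatible with a smooth almost complex structure.** -/
theorem exists_compatible [T2Space X] [CompactSpace X] {σ : Form d X 2} (hσ : IsSmooth σ)
    (hnd : ∀ (x : X) (v : TangentSpace (𝓡 d) x), (∀ w, σ x ![v, w] = 0) → v = 0) :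
    ∃ J : End d X, (∀ (x : X) (v : TangentSpace (𝓡 d) x), J x (J x v) = -v) ∧
      (∀ x₀, ContDiffOn ℝ ∞ (inChart J x₀) (chartAt (E d) x₀).target) ∧
      (∀ (x : X) (v : TangentSpace (𝓡 d) x), v ≠ 0 → 0 < σ x ![v, J x v]) ∧
      ∀ (x : X) (u v : TangentSpace (𝓡 d) x), σ x ![J x u, J x v] = σ x ![u, v] := by
  obtain ⟨n, e, he, -, hinj⟩ := exists_embedding_euclidean_of_compact (I := 𝓡 d) (M := X)
  set D : X → (E d →L[ℝ] E n) := fun x => mfderiv (𝓡 d) (𝓡 n) e x with hD
  set s : X → (E d) [⋀^Fin 2]→L[ℝ] ℝ := fun x => σ x with hs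
  have hDinj : ∀ x, Function.Injective (D x) := hinj
  have hsnd : ∀ x (v : E d), (∀ w, s x ![v, w] = 0) → v = 0 := hnd
  set A : X → (E d →L[ℝ] E d) := fun x => AA (gram (D x)) (bil (s x)) with hA
  have hsk : ∀ x, SkewFor (gram (D x)) (A x) := fun x => skewFor (hDinj x) (s x) (hsnd x)
  have hAs : ∀ x (u v : E d), gram (D x) (A x u) v = s x ![u, v] := fun x u v =>
    AA_spec (gram_pos (hDinj x)) (bil (s x)) u v
  have hp3 : ∀ (x : X) (v : E d), v ≠ 0 → 0 < s x ![v, sgn (A x) v] := by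
    intro x v hv
    rw [← hAs]
    exact (sgn_props (hsk x)).2.1 v hv
  have hp4 : ∀ (x : X) (u v : E d), s x ![sgn (A x) u, sgn (A x) v] = s x ![u, v] := by
    intro x u v
    rw [← hAs, ← hAs]
    exact (sgn_props (hsk x)).2.2 u v
  refine ⟨fun x => sgn (A x), fun x v => (sgn_props (hsk x)).1 v, fun x₀ => ?_,
    fun x v hv => hp3 x v hv, fun x u v => hp4 x u v⟩
  · set c := chartAt (E d) x₀ with hc
    have hcs : ContMDiffOn (𝓡 d) (𝓡 d) ∞ c.symm c.target := contMDiffOn_chart_symm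
    have hopen : IsOpen c.target := c.open_target
    have hf : ContDiffOn ℝ ∞ (e ∘ c.symm) c.target := by
      rw [← contMDiffOn_iff_contDiffOn]
      exact he.comp_contMDiffOn hcs
    have hfd : ContDiffOn ℝ ∞ (fderiv ℝ (e ∘ c.symm)) c.target :=
      hf.fderiv_of_isOpen hopen (by simp)
    have hchain : ∀ z ∈ c.target, fderiv ℝ (e ∘ c.symm) z =
        (D (c.symm z)).comp (mfderiv (𝓡 d) (𝓡 d) c.symm z : E d →L[ℝ] E d) := by
      intro z hz
      rw [← mfderiv_eq_fderiv]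
      have h1 : MDifferentiableAt (𝓡 d) (𝓡 n) e (c.symm z) := (he.mdifferentiable (by simp)) _
      have h2 : MDifferentiableAt (𝓡 d) (𝓡 d) c.symm z :=
        (hcs.contMDiffAt (hopen.mem_nhds hz)).mdifferentiableAt (by simp)
      exact mfderiv_comp z h1 h2
    set G : E d → E d →L[ℝ] E d →L[ℝ] ℝ := fun z => gram (fderiv ℝ (e ∘ c.symm) z) with hG
    set S : E d → E d →L[ℝ] E d →L[ℝ] ℝ := fun z => bil (pb c.symm σ z) with hS
    have hGs : ContDiffOn ℝ ∞ G c.target := by
      rw [contDiffOn_clm_apply]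
      intro u
      rw [contDiffOn_clm_apply]
      intro v
      exact (hfd.clm_apply contDiffOn_const).inner ℝ (hfd.clm_apply contDiffOn_const)
    have hSs : ContDiffOn ℝ ∞ S c.target := by
      rw [contDiffOn_clm_apply]
      intro u
      rw [contDiffOn_clm_apply]
      intro v
      exact (Pool.Agent.Y431.SY.ev ![u, v]).contDiff.comp_contDiffOn (hσ c.target c.symm hopen hcs)
    have hdata : ∀ z ∈ c.target, Function.Injective (fderiv ℝ (e ∘ c.symm) z) ∧
        (∀ v : E d, (∀ w, pb c.symm σ z ![v, w] = 0) → v = 0) ∧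
        inChart (fun x => sgn (A x)) x₀ z = sgn (AA (G z) (S z)) := by
      intro z hz
      obtain ⟨T, hT1, hT2⟩ := exists_T x₀ hz
      have hch := hchain z hz
      rw [← hT2] at hch
      have hpbe : ∀ u v : E d, pb c.symm σ z ![u, v] = s (c.symm z) ![T.symm u, T.symm v] := by
        intro u v
        have h1 : pb c.symm σ z ![u, v] = (s (c.symm z))
          ((mfderiv (𝓡 d) (𝓡 d) c.symm z : E d →L[ℝ] E d) ∘ ![u, v]) := rfl
        rw [h1, ← hT2]
        congr 1
        funext i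
        fin_cases i
        · rfl
        · rfl
      have hi : Function.Injective (fderiv ℝ (e ∘ c.symm) z) := by
        rw [hch]
        exact (hDinj _).comp T.symm.injective
      have hposz : ∀ v, v ≠ 0 → 0 < G z v v := gram_pos hi
      refine ⟨hi, ?_, ?_⟩
      · intro v hv
        have h1 : T.symm v = 0 := by
          apply hsnd (c.symm z)
          intro w
          have h2 := hv (T w)
          rw [hpbe, T.symm_apply_apply] at h2
          exact h2
        have h2 := congrArg T h1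
        rw [T.apply_symm_apply, map_zero] at h2
        exact h2
      · have h1 : inChart (fun x => sgn (A x)) x₀ z =
            (T : E d →L[ℝ] E d).comp ((sgn (A (c.symm z))).comp (T.symm : E d →L[ℝ] E d)) := by
          rw [hT1, hT2]
          rfl
        rw [h1, ← sgn_conj]
        congr 1
        apply AA_unique hposz
        intro u v
        have h2 : ∀ w : E d, fderiv ℝ (e ∘ c.symm) z w = D (c.symm z) (T.symm w) := by
          intro w
          rw [hch]
          rfl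
        have h3 : G z (((T : E d →L[ℝ] E d).comp ((A (c.symm z)).comp
            (T.symm : E d →L[ℝ] E d))) u) v =
            ⟪fderiv ℝ (e ∘ c.symm) z (T (A (c.symm z) (T.symm u))),
              fderiv ℝ (e ∘ c.symm) z v⟫ := rfl
        rw [h3, h2, h2, T.symm_apply_apply, ← gram_apply, hAs, ← hpbe]
        rfl
    have hsm : ContDiffOn ℝ ∞ (fun z => sgn (AA (G z) (S z))) c.target := by
      apply sgn_smooth hopen (AA_smooth hopen hGs hSs fun z hz => gram_pos (hdata z hz).1)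
      intro z hz
      exact ⟨G z, skewFor (hdata z hz).1 (pb c.symm σ z) (hdata z hz).2.1⟩
    exact hsm.congr fun z hz => (hdata z hz).2.2

end Pool.Agent.H819.PU
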