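import Mathlib
import Pool.Agent.H819.PU.OffL
import Pool.Agent.H819.PU.Cant
import Pool.Agent.H819.PU.Glue
import Pool.Agent.H819.PU.Lower
import Pool.Agent.H819.PU.LowerB
import Pool.Agent.H819.PU.PolarG
import Pool.Agent.H819.PU.Htp
import Pool.Agent.H819.DR.DeRham
import Pool.Agent.H819.BC.Fibre

/-!
# Removable singularities of taming forms
-/

set_option autoImplicit false

open Set Filter Topology MeasureTheory Metric
open scoped Manifold ContDiff ENNReal NNReal

noncomputable section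

namespace Pool.Agent.H819.PU

open Pool.Agent.Y501.SY
open Pool.Agent.H819
open Pool.Agent.H819.DR (L1Closed)
open Pool.Agent.H819.LG (WeakPrim Represents StronglyTames TamedIn)
open Pool.Agent.H819.LN (WeakClosed ZeroLelong)

variable {d : ℕ} {X : Type} [TopologicalSpace X] [ChartedSpace (E d) X] [IsManifold (𝓡 d) ∞ X]

/-- the form `w` tames `J` on the complement of `S`, with bounded distortion -/
structure TameOff (S : Set X) (w : Form d X 2) (J : End d X) : Prop where
  pos : ∀ x, x ∉ S → ∀ v : TangentSpace (𝓡 d) x, v ≠ 0 → 0 < w x ![v, J x v]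
  dist : ∃ C : ℝ, ∀ x, x ∉ S → ∀ u v : TangentSpace (𝓡 d) x,
    w x ![u, v] ^ 2 ≤ C * w x ![u, J x u] * w x ![v, J x v]

omit [IsManifold (𝓡 d) ∞ X] in
/-- positive compatible forms have distortion one -/
theorem dist_of_inv {w : Form d X 2} {J : End d X} {x : X}
    (h2 : ∀ v : TangentSpace (𝓡 d) x, J x (J x v) = -v)
    (hp : ∀ v : TangentSpace (𝓡 d) x, v ≠ 0 → 0 < w x ![v, J x v])
    (hi : ∀ u v : TangentSpace (𝓡 d) x, w x ![J x u, J x v] = w x ![u, v])
    (u v : TangentSpace (𝓡 d) x) :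
    w x ![u, v] ^ 2 ≤ 1 * w x ![u, J x u] * w x ![v, J x v] := by
  have h0 : ∀ v : TangentSpace (𝓡 d) x, 0 ≤ w x ![v, J x v] := by
    intro v
    by_cases hv : v = 0
    · have h1 : w x ![v, J x v] = 0 :=
        (w x).map_coord_zero (0 : Fin 2) (by rw [hv]; rfl)
      rw [h1]
    · exact (hp v hv).le
  exact LG.distortion_inv (V := E d) (w x) (J x) h2 hi h0 u v

omit [ChartedSpace (E d) X] [IsManifold (𝓡 d) ∞ X] [TopologicalSpace X] in
theorem intOn_add {F : Type} [NormedAddCommGroup F] {f g : E d → F} {T : Set (E d)}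
    (hf : IntegrableOn f T) (hg : IntegrableOn g T) :
    IntegrableOn (fun z => f z + g z) T := hf.add hg

/-- **The forms near the singular set.** -/
theorem prepare [T2Space X] [CompactSpace X] (hd : 3 ≤ d) {J : End d X}
    (hJ2 : ∀ (x : X) (v : TangentSpace (𝓡 d) x), J x (J x v) = -v)
    (hJ1 : ∀ x₀, ContDiffOn ℝ 1 (inChart J x₀) (chartAt (E d) x₀).target)
    {S : Set X} (hS : IsClosed S) (hSd : IsTotallyDisconnected S) (hS0 : HNull d S)
    {w : Form d X 2} (hw : SmoothOff S w) (hcl : ClosedOff S w) (ht : TameOff S w J)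
    {D : Set X} (hD : D.Countable) (hint : ∀ p ∈ S, p ∉ D → IntNear w p) :
    ∃ (ζ : Form d X 1) (η : Form d X 2), IsSmooth ζ ∧ IsSmooth η ∧ IsD ζ η ∧
      StronglyTames (w + η) J ∧ L1Closed (w + η) ∧ SmoothOff S (w + η) := by
  have hJc : ∀ x₀, ContinuousOn (inChart J x₀) (chartAt (E d) x₀).target := fun x₀ =>
    (hJ1 x₀).continuousOn
  obtain ⟨ζ, η, O, hζ, hη, hD', hO, hSO, hηO⟩ := exists_taming_near hJ2 hJc hS hSd
  obtain ⟨C, hC⟩ := ht.dist
  obtain ⟨ε, hε, hst, hpos, C', hC'⟩ := exists_lower hd hJ2 hJc hS hS0 hw ht.pos hC hη hO hSO hηO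
  have hsm : SmoothOff S (w + ε • η) := hw.add ((IsSmooth.off hη S).smul ε)
  have hηc : ClosedOff S η := (IsD.off hD' S).closed (IsSmooth.off hζ S)
  refine ⟨ε • ζ, ε • η, hζ.smul ε, hη.smul ε, hD'.smul ε, hst, ?_, hsm⟩
  refine l1_of_countable hd hJ2 hJ1 hS hS0 hsm
    (hcl.add (hηc.smul ε) hw ((IsSmooth.off hη S).smul ε)) ?_ hC' hD ?_
  · intro x hx v
    by_cases hv : v = 0
    · have h1 : (w + ε • η) x ![v, J x v] = 0 :=
        ((w + ε • η) x).map_coord_zero (0 : Fin 2) (by rw [hv]; rfl)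
      rw [h1]
    · exact (hpos x hx v hv).le
  · intro p hp hpD
    obtain ⟨r, hr, hi⟩ := hint p hp hpD
    obtain ⟨s, hs, hsub⟩ := Metric.nhds_basis_closedBall.mem_iff.1
      ((chartAt (E d) p).open_target.mem_nhds (mem_chart_target (E d) p))
    refine ⟨min r s, lt_min hr hs, ?_⟩
    have i1 : IntegrableOn (pb (chartAt (E d) p).symm w)
        (closedBall (chartAt (E d) p p) (min r s)) :=
      hi.mono_set (closedBall_subset_closedBall (min_le_left _ _))
    have i2 : IntegrableOn (fun z => ε • pb (chartAt (E d) p).symm η z)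
        (closedBall (chartAt (E d) p p) (min r s)) := by
      refine ContinuousOn.integrableOn_compact (isCompact_closedBall _ _) ?_
      refine ContinuousOn.const_smul ?_ ε
      exact (LG.smooth_chart hη p).continuousOn.mono
        ((closedBall_subset_closedBall (min_le_right _ _)).trans hsub)
    exact intOn_add i1 i2

theorem zero_off [T2Space X] (hd : 3 ≤ d) {S : Set X} (hS : IsClosed S) {θ : Form d X 2}
    (h : SmoothOff S θ) (p : X) (hp : p ∉ S) : ZeroLelong θ p := by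
  refine zeroLelong_of_smAt hd (h.chartAt hS p (mem_chart_target (E d) p) ?_)
  rwa [(chartAt (E d) p).left_inv (mem_chart_source (E d) p)]

/-- **Removable singularities, in a given class.** -/
theorem tamedIn_of_off [T2Space X] [CompactSpace X] (hd : 3 ≤ d) {J : End d X}
    (hJ2 : ∀ (x : X) (v : TangentSpace (𝓡 d) x), J x (J x v) = -v)
    (hJ1 : ∀ x₀, ContDiffOn ℝ 1 (inChart J x₀) (chartAt (E d) x₀).target)
    {σ₀ : Form d X 2} (hσ : IsSmooth σ₀) (hσc : IsClosedForm σ₀)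
    {S : Set X} (hS : IsClosed S) (hSd : IsTotallyDisconnected S) (hS0 : HNull d S)
    {w : Form d X 2} (hw : SmoothOff S w) {β : Form d X 1} (hβ : SmoothOff S β)
    (hβw : DOff S β (w - σ₀)) (ht : TameOff S w J)
    {D : Set X} (hD : D.Countable) (hint : ∀ p ∈ S, p ∉ D → IntNear w p) : TamedIn σ₀ J := by
  have hσo := IsSmooth.off hσ S
  have hcl : ClosedOff S w := by
    have h1 := (hβw.closed hβ).add (IsClosedForm.off hσc S) (hw.sub hσo) hσo
    have e : w - σ₀ + σ₀ = w := by abel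
    rwa [e] at h1
  obtain ⟨ζ, η, hζ, hη, hζη, hst, hL, hsm⟩ := prepare hd hJ2 hJ1 hS hSd hS0 hw hcl ht hD hint
  have hL' : L1Closed ((w + η) - σ₀) := by
    have h1 := L1Closed.add_smul hL (l1Closed_of_smooth hσ hσc) (-1)
    have e : (w + η) + (-1 : ℝ) • σ₀ = (w + η) - σ₀ := by
      funext x
      refine ContinuousAlternatingMap.ext fun v => ?_
      show (w + η) x v + (-1 : ℝ) * σ₀ x v = (w + η) x v - σ₀ x v
      ring
    rwa [e] at h1
  have hprim : DOff S (β + ζ) ((w + η) - σ₀) := by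
    have h1 := hβw.add (IsD.off hζη S) hβ (IsSmooth.off hζ S)
    have e : w - σ₀ + η = (w + η) - σ₀ := by abel
    rwa [e] at h1
  obtain ⟨α, hα⟩ := weakPrim_of_off hd hS hSd hS0 (hsm.sub hσo) hL'
    (hβ.add (IsSmooth.off hζ S)) hprim
  exact LN.tamedIn_of_lelong (by omega) hJ2 hJ1 hσ hσc ⟨α, hα⟩ hst hS hSd (zero_off hd hS hsm)

/-- **Removable singularities, without a given class.** -/
theorem tamed_of_off [T2Space X] [CompactSpace X] (hd : 3 ≤ d) {J : End d X}
    (hJ2 : ∀ (x : X) (v : TangentSpace (𝓡 d) x), J x (J x v) = -v)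
    (hJ1 : ∀ x₀, ContDiffOn ℝ 1 (inChart J x₀) (chartAt (E d) x₀).target)
    {S : Set X} (hS : IsClosed S) (hSd : IsTotallyDisconnected S) (hS0 : HNull d S)
    {w : Form d X 2} (hw : SmoothOff S w) (hcl : ClosedOff S w) (ht : TameOff S w J)
    {D : Set X} (hD : D.Countable) (hint : ∀ p ∈ S, p ∉ D → IntNear w p) :
    ∃ σ₀ : Form d X 2, IsSmooth σ₀ ∧ IsClosedForm σ₀ ∧ TamedIn σ₀ J := by
  obtain ⟨ζ, η, hζ, hη, hζη, hst, hL, hsm⟩ := prepare hd hJ2 hJ1 hS hSd hS0 hw hcl ht hD hint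
  obtain ⟨σ₀, α, h1, h2, h3⟩ := DR.weak_deRham hL
  exact ⟨σ₀, h1, h2, LN.tamedIn_of_lelong (by omega) hJ2 hJ1 h1 h2 ⟨α, h3⟩ hst hS hSd
    (zero_off hd hS hsm)⟩

end Pool.Agent.H819.PU
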