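import Mathlib
import Pool.Agent.H819.PU.PMain

/-!
# Removable singularities of taming forms: the equivalences
-/

set_option autoImplicit false

open Set Filter Topology MeasureTheory Metric
open scoped Manifold ContDiff ENNReal NNReal

noncomputable section

namespace Pool.Agent.H819.PU

open Pool.Agent.Y501.SY
open Pool.Agent.H819
open Pool.Agent.H819.LG (TamedIn IsSymplectic)

variable {d : ℕ} {X : Type} [TopologicalSpace X] [ChartedSpace (E d) X]

/-- a countable closed subset of a compact space is totally disconnected -/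
theorem totallyDisconnected_of_countable {Z : Type} [TopologicalSpace Z] [T2Space Z]
    [CompactSpace Z] {S : Set Z} (hc : S.Countable) : IsTotallyDisconnected S := by
  intro t ht hpt x hx y hy
  by_contra hne
  obtain ⟨f, h0, h1, -⟩ := exists_continuous_zero_one_of_isClosed (isClosed_singleton (x := x))
    (isClosed_singleton (x := y)) (Set.disjoint_singleton.2 hne)
  have hf : IsPreconnected (f '' t) := hpt.image f f.continuous.continuousOn
  have h2 : Icc (0 : ℝ) 1 ⊆ f '' t :=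
    hf.Icc_subset ⟨x, hx, h0 rfl⟩ ⟨y, hy, h1 rfl⟩
  have h3 : (f '' t).Countable := (hc.mono ht).image f
  have h4 : (Icc (0 : ℝ) 1).Countable := h3.mono h2
  have h5 : volume (Icc (0 : ℝ) 1) = 0 := h4.measure_zero _
  rw [Real.volume_Icc] at h5
  norm_num at h5

theorem hnull_of_countable (hd : 4 ≤ d) {S : Set X} (hc : S.Countable) : HNull d S := by
  intro x₀
  have h1 : (chartAt (E d) x₀ '' (S ∩ (chartAt (E d) x₀).source)).Countable :=
    (hc.mono inter_subset_left).image _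
  have h2 : (0 : ℝ) < ((d - 3 : ℕ) : ℝ) := by
    have : 0 < d - 3 := by omega
    exact_mod_cast this
  have := Measure.nullSingletonClass_hausdorff (E d) h2
  exact h1.measure_zero _

variable [IsManifold (𝓡 d) ∞ X]

/-- smooth forms are integrable near each point -/
theorem intNear_of_smooth {w : Form d X 2} (hw : IsSmooth w) (p : X) : IntNear w p := by
  obtain ⟨s, hs, hsub⟩ := Metric.nhds_basis_closedBall.mem_iff.1
    ((chartAt (E d) p).open_target.mem_nhds (mem_chart_target (E d) p))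
  exact ⟨s, hs, ((LG.smooth_chart hw p).continuousOn.mono hsub).integrableOn_compact
    (isCompact_closedBall _ _)⟩

/-- taming forms have bounded distortion -/
theorem tameOff_of_smooth [CompactSpace X] {J : End d X}
    (hJ : ∀ x₀, ContinuousOn (inChart J x₀) (chartAt (E d) x₀).target)
    {w : Form d X 2} (hw : IsSmooth w) (ht : ∀ x, TamesAt w J x) (S : Set X) : TameOff S w J := by
  obtain ⟨C, -, hC⟩ := BC.exists_distortion hw hJ ht
  exact ⟨fun x _ v hv => ht x v hv, C, fun x _ u v => hC x u v⟩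

theorem tamedIn_iff_off [T2Space X] [CompactSpace X] (hd : 3 ≤ d) {J : End d X}
    (hJ2 : ∀ (x : X) (v : TangentSpace (𝓡 d) x), J x (J x v) = -v)
    (hJ1 : ∀ x₀, ContDiffOn ℝ 1 (inChart J x₀) (chartAt (E d) x₀).target)
    {S : Set X} (hS : IsClosed S) (hSd : IsTotallyDisconnected S) (hS0 : HNull d S)
    {σ₀ : Form d X 2} (hσ : IsSmooth σ₀) (hσc : IsClosedForm σ₀) :
    TamedIn σ₀ J ↔ ∃ w : Form d X 2, (SmoothOff S w ∧
      ∃ β : Form d X 1, SmoothOff S β ∧ DOff S β (w - σ₀)) ∧ TameOff S w J ∧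
      ∃ D : Set X, D.Countable ∧ ∀ p ∈ S, p ∉ D → IntNear w p := by
  constructor
  · rintro ⟨σ, h1, ⟨β, h2, h3⟩, h4⟩
    exact ⟨σ, ⟨IsSmooth.off h1.1 S, β, IsSmooth.off h2 S, IsD.off h3 S⟩,
      tameOff_of_smooth (fun x₀ => (hJ1 x₀).continuousOn) h1.1 h4 S, ∅, countable_empty,
      fun p _ _ => intNear_of_smooth h1.1 p⟩
  · rintro ⟨w, ⟨hw, β, hβ, hβw⟩, ht, D, hD, hint⟩
    exact tamedIn_of_off hd hJ2 hJ1 hσ hσc hS hSd hS0 hw hβ hβw ht hD hint

theorem tamed_iff_off [T2Space X] [CompactSpace X] (hd : 3 ≤ d) {J : End d X}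
    (hJ2 : ∀ (x : X) (v : TangentSpace (𝓡 d) x), J x (J x v) = -v)
    (hJ1 : ∀ x₀, ContDiffOn ℝ 1 (inChart J x₀) (chartAt (E d) x₀).target)
    {S : Set X} (hS : IsClosed S) (hSd : IsTotallyDisconnected S) (hS0 : HNull d S) :
    (∃ σ : Form d X 2, IsSymplectic σ ∧ ∀ x, TamesAt σ J x) ↔
      ∃ w : Form d X 2, (SmoothOff S w ∧ ClosedOff S w) ∧ TameOff S w J ∧
      ∃ D : Set X, D.Countable ∧ ∀ p ∈ S, p ∉ D → IntNear w p := by
  constructor
  · rintro ⟨σ, h1, h4⟩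
    exact ⟨σ, ⟨IsSmooth.off h1.1 S, IsClosedForm.off h1.2.1 S⟩,
      tameOff_of_smooth (fun x₀ => (hJ1 x₀).continuousOn) h1.1 h4 S, ∅, countable_empty,
      fun p _ _ => intNear_of_smooth h1.1 p⟩
  · rintro ⟨w, ⟨hw, hcl⟩, ht, D, hD, hint⟩
    obtain ⟨σ₀, -, -, σ, h1, -, h2⟩ := tamed_of_off hd hJ2 hJ1 hS hSd hS0 hw hcl ht hD hint
    exact ⟨σ, h1, h2⟩

/-- the form `w` is positive and compatible with `J` on the complement of `S` -/
def CompOff (S : Set X) (w : Form d X 2) (J : End d X) : Prop :=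
  ∀ x, x ∉ S → (∀ v : TangentSpace (𝓡 d) x, v ≠ 0 → 0 < w x ![v, J x v]) ∧
    ∀ u v : TangentSpace (𝓡 d) x, w x ![J x u, J x v] = w x ![u, v]

omit [IsManifold (𝓡 d) ∞ X] in
theorem CompOff.tame {S : Set X} {w : Form d X 2} {J : End d X} (h : CompOff S w J)
    (hJ2 : ∀ (x : X) (v : TangentSpace (𝓡 d) x), J x (J x v) = -v) : TameOff S w J :=
  ⟨fun x hx => (h x hx).1, 1, fun x hx u v => dist_of_inv (hJ2 x) (h x hx).1 (h x hx).2 u v⟩

/-- the data off `S` -/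
def Data (P : Form d X 2 → End d X → Prop) (S : Set X) (σ₀ τ : Form d X 2) : Prop :=
  ∃ J : End d X, (∀ (x : X) (v : TangentSpace (𝓡 d) x), J x (J x v) = -v) ∧
    (∀ x₀, ContDiffOn ℝ 1 (inChart J x₀) (chartAt (E d) x₀).target) ∧
    (∃ τ' : Form d X 2, Htp τ τ' ∧ ∀ x, TamesAt τ' J x) ∧
    ∃ w : Form d X 2, (SmoothOff S w ∧
      ∃ β : Form d X 1, SmoothOff S β ∧ DOff S β (w - σ₀)) ∧ P w J ∧
      ∃ D : Set X, D.Countable ∧ ∀ p ∈ S, p ∉ D → IntNear w p

theorem homotopy_iff_off [T2Space X] [CompactSpace X] (hd : 3 ≤ d)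
    {S : Set X} (hS : IsClosed S) (hSd : IsTotallyDisconnected S) (hS0 : HNull d S)
    {σ₀ : Form d X 2} (hσ : IsSmooth σ₀) (hσc : IsClosedForm σ₀) (τ : Form d X 2) :
    List.TFAE [∃ σ : Form d X 2, IsSymplectic σ ∧ (∃ β : Form d X 1, IsSmooth β ∧ IsD β (σ - σ₀)) ∧
        Htp τ σ, Data (CompOff S) S σ₀ τ, Data (TameOff S) S σ₀ τ] := by
  tfae_have 1 → 2 := by
    rintro ⟨σ, h1, ⟨β, h2, h3⟩, h4⟩
    obtain ⟨J, hJ2, hJs, hp, hi⟩ := exists_compatible h1.1 h1.2.2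
    exact ⟨J, hJ2, fun x₀ => (hJs x₀).of_le (by simp), ⟨σ, h4, fun x v hv => hp x v hv⟩, σ,
      ⟨IsSmooth.off h1.1 S, β, IsSmooth.off h2 S, IsD.off h3 S⟩, fun x _ => ⟨hp x, hi x⟩, ∅,
      countable_empty, fun p _ _ => intNear_of_smooth h1.1 p⟩
  tfae_have 2 → 3 := by
    rintro ⟨J, hJ2, hJ1, h1, w, h2, h3, h4⟩
    exact ⟨J, hJ2, hJ1, h1, w, h2, h3.tame hJ2, h4⟩
  tfae_have 3 → 1 := by
    rintro ⟨J, hJ2, hJ1, ⟨τ', h1, h1'⟩, w, ⟨hw, β, hβ, hβw⟩, ht, D, hD, hint⟩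
    obtain ⟨σ, h3, h4, h5⟩ := tamedIn_of_off hd hJ2 hJ1 hσ hσc hS hSd hS0 hw hβ hβw ht hD hint
    refine ⟨σ, h3, h4, h1.trans (htp_of_tames (fun x₀ => h1.cont_right x₀)
      (fun x₀ => (LG.smooth_chart h3.1 x₀).continuousOn)
      (fun x v hv => h1' x v hv) fun x v hv => h5 x v hv)⟩
  tfae_finish

end Pool.Agent.H819.PU
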