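import Mathlib
import Pool.Agent.H819.PU.Pub
import Pool.Agent.H819.PU.Fin
import Pool.Agent.H819.LN.Br

/-!
# Comparison of the definitions
-/

set_option autoImplicit false

open Set Filter Topology MeasureTheory Metric
open scoped Manifold ContDiff ENNReal NNReal

noncomputable section

namespace Pool.Agent.H819.PUP

open Pool.Agent.Y501 (SY.E)
open Pool.Agent.Y501.SYP Pool.Agent.H819.LGP Pool.Agent.H819.LNP
open Pool.Agent

variable {d : ℕ} {X : Type} [TopologicalSpace X] [ChartedSpace (ES d) X]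

attribute [local instance] cs

theorem smoothOff_iff {k : ℕ} (S : Set X) (σ : Form (ES d) X k) :
    SmoothOff S σ ↔ PU.SmoothOff (d := d) (X := X) S σ :=
  ⟨fun h U φ hU hφ hS => h U φ ⟨⟨hU, hφ⟩, hS⟩, fun h U φ hφ => h U φ hφ.1.1 hφ.1.2 hφ.2⟩

theorem dOff_iff {k : ℕ} (S : Set X) (α : Form (ES d) X k) (η : Form (ES d) X (k + 1)) :
    DOff S α η ↔ PU.DOff (d := d) (X := X) S α η :=
  ⟨fun h U φ hU hφ hS => h U φ ⟨⟨hU, hφ⟩, hS⟩, fun h U φ hφ => h U φ hφ.1.1 hφ.1.2 hφ.2⟩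

theorem closedOff_iff (S : Set X) (w : Form (ES d) X 2) :
    ClosedOff S w ↔ PU.SmoothOff (d := d) (X := X) S w ∧ PU.ClosedOff (d := d) (X := X) S w :=
  ⟨fun h => ⟨(smoothOff_iff S w).1 h.smooth, fun U φ hU hφ hS => h.closed U φ ⟨⟨hU, hφ⟩, hS⟩⟩,
    fun h => ⟨(smoothOff_iff S w).2 h.1, fun U φ hφ => h.2 U φ hφ.1.1 hφ.1.2 hφ.2⟩⟩

theorem inClassOff_iff (S : Set X) (σ₀ w : Form (ES d) X 2) :
    InClassOff S σ₀ w ↔ PU.SmoothOff (d := d) (X := X) S w ∧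
      ∃ β : Y501.SY.Form d X 1, PU.SmoothOff S β ∧ PU.DOff S β (w - σ₀) := by
  constructor
  · rintro ⟨h1, β, h2, h3⟩
    exact ⟨(smoothOff_iff S w).1 h1, β, (smoothOff_iff S β).1 h2, (dOff_iff S β _).1 h3⟩
  · rintro ⟨h1, β, h2, h3⟩
    exact ⟨(smoothOff_iff S w).2 h1, β, (smoothOff_iff S β).2 h2, (dOff_iff S β _).2 h3⟩

theorem tamesOff_iff (S : Set X) (w : Form (ES d) X 2) (J : End (ES d) X) :
    TamesOff S w J ↔ PU.TameOff (d := d) (X := X) S w J :=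
  ⟨fun h => ⟨fun x hx v hv => h.pos x hx v hv, h.dist⟩,
    fun h => ⟨fun x hx v hv => h.pos x hx v hv, h.dist⟩⟩

theorem compatOff_iff (S : Set X) (w : Form (ES d) X 2) (J : End (ES d) X) :
    CompatOff S w J ↔ PU.CompOff (d := d) (X := X) S w J :=
  ⟨fun h x hx => ⟨h.pos x hx, h.inv x hx⟩, fun h => ⟨fun x hx => (h x hx).1, fun x hx => (h x hx).2⟩⟩

theorem almostInt_iff (S : Set X) (w : Form (ES d) X 2) :
    AlmostInt (leb d) S w ↔ ∃ D : Set X, D.Countable ∧ ∀ p ∈ S, p ∉ D →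
      PU.IntNear (d := d) (X := X) w p := Iff.rfl

theorem thin_iff (hd : 4 ≤ d) (S : Set X) :
    Thin (V := ES d) d S ↔ IsClosed S ∧ IsTotallyDisconnected S ∧ PU.HNull d S := by
  have e : ((d - 3 : ℕ) : ℝ) = (d : ℝ) - 3 := by
    rw [Nat.cast_sub (by omega)]
    norm_num
  unfold PU.HNull
  rw [e]
  exact ⟨fun h => ⟨h.closed, h.disc, h.null⟩, fun h => ⟨h.1, h.2.1, h.2.2⟩⟩

theorem homotopic_iff (τ τ' : Form (ES d) X 2) :
    Homotopic τ τ' ↔ PU.Htp (d := d) (X := X) τ τ' := Iff.rfl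

theorem inHomotopyClass_iff (τ : Form (ES d) X 2) (J : End (ES d) X) :
    InHomotopyClass τ J ↔ ∃ τ' : Y501.SY.Form d X 2, PU.Htp τ τ' ∧
      ∀ x, Y501.SY.TamesAt τ' J x := Iff.rfl

theorem c1_iff (J : End (ES d) X) : C1End J ↔
    ∀ x₀, ContDiffOn ℝ 1 (Y501.SY.inChart (d := d) (X := X) J x₀)
      (chartAt (Y501.SY.E d) x₀).target := Iff.rfl

theorem ac_iff {J : End (ES d) X} (h : C1End J) : IsAlmostComplex J ↔
    ∀ (x : X) (v : TangentSpace (𝓡 d) x), J x (J x v) = -v := by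
  refine ⟨fun h => h.sq, fun h2 => ⟨h2, fun x₀ v => ?_⟩⟩
  exact (h x₀).continuousOn.clm_apply continuousOn_const

theorem symplecticIn_iff (σ₀ σ : Form (ES d) X 2) :
    SymplecticIn σ₀ σ ↔ LG.IsSymplectic (d := d) (X := X) σ ∧
      ∃ β : Y501.SY.Form d X 1, Y501.SY.IsSmooth β ∧ Y501.SY.IsD β (σ - σ₀) := by
  constructor
  · rintro ⟨h, β, h1, h2⟩
    exact ⟨⟨(smooth_iff σ).1 h.smooth, (closed_iff σ).1 h.closed, h.nondeg⟩, β,
      (smooth_iff β).1 h1, (isD_iff β _).1 h2⟩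
  · rintro ⟨⟨h1, h2, h3⟩, β, h4, h5⟩
    exact ⟨⟨(smooth_iff σ).2 h1, (closed_iff σ).2 h2, h3⟩, β, (smooth_iff β).2 h4,
      (isD_iff β _).2 h5⟩

theorem taming_iff (σ : Form (ES d) X 2) (J : End (ES d) X) :
    IsTamingSymplectic σ J ↔ LG.IsSymplectic (d := d) (X := X) σ ∧
      ∀ x, Y501.SY.TamesAt (d := d) (X := X) σ J x :=
  ⟨fun h => ⟨⟨(smooth_iff σ).1 h.smooth, (closed_iff σ).1 h.closed, h.nondeg⟩, h.tames⟩,
    fun h => ⟨(smooth_iff σ).2 h.1.1, (closed_iff σ).2 h.1.2.1, h.1.2.2, h.2⟩⟩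

theorem offData_iff (S : Set X) (σ₀ τ : Form (ES d) X 2)
    {P : Form (ES d) X 2 → End (ES d) X → Prop}
    {P' : Y501.SY.Form d X 2 → Y501.SY.End d X → Prop} (hP : ∀ w J, P w J ↔ P' w J) :
    OffData (leb d) S σ₀ τ P ↔ PU.Data (d := d) (X := X) P' S σ₀ τ := by
  constructor
  · rintro ⟨J, w, h1, h2, h3, h4, h5, h6⟩
    exact ⟨J, h1.sq, h2, h3, w, (inClassOff_iff S σ₀ w).1 h4, (hP w J).1 h5, h6⟩
  · rintro ⟨J, h1, h2, h3, w, h4, h5, h6⟩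
    exact ⟨J, w, (ac_iff h2).2 h1, h2, h3, (inClassOff_iff S σ₀ w).2 h4, (hP w J).2 h5, h6⟩

variable [IsManifold 𝓘(ℝ, ES d) ∞ X] [CompactSpace X] [T2Space X]

omit [IsManifold 𝓘(ℝ, ES d) ∞ X] in
theorem thin_of_countable (hd : 4 ≤ d) {S : Set X} (hS : IsClosed S) (hc : S.Countable) :
    Thin (V := ES d) d S ∧ ∀ w : Form (ES d) X 2, AlmostInt (leb d) S w :=
  ⟨(thin_iff hd S).2 ⟨hS, PU.totallyDisconnected_of_countable hc, PU.hnull_of_countable hd hc⟩,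
    fun _ => ⟨S, hc, fun _ h h' => absurd h h'⟩⟩

theorem result_class (hd : 4 ≤ d) {S : Set X} (hS : Thin (V := ES d) d S) {J : End (ES d) X}
    (hJ : IsAlmostComplex J) (hJ1 : C1End J) :
    (∀ σ₀ : Form (ES d) X 2, IsSmooth σ₀ → IsClosedForm σ₀ →
      (TamedIn σ₀ J ↔ ∃ w, InClassOff S σ₀ w ∧ TamesOff S w J ∧ AlmostInt (leb d) S w)) ∧
    ((∃ σ, IsTamingSymplectic σ J) ↔
      ∃ w, ClosedOff S w ∧ TamesOff S w J ∧ AlmostInt (leb d) S w) := by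
  have hm : IsManifold (𝓡 d) ∞ X := (inferInstance : IsManifold 𝓘(ℝ, ES d) ∞ X)
  obtain ⟨h1, h2, h3⟩ := (thin_iff hd S).1 hS
  constructor
  · intro σ₀ hσ hc
    have h := PU.tamedIn_iff_off (d := d) (X := X) (by omega) hJ.sq hJ1 h1 h2 h3
      ((smooth_iff σ₀).1 hσ) ((closed_iff σ₀).1 hc)
    simp only [tamed_iff, inClassOff_iff, tamesOff_iff, almostInt_iff]
    exact h
  · have h := PU.tamed_iff_off (d := d) (X := X) (by omega) hJ.sq hJ1 h1 h2 h3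
    simp only [taming_iff, closedOff_iff, tamesOff_iff, almostInt_iff]
    exact h

theorem result_homotopy (hd : 4 ≤ d) {S : Set X} (hS : Thin (V := ES d) d S)
    {σ₀ : Form (ES d) X 2} (hσ : IsSmooth σ₀) (hc : IsClosedForm σ₀) (τ : Form (ES d) X 2) :
    List.TFAE [∃ σ, SymplecticIn σ₀ σ ∧ Homotopic τ σ, OffData (leb d) S σ₀ τ (CompatOff S),
      OffData (leb d) S σ₀ τ (TamesOff S)] := by
  have hm : IsManifold (𝓡 d) ∞ X := (inferInstance : IsManifold 𝓘(ℝ, ES d) ∞ X)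
  obtain ⟨h1, h2, h3⟩ := (thin_iff hd S).1 hS
  have h := PU.homotopy_iff_off (d := d) (X := X) (by omega) h1 h2 h3
      ((smooth_iff σ₀).1 hσ) ((closed_iff σ₀).1 hc) τ
  rw [offData_iff S σ₀ τ (compatOff_iff S), offData_iff S σ₀ τ (tamesOff_iff S)]
  have e : (∃ σ, SymplecticIn σ₀ σ ∧ Homotopic τ σ) ↔ ∃ σ : Form (ES d) X 2,
      LG.IsSymplectic (d := d) (X := X) σ ∧ (∃ β : Y501.SY.Form d X 1, Y501.SY.IsSmooth β ∧
        Y501.SY.IsD β (σ - σ₀)) ∧ PU.Htp (d := d) (X := X) τ σ := by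
    constructor
    · rintro ⟨σ, h4, h5⟩
      obtain ⟨h6, h7⟩ := (symplecticIn_iff σ₀ σ).1 h4
      exact ⟨σ, h6, h7, h5⟩
    · rintro ⟨σ, h6, h7, h5⟩
      exact ⟨σ, (symplecticIn_iff σ₀ σ).2 ⟨h6, h7⟩, h5⟩
  rw [e]
  exact h

end Pool.Agent.H819.PUP
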